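import Pool.Agent.F32P.St2

/-!
# F32P, module CHG (helper99)
-/

set_option autoImplicit false

namespace Pool.Agent.F32P

open Finset

theorem chg_cnt : ∀ b0 b1 b2 b3 : Bool, (b0 || b1 || b2 || b3) = true →
    ((univ : Finset (Fin 8)).filter (fun k => (![!b0, !b1, !b2, !b3, b3 != b0, b0 != b1, b1 != b2,
      b2 != b3] : Fin 8 → Bool) k = true)).card ≤ 6 := by decide

theorem c_CHG (hn : S_NEW) (hc : S_CYC) : S_CHG := by
  classical
  intro ι _ _ K S0 h W hW x e hx he hd hvis hne
  obtain ⟨s, hs, hvs⟩ := hvis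
  obtain ⟨v, a, hva, rfl⟩ := card_eq_two.1 he
  have hsF : s ∈ Fc K W := (mem_St.1 hs).1
  have hes : ({v, a} : Finset ι) ⊆ s := (mem_St.1 hs).2
  have hsW : s ⊆ W := (mem_Fc.1 hsF).1
  have hxe : x ∉ ({v, a} : Finset ι) := fun hh => hx (hsW (hes hh))
  have hs2 : (s \ {v, a}).card = 2 := by
    rw [card_sdiff_of_subset hes, (mem_Fc.1 hsF).2.1, he]
  obtain ⟨w, z, hwz, hsd⟩ := card_eq_two.1 hs2
  have hfs : fs (v, a, w, z) = s := by
    have h1 : s = {v, a} ∪ (s \ {v, a}) := (union_sdiff_of_subset hes).symm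
    rw [h1, hsd]
    ext i
    simp only [fs, mem_insert, mem_singleton, mem_union]
    tauto
  let q : Ch K W := ⟨(v, a, w, z), by rw [hfs]; exact hsF⟩
  obtain ⟨hinj, hper, hcov, -⟩ := hc ι K S0 h W hW q
  have hd' : dg K W (ep q) = 4 := hd
  rw [hd'] at hinj hper hcov
  -- the four chambers
  set w2 : ι := oth K W {v, a, z} w with hw2
  set w3 : ι := oth K W {v, a, w2} z with hw3
  set w4 : ι := oth K W {v, a, w3} w2 with hw4
  set w5 : ι := oth K W {v, a, w4} w3 with hw5
  have e0 : fq ((tau h hW ^ 0) q) = {v, a, w, z} := rfl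
  have e1 : fq ((tau h hW ^ 1) q) = {v, a, z, w2} := rfl
  have e2 : fq ((tau h hW ^ 2) q) = {v, a, w2, w3} := rfl
  have e3' : fq ((tau h hW ^ 3) q) = {v, a, w3, w4} := rfl
  have e4 : ((tau h hW ^ 4) q).1 = (v, a, w4, w5) := rfl
  rw [hper] at e4
  have h4 : w4 = w := by
    have := congrArg (fun t : Q4 ι => t.2.2.1) e4
    exact this.symm
  have e3 : fq ((tau h hW ^ 3) q) = {v, a, w3, w} := by rw [e3', h4]
  -- membership in `Fc`
  have m0 : ({v, a, w, z} : Finset ι) ∈ Fc K W := by rw [← e0]; exact ((tau h hW ^ 0) q).2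
  have m1 : ({v, a, z, w2} : Finset ι) ∈ Fc K W := by rw [← e1]; exact ((tau h hW ^ 1) q).2
  have m2 : ({v, a, w2, w3} : Finset ι) ∈ Fc K W := by rw [← e2]; exact ((tau h hW ^ 2) q).2
  have m3 : ({v, a, w3, w} : Finset ι) ∈ Fc K W := by rw [← e3]; exact ((tau h hW ^ 3) q).2
  obtain ⟨-, vw, vz, aw, az, wz⟩ := fs_four (v := v) (a := a) (w := w) (z := z) (mem_Fc.1 m0).2.1
  obtain ⟨-, -, vw2, -, aw2, zw2⟩ := fs_four (v := v) (a := a) (w := z) (z := w2) (mem_Fc.1 m1).2.1
  obtain ⟨-, -, vw3, -, aw3, w23⟩ := fs_four (v := v) (a := a) (w := w2) (z := w3) (mem_Fc.1 m2).2.1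
  obtain ⟨-, -, -, -, -, w3w⟩ := fs_four (v := v) (a := a) (w := w3) (z := w) (mem_Fc.1 m3).2.1
  have n02 : w ≠ w2 := by
    intro hh
    have := hinj 0 (by norm_num) 1 (by norm_num) (by
      rw [e0, e1, ← hh]; ext i; simp only [mem_insert, mem_singleton]; tauto)
    omega
  have n13 : z ≠ w3 := by
    intro hh
    have := hinj 1 (by norm_num) 2 (by norm_num) (by
      rw [e1, e2, ← hh]; ext i; simp only [mem_insert, mem_singleton]; tauto)
    omega
  have cov : ∀ t ∈ Fc K W, ({v, a} : Finset ι) ⊆ t → t = {v, a, w, z} ∨ t = {v, a, z, w2} ∨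
      t = {v, a, w2, w3} ∨ t = {v, a, w3, w} := by
    intro t ht het
    obtain ⟨i, hi, hit⟩ := hcov t (mem_St.2 ⟨ht, het⟩)
    have : i = 0 ∨ i = 1 ∨ i = 2 ∨ i = 3 := by omega
    rcases this with rfl | rfl | rfl | rfl
    · rw [e0] at hit; exact Or.inl hit.symm
    · rw [e1] at hit; exact Or.inr (Or.inl hit.symm)
    · rw [e2] at hit; exact Or.inr (Or.inr (Or.inl hit.symm))
    · rw [e3] at hit; exact Or.inr (Or.inr (Or.inr hit.symm))
  have hsome : K.vis x {v, a, w, z} := by
    have : s = {v, a, w, z} := hfs.symm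
    rw [← this]; exact hvs
  -- facets of `insert x W` over `e` without `x`
  have old : ∀ t ∈ St K (insert x W) {v, a}, x ∉ t → t ∈ Fc K W ∧ ({v, a} : Finset ι) ⊆ t ∧
      ¬ K.vis x t := by
    intro t ht hxt
    obtain ⟨ht1, ht2⟩ := mem_St.1 ht
    obtain ⟨h1, h2, h3, h5⟩ := mem_Fc.1 ht1
    refine ⟨mem_Fc.2 ⟨fun i hi => ?_, h2, h3, fun y hy => h5 y (mem_insert_of_mem hy)⟩, ht2,
      h5 x (mem_insert_self _ _)⟩
    rcases mem_insert.1 (h1 hi) with hh | hh
    · exact absurd (hh ▸ hi) hxt
    · exact hh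
  -- ridges
  have new : ∀ t ∈ St K (insert x W) {v, a}, x ∈ t → ∃ y, y ≠ v ∧ y ≠ a ∧ t = insert x {v, a, y} ∧
      ∃ s' ∈ Fc K W, ∃ t' ∈ Fc K W, ({v, a, y} : Finset ι) ⊆ s' ∧ ({v, a, y} : Finset ι) ⊆ t' ∧
        K.vis x s' ∧ ¬ K.vis x t' := by
    intro t ht hxt
    obtain ⟨ht1, ht2⟩ := mem_St.1 ht
    obtain ⟨h1, h2, h3, h5⟩ := mem_Fc.1 ht1
    have hR3 : (t.erase x).card = 3 := by rw [card_erase_of_mem hxt, h2]
    have heR : ({v, a} : Finset ι) ⊆ t.erase x := fun i hi => mem_erase.2
      ⟨fun hh => hxe (hh ▸ hi), ht2 hi⟩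
    have hR1 : (t.erase x \ {v, a}).card = 1 := by
      rw [card_sdiff_of_subset heR, hR3, he]
    obtain ⟨y, hy⟩ := card_eq_one.1 hR1
    have hyR : y ∈ t.erase x \ {v, a} := by rw [hy]; exact mem_singleton_self _
    have hy2 := (mem_sdiff.1 hyR).2
    have hRe : t.erase x = {v, a, y} := by
      have h6 : t.erase x = {v, a} ∪ (t.erase x \ {v, a}) := (union_sdiff_of_subset heR).symm
      rw [h6, hy]
      ext i
      simp only [mem_insert, mem_singleton, mem_union]
      tauto
    have hti : t = insert x {v, a, y} := by rw [← hRe, insert_erase hxt]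
    have hRW : t.erase x ⊆ W := by
      intro i hi
      obtain ⟨h6, h7⟩ := mem_erase.1 hi
      rcases mem_insert.1 (h1 h7) with hh | hh
      · exact absurd hh h6
      · exact hh
    obtain ⟨s', hs', t', ht', h8, h9, h10, h11⟩ := (hn ι K S0 h W hW x hx (t.erase x) hRW hR3).1
      (by rw [insert_erase hxt]; exact ht1)
    rw [hRe] at h8 h9
    refine ⟨y, fun hh => hy2 (by simp [hh]), fun hh => hy2 (by simp [hh]), hti, s', hs', t', ht',
      h8, h9, h10, h11⟩
  have mk : ∀ y s' t', y ≠ v → y ≠ a → s' ∈ Fc K W → t' ∈ Fc K W → ({v, a, y} : Finset ι) ⊆ s' →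
      ({v, a, y} : Finset ι) ⊆ t' → K.vis x s' → ¬ K.vis x t' →
      ∃ s ∈ St K (insert x W) {v, a}, x ∈ s := by
    intro y s' t' hyv hya hs' ht' h8 h9 h10 h11
    have hR3 : ({v, a, y} : Finset ι).card = 3 := by
      rw [card_eq_three]
      exact ⟨v, a, y, hva, hyv.symm, hya.symm, rfl⟩
    have := (hn ι K S0 h W hW x hx {v, a, y} (h8.trans (mem_Fc.1 hs').1) hR3).2
      ⟨s', hs', t', ht', h8, h9, h10, h11⟩
    refine ⟨_, mem_St.2 ⟨this, ?_⟩, mem_insert_self _ _⟩
    intro i hi
    apply mem_insert_of_mem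
    simp only [mem_insert, mem_singleton] at hi ⊢
    tauto
  constructor
  · -- at most 6
    set b0 : Bool := decide (K.vis x {v, a, w, z}) with hb0
    set b1 : Bool := decide (K.vis x {v, a, z, w2}) with hb1
    set b2 : Bool := decide (K.vis x {v, a, w2, w3}) with hb2
    set b3 : Bool := decide (K.vis x {v, a, w3, w}) with hb3
    have hb : (b0 || b1 || b2 || b3) = true := by
      have : b0 = true := by rw [hb0]; exact decide_eq_true hsome
      simp [this]
    have hcnt := chg_cnt b0 b1 b2 b3 hb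
    have hsub : St K (insert x W) {v, a} ⊆ ((univ : Finset (Fin 8)).filter (fun k =>
        (![!b0, !b1, !b2, !b3, b3 != b0, b0 != b1, b1 != b2, b2 != b3] : Fin 8 → Bool) k = true)).image
        (![{v, a, w, z}, {v, a, z, w2}, {v, a, w2, w3}, {v, a, w3, w}, insert x {v, a, w},
          insert x {v, a, z}, insert x {v, a, w2}, insert x {v, a, w3}] : Fin 8 → Finset ι) := by
      intro t ht
      rw [mem_image]
      by_cases hxt : x ∈ t
      · obtain ⟨y, hyv, hya, hty, s', hs', t', ht', h8, h9, h10, h11⟩ := new t ht hxt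
        have hsub1 : ({v, a} : Finset ι) ⊆ {v, a, y} := by
          intro i hi
          simp only [mem_insert, mem_singleton] at hi ⊢
          tauto
        have c1 := cov s' hs' (hsub1.trans h8)
        have c2 := cov t' ht' (hsub1.trans h9)
        have y1 : y ∈ s' := h8 (by simp)
        have y2 : y ∈ t' := h9 (by simp)
        have hfin : (y = w ∧ ¬ (K.vis x {v, a, w3, w} ↔ K.vis x {v, a, w, z})) ∨
            (y = z ∧ ¬ (K.vis x {v, a, w, z} ↔ K.vis x {v, a, z, w2})) ∨
            (y = w2 ∧ ¬ (K.vis x {v, a, z, w2} ↔ K.vis x {v, a, w2, w3})) ∨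
            (y = w3 ∧ ¬ (K.vis x {v, a, w2, w3} ↔ K.vis x {v, a, w3, w})) := by
          rcases c1 with rfl | rfl | rfl | rfl <;> rcases c2 with rfl | rfl | rfl | rfl <;>
            first
            | exact absurd h10 h11
            | (simp only [mem_insert, mem_singleton] at y1 y2
               rcases y1 with hh | hh | hh | hh <;> rcases y2 with gg | gg | gg | gg <;>
                 first
                 | exact absurd hh hyv
                 | exact absurd hh hya
                 | exact absurd gg hyv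
                 | exact absurd gg hya
                 | exact absurd (hh.symm.trans gg) n02
                 | exact absurd (gg.symm.trans hh) n02
                 | exact absurd (hh.symm.trans gg) n13
                 | exact absurd (gg.symm.trans hh) n13
                 | exact absurd (hh.symm.trans gg) wz
                 | exact absurd (gg.symm.trans hh) wz
                 | exact absurd (hh.symm.trans gg) zw2
                 | exact absurd (gg.symm.trans hh) zw2
                 | exact absurd (hh.symm.trans gg) w23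
                 | exact absurd (gg.symm.trans hh) w23
                 | exact absurd (hh.symm.trans gg) w3w
                 | exact absurd (gg.symm.trans hh) w3w
                 | (refine Or.inl ⟨hh, ?_⟩; tauto)
                 | (refine Or.inr (Or.inl ⟨hh, ?_⟩); tauto)
                 | (refine Or.inr (Or.inr (Or.inl ⟨hh, ?_⟩)); tauto)
                 | (refine Or.inr (Or.inr (Or.inr ⟨hh, ?_⟩)); tauto))
        rcases hfin with ⟨hh, g⟩ | ⟨hh, g⟩ | ⟨hh, g⟩ | ⟨hh, g⟩
        · refine ⟨4, ?_, by rw [hty, hh]; rfl⟩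
          rw [mem_filter]
          refine ⟨mem_univ _, ?_⟩
          show (b3 != b0) = true
          rw [bne_iff_ne]
          intro hc2
          exact g (by rw [hb3, hb0] at hc2; exact decide_eq_decide.1 hc2)
        · refine ⟨5, ?_, by rw [hty, hh]; rfl⟩
          rw [mem_filter]
          refine ⟨mem_univ _, ?_⟩
          show (b0 != b1) = true
          rw [bne_iff_ne]
          intro hc2
          exact g (by rw [hb0, hb1] at hc2; exact decide_eq_decide.1 hc2)
        · refine ⟨6, ?_, by rw [hty, hh]; rfl⟩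
          rw [mem_filter]
          refine ⟨mem_univ _, ?_⟩
          show (b1 != b2) = true
          rw [bne_iff_ne]
          intro hc2
          exact g (by rw [hb1, hb2] at hc2; exact decide_eq_decide.1 hc2)
        · refine ⟨7, ?_, by rw [hty, hh]; rfl⟩
          rw [mem_filter]
          refine ⟨mem_univ _, ?_⟩
          show (b2 != b3) = true
          rw [bne_iff_ne]
          intro hc2
          exact g (by rw [hb2, hb3] at hc2; exact decide_eq_decide.1 hc2)
      · obtain ⟨g1, g2, g3⟩ := old t ht hxt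
        rcases cov t g1 g2 with rfl | rfl | rfl | rfl
        · refine ⟨0, ?_, rfl⟩
          rw [mem_filter]
          refine ⟨mem_univ _, ?_⟩
          show (!b0) = true
          rw [hb0, Bool.not_eq_true', decide_eq_false_iff_not]
          exact g3
        · refine ⟨1, ?_, rfl⟩
          rw [mem_filter]
          refine ⟨mem_univ _, ?_⟩
          show (!b1) = true
          rw [hb1, Bool.not_eq_true', decide_eq_false_iff_not]
          exact g3
        · refine ⟨2, ?_, rfl⟩
          rw [mem_filter]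
          refine ⟨mem_univ _, ?_⟩
          show (!b2) = true
          rw [hb2, Bool.not_eq_true', decide_eq_false_iff_not]
          exact g3
        · refine ⟨3, ?_, rfl⟩
          rw [mem_filter]
          refine ⟨mem_univ _, ?_⟩
          show (!b3) = true
          rw [hb3, Bool.not_eq_true', decide_eq_false_iff_not]
          exact g3
    exact (card_le_card hsub).trans (card_image_le.trans hcnt)
  · -- a new facet
    have hpos : 0 < (St K (insert x W) {v, a}).card := Nat.pos_of_ne_zero hne
    obtain ⟨t, ht⟩ := card_pos.1 hpos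
    by_cases hxt : x ∈ t
    · exact ⟨t, ht, hxt⟩
    obtain ⟨g1, g2, g3⟩ := old t ht hxt
    have r01a : ({v, a, z} : Finset ι) ⊆ {v, a, w, z} := by
      intro i hi; simp only [mem_insert, mem_singleton] at hi ⊢; tauto
    have r01b : ({v, a, z} : Finset ι) ⊆ {v, a, z, w2} := by
      intro i hi; simp only [mem_insert, mem_singleton] at hi ⊢; tauto
    have r12a : ({v, a, w2} : Finset ι) ⊆ {v, a, z, w2} := by
      intro i hi; simp only [mem_insert, mem_singleton] at hi ⊢; tauto
    have r12b : ({v, a, w2} : Finset ι) ⊆ {v, a, w2, w3} := by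
      intro i hi; simp only [mem_insert, mem_singleton] at hi ⊢; tauto
    have r30a : ({v, a, w} : Finset ι) ⊆ {v, a, w, z} := by
      intro i hi; simp only [mem_insert, mem_singleton] at hi ⊢; tauto
    have r30b : ({v, a, w} : Finset ι) ⊆ {v, a, w3, w} := by
      intro i hi; simp only [mem_insert, mem_singleton] at hi ⊢; tauto
    by_cases k1 : K.vis x {v, a, z, w2}
    · by_cases k2 : K.vis x {v, a, w2, w3}
      · by_cases k3 : K.vis x {v, a, w3, w}
        · exfalso
          rcases cov t g1 g2 with rfl | rfl | rfl | rfl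
          · exact g3 hsome
          · exact g3 k1
          · exact g3 k2
          · exact g3 k3
        · exact mk w _ _ vw.symm aw.symm m0 m3 r30a r30b hsome k3
      · exact mk w2 _ _ vw2.symm aw2.symm m1 m2 r12a r12b k1 k2
    · exact mk z _ _ vz.symm az.symm m0 m1 r01a r01b hsome k1

end Pool.Agent.F32P
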