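import Pool.Agent.F32P.Defs

/-!
# F32P: statements, part II (combinatorics of one sample)

`W ⊇ S0` is fixed. A chamber `q = (v, a, w, z)`: `tau q = (v, a, z, w')` (next facet around `v a`),
`pie q = (v, a', w, z)` (other side of the ridge `v w z`), `rev q = (v, a, z, w)`,
`swp q = (a, v, w, z)`, `xch q = (w, z, v, a)`. `fq q` the facet, `ep q = {v, a}`, `lq q = {w, z}`.
`tau⁻¹ = rev tau rev`, `tau swp = swp tau`, `pie rev = rev pie`.
Write one file per statement: `Pool/Agent/F32P/C_<name>.lean`, namespace `Pool.Agent.F32P`, theorem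
`c_<name> (h : S_Y) .. : S_<name>`.
-/

set_option autoImplicit false

namespace Pool.Agent.F32P

open Finset

/-- **NEW.** New facets. (The facets of `insert x W` without `x` are the facets of `W` which `x` does
not see: `mem_Fc`.)
PROOF. `R ⊆ W`, so `x ∉ R`. (→) `insert x R` is a facet of `insert x W`; by `ridge` for `insert x W` at `d = x`
there is `d' ∉ insert x R` with `t = insert d' R ∈ Fc K (insert x W)`, `x ∉ t`, so `t ∈ Fc K W`, `¬ vis x t`. By `ridge`
for `W`, `t`, `d'` there is another facet `s = insert d'' R` of `W`, `d'' ≠ d'`. If `x` did not see `s` then `s` would be a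
third facet of `insert x W` over `R` (`insert x R`, `t`, `s`), a contradiction. (←) `t ∈ Fc K (insert x W)`, `t = insert d R`; by
`ridge` there is a second facet `t' = insert d' R` of `insert x W`, `d' ≠ d`. If `d' ≠ x` then `t' ∈ Fc K W`, not visible;
the facets of `W` over `R` are `s, t` (exactly two), so `t' = s` or `t' = t`: contradiction. So `d' = x`. -/
def S_NEW : Prop := ∀ (ι : Type) [DecidableEq ι] (K : Conf ι) (S0 : Finset ι), OK K S0 →
  ∀ W : Finset ι, S0 ⊆ W → ∀ x ∉ W, ∀ R : Finset ι, R ⊆ W → R.card = 3 →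
  (insert x R ∈ Fc K (insert x W) ↔
    ∃ s ∈ Fc K W, ∃ t ∈ Fc K W, R ⊆ s ∧ R ⊆ t ∧ K.vis x s ∧ ¬ K.vis x t)

/-- **CYC.** The facets around a pair form one cycle.
PROOF. `q = (v, a, w_0, w_1)`, `tau^i q = (v, a, w_i, w_(i+1))`. The set `S` of all `fq (tau^i q)`, `i : ℤ`, is closed under
neighbours in `St K W (ep q)` (a facet `t ⊇ {v, a}` which has three elements in common with `fq q'` contains
`{v, a, w'}` or `{v, a, z'}`, so by `ridge` (`tq_spec`) it is `fq q'`, `fq (tau q')` or `fq (tau⁻¹ q')`), so `S = St K W (ep q)`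
(`conn`). Let `N > 0` be the period of `q` under `tau` (finite set). If `fq (tau^i q) = fq (tau^j q)`, `i < j < N`, then
`tau^j q = rev (tau^i q)` (equality is excluded by the period). As `tau (rev q') = rev (tau⁻¹ q')`:
`tau^(j-k) q = rev (tau^(i+k) q)` for all `k`. With `j - i = 2 k`: `q' = rev q'`, `q' = tau^(i+k) q`; with `j - i = 2 k + 1`:
`tau q' = rev q'`, i.e. `w'' = w`: both contradictions. So `N = |S| = dg`. `3 ≤ dg`: `fq q`, `fq (tau q)`, `fq (tau⁻¹ q)` are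
different: `{v, a, w, z}`, `{v, a, z, w'}`, `{v, a, w, z'}`, `w' ≠ w`, `z' ≠ z`, `w' ∉ {v, a, z}`. -/
def S_CYC : Prop := ∀ (ι : Type) [Fintype ι] [DecidableEq ι] (K : Conf ι) (S0 : Finset ι)
  (h : OK K S0) (W : Finset ι) (hW : S0 ⊆ W) (q : Ch K W),
  (∀ i < dg K W (ep q), ∀ j < dg K W (ep q),
    fq ((tau h hW ^ i) q) = fq ((tau h hW ^ j) q) → i = j) ∧
  (tau h hW ^ (dg K W (ep q))) q = q ∧
  (∀ s ∈ St K W (ep q), ∃ i < dg K W (ep q), fq ((tau h hW ^ i) q) = s) ∧ 3 ≤ dg K W (ep q)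

/-- **COM.** `pie` and `tau` commute at edges `v z` of degree 4 (uses CYC).
PROOF. `q = (v, a, w, z)`. Apply CYC to `q' = (v, z, w, a)`: `tau q' = (v, z, a, w'')` with `w'' = oth {v,a,z} w`,
`tau^2 q' = (v, z, w'', a'')`, `a'' = oth {v,z,w''} a`, `tau⁻¹ q' = (v, z, a', w)`, `a' = oth {v,w,z} a`. `tau^4 q' = q'` gives
`tau^3 q' = tau⁻¹ q'`: `a'' = a'` and `oth {v,z,a'} w'' = w`, so `oth {v,z,a'} w = w''` (`oth_oth`). `pie (tau q) = (v, a'', z, w'')`,
`tau (pie q) = (v, a', z, oth {v,a',z} w)`. -/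
def S_COM : Prop := ∀ (ι : Type) [Fintype ι] [DecidableEq ι] (K : Conf ι) (S0 : Finset ι)
  (h : OK K S0) (W : Finset ι) (hW : S0 ⊆ W) (q : Ch K W),
  dg K W {q.1.1, q.1.2.2.2} = 4 → pie h hW (tau h hW q) = tau h hW (pie h hW q)

/-- **TWO.** (uses NEW, CYC). If the degree of `e` is 4 before and after the insertion of `x` and `x` sees a
facet over `e`, then exactly two adjacent facets over `e` are visible.
PROOF. Let `f_i = fq (tau^i q)`, `i = 0, 1, 2, 3`, the four facets over `e = ep q`, the ridges `R_i = f_i ∩ f_(i+1)` (indices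
mod 4) are four different 3-sets, they are all the ridges over `e`. The facets of `insert x W` over `e` are the invisible
`f_i` and the `insert x R_i` with exactly one of `f_i, f_(i+1)` visible (NEW; a facet of `insert x W` over `e` which
contains `x` is `insert x R` with `e ⊆ R`, and then `R ⊆ s ∈ Fc K W`, so `R` is one of the `R_i`). The number is `4 - k + r`, `k` the
number of visible ones, `r` the number of changes around the cycle. `f_0` visible: both neighbours visible: `k = 4, r = 0`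
or `k = 3, r = 2`: 0 or 3. None: `k = 1, r = 2` or `k = 2, r = 4`: 5 or 6. Not 4. -/
def S_TWO : Prop := ∀ (ι : Type) [Fintype ι] [DecidableEq ι] (K : Conf ι) (S0 : Finset ι)
  (h : OK K S0) (W : Finset ι) (hW : S0 ⊆ W) (x : ι) (q : Ch K W), x ∉ W →
  dg K W (ep q) = 4 → dg K (insert x W) (ep q) = 4 → K.vis x (fq q) →
  (K.vis x (fq (tau h hW q)) ↔ ¬ K.vis x (fq ((tau h hW)⁻¹ q)))

/-- **CHG.** (uses NEW, CYC) the same count when the new degree is not 4: `x` sees a facet over the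
degree 4 edge `e` and the new degree is neither 0 nor 4: then it is at most 6 and some new facet contains `e` and `x`. -/
def S_CHG : Prop := ∀ (ι : Type) [Fintype ι] [DecidableEq ι] (K : Conf ι) (S0 : Finset ι)
  (_ : OK K S0) (W : Finset ι) (_ : S0 ⊆ W) (x : ι) (e : Finset ι), x ∉ W → e.card = 2 →
  dg K W e = 4 → (∃ s ∈ St K W e, K.vis x s) → dg K (insert x W) e ≠ 0 →
  dg K (insert x W) e ≤ 6 ∧ ∃ s ∈ St K (insert x W) e, x ∈ s

/-- **DIR.** (uses TWO, CYC). Direction of a typical incidence.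
PROOF. `q = (v, a, w, z)`, `s = fq q` is normal and `dg {v, a} ≥ D ≥ 5`: so `{v, a}` is one of the two opposite heavy pairs,
`lq q = {w, z}` is the other one, and the four pairs `vw, vz, aw, az` have degree 4, before and after (`Typ`). Let
`n(y)` be the facet on the other side of `s \ {y}`: `fq (tau q) = n(w)`, `fq (tau⁻¹ q) = n(z)`, `fq (tau (xch q)) = n(v)`,
`fq (tau⁻¹ (xch q)) = n(a)`. TWO at the pair `vw` (chambers `(v, w, a, z)`): exactly one of `n(a)`, `n(z)` is visible; at `vz`: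
exactly one of `n(a), n(w)`; at `aw`: exactly one of `n(v), n(z)`; at `az`: exactly one of `n(v), n(w)`. So `n(w), n(z)` have
the same visibility and `n(a), n(v)` the other one. -/
def S_DIR : Prop := ∀ (ι : Type) [Fintype ι] [DecidableEq ι] (K : Conf ι) (S0 : Finset ι)
  (h : OK K S0) (W : Finset ι) (hW : S0 ⊆ W) (D : ℕ) (x : ι) (q : Ch K W), x ∉ W → 5 ≤ D →
  Typ K W D x (fq q) → D ≤ dg K W (ep q) →
  (K.vis x (fq (tau h hW q)) ↔ K.vis x (fq ((tau h hW)⁻¹ q))) ∧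
  (K.vis x (fq (tau h hW (xch K W q))) ↔ K.vis x (fq ((tau h hW)⁻¹ (xch K W q)))) ∧
  (K.vis x (fq (tau h hW (xch K W q))) ↔ ¬ K.vis x (fq (tau h hW q)))

/-- **NRM.** Normal facets, in chambers (uses nothing). -/
def S_NRM : Prop := ∀ (ι : Type) [DecidableEq ι] (K : Conf ι) (W : Finset ι) (D : ℕ)
  (q : Ch K W), 5 ≤ D → NF K W D (fq q) →
  (D ≤ dg K W (ep q) → D ≤ dg K W (lq q) ∧ dg K W {q.1.1, q.1.2.2.1} = 4 ∧
    dg K W {q.1.1, q.1.2.2.2} = 4 ∧ dg K W {q.1.2.1, q.1.2.2.1} = 4 ∧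
    dg K W {q.1.2.1, q.1.2.2.2} = 4) ∧
  (dg K W (ep q) = 4 ∨ D ≤ dg K W (ep q))

/-- **RUN.** (uses DIR, NRM, CYC). Properties of `Rn`. The propagation: `fq (tau q)` typical, its neighbour `fq q` around
`ep q` is visible, so by DIR at `tau q` (`ep (tau q) = ep q`) `fq (tau (tau q))` is visible. `rev`: `fq (tau (rev q)) =
fq (tau⁻¹ q)`. Existence: the typical facet `s` is normal: choose `q` with `fq q = s`, `D ≤ dg (ep q)`, then also
`D ≤ dg (ep (xch q))`, and DIR. -/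
def S_RUN : Prop := ∀ (ι : Type) [Fintype ι] [DecidableEq ι] (K : Conf ι) (S0 : Finset ι)
  (h : OK K S0) (W : Finset ι) (hW : S0 ⊆ W) (D : ℕ) (x : ι), x ∉ W → 5 ≤ D →
  (∀ q : Ch K W, Rn h hW D x q → Typ K W D x (fq (tau h hW q)) → Rn h hW D x (tau h hW q)) ∧
  (∀ q : Ch K W, Rn h hW D x q → Rn h hW D x (rev K W q) ∧ Rn h hW D x (swp K W q)) ∧
  (∀ s, Typ K W D x s → ∃ q : Ch K W, fq q = s ∧ Rn h hW D x q)

/-- **EXC.** (uses RUN). The number of the exceptional incidences.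
PROOF. Let `A` be the set of the facets `s` with `vis x s`, `¬ Typ x s`. An exceptional `s` is in `A` or typical. If it
is typical choose `q` with `fq q = s`, `Rn x q` (RUN). `LRun x q` fails, let `k < L` be minimal with `¬ Rn x (tau^k q)`, `k ≥ 1`,
`Rn x (tau^(k-1) q)`, so `vis x (fq (tau^k q))`, and `fq (tau^k q)` is not typical (RUN): it is in `A`. For fixed `k` the map
`s ↦ tau^k q` is injective into the chambers over `A` (at most `24 |A|`). -/
def S_EXC : Prop := ∀ (ι : Type) [Fintype ι] [DecidableEq ι] (K : Conf ι) (S0 : Finset ι)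
  (h : OK K S0) (W : Finset ι) (hW : S0 ⊆ W) (D L : ℕ) (x : ι), x ∉ W → 5 ≤ D →
  open Classical in
  ((Fc K W).filter fun s => Exc h hW D L x s).card ≤
    (1 + 24 * L) * ((Fc K W).filter fun s => K.vis x s ∧ ¬ Typ K W D x s).card

/-- **CML.** (uses COM, NRM). Along a run `pie` and `tau` commute: `fq (tau^k q)`, `k < L`, is normal with
heavy `ep`, so the pair `{v, w_(k+1)}` has degree 4. -/
def S_CML : Prop := ∀ (ι : Type) [Fintype ι] [DecidableEq ι] (K : Conf ι) (S0 : Finset ι)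
  (h : OK K S0) (W : Finset ι) (hW : S0 ⊆ W) (D L : ℕ) (x : ι) (q : Ch K W), 5 ≤ D →
  LRun h hW D L x q → ∀ i ≤ L, pie h hW ((tau h hW ^ i) q) = (tau h hW ^ i) (pie h hW q)

section
variable {ι : Type} [Fintype ι] [DecidableEq ι]

/-- all three see facets over a pair of degree `≠ 4`, `< D` -/
def OutB (K : Conf ι) (W : Finset ι) (D : ℕ) (z : Fin 3 → ι) : Prop :=
  ∃ e ∈ nonq K W, dg K W e < D ∧ ∀ i, z i ∈ Se K W e

/-- an exceptional incidence, the two other elements near -/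
def OutX {K : Conf ι} {S0 : Finset ι} (h : OK K S0) {W : Finset ι} (hW : S0 ⊆ W) (D L : ℕ)
    (z : Fin 3 → ι) : Prop :=
  ∃ s ∈ Fc K W, ∃ i, z i ∈ ExS h hW D L s ∧ ∀ j, j ≠ i → z j ∈ Z1 K W D s

/-- `z i` and `z j` run in the same or in parallel directions, `z k` is near -/
def OutA {K : Conf ι} {S0 : Finset ι} (h : OK K S0) {W : Finset ι} (hW : S0 ⊆ W) (D L : ℕ)
    (z : Fin 3 → ι) : Prop :=
  ∃ (q : Ch K W) (i j k : Fin 3), i ≠ j ∧ j ≠ k ∧ i ≠ k ∧ LRun h hW D L (z i) q ∧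
    z k ∈ Z1 K W D (fq q) ∧ ∃ (ε : Bool) (r σ : ℤ), |r| ≤ 1 ∧ (σ = 1 ∨ σ = -1) ∧
      ∀ l : ℕ, l < L → K.vis (z j) (fq ((tau h hW ^ (r + σ * l)) (if ε then pie h hW q else q)))

/-- `z i` runs around a heavy pair, `z j` sees a third of the facets over this pair -/
def OutE {K : Conf ι} {S0 : Finset ι} (h : OK K S0) {W : Finset ι} (hW : S0 ⊆ W) (D L : ℕ)
    (z : Fin 3 → ι) : Prop :=
  ∃ (q : Ch K W) (i j k : Fin 3), i ≠ j ∧ j ≠ k ∧ i ≠ k ∧ LRun h hW D L (z i) q ∧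
    z k ∈ Z1 K W D (fq q) ∧ z j ∈ Ie K W (ep q)

end

/-- **E4.** (uses CYC, NRM, RUN). Three elements which see facets over a pair of degree 4.
PROOF. Let `s_i ∈ St K W e` be seen by `z i`. If some `(z i, s_i)` is exceptional: OutX with `s = s_i` (the other `s_j` contain
`e ⊆ s_i ∩ s_j` of degree 4, so `s_j ∈ Nb K W s_i`). Otherwise `z i` has a chamber `q_i`, `fq q_i = s_i`, `LRun (z i) q_i` (so `s_i` is
strongly normal, all four facets over `e` are normal, `D ≤ dg (ep q_i)`, `ep q_i ≠ e`). In the normal facet `s_i`: `e` has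
degree 4, so the heavy pairs are two opposite pairs different from `e` and `s_i \ e`: each of them contains exactly one
element of `e = {v, u}`, in particular `ep q_i` contains exactly one element of `e`, the CLASS of `z i`. Two of the three
have the same class, say `z i`, `z j` have class `v`; applying `swp` we may assume `q_i = (v, p, ..)`, `q_j = (v, p', ..)`
(`LRun` is invariant under `swp`). `q := q_i`, `u` is one of the last two elements of `q`. The four facets over `{v, u}` are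
(CYC) `{v,u,p,w}, {v,u,w,p1}, {v,u,p1,w1}, {v,u,w1,p}` in cyclic order, `s_i` contains `p`, say `s_i = {v,u,p,w}` (`w` the other
element of the last pair of `q`). `dg {v,p} ≥ D`; `dg {v,w} = 4` (normal); the normal facet `{v,u,w,p1}` has a
heavy pair at `v` (`dg {v,u} = 4`, exactly one heavy pair at each of its elements), it is `{v,p1}`; in `{v,u,w1,p}`: `{v,p}`, so
`dg {v,w1} = 4`. So the heavy pair of `s_j` at `v` is `{v, p}` if `p ∈ s_j` and `{v, p1}` if not: `p' = p` or `p' = p1`.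
(a) `q = (v, p, u, w)`: `tau⁻¹ q = (v, p, w1, u)`, `pie q = (v, p1, u, w)`, `tau⁻¹ (pie q) = (v, p1, w1, u)`. So `q_j` or `rev q_j` is
`tau^r q` or `tau^r (pie q)` with `r ∈ {0, -1}`. (b) `q = (v, p, w, u)`: `tau q = (v, p, u, w1)`, `pie q = (v, p1, w, u)`,
`tau (pie q) = (v, p1, u, w1)`: the same with `r ∈ {0, 1}`. `z j` sees `fq (tau^l q_j)`, `l < L`; if `rev q_j = tau^r q''` then
`tau^l q_j = rev (tau^(r-l) q'')`. The third element `z k` sees `s_k ∈ Nb K W s_i`. -/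
def S_E4 : Prop := ∀ (ι : Type) [Fintype ι] [DecidableEq ι] (K : Conf ι) (S0 : Finset ι)
  (h : OK K S0) (W : Finset ι) (hW : S0 ⊆ W) (D L : ℕ) (z : Fin 3 → ι) (e : Finset ι),
  (∀ i, z i ∉ W) → 5 ≤ D → 1 ≤ L → e.card = 2 → dg K W e = 4 →
  (∀ i, ∃ s ∈ St K W e, K.vis (z i) s) → OutX h hW D L z ∨ OutA h hW D L z

/-- **CR.** (uses E4, NRM). First case of `Loc`.
PROOF. If `F` is normal and every `z i` sees `F`: a pair `e ⊆ F` of degree 4 (there is one), E4. The same with `F'`. Otherwise both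
are used: if `F` is not normal, some `z i` sees `F`, this incidence is exceptional (a run through `F` would make it
strongly normal) and the others see `F` or `F'`, both in `Nb K W F` (`3 ≤ |F ∩ F'|`, `3 ≤ |F ∩ F|`): OutX; if no `z i` sees `F`
then all see `F'`: if `F'` is normal E4, otherwise OutX. If both are normal: `R ⊆ F ∩ F'` with three elements contains exactly
one heavy pair of `F`, the other two pairs in `R` have degree 4: take one, E4. -/
def S_CR : Prop := ∀ (ι : Type) [Fintype ι] [DecidableEq ι] (K : Conf ι) (S0 : Finset ι)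
  (h : OK K S0) (W : Finset ι) (hW : S0 ⊆ W) (D L : ℕ) (z : Fin 3 → ι),
  (∀ i, z i ∉ W) → 5 ≤ D → 1 ≤ L →
  (∃ F ∈ Fc K W, ∃ F' ∈ Fc K W, 3 ≤ (F ∩ F').card ∧ ∀ i, K.vis (z i) F ∨ K.vis (z i) F') →
  OutX h hW D L z ∨ OutA h hW D L z

/-- **CH.** (uses E4, NRM, CYC, RUN). Second case of `Loc`.
PROOF. Every `z i` sees a facet over `e`. `dg e = 4`: E4. `dg e < D`, `≠ 4`: OutB (`e ∈ nonq`: `e ⊆ W`, `0 < dg`). `D ≤ dg e`: as every facet
over `e` is seen, some `z k` sees at least a third of them: `z k ∈ Ie K W e`. Let `i, j` be the other two indices, `F, F'` as in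
`Loc` for `i, j`, `s_i, s_j ∈ {F, F'}` seen by `z i`, `z j`; `3 ≤ |s_i ∩ s_j|`. If `(z i, s_i)` is exceptional: OutX with `s = s_i`
(`s_j ∈ Nb`, `z k ∈ Ie K W e`, `e ⊆ s_i`, `D ≤ dg e`). The same for `j`. Otherwise `LRun (z i) q_i`, `fq q_i = s_i`, `LRun (z j) q_j`,
`fq q_j = s_j`. `s_i` is normal, `e ⊆ s_i` heavy, so `ep q_i = e` or `ep q_i = s_i \ e`. If `ep q_i = e`: OutE with `q = q_i`, runner `z i`,
`z k ∈ Ie K W (ep q)`, third element `z j ∈ Z1` (`s_j ∈ Nb K W s_i`). If `ep q_j = e`: the same. Otherwise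
`ep q_i = s_i \ e`, `ep q_j = s_j \ e`. If `s_i = s_j`: `ep q_i = ep q_j`, `lq q_i = lq q_j = e`, so (after `swp`) `q_j = q_i` or `q_j = rev q_i`: OutA
with `ε = false`, `r = 0`. If `s_i ≠ s_j`: `s_i ∩ s_j = e ∪ {w}`, `s_i = e ∪ {w, w0}`, `s_j = e ∪ {w, w2}`; after `swp` `q_i = (w, w0, v, v')`,
`q_j = (w, w2, ..)` with `e = {v, v'}`; `pie q_i = (w, w2, v, v')` (`s_j` is the other facet over `{w, v, v'}`), so `q_j = pie q_i` or
`q_j = rev (pie q_i)`: OutA with `ε = true`, `r = 0`. Third element `z k ∈ Ie K W e ⊆ Z1 K W D s_i`. -/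
def S_CH : Prop := ∀ (ι : Type) [Fintype ι] [DecidableEq ι] (K : Conf ι) (S0 : Finset ι)
  (h : OK K S0) (W : Finset ι) (hW : S0 ⊆ W) (D L : ℕ) (z : Fin 3 → ι) (e : Finset ι),
  (∀ i, z i ∉ W) → 5 ≤ D → 1 ≤ L → e.card = 2 → (St K W e).Nonempty →
  (∀ F ∈ St K W e, ∃ i, K.vis (z i) F) →
  (∀ i j, ∃ F ∈ St K W e, ∃ F' ∈ St K W e, 3 ≤ (F ∩ F').card ∧
      (K.vis (z i) F ∨ K.vis (z i) F') ∧ (K.vis (z j) F ∨ K.vis (z j) F')) →
  OutB K W D z ∨ OutX h hW D L z ∨ OutA h hW D L z ∨ OutE h hW D L z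

/-- **COVA.** (uses CYC, CML). Counting of OutA.
PROOF. For `z` with OutA (data `q, i, j, k, ε, r, σ`), `0 ≤ a < L` put `ω = tau^a q` (these are different: CYC,
`D ≤ dg (ep q)` by the run, `L ≤ D`). `z i` sees `fq (tau^(b - a) ω)`, `0 ≤ b < L`. With `q' = q` or `pie q`, `ω' = ω` or `pie ω`:
`ω' = tau^a q'` (CML), so `z j` sees `fq (tau^(r + σ l - a) ω')`, `0 ≤ l < L`. `z k ∈ Z1 (fq q) = Z1 (fq (tau^(-a) ω)) ⊆ Z2 ω`. So `z` is
in at least `L^3` of the boxes on the right (`i, j, ε` fixed, different triples `(ω, b - a, r + σ l - a)`). -/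
def S_COVA : Prop := ∀ (ι : Type) [Fintype ι] [DecidableEq ι] (K : Conf ι) (S0 : Finset ι)
  (h : OK K S0) (W : Finset ι) (hW : S0 ⊆ W) (D L : ℕ) (T : Finset (Fin 3 → ι)),
  5 ≤ D → 1 ≤ L → L ≤ D →
  open Classical in
  (T.filter fun z => OutA h hW D L z).card * L ^ 3 ≤
    ∑ c ∈ (univ : Finset (Fin 3 × Fin 3)).filter (fun c => c.1 ≠ c.2), ∑ ε : Bool,
      ∑ q : Ch K W, ∑ k ∈ Icc (-(2 * L : ℤ)) (2 * L), ∑ l ∈ Icc (-(2 * L : ℤ)) (2 * L),
        cnt T (bx c.1 c.2 (Vp K (fq ((tau h hW ^ k) q)))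
          (Vp K (fq ((tau h hW ^ l) (if ε then pie h hW q else q)))) (Z2 h hW D L q))

/-- **COVE.** (uses CYC). Counting of OutE, in the same way. -/
def S_COVE : Prop := ∀ (ι : Type) [Fintype ι] [DecidableEq ι] (K : Conf ι) (S0 : Finset ι)
  (h : OK K S0) (W : Finset ι) (hW : S0 ⊆ W) (D L : ℕ) (T : Finset (Fin 3 → ι)),
  5 ≤ D → 1 ≤ L → L ≤ D →
  open Classical in
  (T.filter fun z => OutE h hW D L z).card * L ^ 2 ≤
    ∑ c ∈ (univ : Finset (Fin 3 × Fin 3)).filter (fun c => c.1 ≠ c.2),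
      ∑ q : Ch K W, ∑ k ∈ Icc (-(2 * L : ℤ)) (2 * L),
        cnt T (bx c.1 c.2 (Vp K (fq ((tau h hW ^ k) q))) (Ie K W (ep q)) (Z2 h hW D L q))

/-- the weighted sum of the values of `g` over all the boxes of the cover -/
noncomputable def tot {ι : Type} [Fintype ι] [DecidableEq ι] {K : Conf ι} {S0 : Finset ι}
    (h : OK K S0) {W : Finset ι} (hW : S0 ⊆ W) (D L : ℕ) (g : (Fin 3 → Finset ι) → ℝ) : ℝ :=
  (∑ i : Fin 3, g (bx i i W ∅ univ)) +
  (∑ e ∈ (nonq K W).filter (fun e => dg K W e < D), g (fun _ => Se K W e)) +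
  (∑ s ∈ Fc K W, ∑ i : Fin 3, g (bx i i (ExS h hW D L s) ∅ (Z1 K W D s))) +
  (∑ c ∈ (univ : Finset (Fin 3 × Fin 3)).filter (fun c => c.1 ≠ c.2), ∑ ε : Bool,
      ∑ q : Ch K W, ∑ k ∈ Icc (-(2 * L : ℤ)) (2 * L), ∑ l ∈ Icc (-(2 * L : ℤ)) (2 * L),
        g (bx c.1 c.2 (Vp K (fq ((tau h hW ^ k) q)))
          (Vp K (fq ((tau h hW ^ l) (if ε then pie h hW q else q)))) (Z2 h hW D L q))) / L ^ 3 +
  (∑ c ∈ (univ : Finset (Fin 3 × Fin 3)).filter (fun c => c.1 ≠ c.2),
      ∑ q : Ch K W, ∑ k ∈ Icc (-(2 * L : ℤ)) (2 * L),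
        g (bx c.1 c.2 (Vp K (fq ((tau h hW ^ k) q))) (Ie K W (ep q)) (Z2 h hW D L q))) / L ^ 2

/-- **COV.** (uses CR, CH, COVA, COVE). The cover inequality.
PROOF. `T` is the union of the triples with some `z i ∈ W` (first sum) and of the triples with OutB (second sum), OutX (third sum),
OutA, OutE. -/
def S_COV : Prop := ∀ (ι : Type) [Fintype ι] [DecidableEq ι] (K : Conf ι) (S0 : Finset ι)
  (h : OK K S0) (W : Finset ι) (hW : S0 ⊆ W) (D L : ℕ) (X : Fin 3 → Finset ι)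
  (T : Finset (Fin 3 → ι)), 5 ≤ D → 1 ≤ L → L ≤ D → Inst K S0 X T →
  (T.card : ℝ) ≤ tot h hW D L fun S => (cnt T S : ℝ)

end Pool.Agent.F32P
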