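import Mathlib
import Pool.Agent.F32P.St2

/-!
# F32P: COM (helper52)

`pie` and `tau` commute at the chambers whose edge `v z` has degree 4.
-/

set_option autoImplicit false

namespace Pool.Agent.F32P

open Finset

theorem c_COM_pair {ι : Type} [DecidableEq ι] (a b c : ι) :
    ({a, b, c} : Finset ι) = {a, c, b} := by
  ext i; simp only [mem_insert, mem_singleton]; tauto

theorem c_COM (h : S_CYC) : S_COM := by
  intro ι _ _ K S0 hK W hW q hd
  obtain ⟨⟨v, a, w, z⟩, hq⟩ := q
  have hfs : fs (v, z, w, a) = fs (v, a, w, z) := by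
    ext i; simp only [fs, mem_insert, mem_singleton]; tauto
  have hq' : fs (v, z, w, a) ∈ Fc K W := by rw [hfs]; exact hq
  obtain ⟨-, h4, -, -⟩ := h ι K S0 hK W hW ⟨(v, z, w, a), hq'⟩
  have hd' : dg K W (ep (⟨(v, z, w, a), hq'⟩ : Ch K W)) = 4 := hd
  rw [hd'] at h4
  have s1 := tq_spec hK hW hq'
  have c1 := s1.2.2.1
  have s2 := tq_spec hK hW (v := v) (a := z) (w := a) (z := oth K W {v, z, a} w) c1
  have c2 := s2.2.2.1
  have s3 := tq_spec hK hW (v := v) (a := z) (w := oth K W {v, z, a} w)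
    (z := oth K W {v, z, oth K W {v, z, a} w} a) c2
  have c3 := s3.2.2.1
  have s4 := tq_spec hK hW (v := v) (a := z) (w := oth K W {v, z, oth K W {v, z, a} w} a)
    (z := oth K W {v, z, oth K W {v, z, oth K W {v, z, a} w} a} (oth K W {v, z, a} w)) c3
  have e4 : tq K W (tq K W (tq K W (tq K W (v, z, w, a)))) = (v, z, w, a) :=
    congrArg Subtype.val h4
  simp only [tq, Prod.mk.injEq, true_and] at e4
  obtain ⟨e5, e6⟩ := e4
  -- `w3 = w`, `a4 = a`
  have r3 := s3.2.2.2.2
  rw [e5] at r3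
  have r4 := s4.2.2.2.2
  rw [e5] at r4 e6
  rw [e6] at r4
  apply Subtype.ext
  show pq K W (tq K W (v, a, w, z)) = tq K W (pq K W (v, a, w, z))
  simp only [tq, pq]
  rw [c_COM_pair v a z, c_COM_pair v w z, r4, c_COM_pair v (oth K W {v, z, oth K W {v, z, a} w} a) z,
    r3]

end Pool.Agent.F32P
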