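import Pool.Agent.F32P.St2

/-!
# F32P: COV, the cover inequality (helper90)
-/

set_option autoImplicit false

namespace Pool.Agent.F32P

open Finset

private theorem ccov_card {α : Type} (T : Finset α) (p : Fin 5 → α → Prop)
    [∀ k, DecidablePred (p k)] (h : ∀ z ∈ T, ∃ k, p k z) :
    (T.card : ℝ) ≤ ∑ k, ((T.filter (p k)).card : ℝ) := by
  classical
  have h1 : T ⊆ (univ : Finset (Fin 5)).biUnion fun k => T.filter (p k) := by
    intro z hz
    obtain ⟨k, hk⟩ := h z hz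
    exact mem_biUnion.2 ⟨k, mem_univ _, mem_filter.2 ⟨hz, hk⟩⟩
  have h2 := (card_le_card h1).trans card_biUnion_le
  exact_mod_cast h2

private theorem ccov_sum {α β : Type} (T : Finset α) (I : Finset β) (p : α → Prop)
    (S : β → α → Prop) [DecidablePred p] [∀ k, DecidablePred (S k)]
    (h : ∀ z ∈ T, p z → ∃ k ∈ I, S k z) :
    ((T.filter p).card : ℝ) ≤ ∑ k ∈ I, ((T.filter (S k)).card : ℝ) := by
  classical
  have h1 : T.filter p ⊆ I.biUnion fun k => T.filter (S k) := by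
    intro z hz
    obtain ⟨hz1, hz2⟩ := mem_filter.1 hz
    obtain ⟨k, hk, hk2⟩ := h z hz1 hz2
    exact mem_biUnion.2 ⟨k, hk, mem_filter.2 ⟨hz1, hk2⟩⟩
  have h2 := (card_le_card h1).trans card_biUnion_le
  exact_mod_cast h2

private theorem ccov_bx {ι : Type} [Fintype ι] (i : Fin 3) (A C : Finset ι) (z : Fin 3 → ι)
    (h1 : z i ∈ A) (h2 : ∀ j, j ≠ i → z j ∈ C) : ∀ j, z j ∈ bx i i A ∅ C j := by
  intro j
  unfold bx
  by_cases hj : j = i
  · subst hj; simpa using h1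
  · simpa [hj] using h2 j hj

theorem c_COV (hr : S_CR) (hh : S_CH) (ha : S_COVA) (he : S_COVE) : S_COV := by
  classical
  intro ι _ _ K S0 h W hW D L X T hD hL hLD hT
  have hdich : ∀ z ∈ T, (∃ i, z i ∈ W) ∨ OutB K W D z ∨ OutX h hW D L z ∨ OutA h hW D L z ∨
      OutE h hW D L z := by
    intro z hz
    by_cases hzW : ∃ i, z i ∈ W
    · exact Or.inl hzW
    · have hzW' : ∀ i, z i ∉ W := fun i hi => hzW ⟨i, hi⟩
      right
      rcases hT.loc z hz W hW hzW' with h1 | ⟨e, he1, he2, he3, he4⟩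
      · rcases hr ι K S0 h W hW D L z hzW' hD hL h1 with h2 | h2
        · exact Or.inr (Or.inl h2)
        · exact Or.inr (Or.inr (Or.inl h2))
      · exact hh ι K S0 h W hW D L z e hzW' hD hL he1 he2 he3 he4
  -- the five sets
  have hL0 : (0 : ℝ) < L := by exact_mod_cast hL
  have hsum := ccov_card T (fun k z => ![∃ i, z i ∈ W, OutB K W D z, OutX h hW D L z,
    OutA h hW D L z, OutE h hW D L z] k) (by
      intro z hz
      rcases hdich z hz with h1 | h1 | h1 | h1 | h1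
      · exact ⟨0, h1⟩
      · exact ⟨1, h1⟩
      · exact ⟨2, h1⟩
      · exact ⟨3, h1⟩
      · exact ⟨4, h1⟩)
  rw [Fin.sum_univ_five] at hsum
  have h0 : ((T.filter fun z => ∃ i, z i ∈ W).card : ℝ) ≤
      ∑ i : Fin 3, (cnt T (bx i i W ∅ univ) : ℝ) := by
    refine ccov_sum T univ _ (fun (i : Fin 3) z => ∀ j, z j ∈ bx i i W ∅ univ j) ?_
    rintro z _ ⟨i, hi⟩
    exact ⟨i, mem_univ _, ccov_bx i W univ z hi fun j _ => mem_univ _⟩
  have h1 : ((T.filter fun z => OutB K W D z).card : ℝ) ≤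
      ∑ e ∈ (nonq K W).filter (fun e => dg K W e < D), (cnt T (fun _ => Se K W e) : ℝ) := by
    refine ccov_sum T _ _ (fun e z => ∀ j, z j ∈ (fun _ => Se K W e : Fin 3 → Finset ι) j) ?_
    rintro z _ ⟨e, he1, he2, he3⟩
    exact ⟨e, mem_filter.2 ⟨he1, he2⟩, he3⟩
  have h2 : ((T.filter fun z => OutX h hW D L z).card : ℝ) ≤
      ∑ s ∈ Fc K W, ∑ i : Fin 3, (cnt T (bx i i (ExS h hW D L s) ∅ (Z1 K W D s)) : ℝ) := by
    rw [← sum_product']
    refine ccov_sum T ((Fc K W) ×ˢ (univ : Finset (Fin 3))) _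
      (fun c z => ∀ j, z j ∈ bx c.2 c.2 (ExS h hW D L c.1) ∅ (Z1 K W D c.1) j) ?_
    rintro z _ ⟨s, hs, i, hi, hj⟩
    exact ⟨(s, i), mem_product.2 ⟨hs, mem_univ _⟩, ccov_bx i _ _ z hi hj⟩
  have h3 := ha ι K S0 h W hW D L T hD hL hLD
  have h4 := he ι K S0 h W hW D L T hD hL hLD
  have h3' : ((T.filter fun z => OutA h hW D L z).card : ℝ) ≤
      (∑ c ∈ (univ : Finset (Fin 3 × Fin 3)).filter (fun c => c.1 ≠ c.2), ∑ ε : Bool,
      ∑ q : Ch K W, ∑ k ∈ Icc (-(2 * L : ℤ)) (2 * L), ∑ l ∈ Icc (-(2 * L : ℤ)) (2 * L),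
        (cnt T (bx c.1 c.2 (Vp K (fq ((tau h hW ^ k) q)))
          (Vp K (fq ((tau h hW ^ l) (if ε then pie h hW q else q)))) (Z2 h hW D L q)) : ℝ))
        / L ^ 3 := by
    rw [le_div_iff₀ (by positivity)]
    exact_mod_cast h3
  have h4' : ((T.filter fun z => OutE h hW D L z).card : ℝ) ≤
      (∑ c ∈ (univ : Finset (Fin 3 × Fin 3)).filter (fun c => c.1 ≠ c.2),
      ∑ q : Ch K W, ∑ k ∈ Icc (-(2 * L : ℤ)) (2 * L),
        (cnt T (bx c.1 c.2 (Vp K (fq ((tau h hW ^ k) q))) (Ie K W (ep q)) (Z2 h hW D L q)) : ℝ))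
        / L ^ 2 := by
    rw [le_div_iff₀ (by positivity)]
    exact_mod_cast h4
  unfold tot
  have e0 : ((T.filter fun z => ![∃ i, z i ∈ W, OutB K W D z, OutX h hW D L z,
    OutA h hW D L z, OutE h hW D L z] 0).card : ℝ) = ((T.filter fun z => ∃ i, z i ∈ W).card : ℝ) := by
    congr!
  have e1 : ((T.filter fun z => ![∃ i, z i ∈ W, OutB K W D z, OutX h hW D L z,
    OutA h hW D L z, OutE h hW D L z] 1).card : ℝ) = ((T.filter fun z => OutB K W D z).card : ℝ) := rfl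
  have e2 : ((T.filter fun z => ![∃ i, z i ∈ W, OutB K W D z, OutX h hW D L z,
    OutA h hW D L z, OutE h hW D L z] 2).card : ℝ) = ((T.filter fun z => OutX h hW D L z).card : ℝ) := rfl
  have e3 : ((T.filter fun z => ![∃ i, z i ∈ W, OutB K W D z, OutX h hW D L z,
    OutA h hW D L z, OutE h hW D L z] 3).card : ℝ) = ((T.filter fun z => OutA h hW D L z).card : ℝ) := rfl
  have e4 : ((T.filter fun z => ![∃ i, z i ∈ W, OutB K W D z, OutX h hW D L z,
    OutA h hW D L z, OutE h hW D L z] 4).card : ℝ) = ((T.filter fun z => OutE h hW D L z).card : ℝ) := rfl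
  rw [e0, e1, e2, e3, e4] at hsum
  linarith

end Pool.Agent.F32P
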