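import Pool.Agent.F32P.St2

/-!
# F32P, module COVA: counting of OutA
-/

set_option autoImplicit false

namespace Pool.Agent.F32P

open Finset

namespace COVAm

section
variable {ι : Type}

lemma pow_sub {α : Type} (g : Equiv.Perm α) (a b : ℕ) (q : α) :
    (g ^ ((b : ℤ) - a)) ((g ^ a) q) = (g ^ b) q := by
  rw [← zpow_natCast g a, ← zpow_natCast g b, ← Equiv.Perm.mul_apply, ← zpow_add,
    sub_add_cancel]

lemma zpow_sub' {α : Type} (g : Equiv.Perm α) (a : ℕ) (b : ℤ) (q : α) :
    (g ^ (b - a)) ((g ^ a) q) = (g ^ b) q := by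
  rw [← zpow_natCast g a, ← Equiv.Perm.mul_apply, ← zpow_add, sub_add_cancel]

lemma pow_neg' {α : Type} (g : Equiv.Perm α) (a : ℕ) (q : α) :
    (g ^ (-(a : ℤ))) ((g ^ a) q) = q := by
  rw [← zpow_natCast g a, ← Equiv.Perm.mul_apply, ← zpow_add, neg_add_cancel, zpow_zero]
  rfl

lemma third (i j k t : Fin 3) (h1 : i ≠ j) (h2 : j ≠ k) (h3 : i ≠ k) (h4 : ¬ t = i)
    (h5 : ¬ t = j) : t = k := by
  rw [Ne, Fin.ext_iff] at h1 h2 h3
  rw [Fin.ext_iff] at h4 h5 ⊢
  omega

lemma mem_bx {i j k : Fin 3} (hij : i ≠ j) (hjk : j ≠ k) (hik : i ≠ k) {A B C : Finset ι}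
    {z : Fin 3 → ι} (h1 : z i ∈ A) (h2 : z j ∈ B) (h3 : z k ∈ C) :
    ∀ t, z t ∈ bx i j A B C t := by
  intro t
  unfold bx
  by_cases hi : t = i
  · rw [if_pos hi, hi]
    exact h1
  · rw [if_neg hi]
    by_cases hj : t = j
    · rw [if_pos hj, hj]
      exact h2
    · rw [if_neg hj]
      have : t = k := third i j k t hij hjk hik hi hj
      rw [this]
      exact h3

end

end COVAm

open COVAm in
theorem c_COVA (hc : S_CYC) (hm : S_CML) : S_COVA := by
  classical
  intro ι _ _ K S0 h W hW D L T hD hL hLD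
  -- the indicator form
  have hcnt : ∀ S : Fin 3 → Finset ι, cnt T S = ∑ z ∈ T, if ∀ i, z i ∈ S i then 1 else 0 := by
    intro S
    unfold cnt
    rw [Finset.card_filter]
  have hz : ∀ z, OutA h hW D L z → L ^ 3 ≤
      ∑ c ∈ (univ : Finset (Fin 3 × Fin 3)).filter (fun c => c.1 ≠ c.2), ∑ ε : Bool,
      ∑ q : Ch K W, ∑ k ∈ Icc (-(2 * L : ℤ)) (2 * L), ∑ l ∈ Icc (-(2 * L : ℤ)) (2 * L),
        (if ∀ t, z t ∈ (bx c.1 c.2 (Vp K (fq ((tau h hW ^ k) q)))
          (Vp K (fq ((tau h hW ^ l) (if ε then pie h hW q else q)))) (Z2 h hW D L q)) t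
          then 1 else 0) := by
    rintro z ⟨q, i, j, k, hij, hjk, hik, hrun, hk, ε, r, σ, hr, hσ, hj⟩
    have hheavy : D ≤ dg K W (ep q) := by
      have h1 := hrun 0 hL
      exact h1.2.1
    have hr' := abs_le.1 hr
    -- the other chamber
    have hpie : ∀ a < L, (if ε then pie h hW ((tau h hW ^ a) q) else (tau h hW ^ a) q) =
        (tau h hW ^ a) (if ε then pie h hW q else q) := by
      intro a ha
      cases ε with
      | false => rfl
      | true => exact hm ι K S0 h W hW D L (z i) q hD hrun a ha.le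
    -- membership of the boxes
    have hmem : ∀ a < L, ∀ b < L, ∀ l < L, ∀ t, z t ∈ (bx i j
        (Vp K (fq ((tau h hW ^ ((b : ℤ) - a)) ((tau h hW ^ a) q))))
        (Vp K (fq ((tau h hW ^ (r + σ * l - a))
          (if ε then pie h hW ((tau h hW ^ a) q) else (tau h hW ^ a) q))))
        (Z2 h hW D L ((tau h hW ^ a) q))) t := by
      intro a ha b hb l hl
      refine mem_bx hij hjk hik ?_ ?_ ?_
      · rw [pow_sub]
        unfold Vp
        rw [Finset.mem_filter]
        exact ⟨mem_univ _, (hrun b hb).1.2.1⟩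
      · rw [hpie a ha, zpow_sub']
        unfold Vp
        rw [Finset.mem_filter]
        exact ⟨mem_univ _, hj l hl⟩
      · unfold Z2
        rw [Finset.mem_biUnion]
        refine ⟨L - a, ?_, ?_⟩
        · rw [Finset.mem_range]
          omega
        · have h1 : (((L - a : ℕ) : ℤ) - L) = -(a : ℤ) := by
            push_cast [Nat.cast_sub ha.le]
            ring
          rw [h1, pow_neg']
          exact hk
    -- injectivity
    have hinj : ∀ a < L, ∀ a' < L, (tau h hW ^ a) q = (tau h hW ^ a') q → a = a' := by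
      intro a ha a' ha' heq
      exact (hc ι K S0 h W hW q).1 a (by omega) a' (by omega) (by rw [heq])
    have hc1 : (i, j) ∈ (univ : Finset (Fin 3 × Fin 3)).filter (fun c => c.1 ≠ c.2) := by
      rw [Finset.mem_filter]
      exact ⟨mem_univ _, hij⟩
    refine le_trans ?_ (Finset.single_le_sum (f := fun c : Fin 3 × Fin 3 => ∑ ε : Bool,
      ∑ q : Ch K W, ∑ k ∈ Icc (-(2 * L : ℤ)) (2 * L), ∑ l ∈ Icc (-(2 * L : ℤ)) (2 * L),
        (if ∀ t, z t ∈ (bx c.1 c.2 (Vp K (fq ((tau h hW ^ k) q)))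
          (Vp K (fq ((tau h hW ^ l) (if ε then pie h hW q else q)))) (Z2 h hW D L q)) t
          then 1 else 0)) (fun _ _ => Nat.zero_le _) hc1)
    refine le_trans ?_ (Finset.single_le_sum (f := fun ε : Bool =>
      ∑ q : Ch K W, ∑ k ∈ Icc (-(2 * L : ℤ)) (2 * L), ∑ l ∈ Icc (-(2 * L : ℤ)) (2 * L),
        (if ∀ t, z t ∈ (bx i j (Vp K (fq ((tau h hW ^ k) q)))
          (Vp K (fq ((tau h hW ^ l) (if ε then pie h hW q else q)))) (Z2 h hW D L q)) t
          then 1 else 0)) (fun _ _ => Nat.zero_le _) (mem_univ ε))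
    have hsum : (∑ q : Ch K W, ∑ k ∈ Icc (-(2 * L : ℤ)) (2 * L),
        ∑ l ∈ Icc (-(2 * L : ℤ)) (2 * L),
        (if ∀ t, z t ∈ (bx i j (Vp K (fq ((tau h hW ^ k) q)))
          (Vp K (fq ((tau h hW ^ l) (if ε then pie h hW q else q)))) (Z2 h hW D L q)) t
          then 1 else 0)) =
        (((univ : Finset (Ch K W)) ×ˢ (Icc (-(2 * L : ℤ)) (2 * L) ×ˢ
          Icc (-(2 * L : ℤ)) (2 * L))).filter (fun x => ∀ t, z t ∈ (bx i j
          (Vp K (fq ((tau h hW ^ x.2.1) x.1)))
          (Vp K (fq ((tau h hW ^ x.2.2) (if ε then pie h hW x.1 else x.1))))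
          (Z2 h hW D L x.1)) t)).card := by
      rw [Finset.card_filter, Finset.sum_product]
      refine Finset.sum_congr rfl fun q' _ => ?_
      rw [Finset.sum_product]
    refine le_trans ?_ hsum.ge
    have hcard : ((range L) ×ˢ ((range L) ×ˢ (range L))).card = L ^ 3 := by
      rw [Finset.card_product, Finset.card_product, card_range]
      ring
    rw [← hcard]
    refine Finset.card_le_card_of_injOn (fun ab : ℕ × ℕ × ℕ =>
      ((tau h hW ^ ab.1) q, ((ab.2.1 : ℤ) - ab.1), (r + σ * ab.2.2 - ab.1 : ℤ))) ?_ ?_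
    · rintro ⟨a, b, l⟩ hab
      rw [Finset.mem_coe, Finset.mem_product, Finset.mem_product, Finset.mem_range,
        Finset.mem_range, Finset.mem_range] at hab
      rw [Finset.mem_coe, Finset.mem_filter, Finset.mem_product, Finset.mem_product]
      obtain ⟨ha, hb, hl⟩ := hab
      simp only at ha hb hl
      refine ⟨⟨mem_univ _, ?_, ?_⟩, hmem a ha b hb l hl⟩
      · rw [Finset.mem_Icc]
        constructor <;> simp only <;> omega
      · rw [Finset.mem_Icc]
        rcases hσ with rfl | rfl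
        · constructor <;> simp only <;> omega
        · constructor <;> simp only <;> omega
    · rintro ⟨a, b, l⟩ hab ⟨a', b', l'⟩ hab' heq
      rw [Finset.mem_coe, Finset.mem_product, Finset.mem_product, Finset.mem_range,
        Finset.mem_range, Finset.mem_range] at hab hab'
      have h1 : (tau h hW ^ a) q = (tau h hW ^ a') q := congrArg Prod.fst heq
      have h2 : ((b : ℤ) - a) = ((b' : ℤ) - a') := congrArg (fun x => x.2.1) heq
      have h5 : (r + σ * l - a : ℤ) = (r + σ * l' - a' : ℤ) := congrArg (fun x => x.2.2) heq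
      have h3 : a = a' := hinj a hab.1 a' hab'.1 h1
      subst h3
      have h4 : b = b' := by omega
      have h6 : l = l' := by
        rcases hσ with rfl | rfl
        · omega
        · omega
      rw [h4, h6]
  calc (T.filter fun z => OutA h hW D L z).card * L ^ 3
      = ∑ z ∈ T.filter (fun z => OutA h hW D L z), L ^ 3 := by
        rw [Finset.sum_const, smul_eq_mul]
    _ ≤ ∑ z ∈ T.filter (fun z => OutA h hW D L z),
        ∑ c ∈ (univ : Finset (Fin 3 × Fin 3)).filter (fun c => c.1 ≠ c.2), ∑ ε : Bool,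
        ∑ q : Ch K W, ∑ k ∈ Icc (-(2 * L : ℤ)) (2 * L), ∑ l ∈ Icc (-(2 * L : ℤ)) (2 * L),
        (if ∀ t, z t ∈ (bx c.1 c.2 (Vp K (fq ((tau h hW ^ k) q)))
          (Vp K (fq ((tau h hW ^ l) (if ε then pie h hW q else q)))) (Z2 h hW D L q)) t
          then 1 else 0) :=
        Finset.sum_le_sum fun z hz' => hz z (Finset.mem_filter.1 hz').2
    _ ≤ ∑ z ∈ T, ∑ c ∈ (univ : Finset (Fin 3 × Fin 3)).filter (fun c => c.1 ≠ c.2),
        ∑ ε : Bool, ∑ q : Ch K W, ∑ k ∈ Icc (-(2 * L : ℤ)) (2 * L),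
        ∑ l ∈ Icc (-(2 * L : ℤ)) (2 * L),
        (if ∀ t, z t ∈ (bx c.1 c.2 (Vp K (fq ((tau h hW ^ k) q)))
          (Vp K (fq ((tau h hW ^ l) (if ε then pie h hW q else q)))) (Z2 h hW D L q)) t
          then 1 else 0) :=
        Finset.sum_le_sum_of_subset (Finset.filter_subset _ _)
    _ = _ := by
        rw [Finset.sum_comm]
        refine Finset.sum_congr rfl fun c _ => ?_
        rw [Finset.sum_comm]
        refine Finset.sum_congr rfl fun ε _ => ?_
        rw [Finset.sum_comm]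
        refine Finset.sum_congr rfl fun q _ => ?_
        rw [Finset.sum_comm]
        refine Finset.sum_congr rfl fun k _ => ?_
        rw [Finset.sum_comm]
        refine Finset.sum_congr rfl fun l _ => ?_
        rw [hcnt]

end Pool.Agent.F32P
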