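import Pool.Agent.F32P.St2

/-!
# F32P, module COVE: counting of OutE
-/

set_option autoImplicit false

namespace Pool.Agent.F32P

open Finset

namespace COVEm

section
variable {ι : Type}

lemma ep_tau [DecidableEq ι] {K : Conf ι} {S0 : Finset ι} (h : OK K S0) {W : Finset ι} (hW : S0 ⊆ W)
    (q : Ch K W) : ep (tau h hW q) = ep q := rfl

lemma ep_pow [DecidableEq ι] {K : Conf ι} {S0 : Finset ι} (h : OK K S0) {W : Finset ι} (hW : S0 ⊆ W)
    (q : Ch K W) (a : ℕ) : ep ((tau h hW ^ a) q) = ep q := by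
  induction a with
  | zero => rfl
  | succ a ih =>
    rw [pow_succ', Equiv.Perm.mul_apply, ep_tau, ih]

lemma pow_sub {α : Type} (g : Equiv.Perm α) (a b : ℕ) (q : α) :
    (g ^ ((b : ℤ) - a)) ((g ^ a) q) = (g ^ b) q := by
  rw [← zpow_natCast g a, ← zpow_natCast g b, ← Equiv.Perm.mul_apply, ← zpow_add,
    sub_add_cancel]

lemma pow_neg' {α : Type} (g : Equiv.Perm α) (a : ℕ) (q : α) :
    (g ^ (-(a : ℤ))) ((g ^ a) q) = q := by
  rw [← zpow_natCast g a, ← Equiv.Perm.mul_apply, ← zpow_add, neg_add_cancel, zpow_zero]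
  rfl

lemma third (i j k t : Fin 3) (h1 : i ≠ j) (h2 : j ≠ k) (h3 : i ≠ k) (h4 : ¬ t = i)
    (h5 : ¬ t = j) : t = k := by
  rw [Ne, Fin.ext_iff] at h1 h2 h3
  rw [Fin.ext_iff] at h4 h5 ⊢
  omega

lemma mem_bx {i j k : Fin 3} (hij : i ≠ j) (hjk : j ≠ k) (hik : i ≠ k) {A B C : Finset ι}
    {z : Fin 3 → ι} (h1 : z i ∈ A) (h2 : z j ∈ B) (h3 : z k ∈ C) :
    ∀ t, z t ∈ bx i j A B C t := by
  intro t
  unfold bx
  by_cases hi : t = i
  · rw [if_pos hi, hi]
    exact h1
  · rw [if_neg hi]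
    by_cases hj : t = j
    · rw [if_pos hj, hj]
      exact h2
    · rw [if_neg hj]
      have : t = k := third i j k t hij hjk hik hi hj
      rw [this]
      exact h3

end

end COVEm

open COVEm in
theorem c_COVE (hc : S_CYC) : S_COVE := by
  classical
  intro ι _ _ K S0 h W hW D L T hD hL hLD
  -- the indicator form
  have hcnt : ∀ S : Fin 3 → Finset ι, cnt T S = ∑ z ∈ T, if ∀ i, z i ∈ S i then 1 else 0 := by
    intro S
    unfold cnt
    rw [Finset.card_filter]
  have hz : ∀ z, OutE h hW D L z → L ^ 2 ≤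
      ∑ c ∈ (univ : Finset (Fin 3 × Fin 3)).filter (fun c => c.1 ≠ c.2),
      ∑ q : Ch K W, ∑ k ∈ Icc (-(2 * L : ℤ)) (2 * L),
        (if ∀ t, z t ∈ (bx c.1 c.2 (Vp K (fq ((tau h hW ^ k) q))) (Ie K W (ep q))
          (Z2 h hW D L q)) t then 1 else 0) := by
    rintro z ⟨q, i, j, k, hij, hjk, hik, hrun, hk, hj⟩
    have hheavy : D ≤ dg K W (ep q) := by
      have h1 := hrun 0 hL
      exact h1.2.1
    -- membership of the boxes
    have hmem : ∀ a < L, ∀ b < L, ∀ t, z t ∈ (bx i j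
        (Vp K (fq ((tau h hW ^ ((b : ℤ) - a)) ((tau h hW ^ a) q))))
        (Ie K W (ep ((tau h hW ^ a) q))) (Z2 h hW D L ((tau h hW ^ a) q))) t := by
      intro a ha b hb
      refine mem_bx hij hjk hik ?_ ?_ ?_
      · rw [pow_sub]
        unfold Vp
        rw [Finset.mem_filter]
        exact ⟨mem_univ _, (hrun b hb).1.2.1⟩
      · rw [ep_pow]
        exact hj
      · unfold Z2
        rw [Finset.mem_biUnion]
        refine ⟨L - a, ?_, ?_⟩
        · rw [Finset.mem_range]
          omega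
        · have h1 : (((L - a : ℕ) : ℤ) - L) = -(a : ℤ) := by
            push_cast [Nat.cast_sub ha.le]
            ring
          rw [h1, pow_neg']
          exact hk
    -- injectivity
    have hinj : ∀ a < L, ∀ a' < L, (tau h hW ^ a) q = (tau h hW ^ a') q → a = a' := by
      intro a ha a' ha' heq
      exact (hc ι K S0 h W hW q).1 a (by omega) a' (by omega) (by rw [heq])
    have hc1 : (i, j) ∈ (univ : Finset (Fin 3 × Fin 3)).filter (fun c => c.1 ≠ c.2) := by
      rw [Finset.mem_filter]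
      exact ⟨mem_univ _, hij⟩
    refine le_trans ?_ (Finset.single_le_sum (f := fun c : Fin 3 × Fin 3 =>
      ∑ q : Ch K W, ∑ k ∈ Icc (-(2 * L : ℤ)) (2 * L),
        (if ∀ t, z t ∈ (bx c.1 c.2 (Vp K (fq ((tau h hW ^ k) q))) (Ie K W (ep q))
          (Z2 h hW D L q)) t then 1 else 0)) (fun _ _ => Nat.zero_le _) hc1)
    rw [← Finset.sum_product', ← Finset.card_filter]
    have hcard : ((range L) ×ˢ (range L)).card = L ^ 2 := by
      rw [Finset.card_product, card_range, sq]
    rw [← hcard]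
    refine Finset.card_le_card_of_injOn (fun ab : ℕ × ℕ =>
      ((tau h hW ^ ab.1) q, ((ab.2 : ℤ) - ab.1))) ?_ ?_
    · rintro ⟨a, b⟩ hab
      rw [Finset.mem_coe, Finset.mem_product, Finset.mem_range, Finset.mem_range] at hab
      rw [Finset.mem_coe, Finset.mem_filter, Finset.mem_product]
      refine ⟨⟨mem_univ _, ?_⟩, hmem a hab.1 b hab.2⟩
      rw [Finset.mem_Icc]
      constructor <;> simp only <;> omega
    · rintro ⟨a, b⟩ hab ⟨a', b'⟩ hab' heq
      rw [Finset.mem_coe, Finset.mem_product, Finset.mem_range, Finset.mem_range] at hab hab'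
      have h1 : (tau h hW ^ a) q = (tau h hW ^ a') q := congrArg Prod.fst heq
      have h2 : ((b : ℤ) - a) = ((b' : ℤ) - a') := congrArg Prod.snd heq
      have h3 : a = a' := hinj a hab.1 a' hab'.1 h1
      subst h3
      have h4 : b = b' := by omega
      rw [h4]
  calc (T.filter fun z => OutE h hW D L z).card * L ^ 2
      = ∑ z ∈ T.filter (fun z => OutE h hW D L z), L ^ 2 := by
        rw [Finset.sum_const, smul_eq_mul]
    _ ≤ ∑ z ∈ T.filter (fun z => OutE h hW D L z),
        ∑ c ∈ (univ : Finset (Fin 3 × Fin 3)).filter (fun c => c.1 ≠ c.2),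
        ∑ q : Ch K W, ∑ k ∈ Icc (-(2 * L : ℤ)) (2 * L),
        (if ∀ t, z t ∈ (bx c.1 c.2 (Vp K (fq ((tau h hW ^ k) q))) (Ie K W (ep q))
          (Z2 h hW D L q)) t then 1 else 0) :=
        Finset.sum_le_sum fun z hz' => hz z (Finset.mem_filter.1 hz').2
    _ ≤ ∑ z ∈ T, ∑ c ∈ (univ : Finset (Fin 3 × Fin 3)).filter (fun c => c.1 ≠ c.2),
        ∑ q : Ch K W, ∑ k ∈ Icc (-(2 * L : ℤ)) (2 * L),
        (if ∀ t, z t ∈ (bx c.1 c.2 (Vp K (fq ((tau h hW ^ k) q))) (Ie K W (ep q))
          (Z2 h hW D L q)) t then 1 else 0) :=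
        Finset.sum_le_sum_of_subset (Finset.filter_subset _ _)
    _ = _ := by
        rw [Finset.sum_comm]
        refine Finset.sum_congr rfl fun c _ => ?_
        rw [Finset.sum_comm]
        refine Finset.sum_congr rfl fun q _ => ?_
        rw [Finset.sum_comm]
        refine Finset.sum_congr rfl fun k _ => ?_
        rw [hcnt]

end Pool.Agent.F32P
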