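import Pool.Agent.F32P.St2

/-!
# F32P, module CYC: the facets around a pair form one cycle (helper30)
-/

set_option autoImplicit false

namespace Pool.Agent.F32P

open Finset

namespace FCYC

variable {ι : Type} [DecidableEq ι] {K : Conf ι} {S0 : Finset ι} (h : OK K S0) {W : Finset ι}
  (hW : S0 ⊆ W)

private lemma tau_rev (q : Ch K W) :
    tau h hW (rev K W q) = rev K W ((tau h hW)⁻¹ q) := rfl

private lemma inv_rev (q : Ch K W) :
    (tau h hW)⁻¹ (rev K W q) = rev K W (tau h hW q) := by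
  have h1 := tau_rev h hW (tau h hW q)
  rw [Equiv.Perm.inv_def, Equiv.symm_apply_apply] at h1
  rw [Equiv.Perm.inv_eq_iff_eq]
  exact h1.symm

private lemma fst_zpow (i : ℤ) : ∀ q : Ch K W,
    ((tau h hW ^ i) q).1.1 = q.1.1 ∧ ((tau h hW ^ i) q).1.2.1 = q.1.2.1 := by
  induction i using Int.induction_on with
  | zero => intro q; exact ⟨rfl, rfl⟩
  | succ i ih =>
    intro q
    rw [zpow_add_one, Equiv.Perm.mul_apply]
    exact ⟨(ih _).1, (ih _).2⟩
  | pred i ih =>
    intro q
    rw [zpow_sub_one, Equiv.Perm.mul_apply]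
    exact ⟨(ih _).1, (ih _).2⟩

private lemma ep_zpow (i : ℤ) (q : Ch K W) : ep ((tau h hW ^ i) q) = ep q := by
  unfold ep
  rw [(fst_zpow h hW i q).1, (fst_zpow h hW i q).2]

private lemma fq_rev (q : Ch K W) : fq (rev K W q) = fq q := fs_rv q.1

private lemma eq_or_rev (q r : Ch K W) (h1 : q.1.1 = r.1.1) (h2 : q.1.2.1 = r.1.2.1)
    (h3 : fq q = fq r) : q = r ∨ q = rev K W r := by
  obtain ⟨⟨v, a, w, z⟩, hq⟩ := q
  obtain ⟨⟨v', a', w', z'⟩, hr⟩ := r
  simp only at h1 h2
  subst h1 h2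
  obtain ⟨g1, g2, g3, g4, g5, g6⟩ := fs_four (mem_Fc.1 hq).2.1
  have h3' : fs (v, a, w, z) = fs (v, a, w', z') := h3
  have hw : w ∈ fs (v, a, w', z') := by
    rw [← h3']
    simp [fs]
  have hz : z ∈ fs (v, a, w', z') := by
    rw [← h3']
    simp [fs]
  simp only [fs, mem_insert, mem_singleton] at hw hz
  have hw' : w = w' ∨ w = z' := by
    rcases hw with h4 | h4 | h4 | h4
    · exact absurd h4.symm g2
    · exact absurd h4.symm g4
    · exact Or.inl h4
    · exact Or.inr h4
  have hz' : z = w' ∨ z = z' := by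
    rcases hz with h4 | h4 | h4 | h4
    · exact absurd h4.symm g3
    · exact absurd h4.symm g5
    · exact Or.inl h4
    · exact Or.inr h4
  rcases hw' with h4 | h4 <;> rcases hz' with h5 | h5
  · exact absurd (h4.trans h5.symm) g6
  · left
    subst h4 h5
    rfl
  · right
    subst h4 h5
    rfl
  · exact absurd (h4.trans h5.symm) g6

private lemma rev_ne (q : Ch K W) : q ≠ rev K W q := by
  obtain ⟨⟨v, a, w, z⟩, hq⟩ := q
  obtain ⟨-, -, -, -, -, g6⟩ := fs_four (mem_Fc.1 hq).2.1
  intro h1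
  have h2 := congrArg (fun q : Ch K W => q.1.2.2.1) h1
  exact g6 h2

private lemma tau_ne_rev (q : Ch K W) : tau h hW q ≠ rev K W q := by
  obtain ⟨⟨v, a, w, z⟩, hq⟩ := q
  intro h1
  have h2 := congrArg (fun q : Ch K W => q.1.2.2.2) h1
  exact (tq_spec h hW hq).1 h2

private lemma tau_ne (q : Ch K W) : tau h hW q ≠ q := by
  obtain ⟨⟨v, a, w, z⟩, hq⟩ := q
  obtain ⟨-, -, -, -, -, g6⟩ := fs_four (mem_Fc.1 hq).2.1
  intro h1
  have h2 := congrArg (fun q : Ch K W => q.1.2.2.1) h1
  exact g6 h2.symm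

private lemma tau_ne_inv (q : Ch K W) : tau h hW q ≠ (tau h hW)⁻¹ q := by
  obtain ⟨⟨v, a, w, z⟩, hq⟩ := q
  intro h1
  have h2 := congrArg (fun q : Ch K W => q.1.2.2.2) h1
  exact (tq_spec h hW hq).1 h2

private lemma closed (q : Ch K W) (t : Finset ι) (ht : t ∈ Fc K W) (he : ep q ⊆ t)
    (hc : (fq q ∩ t).card = 3) : t = fq (tau h hW q) ∨ t = fq ((tau h hW)⁻¹ q) := by
  obtain ⟨⟨v, a, w, z⟩, hq⟩ := q
  obtain ⟨g1, g2, g3, g4, g5, g6⟩ := fs_four (mem_Fc.1 hq).2.1
  have hv : v ∈ t := he (by simp [ep])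
  have ha : a ∈ t := he (by simp [ep])
  have hne : t ≠ fs (v, a, w, z) := by
    rintro rfl
    have : fq (⟨(v, a, w, z), hq⟩ : Ch K W) ∩ fs (v, a, w, z) = fs (v, a, w, z) := inter_self _
    rw [this, (mem_Fc.1 hq).2.1] at hc
    omega
  have hwz : w ∈ t ∨ z ∈ t := by
    by_contra hcon
    push Not at hcon
    have hsub : fq (⟨(v, a, w, z), hq⟩ : Ch K W) ∩ t ⊆ {v, a} := by
      intro i hi
      rw [mem_inter] at hi
      have h1 : i ∈ fs (v, a, w, z) := hi.1
      simp only [fs, mem_insert, mem_singleton] at h1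
      rcases h1 with rfl | rfl | rfl | rfl
      · simp
      · simp
      · exact absurd hi.2 hcon.1
      · exact absurd hi.2 hcon.2
    have := card_le_card hsub
    have h2 : ({v, a} : Finset ι).card ≤ 2 := card_le_two
    omega
  rcases hwz with hw | hz
  · right
    have hq' : fs (v, a, z, w) ∈ Fc K W := by
      have := hq
      rwa [← fs_rv] at this
    rcases (tq_spec h hW hq').2.2.2.1 t ht (by
      intro i hi
      simp only [mem_insert, mem_singleton] at hi
      rcases hi with rfl | rfl | rfl <;> assumption) with h1 | h1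
    · exfalso
      apply hne
      rw [h1]
      exact fs_rv (v, a, w, z)
    · rw [h1]
      exact (fs_rv (tq K W (v, a, z, w))).symm
  · left
    rcases (tq_spec h hW hq).2.2.2.1 t ht (by
      intro i hi
      simp only [mem_insert, mem_singleton] at hi
      rcases hi with rfl | rfl | rfl <;> assumption) with h1 | h1
    · exact absurd h1 hne
    · exact h1

end FCYC

open FCYC in
theorem c_CYC : S_CYC := by
  classical
  intro ι _ _ K S0 h W hW q
  set τ := tau h hW with hτ
  -- the period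
  have hex : ∃ N, 0 < N ∧ (τ ^ N) q = q := by
    refine ⟨orderOf τ, orderOf_pos τ, ?_⟩
    rw [pow_orderOf_eq_one]
    rfl
  set N := Nat.find hex with hN
  have hNpos : 0 < N := (Nat.find_spec hex).1
  have hNq : (τ ^ N) q = q := (Nat.find_spec hex).2
  have hmin : ∀ m, 0 < m → m < N → (τ ^ m) q ≠ q := fun m hm hmN hq =>
    Nat.find_min hex hmN ⟨hm, hq⟩
  have hpow : ∀ i : ℕ, ((τ ^ i) q).1.1 = q.1.1 ∧ ((τ ^ i) q).1.2.1 = q.1.2.1 := fun i => by
    have := fst_zpow h hW (i : ℤ) q
    rwa [zpow_natCast] at this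
  -- injectivity
  have hlt : ∀ i j : ℕ, i < j → j < N → fq ((τ ^ i) q) ≠ fq ((τ ^ j) q) := by
    intro i j hij hjN heq
    rcases eq_or_rev ((τ ^ j) q) ((τ ^ i) q) ((hpow j).1.trans (hpow i).1.symm)
      ((hpow j).2.trans (hpow i).2.symm) heq.symm with h1 | h1
    · refine hmin (j - i) (by omega) (by omega) ?_
      have h2 : (τ ^ i) ((τ ^ (j - i)) q) = (τ ^ i) q := by
        rw [← Equiv.Perm.mul_apply, ← pow_add, Nat.add_sub_cancel' hij.le, h1]
      exact (τ ^ i).injective h2
    · have hk : ∀ k ≤ j, (τ ^ (j - k)) q = rev K W ((τ ^ (i + k)) q) := by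
        intro k
        induction k with
        | zero => intro _; simpa using h1
        | succ k ih =>
          intro hk
          have h2 := ih (by omega)
          have h3 : (τ ^ (j - k)) q = τ ((τ ^ (j - (k + 1))) q) := by
            rw [← Equiv.Perm.mul_apply, ← pow_succ']
            congr 2
            omega
          rw [h3] at h2
          have h4 : (τ ^ (j - (k + 1))) q = τ⁻¹ (rev K W ((τ ^ (i + k)) q)) := by
            rw [← h2, Equiv.Perm.inv_def, Equiv.symm_apply_apply]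
          rw [h4, inv_rev h hW, ← hτ, ← add_assoc, pow_succ' τ (i + k), Equiv.Perm.mul_apply]
      rcases Nat.even_or_odd' (j - i) with ⟨k, hk2 | hk2⟩
      · have h5 := hk k (by omega)
        have h6 : j - k = i + k := by omega
        rw [h6] at h5
        exact rev_ne _ h5
      · have h5 := hk k (by omega)
        have h6 : j - k = (i + k) + 1 := by omega
        rw [h6, pow_succ', Equiv.Perm.mul_apply] at h5
        exact tau_ne_rev h hW _ h5
  have hinj : ∀ i j : ℕ, i < N → j < N → fq ((τ ^ i) q) = fq ((τ ^ j) q) → i = j := by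
    intro i j hi hj heq
    rcases lt_trichotomy i j with h1 | h1 | h1
    · exact absurd heq (hlt i j h1 hj)
    · exact h1
    · exact absurd heq.symm (hlt j i h1 hi)
  -- reduction of the exponents
  have hred : ∀ i : ℤ, ∃ j < N, (τ ^ i) q = (τ ^ j) q := by
    intro i
    have hN0 : (N : ℤ) ≠ 0 := by exact_mod_cast hNpos.ne'
    refine ⟨(i % N).toNat, ?_, ?_⟩
    · have h1 := Int.emod_nonneg i hN0
      have h2 := Int.emod_lt_of_pos i (by exact_mod_cast hNpos : (0 : ℤ) < N)
      omega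
    · have h1 : i = i % N + N * (i / N) := (Int.emod_add_mul_ediv i N).symm
      have h2 : (τ ^ ((N : ℤ) * (i / N))) q = q := by
        rw [zpow_mul, zpow_natCast]
        exact Equiv.Perm.zpow_apply_eq_self_of_apply_eq_self hNq _
      conv_lhs => rw [h1, zpow_add, Equiv.Perm.mul_apply, h2]
      rw [← zpow_natCast, Int.toNat_of_nonneg (Int.emod_nonneg i hN0)]
  -- the image
  set S : Finset (Finset ι) := (range N).image fun i => fq ((τ ^ i) q) with hS
  have hmemSt : ∀ i : ℤ, fq ((τ ^ i) q) ∈ St K W (ep q) := by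
    intro i
    refine mem_St.2 ⟨((τ ^ i) q).2, ?_⟩
    have h1 := ep_zpow h hW i q
    rw [← h1]
    intro y hy
    have hy' : y = ((τ ^ i) q).1.1 ∨ y = ((τ ^ i) q).1.2.1 := by
      simpa only [ep, mem_insert, mem_singleton] using hy
    show y ∈ fs ((τ ^ i) q).1
    simp only [fs, mem_insert, mem_singleton]
    tauto
  have hmemS : ∀ i : ℤ, fq ((τ ^ i) q) ∈ S := by
    intro i
    obtain ⟨j, hj, he⟩ := hred i
    rw [he, hS, mem_image]
    exact ⟨j, mem_range.2 hj, rfl⟩
  have hecard : (ep q).card = 2 := by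
    obtain ⟨⟨v, a, w, z⟩, hq⟩ := q
    exact card_pair (fs_four (mem_Fc.1 hq).2.1).1
  have hSsub : S ⊆ St K W (ep q) := by
    intro s hs
    obtain ⟨i, -, rfl⟩ := mem_image.1 hs
    have := hmemSt (i : ℤ)
    rwa [zpow_natCast] at this
  have hSt : S = St K W (ep q) := by
    refine h.conn W hW (ep q) hecard S hSsub ⟨fq ((τ ^ (0 : ℤ)) q), hmemS 0⟩ ?_
    intro s hs t ht hc
    obtain ⟨i, -, rfl⟩ := mem_image.1 hs
    obtain ⟨ht1, ht2⟩ := mem_St.1 ht
    have h1 : ep ((τ ^ i) q) ⊆ t := by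
      have := ep_zpow h hW (i : ℤ) q
      rw [zpow_natCast] at this
      rw [this]
      exact ht2
    rcases closed h hW ((τ ^ i) q) t ht1 h1 hc with h2 | h2
    · have h3 : τ ((τ ^ i) q) = (τ ^ ((i : ℤ) + 1)) q := by
        rw [add_comm, zpow_add, zpow_one, Equiv.Perm.mul_apply, zpow_natCast]
      rw [h2, ← hτ, h3]
      exact hmemS _
    · have h3 : τ⁻¹ ((τ ^ i) q) = (τ ^ (-1 + (i : ℤ))) q := by
        rw [zpow_add, zpow_neg_one, Equiv.Perm.mul_apply, zpow_natCast]
      rw [h2, ← hτ, h3]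
      exact hmemS _
  have hcard : dg K W (ep q) = N := by
    rw [dg, ← hSt, hS, card_image_of_injOn, card_range]
    intro i hi j hj hij
    exact hinj i j (by simpa using hi) (by simpa using hj) hij
  rw [hcard]
  refine ⟨fun i hi j hj hij => hinj i j hi hj hij, hNq, fun s hs => ?_, ?_⟩
  · rw [← hSt, hS, mem_image] at hs
    obtain ⟨i, hi, hs⟩ := hs
    exact ⟨i, mem_range.1 hi, hs⟩
  · by_contra hcon
    have h12 : N = 1 ∨ N = 2 := by omega
    rcases h12 with h1 | h1
    · rw [h1, pow_one] at hNq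
      exact tau_ne h hW q hNq
    · rw [h1, pow_two, Equiv.Perm.mul_apply] at hNq
      refine tau_ne_inv h hW q ?_
      rw [← hτ, Equiv.Perm.eq_inv_iff_eq]
      exact hNq

end Pool.Agent.F32P
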