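import Pool.Agent.F32P.St2

/-! # F32P: direction of a typical incidence (helper85) -/

set_option autoImplicit false

namespace Pool.Agent.F32P

open Finset

theorem dir_fs_tq {ι : Type} [DecidableEq ι] (K : Conf ι) (W : Finset ι) (v a w z : ι) :
    fs (tq K W (v, a, w, z)) = insert (oth K W {v, a, z} w) {v, a, z} := by
  ext i
  simp only [fs, tq, mem_insert, mem_singleton]
  tauto

theorem dir_fs_tq_rv {ι : Type} [DecidableEq ι] (K : Conf ι) (W : Finset ι) (v a w z : ι) :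
    fs (rv (tq K W (rv (v, a, w, z)))) = insert (oth K W {v, a, w} z) {v, a, w} := by
  rw [fs_rv]
  exact dir_fs_tq K W v a z w

theorem dir_fq_tau {ι : Type} [DecidableEq ι] {K : Conf ι} {S0 : Finset ι} (h : OK K S0)
    {W : Finset ι} (hW : S0 ⊆ W) (v a w z : ι) (hq : fs (v, a, w, z) ∈ Fc K W) (R : Finset ι)
    (hR : ({v, a, z} : Finset ι) = R) :
    fq (tau h hW ⟨(v, a, w, z), hq⟩) = insert (oth K W R w) R := by
  subst hR
  exact dir_fs_tq K W v a w z

theorem dir_fq_tau_inv {ι : Type} [DecidableEq ι] {K : Conf ι} {S0 : Finset ι} (h : OK K S0)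
    {W : Finset ι} (hW : S0 ⊆ W) (v a w z : ι) (hq : fs (v, a, w, z) ∈ Fc K W) (R : Finset ι)
    (hR : ({v, a, w} : Finset ι) = R) :
    fq ((tau h hW)⁻¹ ⟨(v, a, w, z), hq⟩) = insert (oth K W R z) R := by
  subst hR
  exact dir_fs_tq_rv K W v a w z

/-- the dir_light pairs of a normal facet -/
theorem dir_light {ι : Type} [DecidableEq ι] {K : Conf ι} {W : Finset ι} {D : ℕ} {v a w z : ι}
    (hD : 5 ≤ D) (hcard : (fs (v, a, w, z)).card = 4) (hN : NF K W D (fs (v, a, w, z)))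
    (hdg : D ≤ dg K W {v, a}) (p r : ι) (hp : p = v ∨ p = a) (hr : r = w ∨ r = z) :
    ({p, r} : Finset ι) ⊆ fs (v, a, w, z) ∧ ({p, r} : Finset ι).card = 2 ∧
      dg K W {p, r} = 4 := by
  obtain ⟨hva, hvw, hvz, haw, haz, hwz⟩ := fs_four hcard
  obtain ⟨e, hes, hec, he1, he2, he3⟩ := hN
  have hcva : ({v, a} : Finset ι).card = 2 := card_pair hva
  have hsub : ({v, a} : Finset ι) ⊆ fs (v, a, w, z) := by
    intro i; simp only [fs, mem_insert, mem_singleton]; tauto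
  have key : ∀ f : Finset ι, f ⊆ fs (v, a, w, z) → f.card = 2 → f ≠ {v, a} →
      f ≠ fs (v, a, w, z) \ {v, a} → dg K W f = 4 := by
    intro f hf hf2 h1 h2
    by_cases hE : ({v, a} : Finset ι) = e
    · exact he3 f hf hf2 (hE ▸ h1) (hE ▸ h2)
    · by_cases hE' : ({v, a} : Finset ι) = fs (v, a, w, z) \ e
      · have : fs (v, a, w, z) \ {v, a} = e := by
          rw [hE', Finset.sdiff_sdiff_eq_self hes]
        refine he3 f hf hf2 ?_ ?_
        · rw [← this]; exact h2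
        · rw [← hE']; exact h1
      · have := he3 {v, a} hsub hcva hE hE'
        omega
  have hpr : p ≠ r := by
    rcases hp with rfl | rfl <;> rcases hr with rfl | rfl <;> assumption
  have h1 : ({p, r} : Finset ι) ⊆ fs (v, a, w, z) := by
    intro i
    simp only [fs, mem_insert, mem_singleton]
    rcases hp with rfl | rfl <;> rcases hr with rfl | rfl <;> tauto
  have h2 : ({p, r} : Finset ι).card = 2 := card_pair hpr
  refine ⟨h1, h2, key _ h1 h2 ?_ ?_⟩
  · intro hE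
    have : r ∈ ({v, a} : Finset ι) := by
      rw [← hE]; simp
    simp only [mem_insert, mem_singleton] at this
    rcases hr with rfl | rfl <;> rcases this with h | h
    · exact hvw h.symm
    · exact haw h.symm
    · exact hvz h.symm
    · exact haz h.symm
  · intro hE
    have : p ∈ fs (v, a, w, z) \ {v, a} := by
      rw [← hE]; simp
    simp only [mem_sdiff, mem_insert, mem_singleton, not_or] at this
    rcases hp with rfl | rfl
    · exact this.2.1 rfl
    · exact this.2.2 rfl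

theorem dir_fs_p1 {ι : Type} [DecidableEq ι] (v a w z : ι) : fs (v, w, a, z) = fs (v, a, w, z) := by
  ext i; simp only [fs, mem_insert, mem_singleton]; tauto
theorem dir_fs_p2 {ι : Type} [DecidableEq ι] (v a w z : ι) : fs (v, z, a, w) = fs (v, a, w, z) := by
  ext i; simp only [fs, mem_insert, mem_singleton]; tauto
theorem dir_fs_p3 {ι : Type} [DecidableEq ι] (v a w z : ι) : fs (a, w, v, z) = fs (v, a, w, z) := by
  ext i; simp only [fs, mem_insert, mem_singleton]; tauto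
theorem dir_fs_p4 {ι : Type} [DecidableEq ι] (v a w z : ι) : fs (a, z, v, w) = fs (v, a, w, z) := by
  ext i; simp only [fs, mem_insert, mem_singleton]; tauto
theorem dir_fs_p5 {ι : Type} [DecidableEq ι] (v a w z : ι) : fs (w, z, v, a) = fs (v, a, w, z) := by
  ext i; simp only [fs, mem_insert, mem_singleton]; tauto

theorem dir_tr1 {ι : Type} [DecidableEq ι] (v a w : ι) : ({v, w, a} : Finset ι) = {v, a, w} := by
  ext i; simp only [mem_insert, mem_singleton]; tauto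
theorem dir_tr2 {ι : Type} [DecidableEq ι] (v a w : ι) : ({a, w, v} : Finset ι) = {v, a, w} := by
  ext i; simp only [mem_insert, mem_singleton]; tauto

theorem c_DIR (ht : S_TWO) (_ : S_CYC) : S_DIR := by
  intro ι _ _ K S0 h W hW D x q hx hD hT hdg
  obtain ⟨⟨v, a, w, z⟩, hq⟩ := q
  have hcard : (fs (v, a, w, z)).card = 4 := (mem_Fc.1 hq).2.1
  obtain ⟨hsF, hvis, ⟨hN, _⟩, hTy⟩ := hT
  have hdeg := fun p r hp hr => dir_light (K := K) (W := W) hD hcard hN hdg p r hp hr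
  have m1 : fs (v, w, a, z) ∈ Fc K W := dir_fs_p1 v a w z ▸ hq
  have m2 : fs (v, z, a, w) ∈ Fc K W := dir_fs_p2 v a w z ▸ hq
  have m3 : fs (a, w, v, z) ∈ Fc K W := dir_fs_p3 v a w z ▸ hq
  have m4 : fs (a, z, v, w) ∈ Fc K W := dir_fs_p4 v a w z ▸ hq
  have m5 : fs (w, z, v, a) ∈ Fc K W := dir_fs_p5 v a w z ▸ hq
  have T : ∀ (c : Ch K W), fq c = fs (v, a, w, z) → (∃ p r : ι, (p = v ∨ p = a) ∧ (r = w ∨ r = z) ∧
      ep c = {p, r}) → (K.vis x (fq (tau h hW c)) ↔ ¬ K.vis x (fq ((tau h hW)⁻¹ c))) := by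
    rintro c hc ⟨p, r, hp, hr, hpr⟩
    obtain ⟨g1, g2, g3⟩ := hdeg p r hp hr
    refine ht ι K S0 h W hW x c hx ?_ ?_ ?_
    · rw [hpr]; exact g3
    · rw [hpr]; exact hTy _ g1 g2 g3
    · rw [hc]; exact hvis
  have t1 := T ⟨(v, w, a, z), m1⟩ (dir_fs_p1 v a w z) ⟨v, w, Or.inl rfl, Or.inl rfl, rfl⟩
  have t2 := T ⟨(v, z, a, w), m2⟩ (dir_fs_p2 v a w z) ⟨v, z, Or.inl rfl, Or.inr rfl, rfl⟩
  have t3 := T ⟨(a, w, v, z), m3⟩ (dir_fs_p3 v a w z) ⟨a, w, Or.inr rfl, Or.inl rfl, rfl⟩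
  have t4 := T ⟨(a, z, v, w), m4⟩ (dir_fs_p4 v a w z) ⟨a, z, Or.inr rfl, Or.inr rfl, rfl⟩
  rw [dir_fq_tau h hW v w a z m1 ({v, w, z} : Finset ι) rfl,
    dir_fq_tau_inv h hW v w a z m1 ({v, a, w} : Finset ι) (dir_tr1 v a w)] at t1
  rw [dir_fq_tau h hW v z a w m2 ({v, w, z} : Finset ι) (dir_tr1 v w z),
    dir_fq_tau_inv h hW v z a w m2 ({v, a, z} : Finset ι) (dir_tr1 v a z)] at t2
  rw [dir_fq_tau h hW a w v z m3 ({a, w, z} : Finset ι) rfl,
    dir_fq_tau_inv h hW a w v z m3 ({v, a, w} : Finset ι) (dir_tr2 v a w)] at t3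
  rw [dir_fq_tau h hW a z v w m4 ({a, w, z} : Finset ι) (dir_tr1 a w z),
    dir_fq_tau_inv h hW a z v w m4 ({v, a, z} : Finset ι) (dir_tr2 v a z)] at t4
  have g1 := dir_fq_tau h hW v a w z hq ({v, a, z} : Finset ι) rfl
  have g2 := dir_fq_tau_inv h hW v a w z hq ({v, a, w} : Finset ι) rfl
  have g3 : fq (tau h hW (xch K W ⟨(v, a, w, z), hq⟩)) =
      insert (oth K W {a, w, z} v) {a, w, z} :=
    dir_fq_tau h hW w z v a m5 ({a, w, z} : Finset ι) (dir_tr2 a w z)
  have g4 : fq ((tau h hW)⁻¹ (xch K W ⟨(v, a, w, z), hq⟩)) =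
      insert (oth K W {v, w, z} a) {v, w, z} :=
    dir_fq_tau_inv h hW w z v a m5 ({v, w, z} : Finset ι) (dir_tr2 v w z)
  rw [g1, g2, g3, g4]
  clear T hdeg hTy g1 g2 g3 g4
  generalize K.vis x (insert (oth K W {v, w, z} a) {v, w, z}) = A at t1 t2 ⊢
  generalize K.vis x (insert (oth K W {v, a, w} z) {v, a, w}) = B at t1 t3 ⊢
  generalize K.vis x (insert (oth K W {v, a, z} w) {v, a, z}) = C at t2 t4 ⊢
  generalize K.vis x (insert (oth K W {a, w, z} v) {a, w, z}) = E at t3 t4 ⊢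
  refine ⟨⟨fun hC => ?_, fun hB => ?_⟩, ⟨fun hE => ?_, fun hA => ?_⟩, ⟨fun hE => ?_, fun hC => ?_⟩⟩
  · by_contra hB
    exact (t2.1 (t1.2 hB)) hC
  · by_contra hC
    exact (t1.1 (t2.2 hC)) hB
  · by_contra hA
    have hB : B := by
      by_contra hB
      exact hA (t1.2 hB)
    exact t3.1 hE hB
  · exact t3.2 (t1.1 hA)
  · exact t4.1 hE
  · exact t4.2 hC

end Pool.Agent.F32P
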