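import Pool.Agent.F32P.St2

/-!
# F32P, module E4: three elements which see facets over a pair of degree 4
-/

set_option autoImplicit false

namespace Pool.Agent.F32P

open Finset

section E4

variable {ι : Type} [DecidableEq ι] {K : Conf ι} {S0 : Finset ι}

private lemma e4_rev_rev {W : Finset ι} (q : Ch K W) : rev K W (rev K W q) = q := rfl

private lemma e4_fq_rev {W : Finset ι} (q : Ch K W) : fq (rev K W q) = fq q := fs_rv q.1

private lemma e4_fq_swp {W : Finset ι} (q : Ch K W) : fq (swp K W q) = fq q := fs_sw q.1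

private lemma e4_semi (h : OK K S0) {W : Finset ι} (hW : S0 ⊆ W) :
    SemiconjBy (rev K W) (tau h hW) (tau h hW)⁻¹ := by
  ext q : 1
  rfl

private lemma e4_zpow (h : OK K S0) {W : Finset ι} (hW : S0 ⊆ W) (m : ℤ) (q : Ch K W) :
    rev K W ((tau h hW ^ m) q) = (tau h hW ^ (-m)) (rev K W q) := by
  have h1 := (e4_semi h hW).zpow_right m
  have h2 := congrArg (fun f : Equiv.Perm (Ch K W) => f q) h1.eq
  simpa [Equiv.Perm.mul_apply] using h2

private lemma e4_swp (h : OK K S0) {W : Finset ι} (hW : S0 ⊆ W) :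
    SemiconjBy (swp K W) (tau h hW) (tau h hW) := by
  ext q : 1
  apply Subtype.ext
  obtain ⟨⟨v, a, w, z⟩, hq⟩ := q
  change sw (tq K W (v, a, w, z)) = tq K W (sw (v, a, w, z))
  simp only [sw, tq]
  rw [insert_comm v a]

private lemma e4_swp_pow (h : OK K S0) {W : Finset ι} (hW : S0 ⊆ W) (m : ℕ) (q : Ch K W) :
    swp K W ((tau h hW ^ m) q) = (tau h hW ^ m) (swp K W q) := by
  have h1 := (e4_swp h hW).pow_right m
  have h2 := congrArg (fun f : Equiv.Perm (Ch K W) => f q) h1.eq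
  simpa [Equiv.Perm.mul_apply] using h2

private lemma e4_pie (h : OK K S0) {W : Finset ι} (hW : S0 ⊆ W) (q : Ch K W) :
    pie h hW (rev K W q) = rev K W (pie h hW q) := by
  apply Subtype.ext
  obtain ⟨⟨v, a, w, z⟩, hq⟩ := q
  change pq K W (rv (v, a, w, z)) = rv (pq K W (v, a, w, z))
  simp only [rv, pq]
  rw [pair_comm z w]

/-- the relation between two chambers -/
private def E4R (h : OK K S0) {W : Finset ι} (hW : S0 ⊆ W) (q y : Ch K W) : Prop :=
  ∃ (ε : Bool) (r : ℤ), |r| ≤ 1 ∧ (y = (tau h hW ^ r) (if ε then pie h hW q else q) ∨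
    y = rev K W ((tau h hW ^ r) (if ε then pie h hW q else q)))

private lemma e4r_rev (h : OK K S0) {W : Finset ι} (hW : S0 ⊆ W) {q y : Ch K W}
    (hr : E4R h hW q y) : E4R h hW (rev K W q) y := by
  obtain ⟨ε, r, h1, h2⟩ := hr
  have e : (if ε then pie h hW (rev K W q) else rev K W q) =
      rev K W (if ε then pie h hW q else q) := by
    cases ε
    · rfl
    · simp only [if_true]
      exact e4_pie h hW q
  refine ⟨ε, -r, by rwa [abs_neg], ?_⟩
  rw [e]
  rcases h2 with h2 | h2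
  · right
    rw [e4_zpow, neg_neg, e4_rev_rev]
    exact h2
  · left
    rw [h2, e4_zpow]

private lemma e4r_fin (h : OK K S0) {W : Finset ι} (hW : S0 ⊆ W) {D L : ℕ} {x : ι}
    {q y : Ch K W} (hr : E4R h hW q y) (hy : LRun h hW D L x y) :
    ∃ (ε : Bool) (r σ : ℤ), |r| ≤ 1 ∧ (σ = 1 ∨ σ = -1) ∧
      ∀ l : ℕ, l < L → K.vis x (fq ((tau h hW ^ (r + σ * l)) (if ε then pie h hW q else q))) := by
  obtain ⟨ε, r, h1, h2⟩ := hr
  rcases h2 with h2 | h2
  · refine ⟨ε, r, 1, h1, Or.inl rfl, fun l hl => ?_⟩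
    have h3 := (hy l hl).1.2.1
    rw [h2] at h3
    have e : (tau h hW ^ (r + 1 * (l : ℤ))) (if ε then pie h hW q else q) =
        (tau h hW ^ l) ((tau h hW ^ r) (if ε then pie h hW q else q)) := by
      rw [one_mul, add_comm, zpow_add, zpow_natCast]
      rfl
    rw [e]
    exact h3
  · refine ⟨ε, r, -1, h1, Or.inr rfl, fun l hl => ?_⟩
    have h3 := (hy l hl).1.2.1
    rw [h2] at h3
    have e : (tau h hW ^ l) (rev K W ((tau h hW ^ r) (if ε then pie h hW q else q))) =
        rev K W ((tau h hW ^ (r + -1 * (l : ℤ))) (if ε then pie h hW q else q)) := by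
      rw [e4_zpow, e4_zpow, ← zpow_natCast, ← Equiv.Perm.mul_apply, ← zpow_add]
      congr 2
      ring
    rw [e, e4_fq_rev] at h3
    exact h3

/-- the heavy partner of an element of a normal facet -/
private lemma e4_hv {W : Finset ι} {D : ℕ} {s : Finset ι} (hs : NF K W D s) (hc : s.card = 4)
    {v : ι} (hv : v ∈ s) : ∃ p ∈ s, p ≠ v ∧ D ≤ dg K W {v, p} ∧
      ∀ y ∈ s, y ≠ v → y ≠ p → dg K W {v, y} = 4 := by
  obtain ⟨e, h1, h2, h3, h4, h5⟩ := hs
  have key : ∀ f : Finset ι, f ⊆ s → f.card = 2 → D ≤ dg K W f → v ∈ f →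
      (f = e ∨ f = s \ e) → ∃ p ∈ s, p ≠ v ∧ D ≤ dg K W {v, p} ∧
      ∀ y ∈ s, y ≠ v → y ≠ p → dg K W {v, y} = 4 := by
    intro f g1 g2 g3 g4 g5
    obtain ⟨a, b, hab, rfl⟩ := card_eq_two.1 g2
    obtain ⟨p, hp, hpe⟩ : ∃ p, p ≠ v ∧ ({a, b} : Finset ι) = {v, p} := by
      rcases mem_insert.1 g4 with h6 | h6
      · exact ⟨b, h6 ▸ hab.symm, by rw [h6]⟩
      · rw [mem_singleton] at h6
        exact ⟨a, h6 ▸ hab, by rw [h6, pair_comm]⟩
    rw [hpe] at g1 g3 g5
    refine ⟨p, g1 (by simp), hp, g3, fun y hy hyv hyp => ?_⟩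
    have hsub : ({v, y} : Finset ι) ⊆ s := by
      intro i hi
      rcases mem_insert.1 hi with h6 | h6
      · exact h6 ▸ hv
      · exact (mem_singleton.1 h6) ▸ hy
    have hne : ∀ f : Finset ι, (f = ({v, p} : Finset ι) ∨ v ∉ f) → ({v, y} : Finset ι) ≠ f := by
      intro f hf he
      rcases hf with hf | hf
      · have : y ∈ ({v, p} : Finset ι) := hf ▸ he ▸ (by simp)
        rcases mem_insert.1 this with h6 | h6
        · exact hyv h6
        · exact hyp (mem_singleton.1 h6)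
      · exact hf (he ▸ (by simp))
    refine h5 _ hsub (card_pair hyv.symm) (hne _ ?_) (hne _ ?_)
    · rcases g5 with h6 | h6
      · exact Or.inl h6.symm
      · right
        have : v ∈ s \ e := h6 ▸ (by simp)
        exact (mem_sdiff.1 this).2
    · rcases g5 with h6 | h6
      · right
        have : v ∈ e := h6 ▸ (by simp)
        exact fun h7 => (mem_sdiff.1 h7).2 this
      · exact Or.inl h6.symm
  by_cases hve : v ∈ e
  · exact key e h1 h2 h3 hve (Or.inl rfl)
  · refine key (s \ e) sdiff_subset ?_ h4 (mem_sdiff.2 ⟨hv, hve⟩) (Or.inr rfl)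
    rw [card_sdiff_of_subset h1]
    omega

end E4

section E4b

variable {ι : Type} [Fintype ι] [DecidableEq ι] {K : Conf ι} {S0 : Finset ι}

private lemma e4_core (hc : S_CYC) (h : OK K S0) {W : Finset ι} (hW : S0 ⊆ W) {D : ℕ}
    (hD : 5 ≤ D) {v p u w : ι} (hq : fs (v, p, u, w) ∈ Fc K W) (hvu : dg K W {v, u} = 4)
    (hvp : D ≤ dg K W {v, p}) (hN : ∀ t ∈ St K W {v, u}, NF K W D t) (y : Ch K W)
    (hy1 : y.1.1 = v) (hyu : u ∈ fq y) (hye : D ≤ dg K W (ep y)) :
    E4R h hW ⟨(v, p, u, w), hq⟩ y := by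
  obtain ⟨n1, n2, n3, n4, n5, n6⟩ := fs_four (mem_Fc.1 hq).2.1
  have eQ : fs (v, u, p, w) = fs (v, p, u, w) := by
    ext i; simp only [fs, mem_insert, mem_singleton]; tauto
  obtain ⟨Q, hQ⟩ : ∃ Q : Ch K W, Q.1 = (v, u, p, w) := ⟨⟨(v, u, p, w), eQ ▸ hq⟩, rfl⟩
  obtain ⟨p1, hp1⟩ : ∃ p1, p1 = oth K W {v, u, w} p := ⟨_, rfl⟩
  obtain ⟨w1, hw1⟩ : ∃ w1, w1 = oth K W {v, u, p1} w := ⟨_, rfl⟩
  obtain ⟨p2, hp2⟩ : ∃ p2, p2 = oth K W {v, u, w1} p1 := ⟨_, rfl⟩
  obtain ⟨w2, hw2⟩ : ∃ w2, w2 = oth K W {v, u, p2} w1 := ⟨_, rfl⟩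
  have t1 : ((tau h hW) Q).1 = (v, u, w, p1) := by
    change tq K W Q.1 = _
    rw [hQ, hp1]
    rfl
  have t2 : ((tau h hW) ((tau h hW) Q)).1 = (v, u, p1, w1) := by
    change tq K W ((tau h hW) Q).1 = _
    rw [t1, hw1]
    rfl
  have t3 : ((tau h hW) ((tau h hW) ((tau h hW) Q))).1 = (v, u, w1, p2) := by
    change tq K W ((tau h hW) ((tau h hW) Q)).1 = _
    rw [t2, hp2]
    rfl
  have t4 : ((tau h hW) ((tau h hW) ((tau h hW) ((tau h hW) Q)))).1 = (v, u, p2, w2) := by
    change tq K W ((tau h hW) ((tau h hW) ((tau h hW) Q))).1 = _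
    rw [t3, hw2]
    rfl
  have hep : ep Q = {v, u} := by simp only [ep, hQ]
  obtain ⟨-, c2, c3, -⟩ := hc ι K S0 h W hW Q
  rw [hep, hvu] at c2 c3
  have c4 : (v, u, p2, w2) = (v, u, p, w) := by
    rw [← t4, ← hQ]
    exact congrArg Subtype.val c2
  simp only [Prod.mk.injEq, true_and] at c4
  obtain ⟨c5, c6⟩ := c4
  rw [c5] at t3 hw2
  rw [c6] at hw2
  -- the facets
  have F1 : fs (v, u, w, p1) ∈ Fc K W := t1 ▸ (tau h hW Q).2
  have F2 : fs (v, u, p1, w1) ∈ Fc K W := t2 ▸ (tau h hW (tau h hW Q)).2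
  have F3 : fs (v, u, w1, p) ∈ Fc K W := t3 ▸ (tau h hW (tau h hW (tau h hW Q))).2
  obtain ⟨m1, m2, m3, m4, m5, m6⟩ := fs_four (mem_Fc.1 F1).2.1
  obtain ⟨k1, k2, k3, k4, k5, k6⟩ := fs_four (mem_Fc.1 F2).2.1
  obtain ⟨j1, j2, j3, j4, j5, j6⟩ := fs_four (mem_Fc.1 F3).2.1
  have hst : ∀ a b : ι, fs (v, u, a, b) ∈ Fc K W → NF K W D (fs (v, u, a, b)) := by
    intro a b hab
    refine hN _ (mem_St.2 ⟨hab, ?_⟩)
    intro i hi
    simp only [fs, mem_insert, mem_singleton] at hi ⊢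
    tauto
  -- the weights at v
  have hvw : dg K W {v, w} = 4 := by
    obtain ⟨a, g1, g2, g3, g4⟩ := e4_hv (hst p w (eQ ▸ hq)) (mem_Fc.1 (eQ ▸ hq)).2.1
      (v := v) (by simp [fs])
    have : p = a := by
      by_contra hne
      have := g4 p (by simp [fs]) n1.symm hne
      omega
    exact g4 w (by simp [fs]) n3.symm (by rw [← this]; exact n5.symm)
  have hvp1 : D ≤ dg K W {v, p1} := by
    obtain ⟨a, g1, g2, g3, g4⟩ := e4_hv (hst w p1 F1) (mem_Fc.1 F1).2.1 (v := v) (by simp [fs])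
    simp only [fs, mem_insert, mem_singleton] at g1
    rcases g1 with rfl | rfl | rfl | rfl
    · exact absurd rfl g2
    · omega
    · omega
    · exact g3
  have hvw1 : dg K W {v, w1} = 4 := by
    obtain ⟨a, g1, g2, g3, g4⟩ := e4_hv (hst w1 p F3) (mem_Fc.1 F3).2.1 (v := v) (by simp [fs])
    have : p = a := by
      by_contra hne
      have := g4 p (by simp [fs]) n1.symm hne
      omega
    exact g4 w1 (by simp [fs]) j2.symm (by rw [← this]; exact j6)
  -- the chamber y
  obtain ⟨⟨v', p', a', b'⟩, hyF⟩ := y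
  obtain rfl : v' = v := hy1
  change D ≤ dg K W {v', p'} at hye
  change u ∈ fs (v', p', a', b') at hyu
  obtain ⟨l1, l2, l3, l4, l5, l6⟩ := fs_four (mem_Fc.1 hyF).2.1
  have hySt : fs (v', p', a', b') ∈ St K W {v', u} := by
    refine mem_St.2 ⟨hyF, ?_⟩
    intro i hi
    rcases mem_insert.1 hi with h6 | h6
    · rw [h6]; simp [fs]
    · rw [mem_singleton.1 h6]; exact hyu
  have hT : ∀ a b : ι, fs (v', p', a', b') = fs (v', u, a, b) → dg K W {v', b} = 4 →
      p' = a ∧ ((a' = u ∧ b' = b) ∨ (a' = b ∧ b' = u)) := by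
    intro a b hab hb
    have g1 : p' ∈ fs (v', u, a, b) := hab ▸ (by simp [fs])
    have g2 : a' ∈ fs (v', u, a, b) := hab ▸ (by simp [fs])
    have g3 : b' ∈ fs (v', u, a, b) := hab ▸ (by simp [fs])
    simp only [fs, mem_insert, mem_singleton] at g1 g2 g3
    have hpa : p' = a := by
      rcases g1 with g1 | g1 | g1 | g1
      · exact absurd g1.symm l1
      · rw [g1] at hye; omega
      · exact g1
      · rw [g1] at hye; omega
    refine ⟨hpa, ?_⟩
    have g4 : a' ≠ v' := l2.symm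
    have g5 : b' ≠ v' := l3.symm
    have g6 : a' ≠ a := hpa ▸ l4.symm
    have g7 : b' ≠ a := hpa ▸ l5.symm
    rcases g2 with g2 | g2 | g2 | g2
    · exact absurd g2 g4
    · left
      rcases g3 with g3 | g3 | g3 | g3
      · exact absurd g3 g5
      · exact absurd (g2.trans g3.symm) l6
      · exact absurd g3 g7
      · exact ⟨g2, g3⟩
    · exact absurd g2 g6
    · right
      rcases g3 with g3 | g3 | g3 | g3
      · exact absurd g3 g5
      · exact ⟨g2, g3⟩
      · exact absurd g3 g7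
      · exact absurd (g2.trans g3.symm) l6
  have hwx : oth K W {v', p, u} w = w1 := by
    have e1 : ({v', p, u} : Finset ι) = {v', u, p} := by rw [pair_comm]
    rw [e1, hw2]
    have g1 : w1 ∉ ({v', u, p} : Finset ι) := by
      simp only [mem_insert, mem_singleton, not_or]
      exact ⟨j2.symm, j4.symm, j6⟩
    have g2 : insert w1 ({v', u, p} : Finset ι) ∈ Fc K W := by
      have : insert w1 ({v', u, p} : Finset ι) = fs (v', u, w1, p) := by
        ext i; simp only [fs, mem_insert, mem_singleton]; tauto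
      rw [this]
      exact F3
    exact oth_oth h hW g1 g2
  obtain ⟨i, hi, hfi⟩ := c3 _ hySt
  have key : ∀ (ε : Bool) (r : ℤ) (a b : ι), |r| ≤ 1 →
      ((tau h hW ^ r) (if ε then pie h hW (⟨(v', p, u, w), hq⟩ : Ch K W) else
        (⟨(v', p, u, w), hq⟩ : Ch K W))).1 = (v', p', a, b) →
      ((a' = a ∧ b' = b) ∨ (a' = b ∧ b' = a)) →
      E4R h hW ⟨(v', p, u, w), hq⟩ ⟨(v', p', a', b'), hyF⟩ := by
    intro ε r a b hr h1 h2
    refine ⟨ε, r, hr, ?_⟩
    rcases h2 with ⟨h2, h3⟩ | ⟨h2, h3⟩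
    · left
      apply Subtype.ext
      rw [h1]
      simp only [h2, h3]
    · right
      apply Subtype.ext
      change _ = rv _
      rw [h1]
      simp only [rv, h2, h3]
  have hi4 : i = 0 ∨ i = 1 ∨ i = 2 ∨ i = 3 := by omega
  rcases hi4 with rfl | rfl | rfl | rfl
  · have e1 : fs (v', p', a', b') = fs (v', u, p, w) := by
      rw [← hfi, ← hQ]; rfl
    obtain ⟨g1, g2⟩ := hT p w e1 hvw
    refine key false 0 u w (by simp) ?_ ?_
    · rw [g1]; rfl
    · tauto
  · have e1 : fs (v', p', a', b') = fs (v', u, p1, w) := by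
      rw [← hfi, pow_one]
      change fs (tau h hW Q).1 = _
      rw [t1]
      ext i; simp only [fs, mem_insert, mem_singleton]; tauto
    obtain ⟨g1, g2⟩ := hT p1 w e1 hvw
    refine key true 0 u w (by simp) ?_ ?_
    · rw [g1, hp1]; rfl
    · tauto
  · have e1 : fs (v', p', a', b') = fs (v', u, p1, w1) := by
      rw [← hfi]
      change fs (tau h hW (tau h hW Q)).1 = _
      rw [t2]
    obtain ⟨g1, g2⟩ := hT p1 w1 e1 hvw1
    refine key true (-1) w1 u (by simp) ?_ ?_
    · rw [zpow_neg_one]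
      change (v', oth K W {v', u, w} p, oth K W {v', oth K W {v', u, w} p, u} w, u) = _
      rw [← hp1, g1, pair_comm p1 u, ← hw1]
    · tauto
  · have e1 : fs (v', p', a', b') = fs (v', u, p, w1) := by
      rw [← hfi]
      change fs (tau h hW (tau h hW (tau h hW Q))).1 = _
      rw [t3]
      ext i; simp only [fs, mem_insert, mem_singleton]; tauto
    obtain ⟨g1, g2⟩ := hT p w1 e1 hvw1
    refine key false (-1) w1 u (by simp) ?_ ?_
    · rw [zpow_neg_one]
      change (v', p, oth K W {v', p, u} w, u) = _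
      rw [hwx, g1]
    · tauto

/-- **E4.** Three elements which see facets over a pair of degree 4. -/
theorem c_E4 (hc : S_CYC) (hn : S_NRM) (hr : S_RUN) : S_E4 := by
  classical
  intro ι _ _ K S0 h W hW D L z e hz hD hL he hdg hs
  choose s hsSt hsv using hs
  have hsF : ∀ i, s i ∈ Fc K W := fun i => (mem_St.1 (hsSt i)).1
  have hes : ∀ i, e ⊆ s i := fun i => (mem_St.1 (hsSt i)).2
  have hZ : ∀ i j, z j ∈ Z1 K W D (s i) := by
    intro i j
    refine mem_union_left _ (mem_biUnion.2 ⟨s j, ?_, ?_⟩)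
    · rw [Nb, mem_filter]
      exact ⟨hsF j, Or.inr ⟨e, subset_inter (hes i) (hes j), he, hdg⟩⟩
    · rw [Vp, mem_filter]
      exact ⟨mem_univ _, hsv j⟩
  by_cases hex : ∃ i, Exc h hW D L (z i) (s i)
  · obtain ⟨i, hi⟩ := hex
    left
    refine ⟨s i, hsF i, i, ?_, fun j _ => hZ i j⟩
    rw [ExS, mem_filter]
    exact ⟨mem_univ _, hi⟩
  · right
    have hrun : ∀ i, ∃ q : Ch K W, fq q = s i ∧ LRun h hW D L (z i) q ∧ q.1.1 ∈ e := by
      intro i
      have h1 : ∃ q : Ch K W, fq q = s i ∧ LRun h hW D L (z i) q := by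
        by_contra h2
        exact hex ⟨i, hsF i, hsv i, h2⟩
      obtain ⟨q, h2, h3⟩ := h1
      have h4 : Rn h hW D (z i) q := h3 0 hL
      have h5 := (hn ι K W D q hD h4.1.2.2.1.1).1 h4.2.1
      have h6 : q.1.1 ∈ e ∨ q.1.2.1 ∈ e := by
        by_contra h7
        push Not at h7
        have h8 : e ⊆ lq q := by
          intro x hx
          have h9 := hes i hx
          rw [← h2] at h9
          simp only [fq, fs, mem_insert, mem_singleton] at h9
          simp only [lq, mem_insert, mem_singleton]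
          rcases h9 with h9 | h9 | h9
          · exact absurd (h9 ▸ hx) h7.1
          · exact absurd (h9 ▸ hx) h7.2
          · exact h9
        have h9 : e = lq q := eq_of_subset_of_card_le h8 (by
          rw [he]
          exact card_le_two)
        rw [h9] at hdg
        have := h5.1
        omega
      rcases h6 with h6 | h6
      · exact ⟨q, h2, h3, h6⟩
      · refine ⟨swp K W q, ?_, ?_, h6⟩
        · rw [e4_fq_swp]; exact h2
        · intro k hk
          rw [← e4_swp_pow]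
          exact ((hr ι K S0 h W hW D (z i) (hz i) hD).2.1 _ (h3 k hk)).2
    choose q hqs hql hqe using hrun
    obtain ⟨i, -, j, -, hij, hqij⟩ := exists_ne_map_eq_of_card_lt_of_maps_to
      (s := (univ : Finset (Fin 3))) (t := e) (f := fun i => (q i).1.1)
      (by rw [he]; simp) (fun i _ => hqe i)
    have hk3 : ∀ i j : Fin 3, i ≠ j → ∃ k : Fin 3, j ≠ k ∧ i ≠ k := by decide
    obtain ⟨k, hjk, hik⟩ := hk3 i j hij
    have hRi : Rn h hW D (z i) (q i) := hql i 0 hL
    have hRj : Rn h hW D (z j) (q j) := hql j 0 hL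
    obtain ⟨v, hv⟩ : ∃ v, v = (q i).1.1 := ⟨_, rfl⟩
    have hve : v ∈ e := hv ▸ hqe i
    obtain ⟨u, huv, heu⟩ : ∃ u, u ≠ v ∧ e = {v, u} := by
      obtain ⟨a, b, hab, rfl⟩ := card_eq_two.1 he
      rcases mem_insert.1 hve with h6 | h6
      · exact ⟨b, h6 ▸ hab.symm, by rw [h6]⟩
      · rw [mem_singleton] at h6
        exact ⟨a, h6 ▸ hab, by rw [h6, pair_comm]⟩
    subst heu
    have hN : ∀ t ∈ St K W {v, u}, NF K W D t := by
      have h1 := hRi.1.2.2.1.2 {v, u} (by rw [hqs i]; exact hes i) he hdg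
      exact h1
    have hus : ∀ m, u ∈ s m := fun m => hes m (by simp)
    refine ⟨q i, i, j, k, hij, hjk, hik, hql i, by rw [hqs i]; exact hZ i k, ?_⟩
    refine e4r_fin h hW (y := q j) ?_ (hql j)
    -- the relation
    have hyj1 : (q j).1.1 = v := by rw [hv]; exact hqij.symm
    have hyju : u ∈ fq (q j) := by rw [hqs j]; exact hus j
    have hyje := hRj.2.1
    have hui : u ∈ fq (q i) := by rw [hqs i]; exact hus i
    have hie := hRi.2.1
    rcases hqi : q i with ⟨⟨v', p, a, b⟩, hqF⟩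
    obtain rfl : v = v' := by rw [hv, hqi]
    rw [hqi] at hui hie
    change D ≤ dg K W {v, p} at hie
    change u ∈ fs (v, p, a, b) at hui
    simp only [fs, mem_insert, mem_singleton] at hui
    rcases hui with h6 | h6 | h6 | h6
    · exact absurd h6 huv
    · rw [h6] at hdg; omega
    · subst h6
      exact e4_core hc h hW hD hqF hdg hie hN (q j) hyj1 hyju hyje
    · subst h6
      have hqF' : fs (v, p, u, a) ∈ Fc K W := by
        have := hqF
        rw [← fs_rv] at this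
        exact this
      have h7 := e4_core hc h hW hD hqF' hdg hie hN (q j) hyj1 hyju hyje
      exact e4r_rev h hW h7

end E4b

end Pool.Agent.F32P
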