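import Pool.Agent.F32P.St2

/-!
# F32P, module EXC: the number of the exceptional incidences (helper53)
-/

set_option autoImplicit false

namespace Pool.Agent.F32P

open Finset

namespace EXCm

variable {ι : Type} [DecidableEq ι]

/-- the orderings of `s` -/
def ords (s : Finset ι) : Finset (Q4 ι) :=
  s.biUnion fun a => (s.erase a).biUnion fun b => ((s.erase a).erase b).biUnion fun c =>
    (((s.erase a).erase b).erase c).image fun d => (a, b, c, d)

theorem card_ords {s : Finset ι} (h : s.card = 4) : (ords s).card ≤ 24 := by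
  have h1 : (ords s).card ≤ s.card * 6 := by
    refine card_biUnion_le_card_mul _ _ _ fun a ha => ?_
    have e1 : (s.erase a).card = 3 := by rw [card_erase_of_mem ha, h]
    have h2 : ((s.erase a).biUnion fun b => ((s.erase a).erase b).biUnion fun c =>
        (((s.erase a).erase b).erase c).image fun d => ((a, b, c, d) : Q4 ι)).card ≤
        (s.erase a).card * 2 := by
      refine card_biUnion_le_card_mul _ _ _ fun b hb => ?_
      have e2 : ((s.erase a).erase b).card = 2 := by rw [card_erase_of_mem hb, e1]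
      have h3 : (((s.erase a).erase b).biUnion fun c =>
          (((s.erase a).erase b).erase c).image fun d => ((a, b, c, d) : Q4 ι)).card ≤
          ((s.erase a).erase b).card * 1 := by
        refine card_biUnion_le_card_mul _ _ _ fun c hc => ?_
        have e3 : (((s.erase a).erase b).erase c).card = 1 := by rw [card_erase_of_mem hc, e2]
        exact card_image_le.trans e3.le
      rw [e2] at h3
      exact h3
    rw [e1] at h2
    exact h2
  rw [h] at h1
  exact h1

theorem mem_ords {q : Q4 ι} (h : (fs q).card = 4) : q ∈ ords (fs q) := by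
  obtain ⟨v, a, w, z⟩ := q
  obtain ⟨h1, h2, h3, h4, h5, h6⟩ := fs_four h
  have hv : v ∈ fs (v, a, w, z) := by simp [fs]
  have ha : a ∈ fs (v, a, w, z) := by simp [fs]
  have hw : w ∈ fs (v, a, w, z) := by simp [fs]
  have hz : z ∈ fs (v, a, w, z) := by simp [fs]
  rw [ords, mem_biUnion]
  refine ⟨v, hv, ?_⟩
  rw [mem_biUnion]
  refine ⟨a, mem_erase.2 ⟨h1.symm, ha⟩, ?_⟩
  rw [mem_biUnion]
  refine ⟨w, mem_erase.2 ⟨h4.symm, mem_erase.2 ⟨h2.symm, hw⟩⟩, ?_⟩
  rw [mem_image]
  exact ⟨z, mem_erase.2 ⟨h6.symm, mem_erase.2 ⟨h5.symm, mem_erase.2 ⟨h3.symm, hz⟩⟩⟩, rfl⟩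

end EXCm

open EXCm in
theorem c_EXC (hr : S_RUN) : S_EXC := by
  intro ι _ _ K S0 h W hW D L x hx hD
  classical
  obtain ⟨r1, r2, r3⟩ := hr ι K S0 h W hW D x hx hD
  set A := (Fc K W).filter fun s => K.vis x s ∧ ¬ Typ K W D x s with hA
  set E := (Fc K W).filter fun s => Exc h hW D L x s with hE
  -- the data of a typical exceptional facet
  have key : ∀ s ∈ E \ A, ∃ (k : ℕ) (q : Ch K W), k < L ∧ fq q = s ∧
      fq ((tau h hW ^ k) q) ∈ A := by
    intro s hs
    rw [mem_sdiff, hE, mem_filter, hA, mem_filter] at hs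
    obtain ⟨⟨hsF, hex⟩, hnA⟩ := hs
    obtain ⟨-, hv, hno⟩ := hex
    have htyp : Typ K W D x s := by
      by_contra hc
      exact hnA ⟨hsF, hv, hc⟩
    obtain ⟨q, hq, hR⟩ := r3 s htyp
    have hnl : ∃ k, k < L ∧ ¬ Rn h hW D x ((tau h hW ^ k) q) := by
      by_contra hc
      push Not at hc
      exact hno ⟨q, hq, hc⟩
    have hk := Nat.find_spec hnl
    have hmin := fun j => Nat.find_min (m := j) hnl
    generalize Nat.find hnl = k at hk hmin
    obtain ⟨hkL, hkR⟩ := hk
    have hk0 : k ≠ 0 := by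
      rintro rfl
      rw [pow_zero] at hkR
      exact hkR hR
    obtain ⟨j, rfl⟩ := Nat.exists_eq_succ_of_ne_zero hk0
    have hj : Rn h hW D x ((tau h hW ^ j) q) := by
      have h3 := hmin j (Nat.lt_succ_self j)
      by_contra hc
      exact h3 ⟨by omega, hc⟩
    have e : (tau h hW ^ (j.succ)) q = tau h hW ((tau h hW ^ j) q) := by
      rw [Nat.succ_eq_add_one, pow_succ', Equiv.Perm.mul_apply]
    refine ⟨j.succ, q, hkL, hq, ?_⟩
    rw [hA, mem_filter, e]
    refine ⟨(tau h hW ((tau h hW ^ j) q)).2, hj.2.2, fun ht => ?_⟩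
    rw [e] at hkR
    exact hkR (r1 _ hj ht)
  let g : ℕ × Q4 ι → Finset ι := fun y =>
    if hp : fs y.2 ∈ Fc K W then fq ((tau h hW ^ y.1).symm (⟨y.2, hp⟩ : Ch K W)) else ∅
  have hcard : (E \ A).card ≤ (range L ×ˢ A.biUnion ords).card := by
    refine (card_le_card (t := (range L ×ˢ A.biUnion ords).image g) ?_).trans card_image_le
    intro s hs
    obtain ⟨k, q, h1, h2, h3⟩ := key s hs
    rw [mem_image]
    refine ⟨(k, ((tau h hW ^ k) q).1), ?_, ?_⟩
    · rw [mem_product, mem_range, mem_biUnion]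
      exact ⟨h1, _, h3, mem_ords (mem_Fc.1 ((tau h hW ^ k) q).2).2.1⟩
    · have hp : fs ((tau h hW ^ k) q).1 ∈ Fc K W := ((tau h hW ^ k) q).2
      show (if hp : fs ((tau h hW ^ k) q).1 ∈ Fc K W then
        fq ((tau h hW ^ k).symm (⟨((tau h hW ^ k) q).1, hp⟩ : Ch K W)) else ∅) = s
      rw [dif_pos hp]
      have e3 : (⟨((tau h hW ^ k) q).1, hp⟩ : Ch K W) = (tau h hW ^ k) q := rfl
      rw [e3, Equiv.symm_apply_apply, h2]
  have hbi : (A.biUnion ords).card ≤ A.card * 24 := by
    refine card_biUnion_le_card_mul _ _ _ fun s hs => ?_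
    rw [hA, mem_filter] at hs
    exact card_ords (mem_Fc.1 hs.1).2.1
  have h1 : E.card ≤ (E \ A).card + A.card := by
    have h2 : E ⊆ (E \ A) ∪ A := by
      intro s hs
      rw [mem_union, mem_sdiff]
      by_cases h3 : s ∈ A
      · exact Or.inr h3
      · exact Or.inl ⟨hs, h3⟩
    exact (card_le_card h2).trans (card_union_le _ _)
  rw [card_product, card_range] at hcard
  calc E.card ≤ (E \ A).card + A.card := h1
    _ ≤ L * (A.biUnion ords).card + A.card := Nat.add_le_add_right hcard _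
    _ ≤ L * (A.card * 24) + A.card := Nat.add_le_add_right (Nat.mul_le_mul_left _ hbi) _
    _ = (1 + 24 * L) * A.card := by ring

end Pool.Agent.F32P
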