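import Pool.Agent.F32P.St2

/-!
# F32P, module NEW (helper98): the new facets after the insertion of an element
-/

set_option autoImplicit false

namespace Pool.Agent.F32P

open Finset

/-- a facet of `insert x W` without `x` is a facet of `W` which `x` does not see -/
theorem NEW_old {ι : Type} [DecidableEq ι] {K : Conf ι} {W : Finset ι} {x : ι} {t : Finset ι}
    (ht : t ∈ Fc K (insert x W)) (hx : x ∉ t) : t ∈ Fc K W ∧ ¬ K.vis x t := by
  obtain ⟨h1, h2, h3, h4⟩ := mem_Fc.1 ht
  refine ⟨mem_Fc.2 ⟨fun y hy => ?_, h2, h3, fun y hy => h4 y (mem_insert_of_mem hy)⟩,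
    h4 x (mem_insert_self _ _)⟩
  rcases mem_insert.1 (h1 hy) with rfl | h
  · exact absurd hy hx
  · exact h

/-- a facet of `W` which `x` does not see is a facet of `insert x W` -/
theorem NEW_keep {ι : Type} [DecidableEq ι] {K : Conf ι} {W : Finset ι} {x : ι} {t : Finset ι}
    (ht : t ∈ Fc K W) (hx : ¬ K.vis x t) : t ∈ Fc K (insert x W) := by
  obtain ⟨h1, h2, h3, h4⟩ := mem_Fc.1 ht
  refine mem_Fc.2 ⟨h1.trans (subset_insert _ _), h2, h3, fun y hy => ?_⟩
  rcases mem_insert.1 hy with rfl | h
  · exact hx
  · exact h4 y h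

theorem c_NEW : S_NEW := by
  intro ι _ K S0 hOK W hW x hxW R hRW hR
  have hW' : S0 ⊆ insert x W := hW.trans (subset_insert _ _)
  have hxR : x ∉ R := fun h => hxW (hRW h)
  constructor
  · intro h
    obtain ⟨d', hd', hf, hun⟩ := hOK.ridge (insert x W) hW' (insert x R) h x (mem_insert_self _ _)
    rw [erase_insert hxR] at hf hun
    have hd1 : d' ≠ x := fun e => hd' (e ▸ mem_insert_self _ _)
    have hd2 : d' ∉ R := fun e => hd' (mem_insert_of_mem e)
    have hxt : x ∉ insert d' R := by
      intro e
      rcases mem_insert.1 e with e | e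
      · exact hd1 e.symm
      · exact hxR e
    obtain ⟨htW, hxv⟩ := NEW_old hf hxt
    obtain ⟨d2, hd2', hs, -⟩ := hOK.ridge W hW (insert d' R) htW d' (mem_insert_self _ _)
    rw [erase_insert hd2] at hs
    refine ⟨insert d2 R, hs, insert d' R, htW, subset_insert _ _, subset_insert _ _, ?_, hxv⟩
    by_contra hns
    rcases hun _ (NEW_keep hs hns) (subset_insert _ _) with e | e
    · have : x ∈ insert d2 R := e ▸ mem_insert_self _ _
      exact hxW ((mem_Fc.1 hs).1 this)
    · have : d2 ∈ insert d' R := e ▸ mem_insert_self _ _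
      exact hd2' this
  · rintro ⟨s, hs, t, ht, hRs, hRt, hvs, hvt⟩
    have htc := (mem_Fc.1 ht).2.1
    have hne : (t \ R).Nonempty := by
      rw [← card_pos, card_sdiff_of_subset hRt]
      omega
    obtain ⟨d, hd⟩ := hne
    rw [mem_sdiff] at hd
    have hte : insert d R = t := by
      apply eq_of_subset_of_card_le (insert_subset hd.1 hRt)
      rw [card_insert_of_notMem hd.2]
      omega
    have htd : t.erase d = R := by rw [← hte, erase_insert hd.2]
    obtain ⟨d', hd', hf, -⟩ := hOK.ridge (insert x W) hW' t (NEW_keep ht hvt) d hd.1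
    obtain ⟨d2, -, -, hun⟩ := hOK.ridge W hW t ht d hd.1
    rw [htd] at hf hun
    by_cases hdx : d' = x
    · rw [← hdx]
      rw [hdx] at hf
      rwa [hdx]
    · exfalso
      have hxt : x ∉ insert d' R := by
        intro e
        rcases mem_insert.1 e with e | e
        · exact hdx e.symm
        · exact hxR e
      obtain ⟨h1, h2⟩ := NEW_old hf hxt
      have e1 : s = insert d2 R := by
        rcases hun s hs hRs with e | e
        · exact absurd hvs (e ▸ hvt)
        · exact e
      have e2 : insert d' R = insert d2 R := by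
        rcases hun _ h1 (subset_insert _ _) with e | e
        · exfalso
          apply hd'
          rw [← e]
          exact mem_insert_self _ _
        · exact e
      rw [e2, ← e1] at h2
      exact h2 hvs

end Pool.Agent.F32P
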