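import Pool.Agent.F32P.St2

/-!
# F32P, module NRM: normal facets in chambers (helper25)
-/

set_option autoImplicit false

namespace Pool.Agent.F32P

open Finset

theorem c_NRM : S_NRM := by
  intro ι _ K W D q hD hNF
  obtain ⟨⟨v, a, w, z⟩, hq⟩ := q
  have hs4 : (fs (v, a, w, z)).card = 4 := (mem_Fc.1 hq).2.1
  obtain ⟨hva, hvw, hvz, haw, haz, hwz⟩ := fs_four hs4
  obtain ⟨e, hes, hec, he1, he2, hall⟩ := hNF
  simp only [fq] at hes he2 hall
  have hsd : fs (v, a, w, z) \ ({v, a} : Finset ι) = {w, z} := by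
    ext i
    simp only [fs, mem_sdiff, mem_insert, mem_singleton]
    constructor
    · rintro ⟨h1, h2⟩; tauto
    · rintro (rfl | rfl)
      · exact ⟨by tauto, by rintro (h | h) <;> [exact hvw h.symm; exact haw h.symm]⟩
      · exact ⟨by tauto, by rintro (h | h) <;> [exact hvz h.symm; exact haz h.symm]⟩
  have hep : ({v, a} : Finset ι) ⊆ fs (v, a, w, z) := by
    intro i; simp only [fs, mem_insert, mem_singleton]; tauto
  have h2 : ∀ x y : ι, x ≠ y → ({x, y} : Finset ι).card = 2 := fun x y h => card_pair h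
  -- the first pair is one of the two heavy pairs or of degree 4
  have key : (({v, a} : Finset ι) = e ∨ ({v, a} : Finset ι) = fs (v, a, w, z) \ e) ∨
      dg K W {v, a} = 4 := by
    by_cases c1 : ({v, a} : Finset ι) = e
    · exact Or.inl (Or.inl c1)
    · by_cases c2 : ({v, a} : Finset ι) = fs (v, a, w, z) \ e
      · exact Or.inl (Or.inr c2)
      · exact Or.inr (hall _ hep (h2 _ _ hva) c1 c2)
  -- the other four pairs are light if the first pair is heavy
  have other : (({v, a} : Finset ι) = e ∨ ({v, a} : Finset ι) = fs (v, a, w, z) \ e) →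
      D ≤ dg K W {v, a} ∧ D ≤ dg K W {w, z} ∧ (∀ x ∈ ({v, a} : Finset ι), ∀ y ∈ ({w, z} : Finset ι),
        dg K W {x, y} = 4) := by
    intro hor
    have hpair : (e = {v, a} ∧ fs (v, a, w, z) \ e = {w, z}) ∨
        (e = {w, z} ∧ fs (v, a, w, z) \ e = {v, a}) := by
      rcases hor with h | h
      · left
        exact ⟨h.symm, by rw [← h, hsd]⟩
      · right
        refine ⟨?_, h.symm⟩
        have : fs (v, a, w, z) \ (fs (v, a, w, z) \ e) = e := by
          rw [sdiff_sdiff_right_self]
          exact inf_eq_right.2 hes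
        rw [← this, ← h, hsd]
    have hlight : ∀ x ∈ ({v, a} : Finset ι), ∀ y ∈ ({w, z} : Finset ι), dg K W {x, y} = 4 := by
      intro x hx y hy
      have hx' : x ∈ fs (v, a, w, z) := hep hx
      have hy' : y ∈ fs (v, a, w, z) := by
        rw [← hsd] at hy; exact (mem_sdiff.1 hy).1
      have hyn : y ∉ ({v, a} : Finset ι) := by
        rw [← hsd] at hy; exact (mem_sdiff.1 hy).2
      have hxn : x ∉ ({w, z} : Finset ι) := by
        intro h
        rw [← hsd] at h
        exact (mem_sdiff.1 h).2 hx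
      have hxy : x ≠ y := fun h => hyn (h ▸ hx)
      have n1 : ({x, y} : Finset ι) ≠ {v, a} := by
        intro h
        exact hyn (h ▸ (by simp : y ∈ ({x, y} : Finset ι)))
      have n2 : ({x, y} : Finset ι) ≠ {w, z} := by
        intro h
        exact hxn (h ▸ (by simp : x ∈ ({x, y} : Finset ι)))
      refine hall _ ?_ (h2 _ _ hxy) ?_ ?_
      · intro i hi
        rcases mem_insert.1 hi with h | h
        · rw [h]; exact hx'
        · rw [mem_singleton.1 h]; exact hy'
      · rcases hpair with ⟨h, _⟩ | ⟨h, _⟩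
        · rw [h]; exact n1
        · rw [h]; exact n2
      · rcases hpair with ⟨_, h⟩ | ⟨_, h⟩
        · rw [h]; exact n2
        · rw [h]; exact n1
    rcases hpair with ⟨h, h'⟩ | ⟨h, h'⟩
    · rw [h] at he1; rw [h'] at he2
      exact ⟨he1, he2, hlight⟩
    · rw [h] at he1; rw [h'] at he2
      exact ⟨he2, he1, hlight⟩
  show (D ≤ dg K W {v, a} → D ≤ dg K W {w, z} ∧ dg K W {v, w} = 4 ∧ dg K W {v, z} = 4 ∧
    dg K W {a, w} = 4 ∧ dg K W {a, z} = 4) ∧ (dg K W {v, a} = 4 ∨ D ≤ dg K W {v, a})
  refine ⟨fun hDv => ?_, ?_⟩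
  · rcases key with h | h
    · obtain ⟨_, g2, g3⟩ := other h
      exact ⟨g2, g3 v (by simp) w (by simp), g3 v (by simp) z (by simp),
        g3 a (by simp) w (by simp), g3 a (by simp) z (by simp)⟩
    · exfalso; omega
  · rcases key with h | h
    · exact Or.inr (other h).1
    · exact Or.inl h

end Pool.Agent.F32P
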