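import Pool.Agent.F32P.St2

/-!
# F32P: runs (helper61)
-/

set_option autoImplicit false

namespace Pool.Agent.F32P

open Finset

theorem c_RUN (hd : S_DIR) (_ : S_NRM) (_ : S_CYC) : S_RUN := by
  intro ι _ _ K S0 h W hW D x hx hD
  refine ⟨?_, ?_, ?_⟩
  · intro q hq ht
    have hep : D ≤ dg K W (ep (tau h hW q)) := hq.2.1
    have h1 := (hd ι K S0 h W hW D x (tau h hW q) hx hD ht hep).1
    refine ⟨ht, hep, h1.2 ?_⟩
    have e : (tau h hW)⁻¹ (tau h hW q) = q := (tau h hW).symm_apply_apply q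
    rw [e]
    exact hq.1.2.1
  · intro q hq
    have h1 := (hd ι K S0 h W hW D x q hx hD hq.1 hq.2.1).1
    refine ⟨⟨?_, hq.2.1, ?_⟩, ⟨?_, ?_, ?_⟩⟩
    · have e : fq (rev K W q) = fq q := fs_rv _
      rw [e]
      exact hq.1
    · have e : fq (tau h hW (rev K W q)) = fq ((tau h hW)⁻¹ q) := (fs_rv _).symm
      rw [e]
      exact h1.1 hq.2.2
    · have e : fq (swp K W q) = fq q := fs_sw _
      rw [e]
      exact hq.1
    · have e : ep (swp K W q) = ep q := pair_comm _ _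
      rw [e]
      exact hq.2.1
    · have e : fq (tau h hW (swp K W q)) = fq (tau h hW q) := by
        have e1 : ({q.1.2.1, q.1.1, q.1.2.2.2} : Finset ι) = {q.1.1, q.1.2.1, q.1.2.2.2} := by
          ext i
          simp only [mem_insert, mem_singleton]
          tauto
        show fs (q.1.2.1, q.1.1, q.1.2.2.2, oth K W {q.1.2.1, q.1.1, q.1.2.2.2} q.1.2.2.1) =
          fs (q.1.1, q.1.2.1, q.1.2.2.2, oth K W {q.1.1, q.1.2.1, q.1.2.2.2} q.1.2.2.1)
        rw [e1]
        exact fs_sw (q.1.1, q.1.2.1, q.1.2.2.2, oth K W {q.1.1, q.1.2.1, q.1.2.2.2} q.1.2.2.1)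
      rw [e]
      exact hq.2.2
  · intro s hs
    obtain ⟨e, hes, he2, hD1, hD2, -⟩ := hs.2.2.1.1
    obtain ⟨v, a, hva, rfl⟩ := card_eq_two.1 he2
    have hs4 : s.card = 4 := (mem_Fc.1 hs.1).2.1
    have hc2 : (s \ {v, a}).card = 2 := by
      rw [card_sdiff_of_subset hes, hs4, he2]
    obtain ⟨w, z, hwz, hwz2⟩ := card_eq_two.1 hc2
    have hfs : fs (v, a, w, z) = s := by
      have h1 : s = {v, a} ∪ (s \ {v, a}) := (union_sdiff_of_subset hes).symm
      rw [hwz2] at h1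
      rw [h1]
      ext i
      simp only [fs, mem_insert, mem_singleton, mem_union]
      tauto
    have hq : fs (v, a, w, z) ∈ Fc K W := hfs ▸ hs.1
    set q : Ch K W := ⟨(v, a, w, z), hq⟩ with hqd
    have hfq : fq q = s := hfs
    have hfx : fq (xch K W q) = s := (fs_xc _).trans hfs
    have hep : D ≤ dg K W (ep q) := hD1
    have hex : D ≤ dg K W (ep (xch K W q)) := by
      show D ≤ dg K W {w, z}
      rw [← hwz2]
      exact hD2
    have h3 := (hd ι K S0 h W hW D x q hx hD (hfq.symm ▸ hs) hep).2.2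
    by_cases hv : K.vis x (fq (tau h hW q))
    · exact ⟨q, hfq, hfq.symm ▸ hs, hep, hv⟩
    · exact ⟨xch K W q, hfx, hfx.symm ▸ hs, hex, h3.2 hv⟩

end Pool.Agent.F32P
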