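import Mathlib
import Pool.Agent.F32P.St2

/-!
# F32P: module TWO (helper22)
-/

set_option autoImplicit false

namespace Pool.Agent.F32P

open Finset

/-- the finite count around a cycle of four facets -/
theorem two_aux : ∀ b : Fin 4 → Bool, b 0 = true →
    ((univ : Finset (Fin 4 × Bool)).filter fun p =>
      if p.2 then b p.1 ≠ b (p.1 + 1) else b p.1 = false).card = 4 →
    (b 1 = true ↔ ¬ b 3 = true) := by decide

theorem c_TWO (hn : S_NEW) (hc : S_CYC) : S_TWO := by
  intro ι _ _ K S0 h W hW x q hx hd hd' hv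
  classical
  obtain ⟨c1, c2, c3, -⟩ := hc ι K S0 h W hW q
  rw [hd] at c1 c2 c3
  obtain ⟨v, hvd⟩ : ∃ v, v = q.1.1 := ⟨_, rfl⟩
  obtain ⟨a, had⟩ : ∃ a, a = q.1.2.1 := ⟨_, rfl⟩
  let Q : ℕ → Ch K W := fun i => (tau h hW ^ i) q
  let u : ℕ → ι := fun i => (Q i).1.2.2.1
  have hQ0 : Q 0 = q := rfl
  have hQs : ∀ i, Q (i + 1) = tau h hW (Q i) := fun i => by
    simp [Q, pow_succ', Equiv.Perm.mul_apply]
  have hva : ∀ i, (Q i).1.1 = v ∧ (Q i).1.2.1 = a := by
    intro i
    induction i with
    | zero => exact ⟨hvd.symm, had.symm⟩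
    | succ i ih =>
      rw [hQs]
      exact ih
  have hw' : ∀ i, (Q i).1.2.2.2 = u (i + 1) := by
    intro i
    show _ = (Q (i + 1)).1.2.2.1
    rw [hQs]
    rfl
  have hf : ∀ i, fq (Q i) = ({v, a, u i, u (i + 1)} : Finset ι) := by
    intro i
    show fs (Q i).1 = _
    unfold fs
    rw [(hva i).1, (hva i).2, hw' i]
  have hF : ∀ i, fq (Q i) ∈ Fc K W := fun i => (Q i).2
  have h4 : ∀ i, v ≠ a ∧ v ≠ u i ∧ v ≠ u (i + 1) ∧ a ≠ u i ∧ a ≠ u (i + 1) ∧
      u i ≠ u (i + 1) := by
    intro i
    refine fs_four (v := v) (a := a) (w := u i) (z := u (i + 1)) ?_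
    have := (mem_Fc.1 (hF i)).2.1
    rwa [hf i] at this
  have hQ4 : Q 4 = q := c2
  have hu4 : u 4 = u 0 := by
    show (Q 4).1.2.2.1 = (Q 0).1.2.2.1
    rw [hQ4, hQ0]
  have he : ep q = ({v, a} : Finset ι) := by
    show ({q.1.1, q.1.2.1} : Finset ι) = _
    rw [← hvd, ← had]
  -- the third vertices are different
  have n02 : u 0 ≠ u 2 := by
    intro e
    have : fq (Q 0) = fq (Q 1) := by
      rw [hf 0, hf 1]
      show ({v, a, u 0, u 1} : Finset ι) = {v, a, u 1, u 2}
      rw [← e]
      ext i; simp only [mem_insert, mem_singleton]; tauto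
    exact absurd (c1 0 (by norm_num) 1 (by norm_num) this) (by norm_num)
  have n13 : u 1 ≠ u 3 := by
    intro e
    have : fq (Q 1) = fq (Q 2) := by
      rw [hf 1, hf 2]
      show ({v, a, u 1, u 2} : Finset ι) = {v, a, u 2, u 3}
      rw [← e]
      ext i; simp only [mem_insert, mem_singleton]; tauto
    exact absurd (c1 1 (by norm_num) 2 (by norm_num) this) (by norm_num)
  have n01 : u 0 ≠ u 1 := (h4 0).2.2.2.2.2
  have n12 : u 1 ≠ u 2 := (h4 1).2.2.2.2.2
  have n23 : u 2 ≠ u 3 := (h4 2).2.2.2.2.2
  have n30 : u 3 ≠ u 0 := by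
    have := (h4 3).2.2.2.2.2
    rwa [show (3 : ℕ) + 1 = 4 from rfl, hu4] at this
  -- functions on `Fin 4`
  let f : Fin 4 → Finset ι := fun i => fq (Q i)
  let r : Fin 4 → ι := fun i => u ((i : ℕ) + 1)
  have hfinj : ∀ i j : Fin 4, f i = f j → i = j := fun i j hij =>
    Fin.ext (c1 i i.2 j j.2 hij)
  have hrinj : ∀ i j : Fin 4, r i = r j → i = j := by
    have e0 : r 0 = u 1 := rfl
    have e1 : r 1 = u 2 := rfl
    have e2 : r 2 = u 3 := rfl
    have e3 : r 3 = u 0 := hu4
    intro i j hij
    fin_cases i <;> fin_cases j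
    · rfl
    · exact absurd (e0.symm.trans (hij.trans e1)) n12
    · exact absurd (e0.symm.trans (hij.trans e2)) n13
    · exact absurd (e0.symm.trans (hij.trans e3)) n01.symm
    · exact absurd (e1.symm.trans (hij.trans e0)) n12.symm
    · rfl
    · exact absurd (e1.symm.trans (hij.trans e2)) n23
    · exact absurd (e1.symm.trans (hij.trans e3)) n02.symm
    · exact absurd (e2.symm.trans (hij.trans e0)) n13.symm
    · exact absurd (e2.symm.trans (hij.trans e1)) n23.symm
    · rfl
    · exact absurd (e2.symm.trans (hij.trans e3)) n30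
    · exact absurd (e3.symm.trans (hij.trans e0)) n01
    · exact absurd (e3.symm.trans (hij.trans e1)) n02
    · exact absurd (e3.symm.trans (hij.trans e2)) n30.symm
    · rfl
  have hfr : ∀ i : Fin 4, f (i + 1) = ({v, a, r i, r (i + 1)} : Finset ι) := by
    have e3 : r 3 = u 0 := hu4
    intro i
    fin_cases i
    · exact hf 1
    · exact hf 2
    · exact hf 3
    · show fq (Q 0) = ({v, a, r 3, u 1} : Finset ι)
      rw [hf 0, e3]
  have hrv : ∀ i : Fin 4, r i ≠ v ∧ r i ≠ a := fun i => ⟨(h4 i).2.2.1.symm, (h4 i).2.2.2.2.1.symm⟩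
  have hvane : v ≠ a := (h4 0).1
  have hfmem : ∀ i : Fin 4, ∀ y, y ∈ f (i + 1) ↔ y = v ∨ y = a ∨ y = r i ∨ y = r (i + 1) := by
    intro i y
    rw [hfr i]
    simp
  have hrW : ∀ i : Fin 4, r i ∈ W := by
    intro i
    exact (mem_Fc.1 (hF ((i : ℕ)))).1 (by rw [hf]; simp [r])
  have hvW : v ∈ W := (mem_Fc.1 (hF 0)).1 (by rw [hf]; simp)
  have haW : a ∈ W := (mem_Fc.1 (hF 0)).1 (by rw [hf]; simp)
  have hxv : x ≠ v := fun e => hx (e ▸ hvW)
  have hxa : x ≠ a := fun e => hx (e ▸ haW)
  have hxr : ∀ i, x ≠ r i := fun i e => hx (e ▸ hrW i)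
  have hfW : ∀ i : Fin 4, f i ∈ Fc K W := fun i => hF i
  have hfe : ∀ i : Fin 4, ({v, a} : Finset ι) ⊆ f i := by
    intro i
    show _ ⊆ fq (Q i)
    rw [hf]
    intro y hy
    simp only [mem_insert, mem_singleton] at hy ⊢
    tauto
  have hSt : ∀ s, s ∈ St K W ({v, a} : Finset ι) → ∃ i : Fin 4, f i = s := by
    intro s hs
    rw [← he] at hs
    obtain ⟨i, hi, hs⟩ := c3 s hs
    exact ⟨⟨i, hi⟩, hs⟩
  let b : Fin 4 → Bool := fun i => decide (K.vis x (f i))
  have hb : ∀ i, b i = true ↔ K.vis x (f i) := fun i => by simp [b]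
  have hb' : ∀ i, b i = false ↔ ¬ K.vis x (f i) := fun i => by simp [b]
  let G : Fin 4 → Finset ι := fun i => insert x {v, a, r i}
  -- the facets over a ridge
  have hridge : ∀ i j : Fin 4, r i ∈ f j → j = i ∨ j = i + 1 := by
    intro i j hij
    obtain ⟨k, rfl⟩ : ∃ k : Fin 4, k + 1 = j := ⟨j - 1, sub_add_cancel j 1⟩
    rcases (hfmem k _).1 hij with h1 | h1 | h1 | h1
    · exact absurd h1 (hrv i).1
    · exact absurd h1 (hrv i).2
    · right
      rw [hrinj _ _ h1]
    · left
      rw [hrinj _ _ h1]
  have hrf : ∀ i : Fin 4, r i ∈ f i ∧ r i ∈ f (i + 1) := by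
    intro i
    refine ⟨?_, ?_⟩
    · obtain ⟨k, rfl⟩ : ∃ k : Fin 4, k + 1 = i := ⟨i - 1, sub_add_cancel i 1⟩
      rw [hfmem]
      exact Or.inr (Or.inr (Or.inr rfl))
    · rw [hfmem]
      exact Or.inr (Or.inr (Or.inl rfl))
  have hG : ∀ i : Fin 4, G i ∈ Fc K (insert x W) ↔ b i ≠ b (i + 1) := by
    intro i
    have hcard : ({v, a, r i} : Finset ι).card = 3 := by
      rw [card_eq_three]
      exact ⟨v, a, r i, hvane, (hrv i).1.symm, (hrv i).2.symm, rfl⟩
    have hsub : ({v, a, r i} : Finset ι) ⊆ W := by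
      intro y hy
      simp only [mem_insert, mem_singleton] at hy
      rcases hy with rfl | rfl | rfl
      · exact hvW
      · exact haW
      · exact hrW i
    have hsf : ∀ j : Fin 4, r i ∈ f j → ({v, a, r i} : Finset ι) ⊆ f j := by
      intro j hj y hy
      simp only [mem_insert, mem_singleton] at hy
      rcases hy with rfl | rfl | rfl
      · exact hfe j (by simp)
      · exact hfe j (by simp)
      · exact hj
    rw [hn ι K S0 h W hW x hx _ hsub hcard]
    constructor
    · rintro ⟨s, hs, t, ht, hRs, hRt, hvs, hvt⟩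
      obtain ⟨j, rfl⟩ := hSt s (mem_St.2 ⟨hs, fun y hy => hRs (by
        simp only [mem_insert, mem_singleton] at hy ⊢; tauto)⟩)
      obtain ⟨k, rfl⟩ := hSt t (mem_St.2 ⟨ht, fun y hy => hRt (by
        simp only [mem_insert, mem_singleton] at hy ⊢; tauto)⟩)
      have hj := hridge i j (hRs (by simp))
      have hk := hridge i k (hRt (by simp))
      have h1 := (hb j).2 hvs
      have h2 := (hb' k).2 hvt
      rcases hj with hj | hj <;> rcases hk with hk | hk <;> rw [hj] at h1 <;> rw [hk] at h2
      · rw [h1] at h2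
        exact absurd h2 (by decide)
      · rw [h1, h2]
        decide
      · rw [h1, h2]
        decide
      · rw [h1] at h2
        exact absurd h2 (by decide)
    · intro hne
      rcases hbi : b i with _ | _
      · have h1 : b (i + 1) = true := by
          rw [hbi] at hne
          exact Bool.eq_true_of_not_eq_false (fun e => hne e.symm)
        exact ⟨f (i + 1), hfW _, f i, hfW _, hsf _ (hrf i).2, hsf _ (hrf i).1, (hb _).1 h1,
          (hb' _).1 hbi⟩
      · have h1 : b (i + 1) = false := by
          rw [hbi] at hne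
          exact Bool.eq_false_of_not_eq_true (fun e => hne e.symm)
        exact ⟨f i, hfW _, f (i + 1), hfW _, hsf _ (hrf i).1, hsf _ (hrf i).2, (hb _).1 hbi,
          (hb' _).1 h1⟩
  -- the facets over `e` after the insertion
  let H : Fin 4 × Bool → Finset ι := fun p => if p.2 then G p.1 else f p.1
  have hxf : ∀ i, x ∉ f i := fun i hi => hx ((mem_Fc.1 (hfW i)).1 hi)
  have hxG : ∀ i, x ∈ G i := fun i => mem_insert_self _ _
  have hHinj : Function.Injective H := by
    rintro ⟨i, c⟩ ⟨j, d⟩ hij
    rcases c with _ | _ <;> rcases d with _ | _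
    · rw [hfinj i j (by simpa [H] using hij)]
    · exfalso
      have e1 : f i = G j := by simpa [H] using hij
      exact hxf i (e1 ▸ hxG j)
    · exfalso
      have e1 : G i = f j := by simpa [H] using hij
      exact hxf j (e1 ▸ hxG i)
    · have e1 : G i = G j := by simpa [H] using hij
      have e2 : r i ∈ G j := by
        rw [← e1]
        simp [G]
      simp only [G, mem_insert, mem_singleton] at e2
      rcases e2 with e2 | e2 | e2 | e2
      · exact absurd e2.symm (hxr i)
      · exact absurd e2 (hrv i).1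
      · exact absurd e2 (hrv i).2
      · rw [hrinj _ _ e2]
  have hset : St K (insert x W) ({v, a} : Finset ι) =
      ((univ : Finset (Fin 4 × Bool)).filter fun p =>
        if p.2 then b p.1 ≠ b (p.1 + 1) else b p.1 = false).image H := by
    ext s
    rw [mem_St, mem_image]
    constructor
    · rintro ⟨hs, hes⟩
      by_cases hxs : x ∈ s
      · -- a new facet
        have hR : s.erase x ⊆ W := by
          intro y hy
          rcases mem_insert.1 ((mem_Fc.1 hs).1 (mem_of_mem_erase hy)) with h1 | h1
          · exact absurd h1 (ne_of_mem_erase hy)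
          · exact h1
        have hRc : (s.erase x).card = 3 := by
          rw [card_erase_of_mem hxs, (mem_Fc.1 hs).2.1]
        have hins : insert x (s.erase x) = s := insert_erase hxs
        obtain ⟨s', hs', t', ht', hRs, hRt, hvs, hvt⟩ :=
          (hn ι K S0 h W hW x hx _ hR hRc).1 (by rw [hins]; exact hs)
        have heR : ({v, a} : Finset ι) ⊆ s.erase x := by
          intro y hy
          refine mem_erase.2 ⟨?_, hes hy⟩
          simp only [mem_insert, mem_singleton] at hy
          rcases hy with rfl | rfl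
          · exact hxv.symm
          · exact hxa.symm
        obtain ⟨j, rfl⟩ := hSt s' (mem_St.2 ⟨hs', heR.trans hRs⟩)
        obtain ⟨k, rfl⟩ := hSt t' (mem_St.2 ⟨ht', heR.trans hRt⟩)
        -- the third element of the ridge
        obtain ⟨y, hy, hye⟩ : ∃ y ∈ s.erase x, y ∉ ({v, a} : Finset ι) := by
          by_contra hcon
          push Not at hcon
          have h1 := card_le_card (show s.erase x ⊆ ({v, a} : Finset ι) from hcon)
          have h2 : ({v, a} : Finset ι).card ≤ 2 := card_le_two
          omega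
        simp only [mem_insert, mem_singleton, not_or] at hye
        have hyr : ∃ i : Fin 4, y = r i := by
          obtain ⟨l, rfl⟩ : ∃ l : Fin 4, l + 1 = j := ⟨j - 1, sub_add_cancel j 1⟩
          rcases (hfmem l _).1 (hRs hy) with h1 | h1 | h1 | h1
          · exact absurd h1 hye.1
          · exact absurd h1 hye.2
          · exact ⟨_, h1⟩
          · exact ⟨_, h1⟩
        obtain ⟨i, rfl⟩ := hyr
        have hReq : ({v, a, r i} : Finset ι) = s.erase x := by
          refine eq_of_subset_of_card_le ?_ ?_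
          · intro y hy'
            simp only [mem_insert, mem_singleton] at hy'
            rcases hy' with rfl | rfl | rfl
            · exact heR (by simp)
            · exact heR (by simp)
            · exact hy
          · rw [hRc]
            refine le_of_eq (Eq.symm ?_)
            rw [card_eq_three]
            exact ⟨v, a, r i, hvane, (hrv i).1.symm, (hrv i).2.symm, rfl⟩
        have hGs : G i = s := by
          show insert x ({v, a, r i} : Finset ι) = s
          rw [hReq, hins]
        refine ⟨(i, true), mem_filter.2 ⟨mem_univ _, ?_⟩, by simpa [H] using hGs⟩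
        have := (hG i).1 (by rw [hGs]; exact hs)
        simpa using this
      · -- an old facet
        have hsW : s ∈ Fc K W := by
          rw [mem_Fc] at hs ⊢
          refine ⟨fun y hy => ?_, hs.2.1, hs.2.2.1, fun y hy => hs.2.2.2 y (mem_insert_of_mem hy)⟩
          rcases mem_insert.1 (hs.1 hy) with h1 | h1
          · exact absurd (h1 ▸ hy) hxs
          · exact h1
        obtain ⟨i, rfl⟩ := hSt s (mem_St.2 ⟨hsW, hes⟩)
        refine ⟨(i, false), mem_filter.2 ⟨mem_univ _, ?_⟩, by simp [H]⟩
        have := (hb' i).2 ((mem_Fc.1 hs).2.2.2 x (mem_insert_self _ _))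
        simpa using this
    · rintro ⟨⟨i, c⟩, hp, rfl⟩
      rw [mem_filter] at hp
      rcases c with _ | _
      · have h1 : b i = false := by simpa using hp.2
        have h2 : H (i, false) = f i := by simp [H]
        rw [h2]
        refine ⟨?_, hfe i⟩
        have h3 := mem_Fc.1 (hfW i)
        rw [mem_Fc]
        refine ⟨h3.1.trans (subset_insert _ _), h3.2.1, h3.2.2.1, fun y hy => ?_⟩
        rcases mem_insert.1 hy with rfl | hy
        · exact (hb' i).1 h1
        · exact h3.2.2.2 y hy
      · have h1 : b i ≠ b (i + 1) := by simpa using hp.2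
        have h2 : H (i, true) = G i := by simp [H]
        rw [h2]
        refine ⟨(hG i).2 h1, ?_⟩
        intro y hy
        simp only [G, mem_insert, mem_singleton] at hy ⊢
        tauto
  have hcard : ((univ : Finset (Fin 4 × Bool)).filter fun p =>
        if p.2 then b p.1 ≠ b (p.1 + 1) else b p.1 = false).card = 4 := by
    have h1 : dg K (insert x W) ({v, a} : Finset ι) = 4 := by rw [← he]; exact hd'
    unfold dg at h1
    rw [hset, card_image_of_injective _ hHinj] at h1
    exact h1
  have hb0 : b 0 = true := (hb 0).2 hv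
  have hfin := two_aux b hb0 (by convert hcard)
  have e1 : f 1 = fq (tau h hW q) := by
    show fq (Q 1) = _
    rw [show (1 : ℕ) = 0 + 1 from rfl, hQs 0, hQ0]
  have e3 : f 3 = fq ((tau h hW)⁻¹ q) := by
    show fq (Q 3) = _
    congr 1
    have : tau h hW (Q 3) = q := by rw [← hQs 3]; exact hQ4
    rw [← this]
    simp
  rw [hb 1, hb 3, e1, e3] at hfin
  exact hfin

end Pool.Agent.F32P
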