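import Pool.Agent.F32P.St2

/-!
# F32P: statements, part III (sampling), part IV (costs, induction)

Files `Pool/Agent/F32P/P_<name>.lean`, namespace `Pool.Agent.F32P`, theorem
`p_<name> (h : S_Y) .. : S_<name>`. Samples: `t : Fin m → ι`, weight `∏ j, p (t j)`, set `WS S0 t`.
-/

set_option autoImplicit false

namespace Pool.Agent.F32P

open Finset

/-- **MOM.** Moments (Clarkson-Shor).
PROOF. `vv K p s ^ k = ∑ z : Fin k → ι, ∏ p (z j) [all z j see s]`, so the expectation is a sum over `t = (t', z) :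
Fin (m + k) → ι` of the weight times the number of the `F ∈ Fc K (WS S0 t')` which are seen by all the last `k` elements.
For `F ∈ Fc` let `J` be the set of the indices `j` with `vis (t j) F`; for these `F` it is the set of the last `k` indices. By
symmetry (permutations of the indices, the weight is invariant) the expectation is the same if the last `k` indices are
replaced by any set `J` of `k` indices: count of the `F` with: `F ⊆ S0 ∪ t(complement of J)`, `|F| = 4`, `P F`, no element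
of `S0` sees `F`, `{j : vis (t j) F} = J`. Sum over `J`: at most `N(t)`, the number of the `F` with `P F`, `|F| = 4`, no element of `S0`
sees `F`, `{j : vis (t j) F}` has `k` elements and `F ⊆ S0 ∪ t(its complement)`. For `B ⊆ Fin (m + k)` let `W_B = S0 ∪ t(B)`.
For `F` counted in `N(t)` choose `I`, `|I| ≤ 4`, in the complement of `J` with `F ⊆ S0 ∪ t(I)`. `F ∈ Fc K W_B` for all `I ⊆ B ⊆ Jᶜ`,
at least `2^(m - 4)` sets (`2^m ≤ 16 * number`). As `|Fc K W_B| ≤ (m + k + 5)^2` (`OK.f3`): `N(t) 2^m ≤ 16 * 2^(m + k) (m + k + 5)^2`. -/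
def S_MOM : Prop := ∀ (ι : Type) [Fintype ι] [DecidableEq ι] (K : Conf ι) (S0 : Finset ι),
  OK K S0 → ∀ p : ι → ℝ, Pr p → ∀ m k : ℕ,
  Ex p m (fun t => ∑ s ∈ Fc K (WS S0 t), vv K p s ^ k) * ((m + k).choose k : ℝ) ≤
    2 ^ (k + 4) * ((m : ℝ) + k + 5) ^ 2

/-- **SNC.** (uses nothing). Not strongly normal facets: a normal `s` which is not strongly normal has a pair `e` of
degree 4 and a facet `t ∈ St e` which is not normal; for given `t` there are at most `6 * 4` such `s`. -/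
def S_SNC : Prop := ∀ (ι : Type) [DecidableEq ι] (K : Conf ι) (W : Finset ι) (D : ℕ),
  open Classical in
  ((Fc K W).filter fun s => ¬ SN K W D s).card ≤ 25 * ((Fc K W).filter fun s => ¬ NF K W D s).card

open Classical in
/-- the number of the edges which are destroyed by the last element of the sample -/
noncomputable def des {ι : Type} [DecidableEq ι] (K : Conf ι) (S0 : Finset ι) {m : ℕ}
    (t : Fin (m + 1) → ι) : ℕ :=
  (((WS S0 (Fin.init t)).powersetCard 2).filter fun e =>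
    0 < dg K (WS S0 (Fin.init t)) e ∧ dg K (WS S0 t) e = 0).card

open Classical in
/-- the number of the edges of degree `≠ 4`, `≤ 6` which have a facet with the last element of the sample -/
noncomputable def smb {ι : Type} [DecidableEq ι] (K : Conf ι) (S0 : Finset ι) {m : ℕ}
    (t : Fin (m + 1) → ι) : ℕ :=
  (((WS S0 t).powersetCard 2).filter fun e =>
    0 < dg K (WS S0 t) e ∧ dg K (WS S0 t) e ≠ 4 ∧ dg K (WS S0 t) e ≤ 6 ∧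
      ∃ s ∈ St K (WS S0 t) e, t (Fin.last m) ∈ s).card

/-- **PTW.** (uses CHG). Pointwise bound of the number of the atypical incidences of the last element.
PROOF. If `x = t (last)` is in `W` no facet of `W` is seen. Otherwise `WS S0 t = insert x W`. An atypical visible `s`
which is strongly normal contains a pair `e` of degree 4 in `W` whose new degree is not 4. New degree 0: `e` is counted
in `des`. Otherwise CHG: `e` is counted in `smb`. For every such `e` there are 4 facets `s ⊇ e`. -/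
def S_PTW : Prop := ∀ (ι : Type) [Fintype ι] [DecidableEq ι] (K : Conf ι) (S0 : Finset ι),
  OK K S0 → ∀ (D m : ℕ) (t : Fin (m + 1) → ι),
  open Classical in
  ((Fc K (WS S0 (Fin.init t))).filter fun s => K.vis (t (Fin.last m)) s ∧
      ¬ Typ K (WS S0 (Fin.init t)) D (t (Fin.last m)) s).card ≤
    ((Fc K (WS S0 (Fin.init t))).filter fun s => K.vis (t (Fin.last m)) s ∧
      ¬ SN K (WS S0 (Fin.init t)) D s).card + 4 * des K S0 t + 4 * smb K S0 t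

/-- **DES.** (uses NEW). For some `m` in a bounded window few edges are destroyed.
PROOF. Monotonicity: an edge of `insert x W` contained in `W` is an edge of `W` (if a facet over it contains `x` it is
`insert x R`, NEW gives a facet of `W` over `R ⊇ e`). Let `g_m = Ex p m [{t i, t j} is an edge (of WS S0 t), t i ≠ t j]` for fixed
`i < j` (independent of `i, j` by symmetry), `h_m = ∑_(a ∈ S0) Ex p m [{t i, a} is an edge, t i ≠ a]`, `r_m = Ex p m (number of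
edges inside S0)`. All three are nonincreasing in `m`, `G_m = g_m + h_m + r_m ≤ 16`. With `t : Fin (m + 1) → ι`,
`des K S0 t ≤ ∑_(i < j < m) ([{t i, t j} edge of WS (init t)] - [edge of WS t]) + (the same for {t i, a}) + (the same inside S0)`
(every summand is ≥ 0, every destroyed edge occurs at least once), so
`Ex p (m + 1) des ≤ m^2 (g_m - g_(m+1)) + m (h_m - h_(m+1)) + (r_m - r_(m+1)) ≤ m^2 (G_m - G_(m+1))` for `m ≥ 1`. If it were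
`> η m` for all `m1 ≤ m ≤ m2` then `16 ≥ η ∑ 1 / m`: false if `m2` is large (harmonic series). -/
def S_DES : Prop := ∀ η : ℝ, 0 < η → ∀ m1 : ℕ, 1 ≤ m1 → ∃ m2 : ℕ, ∀ (ι : Type) [Fintype ι]
  [DecidableEq ι] (K : Conf ι) (S0 : Finset ι), OK K S0 → ∀ p : ι → ℝ, Pr p →
  ∃ m : ℕ, m1 ≤ m ∧ m ≤ m2 ∧ Ex p (m + 1) (fun t => (des K S0 t : ℝ)) ≤ η * m

/-- **SYM.** (uses nothing). Exchangeability.
PROOF. By symmetry the expectation of `smb` does not change if the last index is replaced by any index `j`; so it is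
`1 / (m + 1)` times the expectation of the sum over `j`. Injective `t`: every edge `e` with `dg e ≤ 6` is counted for at most
`24` indices `j` (at most 6 facets with 4 elements), so the sum is at most `24 |nonq K (WS S0 t)| ≤ 24 η (m + 6)^2` if every
`W ⊇ S0` with at least `m + 1` elements satisfies `|nonq| ≤ η |W|^2` (`|WS S0 t| ≤ m + 6`). Not injective `t`: measure at most
`(m + 1)^2 δ`, every count is at most `(m + 6)^2`. -/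
def S_SYM : Prop := ∀ (ι : Type) [Fintype ι] [DecidableEq ι] (K : Conf ι) (S0 : Finset ι),
  OK K S0 → ∀ p : ι → ℝ, Pr p → ∀ (m : ℕ) (η δ : ℝ), 0 < η → (∀ x, p x ≤ δ) →
  (∀ W, S0 ⊆ W → m + 1 ≤ W.card → ((nonq K W).card : ℝ) ≤ η * (W.card : ℝ) ^ 2) →
  Ex p (m + 1) (fun t => (smb K S0 t : ℝ)) ≤
    24 * η * ((m : ℝ) + 6) ^ 2 / (m + 1) + ((m : ℝ) + 1) ^ 2 * δ * ((m : ℝ) + 6) ^ 2

/-- **SMP.** (uses MOM, SNC, PTW, DES, SYM, EXC, `OK.norm`). A good sample.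
PROOF. `L, ε` given. Choose `D ≥ 5, L` large, then `η` small (`≪ D^(-12)`), then `m1 ≥ m0 η, 1/η`, then `m2` from DES (for
`η`), then `N0 ≥ m2^20 / ..`. Let `m` be as in DES, `δ = 1 / N0`.
(1) MOM: `Ex (∑ v^2) ≤ 2^6 (m+7)^2 / C(m+2, 2) ≤ 10^3`, `Ex (∑ v^4) ≤ 2^8 (m + 9)^2 / C(m+4, 4) ≤ 10^5 / m^2`.
(2) `#(not NF) ≤ 8 |W| + 6 |nonq| D + 270 |W| (|W| + 1) / D ≤ η' |W|^2`, `η' ≤ 1000 / D` for `|W| ≥ m1`, so `#(not SN) ≤ 25 η' |W|^2`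
and `∑_(s not SN) v(s) ≤ sqrt (25 η' |W|^2) sqrt (∑ v^2)` (Cauchy), expectation `≤ 5 sqrt η' (m + 5) sqrt (10^3)` (Jensen); for the not
injective `t` (measure `≤ m^2 δ`) use `∑ v ≤ (m+5)^2`.
(3) `Ex p m (∑_s pm p (ExS s)) = Ex p (m+1) (number of the exceptional facets of the last element)` (Fubini; it is 0 if the last
element is in `W`) `≤ (1 + 24 L) Ex p (m+1) (atypical)` (EXC) `≤ (1 + 24 L) ((2) + 4 η m + 4 SYM) ≤ ε m / 100` by PTW.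
(4) Markov: with probability `≥ 1/2` (`1 - m^2 δ - 1/10 - 1/10 - 1/10`) `t` is injective, `∑ v^2 ≤ 10^4`, `m^2 ∑ v^4 ≤ 10^6`,
`∑ exc ≤ ε m / 10`. `W = WS S0 t`: `m ≤ |W| ≤ m + 5`, `|nonq| ≤ η |W|^2`, `pm p W ≤ (m + 5) δ` . -/
def S_SMP : Prop := ∀ (m0 : ℝ → ℕ) (L : ℕ) (ε : ℝ), 1 ≤ L → 0 < ε →
  ∃ (D M N0 : ℕ), 5 ≤ D ∧ L ≤ D ∧ 1 ≤ N0 ∧
  ∀ (ι : Type) [Fintype ι] [DecidableEq ι] (K : Conf ι) (S0 : Finset ι) (h : OK K S0),
  Flat m0 K S0 → ∀ p : ι → ℝ, Pr p → (∀ x, p x ≤ 1 / N0) →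
  ∃ (W : Finset ι) (hW : S0 ⊆ W), W.card ≤ M ∧
    ∑ s ∈ Fc K W, vv K p s ^ 2 ≤ 10 ^ 7 ∧
    (∑ s ∈ Fc K W, vv K p s ^ 4) * (W.card : ℝ) ^ 2 ≤ 10 ^ 7 ∧
    ∑ s ∈ Fc K W, pm p (ExS h hW D L s) ≤ ε * W.card ∧
    ((nonq K W).card : ℝ) * (D : ℝ) ^ 6 ≤ ε * (W.card : ℝ) ^ 2 ∧
    pm p W ≤ ε

/-- **Z1B.** (uses nothing). Power sums of the measure of the neighbourhoods.
PROOF. `pm (Z1 s) ≤ ∑_(t ∈ Nb s) v(t) + ∑_(e ⊆ s, |e| = 2, D ≤ dg e) pm (Ie e)`, at most `29 + 6 = 35` terms (`Nb s`: `s` and its four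
neighbours: `ridge`; for each of the 6 pairs of degree 4 the 4 facets over it). `pm (Ie e) ≤ 3 / dg e * ∑_(s ∈ St e) v(s)`
(Markov). Power mean: `(∑_35 a_i)^k ≤ 35^(k-1) ∑ a_i^k`; `∑_s ∑_(t ∈ Nb s) v(t)^k ≤ 29 ∑ v^k` (`Nb` is symmetric);
`(pm (Ie e))^k ≤ 3^k / dg e * ∑_(St e) v^k`, `∑_s ∑_(e ⊆ s) = ∑_e dg e * ..`, so `≤ 6 * 3^k ∑ v^k`. `29 + 6 * 3^k ≤ 35 * 3^k`. -/
def S_Z1B : Prop := ∀ (ι : Type) [Fintype ι] [DecidableEq ι] (K : Conf ι) (S0 : Finset ι),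
  OK K S0 → ∀ W : Finset ι, S0 ⊆ W → ∀ p : ι → ℝ, Pr p → ∀ (D k : ℕ), 1 ≤ k → 1 ≤ D →
  ∑ s ∈ Fc K W, pm p (Z1 K W D s) ^ k ≤ 105 ^ k * ∑ s ∈ Fc K W, vv K p s ^ k ∧
  ∑ s ∈ Fc K W, ∑ e ∈ s.powersetCard 2, pm p (Ie K W e) ^ k ≤
    6 * 3 ^ k * ∑ s ∈ Fc K W, vv K p s ^ k

/-- the cost of a box -/
noncomputable def G {ι : Type} (p : ι → ℝ) (S : Fin 3 → Finset ι) : ℝ :=
  (∏ i, pm p (S i)) ^ ((2 : ℝ) / 3)

/-- **CA.** (uses Z1B). Cost of the boxes of two runners.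
PROOF. `pm (Z2 q) ≤ ∑_(i < 2L+1) z1 (fq (tau^(i-L) q))`, `N = 2 L + 1 ≤ 3 L` terms. `(a b ∑ c_i)^(2/3) ≤ N^(2/3) (a^2 + b^2 + (1/N) ∑ c_i^2)`.
(`x y z ≤ ((x^3 + y^3 + z^3)/3)`, `x = a^(2/3)`.) Sum over the chambers: `tau^k`, `pie` are bijections, every facet has 24
chambers: `∑_q v(fq q)^2 = 24 ∑ v^2`, `∑_q z1(fq q)^2 ≤ 24 * 105^2 ∑ v^2`. Number of `(c, ε, k, l)`: `6 * 2 * (4 L + 1)^2 ≤ 300 L^2`. -/
def S_CA : Prop := ∃ C : ℝ, 0 < C ∧ ∀ (ι : Type) [Fintype ι] [DecidableEq ι] (K : Conf ι)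
  (S0 : Finset ι) (h : OK K S0) (W : Finset ι) (hW : S0 ⊆ W) (p : ι → ℝ), Pr p →
  ∀ (D L : ℕ), 1 ≤ D → 1 ≤ L →
  (∑ c ∈ (univ : Finset (Fin 3 × Fin 3)).filter (fun c => c.1 ≠ c.2), ∑ ε : Bool,
      ∑ q : Ch K W, ∑ k ∈ Icc (-(2 * L : ℤ)) (2 * L), ∑ l ∈ Icc (-(2 * L : ℤ)) (2 * L),
        G p (bx c.1 c.2 (Vp K (fq ((tau h hW ^ k) q)))
          (Vp K (fq ((tau h hW ^ l) (if ε then pie h hW q else q)))) (Z2 h hW D L q))) / L ^ 3 ≤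
    C * (L : ℝ) ^ (-(1 : ℝ) / 3) * ∑ s ∈ Fc K W, vv K p s ^ 2

/-- **CE.** (uses Z1B). Cost of the boxes of one runner, in the same way; `∑_q pm (Ie (ep q))^2 ≤
4 ∑_s ∑_(e ⊆ s) pm (Ie e)^2 ≤ 216 ∑ v^2`. -/
def S_CE : Prop := ∃ C : ℝ, 0 < C ∧ ∀ (ι : Type) [Fintype ι] [DecidableEq ι] (K : Conf ι)
  (S0 : Finset ι) (h : OK K S0) (W : Finset ι) (hW : S0 ⊆ W) (p : ι → ℝ), Pr p →
  ∀ (D L : ℕ), 1 ≤ D → 1 ≤ L →
  (∑ c ∈ (univ : Finset (Fin 3 × Fin 3)).filter (fun c => c.1 ≠ c.2),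
      ∑ q : Ch K W, ∑ k ∈ Icc (-(2 * L : ℤ)) (2 * L),
        G p (bx c.1 c.2 (Vp K (fq ((tau h hW ^ k) q))) (Ie K W (ep q)) (Z2 h hW D L q))) / L ^ 2 ≤
    C * (L : ℝ) ^ (-(1 : ℝ) / 3) * ∑ s ∈ Fc K W, vv K p s ^ 2

/-- **CX.** (uses Z1B). Cost of the boxes at exceptional incidences.
PROOF. `∑ (x z^2)^(2/3) ≤ (∑ x)^(2/3) (∑ z^4)^(1/3)` (Hoelder), `x = pm (ExS s)`, `z = pm (Z1 s)`. -/
def S_CX : Prop := ∃ C : ℝ, 0 < C ∧ ∀ (ι : Type) [Fintype ι] [DecidableEq ι] (K : Conf ι)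
  (S0 : Finset ι) (h : OK K S0) (W : Finset ι) (hW : S0 ⊆ W) (p : ι → ℝ), Pr p →
  ∀ (D L : ℕ), 1 ≤ D → 1 ≤ L →
  ∑ s ∈ Fc K W, ∑ i : Fin 3, G p (bx i i (ExS h hW D L s) ∅ (Z1 K W D s)) ≤
    C * (∑ s ∈ Fc K W, pm p (ExS h hW D L s)) ^ ((2 : ℝ) / 3) *
      (∑ s ∈ Fc K W, vv K p s ^ 4) ^ ((1 : ℝ) / 3)

/-- **CB.** (uses nothing). Cost of the boxes at pairs of degree `≠ 4`, `< D`.
PROOF. `G = (pm (Se e))^2 ≤ (∑_(s ∈ St e) v)^2 ≤ D ∑_(St e) v^2`; sum over `e`: Cauchy over the pairs `(e, s)`, at most `D |nonq|`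
pairs, every `s` in at most 6. -/
def S_CB : Prop := ∀ (ι : Type) [Fintype ι] [DecidableEq ι] (K : Conf ι)
  (W : Finset ι) (p : ι → ℝ), Pr p → ∀ D : ℕ, 1 ≤ D →
  ∑ e ∈ (nonq K W).filter (fun e => dg K W e < D), G p (fun _ => Se K W e) ≤
    3 * (D : ℝ) ^ ((3 : ℝ) / 2) * ((nonq K W).card * ∑ s ∈ Fc K W, vv K p s ^ 4) ^ ((1 : ℝ) / 2)

/-- **NBX.** (uses nothing). The number of the boxes: `3 + |nonq| + 3 |Fc| + ..`, `|Ch| = 24 |Fc|`, `|Fc| ≤ |W|^2`. -/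
def S_NBX : Prop := ∀ (ι : Type) [Fintype ι] [DecidableEq ι] (K : Conf ι) (S0 : Finset ι)
  (h : OK K S0) (W : Finset ι) (hW : S0 ⊆ W) (D L : ℕ), 1 ≤ D → 1 ≤ L →
  tot h hW D L (fun _ => 1) ≤ 10 ^ 5 * (W.card : ℝ) ^ 2

/-- **LOW.** (uses SMP, CA, CE, CX, CB). A sample with a cheap cover.
PROOF. `δ` given: `L` with `(C_A + C_E) L^(-1/3) 10^7 ≤ δ / 4`, then `ε`. First sum of `tot`: `3 (pm p W)^(2/3) ≤ 3 ε^(2/3)`
(`pm p univ = 1`). CB: `3 D^(3/2) (ε D^(-6) |W|^2 10^7 / |W|^2)^(1/2)`. CX: `C (ε |W|)^(2/3) (10^7 / |W|^2)^(1/3)` . -/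
def S_LOW : Prop := ∀ (m0 : ℝ → ℕ) (δ : ℝ), 0 < δ → ∃ (M N0 : ℕ), 1 ≤ N0 ∧
  ∀ (ι : Type) [Fintype ι] [DecidableEq ι] (K : Conf ι) (S0 : Finset ι) (h : OK K S0),
  Flat m0 K S0 → ∀ p : ι → ℝ, Pr p → (∀ x, p x ≤ 1 / N0) →
  ∃ (W : Finset ι) (hW : S0 ⊆ W) (D L : ℕ), W.card ≤ M ∧ 5 ≤ D ∧ 1 ≤ L ∧ L ≤ D ∧
    tot h hW D L (G p) ≤ δ

/-- the bound with exponent `κ` and constant `B` holds for all the systems of `K` -/
def Valid {ι : Type} [DecidableEq ι] (K : Conf ι) (S0 : Finset ι) (κ B : ℝ) : Prop :=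
  ∀ (X : Fin 3 → Finset ι) (T : Finset (Fin 3 → ι)), Inst K S0 X T →
    (T.card : ℝ) ≤ B * (∏ i, ((X i).card : ℝ)) ^ κ

/-- **STP.** (uses LOW, COV, NBX). The induction step.
PROOF. LOW with `δ = 1 / 100` gives `M, N0`. Choose `λ ∈ (0, 1]` with `10^5 M^2 λ^(1/2) ≤ 1/4`, then `κ ∈ [1/2, 2/3)` with
`λ^(κ - 2/3) ≤ 2`. `p x = ∑_i [x ∈ X i] / (3 |X i|)`: `Pr p`, `p x ≤ 1 / min |X i| ≤ 1 / N0`, `|X i ∩ S| ≤ 3 |X i| pm p S`. For every box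
`S`: `cnt T S = |T ∩ S|` is a system in `X i ∩ S i`, so `cnt T S ≤ B (∏ |X i ∩ S i|)^κ ≤ B (∏ |X i|)^κ τ^κ`,
`τ = 27 ∏ pm p (S i)`, and `τ^κ ≤ λ^(κ - 2/3) τ^(2/3) + λ^κ ≤ 18 G p S + λ^(1/2)` (`τ ≥ λ` or `τ < λ`; `27^(2/3) = 9`). COV: `|T| ≤ tot cnt ≤
B (∏ |X i|)^κ (18 tot G + λ^(1/2) tot 1) ≤ B (∏ |X i|)^κ (18/100 + 1/4)`. -/
def S_STP : Prop := ∀ m0 : ℝ → ℕ, ∃ (κ : ℝ) (N0 : ℕ), 1 / 2 ≤ κ ∧ κ < 2 / 3 ∧ 1 ≤ N0 ∧
  ∀ (ι : Type) [Fintype ι] [DecidableEq ι] (K : Conf ι) (S0 : Finset ι), OK K S0 →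
  Flat m0 K S0 → ∀ B : ℝ, 0 ≤ B → Valid K S0 κ B → ∀ (X : Fin 3 → Finset ι)
  (T : Finset (Fin 3 → ι)), Inst K S0 X T → (∀ i, N0 ≤ (X i).card) →
  (T.card : ℝ) ≤ B / 2 * (∏ i, ((X i).card : ℝ)) ^ κ

/-- **ATH.** (uses STP). The abstract theorem.
PROOF. `Φ = N0 + 1`. If some `|X i| < N0`: `|T| ≤ |X i| |X j|` for every `j ≠ i` (`inj`), so
`|T|^2 ≤ |X i|^2 |X j| |X k| ≤ N0 ∏ |X|`, `|T| ≤ N0 (∏ |X|)^(1/2) ≤ Φ (∏ |X|)^κ` (if the product is 0 then `T` is empty). So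
`Valid B` implies `Valid (max Φ (B / 2))` by STP. `Valid (|ι|^3 + 1)` is trivial (`T` empty or the product `≥ 1`). Iterate:
`Valid (max Φ (B / 2^n))` for all `n`, so `Valid Φ`. -/
def S_ATH : Prop := S_AT

end Pool.Agent.F32P
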