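import Mathlib
import Pool.Agent.F32P.St3

/-!
# F32P: cost of the boxes of two runners (helper65)
-/

set_option autoImplicit false

namespace Pool.Agent.F32P

open Finset

namespace CA

variable {ι : Type} [Fintype ι]

theorem pm_nonneg {p : ι → ℝ} (hp : Pr p) (A : Finset ι) : 0 ≤ pm p A :=
  sum_nonneg fun x _ => hp.nonneg x

theorem pm_biUnion_le [DecidableEq ι] {κ : Type} [DecidableEq κ] {p : ι → ℝ} (hp : Pr p)
    (I : Finset κ) (f : κ → Finset ι) : pm p (I.biUnion f) ≤ ∑ i ∈ I, pm p (f i) := by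
  induction I using Finset.induction_on with
  | empty => simp [pm]
  | insert a s ha ih =>
    rw [biUnion_insert, sum_insert ha]
    have h1 : pm p (f a ∪ s.biUnion f) + pm p (f a ∩ s.biUnion f)
        = pm p (f a) + pm p (s.biUnion f) := sum_union_inter
    have h2 := pm_nonneg hp (f a ∩ s.biUnion f)
    linarith

omit [Fintype ι] in
theorem prod_bx (p : ι → ℝ) (i j : Fin 3) (hij : i ≠ j) (A B C : Finset ι) :
    ∏ t, pm p (bx i j A B C t) = pm p A * pm p B * pm p C := by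
  rw [Fin.prod_univ_three]
  have key : ∀ i j : Fin 3, i ≠ j → pm p (bx i j A B C 0) * pm p (bx i j A B C 1) *
      pm p (bx i j A B C 2) = pm p A * pm p B * pm p C := by
    intro i j hij
    fin_cases i <;> fin_cases j <;> simp [bx] at hij ⊢ <;>
      first | exact Or.inl (mul_comm _ _) | ring
  exact key i j hij

theorem amgm {a b m : ℝ} (ha : 0 ≤ a) (hb : 0 ≤ b) (hm : 0 ≤ m) :
    (a * b * m) ^ ((2 : ℝ) / 3) ≤ a ^ 2 + b ^ 2 + m ^ 2 := by
  have h := Real.geom_mean_le_arith_mean3_weighted (w₁ := 1 / 3) (w₂ := 1 / 3) (w₃ := 1 / 3)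
    (p₁ := a ^ 2) (p₂ := b ^ 2) (p₃ := m ^ 2) (by norm_num) (by norm_num) (by norm_num)
    (by positivity) (by positivity) (by positivity) (by norm_num)
  have e : ∀ x : ℝ, 0 ≤ x → (x ^ 2) ^ ((1 : ℝ) / 3) = x ^ ((2 : ℝ) / 3) := fun x hx => by
    rw [← Real.rpow_natCast x 2, ← Real.rpow_mul hx]
    norm_num
  rw [e a ha, e b hb, e m hm] at h
  rw [Real.mul_rpow (by positivity) hm, Real.mul_rpow ha hb]
  have := sq_nonneg a
  have := sq_nonneg b
  have := sq_nonneg m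
  linarith

/-- The basic inequality. -/
theorem key {a b c : ℝ} (ha : 0 ≤ a) (hb : 0 ≤ b) (hc : 0 ≤ c) {N : ℕ} (hN : 0 < N)
    (z : ℕ → ℝ) (hcz : c ≤ ∑ i ∈ range N, z i) :
    (a * b * c) ^ ((2 : ℝ) / 3) ≤
      (N : ℝ) ^ ((2 : ℝ) / 3) * (a ^ 2 + b ^ 2 + (∑ i ∈ range N, z i ^ 2) / N) := by
  have hN' : (0 : ℝ) < N := by exact_mod_cast hN
  set m : ℝ := c / N with hm
  have hm0 : 0 ≤ m := by positivity
  have hcm : c = N * m := by rw [hm]; field_simp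
  have h1 : a * b * c = N * (a * b * m) := by rw [hcm]; ring
  rw [h1, Real.mul_rpow hN'.le (by positivity)]
  refine mul_le_mul_of_nonneg_left ?_ (by positivity)
  refine (amgm ha hb hm0).trans ?_
  have h2 : m ^ 2 ≤ (∑ i ∈ range N, z i ^ 2) / N := by
    rw [hm, div_pow, div_le_div_iff₀ (by positivity) hN']
    have h3 : c ^ 2 ≤ (∑ i ∈ range N, z i) ^ 2 := pow_le_pow_left₀ hc hcz 2
    have h4 : (∑ i ∈ range N, z i) ^ 2 ≤ (range N).card * ∑ i ∈ range N, z i ^ 2 :=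
      sq_sum_le_card_mul_sum_sq
    rw [card_range] at h4
    nlinarith
  linarith

theorem sum_ch [DecidableEq ι] (K : Conf ι) (W : Finset ι) (g : Finset ι → ℝ)
    (hg : ∀ s, 0 ≤ g s) : ∑ q : Ch K W, g (fq q) ≤ 256 * ∑ s ∈ Fc K W, g s := by
  classical
  have h1 : ∑ q : Ch K W, g (fq q) = ∑ s ∈ Fc K W, ∑ q ∈ univ.filter (fun q : Ch K W => fq q = s),
      g (fq q) := by
    rw [sum_fiberwise_of_maps_to]
    exact fun q _ => q.2
  rw [h1, mul_sum]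
  refine sum_le_sum fun s hs => ?_
  have h2 : ∑ q ∈ univ.filter (fun q : Ch K W => fq q = s), g (fq q) =
      ((univ.filter (fun q : Ch K W => fq q = s)).card : ℝ) * g s := by
    rw [sum_congr rfl (fun q hq => by rw [(mem_filter.1 hq).2]), sum_const, nsmul_eq_mul]
  rw [h2]
  refine mul_le_mul_of_nonneg_right ?_ (hg s)
  have h3 : (univ.filter (fun q : Ch K W => fq q = s)).card ≤ (s ×ˢ s ×ˢ s ×ˢ s).card := by
    refine card_le_card_of_injOn (fun q => q.1) ?_ ?_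
    · intro q hq
      have hq' : fq q = s := (mem_filter.1 hq).2
      have : ∀ x ∈ ({q.1.1, q.1.2.1, q.1.2.2.1, q.1.2.2.2} : Finset ι), x ∈ s := by
        intro x hx
        rw [← hq']
        exact hx
      simp only [mem_insert, mem_singleton] at this
      simp only [coe_product, Set.mem_prod, mem_coe]
      exact ⟨this _ (by simp), this _ (by simp), this _ (by simp), this _ (by simp)⟩
    · intro q _ q' _ h
      exact Subtype.ext h
  have h4 : (s ×ˢ s ×ˢ s ×ˢ s).card = 256 := by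
    rw [card_product, card_product, card_product, (mem_Fc.1 hs).2.1]
  rw [h4] at h3
  exact_mod_cast h3

end CA

open CA in
/-- **CA** -/
theorem p_CA (hZ : S_Z1B) : S_CA := by
  refine ⟨12 * 25 * 3 * 256 * (2 + 105 ^ 2), by norm_num, ?_⟩
  intro ι _ _ K S0 h W hW p hp D L hD hL
  set V : ℝ := ∑ s ∈ Fc K W, vv K p s ^ 2 with hV
  have hV0 : 0 ≤ V := sum_nonneg fun s _ => sq_nonneg _
  have hL0 : (1 : ℝ) ≤ L := by exact_mod_cast hL
  have hZ2 : ∑ s ∈ Fc K W, pm p (Z1 K W D s) ^ 2 ≤ 105 ^ 2 * V :=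
    (hZ ι K S0 h W hW p hp D 2 (by norm_num) hD).1
  have hv : ∑ q : Ch K W, vv K p (fq q) ^ 2 ≤ 256 * V :=
    sum_ch K W (fun s => vv K p s ^ 2) fun s => sq_nonneg _
  have hz : ∑ q : Ch K W, pm p (Z1 K W D (fq q)) ^ 2 ≤ 256 * (105 ^ 2 * V) :=
    (sum_ch K W (fun s => pm p (Z1 K W D s) ^ 2) fun s => sq_nonneg _).trans
      (mul_le_mul_of_nonneg_left hZ2 (by norm_num))
  set N : ℕ := 2 * L + 1 with hN
  have hN0 : 0 < N := by omega
  have hNr : (0 : ℝ) < N := by exact_mod_cast hN0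
  -- one term
  have hterm : ∀ c : Fin 3 × Fin 3, c.1 ≠ c.2 → ∀ (q q' : Ch K W) (k l : ℤ),
      G p (bx c.1 c.2 (Vp K (fq ((tau h hW ^ k) q))) (Vp K (fq ((tau h hW ^ l) q')))
        (Z2 h hW D L q)) ≤ (N : ℝ) ^ ((2 : ℝ) / 3) * (vv K p (fq ((tau h hW ^ k) q)) ^ 2 +
          vv K p (fq ((tau h hW ^ l) q')) ^ 2 +
          (∑ i ∈ range N, pm p (Z1 K W D (fq ((tau h hW ^ ((i : ℤ) - L)) q))) ^ 2) / N) := by
    intro c hc q q' k l
    rw [G, prod_bx p _ _ hc]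
    exact key (pm_nonneg hp _) (pm_nonneg hp _) (pm_nonneg hp _) hN0 _
      (pm_biUnion_le hp _ _)
  -- the sum over the chambers
  have hsum : ∀ c : Fin 3 × Fin 3, c.1 ≠ c.2 → ∀ (σ : Equiv.Perm (Ch K W)) (k l : ℤ),
      ∑ q : Ch K W, G p (bx c.1 c.2 (Vp K (fq ((tau h hW ^ k) q)))
        (Vp K (fq ((tau h hW ^ l) (σ q)))) (Z2 h hW D L q)) ≤
      (N : ℝ) ^ ((2 : ℝ) / 3) * (256 * (2 + 105 ^ 2) * V) := by
    intro c hc σ k l
    refine (sum_le_sum fun q _ => hterm c hc q (σ q) k l).trans ?_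
    rw [← mul_sum]
    refine mul_le_mul_of_nonneg_left ?_ (by positivity)
    rw [sum_add_distrib, sum_add_distrib, ← sum_div, sum_comm]
    have e1 : ∑ q : Ch K W, vv K p (fq ((tau h hW ^ k) q)) ^ 2 =
        ∑ q : Ch K W, vv K p (fq q) ^ 2 :=
      Equiv.sum_comp (tau h hW ^ k) (fun q => vv K p (fq q) ^ 2)
    have e2 : ∑ q : Ch K W, vv K p (fq ((tau h hW ^ l) (σ q))) ^ 2 =
        ∑ q : Ch K W, vv K p (fq q) ^ 2 := by
      rw [Equiv.sum_comp σ (fun q => vv K p (fq ((tau h hW ^ l) q)) ^ 2)]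
      exact Equiv.sum_comp (tau h hW ^ l) (fun q => vv K p (fq q) ^ 2)
    have e3 : ∀ i : ℕ, ∑ q : Ch K W, pm p (Z1 K W D (fq ((tau h hW ^ ((i : ℤ) - L)) q))) ^ 2 =
        ∑ q : Ch K W, pm p (Z1 K W D (fq q)) ^ 2 := fun i =>
      Equiv.sum_comp (tau h hW ^ ((i : ℤ) - L)) (fun q => pm p (Z1 K W D (fq q)) ^ 2)
    rw [e1, e2, sum_congr rfl (fun i _ => e3 i), sum_const, card_range, nsmul_eq_mul,
      mul_div_cancel_left₀ _ hNr.ne']
    linarith
  -- everything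
  have hcard : (Icc (-(2 * L : ℤ)) (2 * L)).card = 4 * L + 1 := by
    rw [Int.card_Icc]
    omega
  have hall : ∀ c ∈ (univ : Finset (Fin 3 × Fin 3)).filter (fun c => c.1 ≠ c.2), ∑ ε : Bool,
      ∑ q : Ch K W, ∑ k ∈ Icc (-(2 * L : ℤ)) (2 * L), ∑ l ∈ Icc (-(2 * L : ℤ)) (2 * L),
        G p (bx c.1 c.2 (Vp K (fq ((tau h hW ^ k) q)))
          (Vp K (fq ((tau h hW ^ l) (if ε then pie h hW q else q)))) (Z2 h hW D L q)) ≤
      2 * (((4 * L + 1 : ℕ) : ℝ) * (((4 * L + 1 : ℕ) : ℝ) *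
        ((N : ℝ) ^ ((2 : ℝ) / 3) * (256 * (2 + 105 ^ 2) * V)))) := by
    intro c hc
    have hc' := (mem_filter.1 hc).2
    have one : ∀ ε : Bool, ∑ q : Ch K W, ∑ k ∈ Icc (-(2 * L : ℤ)) (2 * L),
        ∑ l ∈ Icc (-(2 * L : ℤ)) (2 * L),
        G p (bx c.1 c.2 (Vp K (fq ((tau h hW ^ k) q)))
          (Vp K (fq ((tau h hW ^ l) (if ε then pie h hW q else q)))) (Z2 h hW D L q)) ≤
        ((4 * L + 1 : ℕ) : ℝ) * (((4 * L + 1 : ℕ) : ℝ) *
        ((N : ℝ) ^ ((2 : ℝ) / 3) * (256 * (2 + 105 ^ 2) * V))) := by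
      intro ε
      rw [sum_comm, ← hcard, ← nsmul_eq_mul]
      refine sum_le_card_nsmul _ _ _ fun k _ => ?_
      rw [sum_comm, ← nsmul_eq_mul]
      refine sum_le_card_nsmul _ _ _ fun l _ => ?_
      cases ε
      · simpa using hsum c hc' 1 k l
      · simpa using hsum c hc' (pie h hW) k l
    rw [Fintype.sum_bool]
    linarith [one true, one false]
  have hfin := sum_le_card_nsmul _ _ _ hall
  have h6 : ((univ : Finset (Fin 3 × Fin 3)).filter (fun c => c.1 ≠ c.2)).card = 6 := by decide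
  rw [h6, nsmul_eq_mul] at hfin
  -- the numbers
  have hLp : (0 : ℝ) < L := by linarith
  have hNle : (N : ℝ) ^ ((2 : ℝ) / 3) ≤ 3 * (L : ℝ) ^ ((2 : ℝ) / 3) := by
    have h1 : (N : ℝ) ≤ 3 * L := by rw [hN]; push_cast; linarith
    refine (Real.rpow_le_rpow hNr.le h1 (by norm_num)).trans ?_
    rw [Real.mul_rpow (by norm_num) hLp.le]
    refine mul_le_mul_of_nonneg_right ?_ (by positivity)
    calc (3 : ℝ) ^ ((2 : ℝ) / 3) ≤ 3 ^ (1 : ℝ) :=
          Real.rpow_le_rpow_of_exponent_le (by norm_num) (by norm_num)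
      _ = 3 := by norm_num
  have h4L : ((4 * L + 1 : ℕ) : ℝ) ≤ 5 * L := by push_cast; linarith
  have hpow : (L : ℝ) ^ ((2 : ℝ) / 3) * L ^ 2 = (L : ℝ) ^ (-(1 : ℝ) / 3) * L ^ 3 := by
    rw [← Real.rpow_natCast (L : ℝ) 2, ← Real.rpow_natCast (L : ℝ) 3, ← Real.rpow_add hLp,
      ← Real.rpow_add hLp]
    norm_num
  rw [div_le_iff₀ (by positivity)]
  refine hfin.trans ?_
  have hA : ((4 * L + 1 : ℕ) : ℝ) * (((4 * L + 1 : ℕ) : ℝ) *
        ((N : ℝ) ^ ((2 : ℝ) / 3) * (256 * (2 + 105 ^ 2) * V))) ≤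
      (5 * L) * ((5 * L) * ((3 * (L : ℝ) ^ ((2 : ℝ) / 3)) * (256 * (2 + 105 ^ 2) * V))) := by
    gcongr
  calc ((6 : ℕ) : ℝ) * (2 * (((4 * L + 1 : ℕ) : ℝ) * (((4 * L + 1 : ℕ) : ℝ) *
        ((N : ℝ) ^ ((2 : ℝ) / 3) * (256 * (2 + 105 ^ 2) * V)))))
      ≤ ((6 : ℕ) : ℝ) * (2 * ((5 * L) * ((5 * L) * ((3 * (L : ℝ) ^ ((2 : ℝ) / 3)) *
        (256 * (2 + 105 ^ 2) * V))))) := by
        gcongr
    _ = 12 * 25 * 3 * 256 * (2 + 105 ^ 2) * ((L : ℝ) ^ ((2 : ℝ) / 3) * L ^ 2) * V := by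
        push_cast; ring
    _ = _ := by rw [hpow]; ring

end Pool.Agent.F32P
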