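import Pool.Agent.F32P.St3

/-!
# F32P: CB (helper81). Cost of the boxes at pairs of degree `≠ 4`, `< D`
-/

set_option autoImplicit false

namespace Pool.Agent.F32P

open Finset

theorem cb_pm_nonneg {ι : Type} [Fintype ι] {p : ι → ℝ} (hp : Pr p) (A : Finset ι) :
    0 ≤ pm p A :=
  sum_nonneg fun x _ => hp.nonneg x

theorem cb_pm_biUnion {ι κ : Type} [Fintype ι] [DecidableEq ι] {p : ι → ℝ} (hp : Pr p)
    (S : Finset κ) (f : κ → Finset ι) : pm p (S.biUnion f) ≤ ∑ s ∈ S, pm p (f s) := by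
  classical
  induction S using Finset.induction_on with
  | empty => simp [pm]
  | insert a S ha ih =>
    rw [biUnion_insert, sum_insert ha]
    have h1 : pm p (f a ∪ S.biUnion f) + pm p (f a ∩ S.biUnion f) =
        pm p (f a) + pm p (S.biUnion f) := sum_union_inter
    have h2 := cb_pm_nonneg hp (f a ∩ S.biUnion f)
    linarith

theorem cb_vv_nonneg {ι : Type} [Fintype ι] [DecidableEq ι] (K : Conf ι) {p : ι → ℝ} (hp : Pr p)
    (s : Finset ι) : 0 ≤ vv K p s := cb_pm_nonneg hp _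

theorem cb_G {ι : Type} [Fintype ι] {p : ι → ℝ} (hp : Pr p) (A : Finset ι) :
    G p (fun _ => A) = pm p A ^ 2 := by
  have hx : 0 ≤ pm p A := cb_pm_nonneg hp A
  have h1 : (∏ _i : Fin 3, pm p A) = pm p A ^ 3 := by
    rw [prod_const, card_univ, Fintype.card_fin]
  rw [G, h1, ← Real.rpow_natCast, ← Real.rpow_mul hx, ← Real.rpow_natCast]
  congr 1
  norm_num

theorem cb_swap {ι : Type} [DecidableEq ι] (K : Conf ι) (W : Finset ι) (E : Finset (Finset ι))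
    (hE : ∀ e ∈ E, e.card = 2) (g : Finset ι → ℝ) (hg : ∀ s, 0 ≤ g s) :
    ∑ e ∈ E, ∑ s ∈ St K W e, g s ≤ 6 * ∑ s ∈ Fc K W, g s := by
  have h1 : ∑ e ∈ E, ∑ s ∈ St K W e, g s = ∑ s ∈ Fc K W, ∑ e ∈ E with e ⊆ s, g s := by
    have : ∀ e ∈ E, ∑ s ∈ St K W e, g s = ∑ s ∈ Fc K W, if e ⊆ s then g s else 0 := by
      intro e _
      rw [St, sum_filter]
    rw [sum_congr rfl this, sum_comm]
    refine sum_congr rfl fun s _ => ?_
    rw [sum_filter]
  rw [h1, mul_sum]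
  refine sum_le_sum fun s hs => ?_
  rw [sum_const, nsmul_eq_mul]
  refine mul_le_mul_of_nonneg_right ?_ (hg s)
  have h2 : (E.filter fun e => e ⊆ s) ⊆ s.powersetCard 2 := by
    intro e he
    rw [mem_filter] at he
    exact mem_powersetCard.2 ⟨he.2, hE e he.1⟩
  have h3 := card_le_card h2
  rw [card_powersetCard, (mem_Fc.1 hs).2.1] at h3
  have h4 : Nat.choose 4 2 = 6 := rfl
  rw [h4] at h3
  exact_mod_cast h3

theorem p_CB : S_CB := by
  intro ι _ _ K W p hp D hD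
  have hE2 : ∀ e ∈ (nonq K W).filter (fun e => dg K W e < D), e.card = 2 := by
    intro e he
    rw [mem_filter, nonq, mem_filter, mem_powersetCard] at he
    exact he.1.1.2
  have hEd : ∀ e ∈ (nonq K W).filter (fun e => dg K W e < D), dg K W e < D := fun e he =>
    (mem_filter.1 he).2
  have hEc : ((nonq K W).filter (fun e => dg K W e < D)).card ≤ (nonq K W).card :=
    card_filter_le _ _
  generalize (nonq K W).filter (fun e => dg K W e < D) = E at hE2 hEd hEc ⊢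
  have hv := cb_vv_nonneg K hp
  have hD0 : (0 : ℝ) ≤ D := Nat.cast_nonneg D
  -- one pair
  have h1 : ∀ e ∈ E, G p (fun _ => Se K W e) ≤ D * ∑ s ∈ St K W e, vv K p s ^ 2 := by
    intro e he
    rw [cb_G hp]
    have hx : 0 ≤ pm p (Se K W e) := cb_pm_nonneg hp _
    have h2 : pm p (Se K W e) ≤ ∑ s ∈ St K W e, vv K p s := cb_pm_biUnion hp _ _
    have h3 : (∑ s ∈ St K W e, vv K p s) ^ 2 ≤
        ((St K W e).card : ℝ) * ∑ s ∈ St K W e, vv K p s ^ 2 := sq_sum_le_card_mul_sum_sq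
    have h4 : ((St K W e).card : ℝ) ≤ D := by
      have := (hEd e he).le
      rw [dg] at this
      exact_mod_cast this
    calc pm p (Se K W e) ^ 2 ≤ (∑ s ∈ St K W e, vv K p s) ^ 2 := pow_le_pow_left₀ hx h2 2
      _ ≤ _ := h3
      _ ≤ _ := mul_le_mul_of_nonneg_right h4 (sum_nonneg fun s _ => sq_nonneg _)
  have h2 : ∑ e ∈ E, G p (fun _ => Se K W e) ≤
      D * ∑ e ∈ E, ∑ s ∈ St K W e, vv K p s ^ 2 := by
    rw [mul_sum]
    exact sum_le_sum h1
  -- Cauchy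
  have h3 : (∑ e ∈ E, ∑ s ∈ St K W e, vv K p s ^ 2) ^ 2 ≤
      ((nonq K W).card * D) * (6 * ∑ s ∈ Fc K W, vv K p s ^ 4) := by
    have e1 : ∑ e ∈ E, ∑ s ∈ St K W e, vv K p s ^ 2 =
        ∑ x ∈ E.sigma (fun e => St K W e), vv K p x.2 ^ 2 := by rw [sum_sigma]
    have e2 : ∑ x ∈ E.sigma (fun e => St K W e), (vv K p x.2 ^ 2) ^ 2 =
        ∑ e ∈ E, ∑ s ∈ St K W e, vv K p s ^ 4 := by
      rw [sum_sigma]
      refine sum_congr rfl fun e _ => sum_congr rfl fun s _ => ?_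
      rw [← pow_mul]
    have e3 : ((E.sigma (fun e => St K W e)).card : ℝ) ≤ (nonq K W).card * D := by
      rw [card_sigma]
      have : ∑ e ∈ E, (St K W e).card ≤ ∑ _e ∈ E, D := sum_le_sum fun e he => (hEd e he).le
      rw [sum_const, smul_eq_mul] at this
      have h5 := this.trans (Nat.mul_le_mul_right D hEc)
      exact_mod_cast h5
    rw [e1]
    refine (sq_sum_le_card_mul_sum_sq).trans ?_
    rw [e2]
    refine mul_le_mul e3 (cb_swap K W E hE2 _ fun s => pow_nonneg (hv s) 4)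
      (sum_nonneg fun e _ => sum_nonneg fun s _ => pow_nonneg (hv s) 4) (by positivity)
  -- the end
  have hV : 0 ≤ ∑ s ∈ Fc K W, vv K p s ^ 4 := sum_nonneg fun s _ => pow_nonneg (hv s) 4
  have hQ : 0 ≤ ∑ e ∈ E, ∑ s ∈ St K W e, vv K p s ^ 2 :=
    sum_nonneg fun e _ => sum_nonneg fun s _ => sq_nonneg _
  generalize (∑ s ∈ Fc K W, vv K p s ^ 4) = V at h3 hV ⊢
  generalize (∑ e ∈ E, ∑ s ∈ St K W e, vv K p s ^ 2) = Q at h2 h3 hQ
  have hn : (0 : ℝ) ≤ (nonq K W).card := Nat.cast_nonneg _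
  generalize (((nonq K W).card : ℕ) : ℝ) = n at h3 hn ⊢
  refine h2.trans ?_
  have hY : 0 ≤ n * V := mul_nonneg hn hV
  have ha : ((D : ℝ) ^ ((3 : ℝ) / 2)) ^ 2 = (D : ℝ) ^ 3 := by
    rw [← Real.rpow_natCast, ← Real.rpow_mul hD0, ← Real.rpow_natCast]
    congr 1
    norm_num
  have hb : ((n * V) ^ ((1 : ℝ) / 2)) ^ 2 = n * V := by
    rw [← Real.rpow_natCast, ← Real.rpow_mul hY]
    norm_num
  have ha0 : 0 ≤ (D : ℝ) ^ ((3 : ℝ) / 2) := Real.rpow_nonneg hD0 _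
  have hb0 : 0 ≤ (n * V) ^ ((1 : ℝ) / 2) := Real.rpow_nonneg hY _
  generalize (D : ℝ) ^ ((3 : ℝ) / 2) = a at ha ha0 ⊢
  generalize (n * V) ^ ((1 : ℝ) / 2) = b at hb hb0 ⊢
  rw [← pow_le_pow_iff_left₀ (mul_nonneg hD0 hQ) (by positivity) (two_ne_zero)]
  have h5 : (3 * a * b) ^ 2 = 9 * (D : ℝ) ^ 3 * (n * V) := by
    rw [mul_pow, mul_pow, ha, hb]
    ring
  rw [h5, mul_pow]
  have h6 : (D : ℝ) ^ 2 * Q ^ 2 ≤ (D : ℝ) ^ 2 * ((n * D) * (6 * V)) :=
    mul_le_mul_of_nonneg_left h3 (by positivity)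
  have h7 : 0 ≤ (D : ℝ) ^ 3 * (n * V) := by positivity
  nlinarith

end Pool.Agent.F32P
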