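import Pool.Agent.F32P.St3

/-!
# F32P: `CX`, the cost of the boxes at exceptional incidences (helper20)
-/

set_option autoImplicit false

namespace Pool.Agent.F32P

open Finset

private theorem cx_pm_nonneg {ι : Type} [Fintype ι] {p : ι → ℝ} (hp : Pr p) (A : Finset ι) :
    0 ≤ pm p A := sum_nonneg fun x _ => hp.nonneg x

private theorem cx_G {ι : Type} [Fintype ι] [DecidableEq ι] {p : ι → ℝ} (hp : Pr p)
    (A Z : Finset ι) (i : Fin 3) :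
    G p (bx i i A ∅ Z) = (pm p A) ^ ((2 : ℝ) / 3) * (pm p Z) ^ ((4 : ℝ) / 3) := by
  have hA := cx_pm_nonneg hp A
  have hZ := cx_pm_nonneg hp Z
  have e : ∏ t : Fin 3, pm p (bx i i A ∅ Z t) = pm p A * (pm p Z) ^ (2 : ℕ) := by
    fin_cases i <;> simp [Fin.prod_univ_three, bx] <;> ring
  rw [G, e, Real.mul_rpow hA (by positivity), ← Real.rpow_natCast (pm p Z) 2, ← Real.rpow_mul hZ]
  norm_num

theorem p_CX (h1 : S_Z1B) : S_CX := by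
  refine ⟨3 * (105 ^ 4 : ℝ) ^ ((1 : ℝ) / 3), by positivity, ?_⟩
  intro ι _ _ K S0 h W hW p hp D L hD hL
  have e1 : ∀ s ∈ Fc K W, ∑ i : Fin 3, G p (bx i i (ExS h hW D L s) ∅ (Z1 K W D s)) =
      3 * ((pm p (ExS h hW D L s)) ^ ((2 : ℝ) / 3) * (pm p (Z1 K W D s)) ^ ((4 : ℝ) / 3)) := by
    intro s _
    simp only [cx_G hp, Fin.sum_univ_three]
    ring
  rw [sum_congr rfl e1, ← mul_sum]
  have hpq : ((3 : ℝ) / 2).HolderConjugate 3 := by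
    rw [Real.holderConjugate_iff]
    norm_num
  have hH := Real.inner_le_Lp_mul_Lq_of_nonneg (Fc K W) (p := 3 / 2) (q := 3)
    (f := fun s => (pm p (ExS h hW D L s)) ^ ((2 : ℝ) / 3))
    (g := fun s => (pm p (Z1 K W D s)) ^ ((4 : ℝ) / 3)) hpq
    (fun s _ => Real.rpow_nonneg (cx_pm_nonneg hp _) _)
    (fun s _ => Real.rpow_nonneg (cx_pm_nonneg hp _) _)
  have e2 : ∀ s ∈ Fc K W, ((pm p (ExS h hW D L s)) ^ ((2 : ℝ) / 3)) ^ ((3 : ℝ) / 2) =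
      pm p (ExS h hW D L s) := by
    intro s _
    rw [← Real.rpow_mul (cx_pm_nonneg hp _)]
    norm_num
  have e3 : ∀ s ∈ Fc K W, ((pm p (Z1 K W D s)) ^ ((4 : ℝ) / 3)) ^ (3 : ℝ) =
      (pm p (Z1 K W D s)) ^ 4 := by
    intro s _
    rw [← Real.rpow_mul (cx_pm_nonneg hp _), ← Real.rpow_natCast (pm p (Z1 K W D s)) 4]
    norm_num
  rw [sum_congr rfl e2, sum_congr rfl e3] at hH
  have e4 : (1 : ℝ) / (3 / 2) = 2 / 3 := by norm_num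
  rw [e4] at hH
  have hz := (h1 ι K S0 h W hW p hp D 4 (by norm_num) hD).1
  have hv : 0 ≤ ∑ s ∈ Fc K W, vv K p s ^ 4 :=
    sum_nonneg fun s _ => pow_nonneg (cx_pm_nonneg hp _) 4
  have hz0 : 0 ≤ ∑ s ∈ Fc K W, pm p (Z1 K W D s) ^ 4 :=
    sum_nonneg fun s _ => pow_nonneg (cx_pm_nonneg hp _) 4
  have e5 : (∑ s ∈ Fc K W, pm p (Z1 K W D s) ^ 4) ^ ((1 : ℝ) / 3) ≤
      (105 ^ 4 : ℝ) ^ ((1 : ℝ) / 3) * (∑ s ∈ Fc K W, vv K p s ^ 4) ^ ((1 : ℝ) / 3) := by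
    rw [← Real.mul_rpow (by positivity) hv]
    exact Real.rpow_le_rpow hz0 hz (by norm_num)
  have hx0 : 0 ≤ (∑ s ∈ Fc K W, pm p (ExS h hW D L s)) ^ ((2 : ℝ) / 3) :=
    Real.rpow_nonneg (sum_nonneg fun s _ => cx_pm_nonneg hp _) _
  have e6 := mul_le_mul_of_nonneg_left e5 hx0
  have e7 := hH.trans e6
  calc 3 * ∑ s ∈ Fc K W, (pm p (ExS h hW D L s)) ^ ((2 : ℝ) / 3) *
        (pm p (Z1 K W D s)) ^ ((4 : ℝ) / 3)
      ≤ 3 * ((∑ s ∈ Fc K W, pm p (ExS h hW D L s)) ^ ((2 : ℝ) / 3) *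
        ((105 ^ 4 : ℝ) ^ ((1 : ℝ) / 3) * (∑ s ∈ Fc K W, vv K p s ^ 4) ^ ((1 : ℝ) / 3))) :=
        mul_le_mul_of_nonneg_left e7 (by norm_num)
    _ = _ := by ring

end Pool.Agent.F32P
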