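import Pool.Agent.F32P.St3

/-!
# F32P, DES (helper11)
-/

set_option autoImplicit false
set_option linter.unusedSectionVars false
set_option linter.unusedVariables false

namespace Pool.Agent.F32P

open Finset

namespace HDES

variable {ι : Type} [Fintype ι] [DecidableEq ι]

theorem Ex_nonneg {p : ι → ℝ} (hp : Pr p) {m : ℕ} {f : (Fin m → ι) → ℝ} (hf : ∀ t, 0 ≤ f t) :
    0 ≤ Ex p m f :=
  Finset.sum_nonneg fun t _ => mul_nonneg (Finset.prod_nonneg fun j _ => hp.nonneg _) (hf t)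

theorem Ex_mono {p : ι → ℝ} (hp : Pr p) {m : ℕ} {f g : (Fin m → ι) → ℝ} (hf : ∀ t, f t ≤ g t) :
    Ex p m f ≤ Ex p m g :=
  Finset.sum_le_sum fun t _ => mul_le_mul_of_nonneg_left (hf t)
    (Finset.prod_nonneg fun j _ => hp.nonneg _)

theorem Ex_sub {p : ι → ℝ} {m : ℕ} {f g : (Fin m → ι) → ℝ} :
    Ex p m (fun t => f t - g t) = Ex p m f - Ex p m g := by
  simp only [Ex, mul_sub, Finset.sum_sub_distrib]

theorem Ex_sum {p : ι → ℝ} {m : ℕ} {κ : Type} (s : Finset κ) {f : κ → (Fin m → ι) → ℝ} :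
    Ex p m (fun t => ∑ k ∈ s, f k t) = ∑ k ∈ s, Ex p m (f k) := by
  simp only [Ex, Finset.mul_sum]
  rw [Finset.sum_comm]

theorem Ex_drop {p : ι → ℝ} (hp : Pr p) {m : ℕ} (f : (Fin m → ι) → ℝ) :
    Ex p (m + 1) (fun t => f (Fin.init t)) = Ex p m f := by
  unfold Ex
  rw [← Equiv.sum_comp (Fin.snocEquiv fun _ : Fin (m + 1) => ι)]
  rw [Fintype.sum_prod_type]
  rw [Finset.sum_comm]
  refine Finset.sum_congr rfl fun t _ => ?_
  have : ∀ x : ι, (∏ j : Fin (m + 1), p ((Fin.snocEquiv fun _ : Fin (m + 1) => ι) (x, t) j)) *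
      f (Fin.init ((Fin.snocEquiv fun _ : Fin (m + 1) => ι) (x, t))) =
      p x * ((∏ j : Fin m, p (t j)) * f t) := by
    intro x
    rw [Fin.prod_univ_castSucc]
    simp [Fin.snocEquiv]
    ring
  rw [Finset.sum_congr rfl fun x _ => this x, ← Finset.sum_mul, hp.sum_one, one_mul]

theorem Ex_one {p : ι → ℝ} (hp : Pr p) : ∀ m : ℕ, Ex p m (fun _ => 1) = 1 := by
  intro m
  induction m with
  | zero => simp [Ex]
  | succ m ih => exact (Ex_drop hp (m := m) (fun _ => (1 : ℝ))).trans ih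

theorem Ex_perm {p : ι → ℝ} {m : ℕ} (σ : Equiv.Perm (Fin m)) (f : (Fin m → ι) → ℝ) :
    Ex p m (fun t => f (t ∘ σ)) = Ex p m f := by
  unfold Ex
  refine Fintype.sum_equiv (Equiv.arrowCongr σ.symm (Equiv.refl ι)) _ _ fun t => ?_
  have h1 : (Equiv.arrowCongr σ.symm (Equiv.refl ι)) t = t ∘ σ := by
    ext j
    simp [Equiv.arrowCongr]
  rw [h1]
  congr 1
  exact (Equiv.prod_comp σ fun j => p (t j)).symm

theorem WS_perm (S0 : Finset ι) {m : ℕ} (σ : Equiv.Perm (Fin m)) (t : Fin m → ι) :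
    WS S0 (t ∘ σ) = WS S0 t := by
  unfold WS
  congr 1
  ext i
  simp only [mem_image, mem_univ, true_and, Function.comp]
  constructor
  · rintro ⟨j, hj⟩
    exact ⟨σ j, hj⟩
  · rintro ⟨j, hj⟩
    exact ⟨σ.symm j, by simpa using hj⟩

/-- the value of a slot -/
def vl {m : ℕ} (t : Fin m → ι) : ι ⊕ Fin m → ι := Sum.elim id t

open Classical in
/-- the indicator of an edge -/
noncomputable def In (K : Conf ι) (S0 : Finset ι) {m : ℕ} (t : Fin m → ι) (u v : ι ⊕ Fin m) : ℝ :=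
  if vl t u ≠ vl t v ∧ 0 < dg K (WS S0 t) {vl t u, vl t v} then 1 else 0

theorem In_nonneg (K : Conf ι) (S0 : Finset ι) {m : ℕ} (t : Fin m → ι) (u v : ι ⊕ Fin m) :
    0 ≤ In K S0 t u v := by
  unfold In; split_ifs <;> norm_num

theorem In_le_one (K : Conf ι) (S0 : Finset ι) {m : ℕ} (t : Fin m → ι) (u v : ι ⊕ Fin m) :
    In K S0 t u v ≤ 1 := by
  unfold In; split_ifs <;> norm_num

/-- the old slots -/
def cs {m : ℕ} : ι ⊕ Fin m → ι ⊕ Fin (m + 1) := Sum.map id Fin.castSucc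

theorem vl_cs {m : ℕ} (t : Fin (m + 1) → ι) (u : ι ⊕ Fin m) : vl t (cs u) = vl (Fin.init t) u := by
  rcases u with a | i <;> rfl

/-- the slots of the elements of `WS` -/
def Ut (S0 : Finset ι) (m : ℕ) : Finset (ι ⊕ Fin m) := S0.disjSum univ

theorem vl_mem {S0 : Finset ι} {m : ℕ} (t : Fin m → ι) {u : ι ⊕ Fin m} (hu : u ∈ Ut S0 m) :
    vl t u ∈ WS S0 t := by
  rcases u with a | i
  · have : a ∈ S0 := by simpa [Ut] using hu
    exact mem_union_left _ this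
  · exact mem_union_right _ (mem_image_of_mem _ (mem_univ _))

theorem mem_vl {S0 : Finset ι} {m : ℕ} (t : Fin m → ι) {x : ι} (hx : x ∈ WS S0 t) :
    ∃ u ∈ Ut S0 m, vl t u = x := by
  rcases mem_union.1 hx with h | h
  · exact ⟨Sum.inl x, by simpa [Ut] using h, rfl⟩
  · obtain ⟨i, -, hi⟩ := mem_image.1 h
    exact ⟨Sum.inr i, by simp [Ut], hi⟩

theorem WS_succ (S0 : Finset ι) {m : ℕ} (t : Fin (m + 1) → ι) :
    WS S0 t = insert (t (Fin.last m)) (WS S0 (Fin.init t)) := by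
  unfold WS
  ext i
  simp only [mem_union, mem_image, mem_univ, true_and, mem_insert]
  constructor
  · rintro (h | ⟨j, hj⟩)
    · exact Or.inr (Or.inl h)
    · refine Fin.lastCases (motive := fun j => t j = i → _) ?_ ?_ j hj
      · intro h
        exact Or.inl h.symm
      · intro k h
        exact Or.inr (Or.inr ⟨k, h⟩)
  · rintro (h | h | ⟨j, hj⟩)
    · exact Or.inr ⟨Fin.last m, h.symm⟩
    · exact Or.inl h
    · exact Or.inr ⟨j.castSucc, hj⟩

/-- an old pair which is an edge of `insert x W` is an edge of `W` -/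
theorem edge_old (h : S_NEW) {K : Conf ι} {S0 : Finset ι} (hK : OK K S0) {W : Finset ι}
    (hW : S0 ⊆ W) {x : ι} {e : Finset ι} (he : e ⊆ W) (h0 : 0 < dg K (insert x W) e) :
    0 < dg K W e := by
  by_cases hx : x ∈ W
  · rwa [insert_eq_of_mem hx] at h0
  · obtain ⟨s, hs⟩ := card_pos.1 h0
    obtain ⟨hs1, hs2⟩ := mem_St.1 hs
    have hs3 := mem_Fc.1 hs1
    by_cases hxs : x ∈ s
    · have hR : s.erase x ⊆ W := by
        intro y hy
        rcases mem_insert.1 (hs3.1 (mem_of_mem_erase hy)) with h1 | h1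
        · exact absurd h1 (ne_of_mem_erase hy)
        · exact h1
      have hc : (s.erase x).card = 3 := by
        rw [card_erase_of_mem hxs, hs3.2.1]
      have hin : insert x (s.erase x) ∈ Fc K (insert x W) := by
        rwa [insert_erase hxs]
      obtain ⟨s', hs', t', -, h3, -⟩ := (h ι K S0 hK W hW x hx (s.erase x) hR hc).1 hin
      refine card_pos.2 ⟨s', mem_St.2 ⟨hs', fun y hy => h3 (mem_erase.2 ⟨?_, hs2 hy⟩)⟩⟩
      rintro rfl
      exact hx (he hy)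
    · refine card_pos.2 ⟨s, mem_St.2 ⟨mem_Fc.2 ⟨?_, hs3.2.1, hs3.2.2.1, fun y hy =>
        hs3.2.2.2 y (mem_insert_of_mem hy)⟩, hs2⟩⟩
      intro y hy
      rcases mem_insert.1 (hs3.1 hy) with h1 | h1
      · exact absurd (h1 ▸ hy) hxs
      · exact h1

theorem pair_sub {W : Finset ι} {a b : ι} (ha : a ∈ W) (hb : b ∈ W) : ({a, b} : Finset ι) ⊆ W := by
  intro y hy
  rcases mem_insert.1 hy with h | h
  · exact h ▸ ha
  · exact (mem_singleton.1 h) ▸ hb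

theorem In_mono (h : S_NEW) {K : Conf ι} {S0 : Finset ι} (hK : OK K S0) {m : ℕ}
    (t : Fin (m + 1) → ι) {u v : ι ⊕ Fin m} (hu : u ∈ Ut S0 m) (hv : v ∈ Ut S0 m) :
    In K S0 t (cs u) (cs v) ≤ In K S0 (Fin.init t) u v := by
  unfold In
  rw [vl_cs, vl_cs]
  split_ifs with h1 h2 h2
  · exact le_rfl
  · exfalso
    refine h2 ⟨h1.1, ?_⟩
    have h3 := h1.2
    rw [WS_succ] at h3
    exact edge_old h hK subset_union_left (pair_sub (vl_mem _ hu) (vl_mem _ hv)) h3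
  · norm_num
  · exact le_rfl

open Classical in
theorem des_le (h : S_NEW) {K : Conf ι} {S0 : Finset ι} (hK : OK K S0) {m : ℕ}
    (t : Fin (m + 1) → ι) :
    (des K S0 t : ℝ) ≤ ∑ q ∈ Ut S0 m ×ˢ Ut S0 m,
      (In K S0 (Fin.init t) q.1 q.2 - In K S0 t (cs q.1) (cs q.2)) := by
  set A := (Ut S0 m ×ˢ Ut S0 m).filter fun q => vl (Fin.init t) q.1 ≠ vl (Fin.init t) q.2 ∧
    0 < dg K (WS S0 (Fin.init t)) {vl (Fin.init t) q.1, vl (Fin.init t) q.2} ∧
    dg K (WS S0 t) {vl (Fin.init t) q.1, vl (Fin.init t) q.2} = 0 with hA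
  have h1 : des K S0 t ≤ A.card := by
    unfold des
    refine le_trans (card_le_card ?_) (card_image_le (s := A)
      (f := fun q => ({vl (Fin.init t) q.1, vl (Fin.init t) q.2} : Finset ι)))
    intro e he
    obtain ⟨he1, he2, he3⟩ := mem_filter.1 he
    obtain ⟨he4, he5⟩ := mem_powersetCard.1 he1
    obtain ⟨a, b, hab, rfl⟩ := card_eq_two.1 he5
    obtain ⟨u, hu, hua⟩ := mem_vl _ (he4 (mem_insert_self _ _))
    obtain ⟨v, hv, hvb⟩ := mem_vl _ (he4 (mem_insert_of_mem (mem_singleton_self _)))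
    refine mem_image.2 ⟨(u, v), mem_filter.2 ⟨mem_product.2 ⟨hu, hv⟩, ?_, ?_, ?_⟩, ?_⟩
    · simpa only [hua, hvb] using hab
    · simpa only [hua, hvb] using he2
    · simpa only [hua, hvb] using he3
    · simp only [hua, hvb]
  refine le_trans (Nat.cast_le.2 h1) ?_
  have h2 : (A.card : ℝ) = ∑ q ∈ Ut S0 m ×ˢ Ut S0 m, if vl (Fin.init t) q.1 ≠ vl (Fin.init t) q.2 ∧
    0 < dg K (WS S0 (Fin.init t)) {vl (Fin.init t) q.1, vl (Fin.init t) q.2} ∧
    dg K (WS S0 t) {vl (Fin.init t) q.1, vl (Fin.init t) q.2} = 0 then (1 : ℝ) else 0 := by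
    rw [hA, Finset.sum_ite]
    simp
  rw [h2]
  refine Finset.sum_le_sum fun q hq => ?_
  obtain ⟨hu, hv⟩ := mem_product.1 hq
  split_ifs with h3
  · have e1 : In K S0 (Fin.init t) q.1 q.2 = 1 := by
      unfold In; rw [if_pos ⟨h3.1, h3.2.1⟩]
    have e2 : In K S0 t (cs q.1) (cs q.2) = 0 := by
      unfold In
      rw [vl_cs, vl_cs, if_neg]
      rintro ⟨-, h4⟩
      rw [h3.2.2] at h4
      exact lt_irrefl _ h4
    rw [e1, e2]
    norm_num
  · have := In_mono h hK t hu hv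
    linarith

/-- the probability of an edge -/
noncomputable def Fq (K : Conf ι) (S0 : Finset ι) (p : ι → ℝ) (m : ℕ) (u v : ι ⊕ Fin m) : ℝ :=
  Ex p m fun t => In K S0 t u v

theorem Fq_mono (h : S_NEW) {K : Conf ι} {S0 : Finset ι} (hK : OK K S0) {p : ι → ℝ} (hp : Pr p)
    {m : ℕ} {u v : ι ⊕ Fin m} (hu : u ∈ Ut S0 m) (hv : v ∈ Ut S0 m) :
    Fq K S0 p (m + 1) (cs u) (cs v) ≤ Fq K S0 p m u v := by
  unfold Fq
  rw [← Ex_drop hp (fun t => In K S0 t u v)]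
  exact Ex_mono hp fun t => In_mono h hK t hu hv

theorem Ex_des_le (h : S_NEW) {K : Conf ι} {S0 : Finset ι} (hK : OK K S0) {p : ι → ℝ} (hp : Pr p)
    (m : ℕ) : Ex p (m + 1) (fun t => (des K S0 t : ℝ)) ≤
      ∑ q ∈ Ut S0 m ×ˢ Ut S0 m, (Fq K S0 p m q.1 q.2 - Fq K S0 p (m + 1) (cs q.1) (cs q.2)) := by
  refine le_trans (Ex_mono hp fun t => des_le h hK t) ?_
  rw [Ex_sum]
  refine le_of_eq (Finset.sum_congr rfl fun q _ => ?_)
  rw [Ex_sub, Ex_drop hp (fun t => In K S0 t q.1 q.2)]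
  rfl

theorem Fq_nonneg {K : Conf ι} {S0 : Finset ι} {p : ι → ℝ} (hp : Pr p)
    {m : ℕ} (u v : ι ⊕ Fin m) : 0 ≤ Fq K S0 p m u v :=
  Ex_nonneg hp fun t => In_nonneg K S0 t u v

theorem Fq_le_one {K : Conf ι} {S0 : Finset ι} {p : ι → ℝ} (hp : Pr p)
    {m : ℕ} (u v : ι ⊕ Fin m) : Fq K S0 p m u v ≤ 1 := by
  rw [← Ex_one hp m]
  exact Ex_mono hp fun t => In_le_one K S0 t u v

theorem Fq_perm {K : Conf ι} {S0 : Finset ι} {p : ι → ℝ}
    {m : ℕ} (σ : Equiv.Perm (Fin m)) (u v : ι ⊕ Fin m) :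
    Fq K S0 p m (Sum.map id σ u) (Sum.map id σ v) = Fq K S0 p m u v := by
  unfold Fq
  rw [← Ex_perm σ (fun t => In K S0 t u v)]
  refine congrArg (Ex p m) (funext fun t => ?_)
  have hv : ∀ w : ι ⊕ Fin m, vl t (Sum.map id σ w) = vl (t ∘ σ) w := by
    rintro (a | i) <;> rfl
  unfold In
  rw [hv, hv, WS_perm]

theorem Fq_diag {K : Conf ι} {S0 : Finset ι} {p : ι → ℝ} {m : ℕ} (u : ι ⊕ Fin m) :
    Fq K S0 p m u u = 0 := by
  unfold Fq Ex
  refine Finset.sum_eq_zero fun t _ => ?_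
  unfold In
  simp

theorem two_perm {m : ℕ} {i j i' j' : Fin m} (h : i ≠ j) (h' : i' ≠ j') :
    ∃ σ : Equiv.Perm (Fin m), σ i = i' ∧ σ j = j' := by
  set s1 : Equiv.Perm (Fin m) := Equiv.swap i i' with hs1
  have e1 : s1 i = i' := Equiv.swap_apply_left _ _
  set k := s1.symm j' with hk
  have hk1 : s1 k = j' := by rw [hk, Equiv.apply_symm_apply]
  have hki : k ≠ i := by
    intro he
    rw [he, e1] at hk1
    exact h' hk1
  refine ⟨(Equiv.swap j k).trans s1, ?_, ?_⟩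
  · rw [Equiv.trans_apply, Equiv.swap_apply_of_ne_of_ne h hki.symm, e1]
  · rw [Equiv.trans_apply, Equiv.swap_apply_left, hk1]

/-- the pair probability -/
noncomputable def gg (K : Conf ι) (S0 : Finset ι) (p : ι → ℝ) (m : ℕ) : ℝ :=
  if h : 2 ≤ m then Fq K S0 p m (Sum.inr ⟨0, by omega⟩) (Sum.inr ⟨1, by omega⟩) else 0

noncomputable def hh (K : Conf ι) (S0 : Finset ι) (p : ι → ℝ) (a : ι) (m : ℕ) : ℝ :=
  if h : 2 ≤ m then Fq K S0 p m (Sum.inl a) (Sum.inr ⟨0, by omega⟩) else 0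

noncomputable def hg (K : Conf ι) (S0 : Finset ι) (p : ι → ℝ) (a : ι) (m : ℕ) : ℝ :=
  if h : 2 ≤ m then Fq K S0 p m (Sum.inr ⟨0, by omega⟩) (Sum.inl a) else 0

noncomputable def rr (K : Conf ι) (S0 : Finset ι) (p : ι → ℝ) (a b : ι) (m : ℕ) : ℝ :=
  Fq K S0 p m (Sum.inl a) (Sum.inl b)

theorem gg_eq {K : Conf ι} {S0 : Finset ι} {p : ι → ℝ} {m : ℕ} {i j : Fin m} (h : i ≠ j) :
    Fq K S0 p m (Sum.inr i) (Sum.inr j) = gg K S0 p m := by
  have hm : 2 ≤ m := by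
    by_contra hc
    have : i = j := by
      apply Fin.ext
      have := i.2
      have := j.2
      omega
    exact h this
  unfold gg
  rw [dif_pos hm]
  obtain ⟨σ, h1, h2⟩ := two_perm (m := m) (i := ⟨0, by omega⟩) (j := ⟨1, by omega⟩)
    (i' := i) (j' := j) (by simp [Fin.ext_iff]) h
  rw [← Fq_perm σ (Sum.inr ⟨0, by omega⟩) (Sum.inr ⟨1, by omega⟩)]
  simp only [Sum.map_inr, h1, h2]

theorem hh_eq {K : Conf ι} {S0 : Finset ι} {p : ι → ℝ} {m : ℕ} (hm : 2 ≤ m) (a : ι) (i : Fin m) :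
    Fq K S0 p m (Sum.inl a) (Sum.inr i) = hh K S0 p a m := by
  unfold hh
  rw [dif_pos hm, ← Fq_perm (Equiv.swap ⟨0, by omega⟩ i) (Sum.inl a) (Sum.inr ⟨0, by omega⟩)]
  simp only [Sum.map_inr, Sum.map_inl, id, Equiv.swap_apply_left]

theorem hg_eq {K : Conf ι} {S0 : Finset ι} {p : ι → ℝ} {m : ℕ} (hm : 2 ≤ m) (a : ι) (i : Fin m) :
    Fq K S0 p m (Sum.inr i) (Sum.inl a) = hg K S0 p a m := by
  unfold hg
  rw [dif_pos hm, ← Fq_perm (Equiv.swap ⟨0, by omega⟩ i) (Sum.inr ⟨0, by omega⟩) (Sum.inl a)]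
  simp only [Sum.map_inr, Sum.map_inl, id, Equiv.swap_apply_left]

/-- the potential -/
noncomputable def GG (K : Conf ι) (S0 : Finset ι) (p : ι → ℝ) (m : ℕ) : ℝ :=
  (∑ a ∈ S0, ∑ b ∈ S0, rr K S0 p a b m) + (∑ a ∈ S0, hh K S0 p a m) +
    (∑ a ∈ S0, hg K S0 p a m) + gg K S0 p m

theorem GG_nonneg {K : Conf ι} {S0 : Finset ι} {p : ι → ℝ} (hp : Pr p) (m : ℕ) :
    0 ≤ GG K S0 p m := by
  unfold GG
  have h1 : ∀ a b : ι, 0 ≤ rr K S0 p a b m := fun a b => Fq_nonneg hp _ _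
  have h2 : ∀ a : ι, 0 ≤ hh K S0 p a m := by
    intro a; unfold hh; split_ifs
    · exact Fq_nonneg hp _ _
    · exact le_rfl
  have h3 : ∀ a : ι, 0 ≤ hg K S0 p a m := by
    intro a; unfold hg; split_ifs
    · exact Fq_nonneg hp _ _
    · exact le_rfl
  have h4 : 0 ≤ gg K S0 p m := by
    unfold gg; split_ifs
    · exact Fq_nonneg hp _ _
    · exact le_rfl
  have e1 : 0 ≤ ∑ a ∈ S0, ∑ b ∈ S0, rr K S0 p a b m :=
    Finset.sum_nonneg fun a _ => Finset.sum_nonneg fun b _ => h1 a b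
  have e2 : 0 ≤ ∑ a ∈ S0, hh K S0 p a m := Finset.sum_nonneg fun a _ => h2 a
  have e3 : 0 ≤ ∑ a ∈ S0, hg K S0 p a m := Finset.sum_nonneg fun a _ => h3 a
  linarith

theorem GG_le {K : Conf ι} {S0 : Finset ι} (hK : OK K S0) {p : ι → ℝ} (hp : Pr p) (m : ℕ) :
    GG K S0 p m ≤ 36 := by
  unfold GG
  have h1 : ∀ a b : ι, rr K S0 p a b m ≤ 1 := fun a b => Fq_le_one hp _ _
  have h2 : ∀ a : ι, hh K S0 p a m ≤ 1 := by
    intro a; unfold hh; split_ifs
    · exact Fq_le_one hp _ _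
    · norm_num
  have h3 : ∀ a : ι, hg K S0 p a m ≤ 1 := by
    intro a; unfold hg; split_ifs
    · exact Fq_le_one hp _ _
    · norm_num
  have h4 : gg K S0 p m ≤ 1 := by
    unfold gg; split_ifs
    · exact Fq_le_one hp _ _
    · norm_num
  have hc : (S0.card : ℝ) = 5 := by exact_mod_cast hK.card0
  have e1 : ∑ a ∈ S0, ∑ b ∈ S0, rr K S0 p a b m ≤ 25 := by
    calc ∑ a ∈ S0, ∑ b ∈ S0, rr K S0 p a b m ≤ ∑ a ∈ S0, ∑ b ∈ S0, (1 : ℝ) :=
          Finset.sum_le_sum fun a _ => Finset.sum_le_sum fun b _ => h1 a b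
      _ = 25 := by simp [hc]; norm_num
  have e2 : ∑ a ∈ S0, hh K S0 p a m ≤ 5 := by
    calc ∑ a ∈ S0, hh K S0 p a m ≤ ∑ a ∈ S0, (1 : ℝ) := Finset.sum_le_sum fun a _ => h2 a
      _ = 5 := by simp [hc]
  have e3 : ∑ a ∈ S0, hg K S0 p a m ≤ 5 := by
    calc ∑ a ∈ S0, hg K S0 p a m ≤ ∑ a ∈ S0, (1 : ℝ) := Finset.sum_le_sum fun a _ => h3 a
      _ = 5 := by simp [hc]
  linarith

theorem sum_Ut {S0 : Finset ι} {m : ℕ} (f : (ι ⊕ Fin m) × (ι ⊕ Fin m) → ℝ) :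
    ∑ q ∈ Ut S0 m ×ˢ Ut S0 m, f q =
      (∑ a ∈ S0, ∑ b ∈ S0, f (Sum.inl a, Sum.inl b)) +
      (∑ a ∈ S0, ∑ i : Fin m, f (Sum.inl a, Sum.inr i)) +
      (∑ a ∈ S0, ∑ i : Fin m, f (Sum.inr i, Sum.inl a)) +
      (∑ i : Fin m, ∑ j : Fin m, f (Sum.inr i, Sum.inr j)) := by
  rw [Finset.sum_product]
  unfold Ut
  rw [Finset.sum_disjSum]
  simp only [Finset.sum_disjSum, Finset.sum_add_distrib]
  rw [Finset.sum_comm (s := (univ : Finset (Fin m))) (t := S0)]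
  ring

theorem Ex_des_GG (h : S_NEW) {K : Conf ι} {S0 : Finset ι} (hK : OK K S0) {p : ι → ℝ} (hp : Pr p)
    {m : ℕ} (hm : 2 ≤ m) : Ex p (m + 1) (fun t => (des K S0 t : ℝ)) ≤
      (m : ℝ) ^ 2 * (GG K S0 p m - GG K S0 p (m + 1)) := by
  refine le_trans (Ex_des_le h hK hp m) ?_
  rw [sum_Ut]
  have hm1 : (1 : ℝ) ≤ m := by
    have : (2 : ℝ) ≤ m := by exact_mod_cast hm
    linarith
  have hmm : (m : ℝ) ≤ (m : ℝ) ^ 2 := by nlinarith
  have i0 : (⟨0, by omega⟩ : Fin m) ∈ (univ : Finset (Fin m)) := mem_univ _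
  -- the four parts
  have r0 : ∀ a ∈ S0, ∀ b ∈ S0, 0 ≤ rr K S0 p a b m - rr K S0 p a b (m + 1) := by
    intro a ha b hb
    have := Fq_mono h hK hp (m := m) (u := Sum.inl a) (v := Sum.inl b) (by simpa [Ut] using ha)
      (by simpa [Ut] using hb)
    unfold rr
    have e : Fq K S0 p (m + 1) (cs (Sum.inl a)) (cs (Sum.inl b)) =
      Fq K S0 p (m + 1) (Sum.inl a) (Sum.inl b) := rfl
    rw [e] at this
    linarith
  have h0 : ∀ a ∈ S0, 0 ≤ hh K S0 p a m - hh K S0 p a (m + 1) := by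
    intro a ha
    have := Fq_mono h hK hp (m := m) (u := Sum.inl a) (v := Sum.inr ⟨0, by omega⟩)
      (by simpa [Ut] using ha) (by simp [Ut])
    have e : Fq K S0 p (m + 1) (cs (Sum.inl a)) (cs (Sum.inr ⟨0, by omega⟩)) =
      Fq K S0 p (m + 1) (Sum.inl a) (Sum.inr (Fin.castSucc ⟨0, by omega⟩)) := rfl
    rw [e, hh_eq (m := m + 1) (by omega), hh_eq (m := m) hm] at this
    linarith
  have g0 : ∀ a ∈ S0, 0 ≤ hg K S0 p a m - hg K S0 p a (m + 1) := by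
    intro a ha
    have := Fq_mono h hK hp (m := m) (u := Sum.inr ⟨0, by omega⟩) (v := Sum.inl a)
      (by simp [Ut]) (by simpa [Ut] using ha)
    have e : Fq K S0 p (m + 1) (cs (Sum.inr ⟨0, by omega⟩)) (cs (Sum.inl a)) =
      Fq K S0 p (m + 1) (Sum.inr (Fin.castSucc ⟨0, by omega⟩)) (Sum.inl a) := rfl
    rw [e, hg_eq (m := m + 1) (by omega), hg_eq (m := m) hm] at this
    linarith
  have gg0 : 0 ≤ gg K S0 p m - gg K S0 p (m + 1) := by
    have := Fq_mono h hK hp (m := m) (u := Sum.inr ⟨0, by omega⟩) (v := Sum.inr ⟨1, by omega⟩)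
      (by simp [Ut]) (by simp [Ut])
    have e : Fq K S0 p (m + 1) (cs (Sum.inr ⟨0, by omega⟩)) (cs (Sum.inr ⟨1, by omega⟩)) =
      Fq K S0 p (m + 1) (Sum.inr (Fin.castSucc ⟨0, by omega⟩))
        (Sum.inr (Fin.castSucc ⟨1, by omega⟩)) := rfl
    rw [e, gg_eq (by simp [Fin.ext_iff]), gg_eq (by simp [Fin.ext_iff])] at this
    linarith
  have p1 : ∑ a ∈ S0, ∑ b ∈ S0, (Fq K S0 p m (Sum.inl a) (Sum.inl b) -
      Fq K S0 p (m + 1) (cs (Sum.inl a)) (cs (Sum.inl b))) ≤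
      (m : ℝ) ^ 2 * ∑ a ∈ S0, ∑ b ∈ S0, (rr K S0 p a b m - rr K S0 p a b (m + 1)) := by
    have hn : 0 ≤ ∑ a ∈ S0, ∑ b ∈ S0, (rr K S0 p a b m - rr K S0 p a b (m + 1)) :=
      Finset.sum_nonneg fun a ha => Finset.sum_nonneg fun b hb => r0 a ha b hb
    calc _ = 1 * ∑ a ∈ S0, ∑ b ∈ S0, (rr K S0 p a b m - rr K S0 p a b (m + 1)) := by
          rw [one_mul]; rfl
      _ ≤ _ := mul_le_mul_of_nonneg_right (le_trans hm1 hmm) hn
  have p2 : ∑ a ∈ S0, ∑ i : Fin m, (Fq K S0 p m (Sum.inl a) (Sum.inr i) -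
      Fq K S0 p (m + 1) (cs (Sum.inl a)) (cs (Sum.inr i))) ≤
      (m : ℝ) ^ 2 * ∑ a ∈ S0, (hh K S0 p a m - hh K S0 p a (m + 1)) := by
    have hn : 0 ≤ ∑ a ∈ S0, (hh K S0 p a m - hh K S0 p a (m + 1)) :=
      Finset.sum_nonneg fun a ha => h0 a ha
    calc _ = ∑ a ∈ S0, (m : ℝ) * (hh K S0 p a m - hh K S0 p a (m + 1)) := by
          refine Finset.sum_congr rfl fun a _ => ?_
          have : ∀ i : Fin m, Fq K S0 p m (Sum.inl a) (Sum.inr i) -
            Fq K S0 p (m + 1) (cs (Sum.inl a)) (cs (Sum.inr i)) =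
              hh K S0 p a m - hh K S0 p a (m + 1) := by
            intro i
            have e : Fq K S0 p (m + 1) (cs (Sum.inl a)) (cs (Sum.inr i)) =
              Fq K S0 p (m + 1) (Sum.inl a) (Sum.inr (Fin.castSucc i)) := rfl
            rw [e, hh_eq (m := m + 1) (by omega), hh_eq (m := m) hm]
          rw [Finset.sum_congr rfl fun i _ => this i, Finset.sum_const, Finset.card_univ,
            Fintype.card_fin, nsmul_eq_mul]
      _ = (m : ℝ) * ∑ a ∈ S0, (hh K S0 p a m - hh K S0 p a (m + 1)) := by rw [Finset.mul_sum]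
      _ ≤ _ := mul_le_mul_of_nonneg_right hmm hn
  have p3 : ∑ a ∈ S0, ∑ i : Fin m, (Fq K S0 p m (Sum.inr i) (Sum.inl a) -
      Fq K S0 p (m + 1) (cs (Sum.inr i)) (cs (Sum.inl a))) ≤
      (m : ℝ) ^ 2 * ∑ a ∈ S0, (hg K S0 p a m - hg K S0 p a (m + 1)) := by
    have hn : 0 ≤ ∑ a ∈ S0, (hg K S0 p a m - hg K S0 p a (m + 1)) :=
      Finset.sum_nonneg fun a ha => g0 a ha
    calc _ = ∑ a ∈ S0, (m : ℝ) * (hg K S0 p a m - hg K S0 p a (m + 1)) := by
          refine Finset.sum_congr rfl fun a _ => ?_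
          have : ∀ i : Fin m, Fq K S0 p m (Sum.inr i) (Sum.inl a) -
            Fq K S0 p (m + 1) (cs (Sum.inr i)) (cs (Sum.inl a)) =
              hg K S0 p a m - hg K S0 p a (m + 1) := by
            intro i
            have e : Fq K S0 p (m + 1) (cs (Sum.inr i)) (cs (Sum.inl a)) =
              Fq K S0 p (m + 1) (Sum.inr (Fin.castSucc i)) (Sum.inl a) := rfl
            rw [e, hg_eq (m := m + 1) (by omega), hg_eq (m := m) hm]
          rw [Finset.sum_congr rfl fun i _ => this i, Finset.sum_const, Finset.card_univ,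
            Fintype.card_fin, nsmul_eq_mul]
      _ = (m : ℝ) * ∑ a ∈ S0, (hg K S0 p a m - hg K S0 p a (m + 1)) := by rw [Finset.mul_sum]
      _ ≤ _ := mul_le_mul_of_nonneg_right hmm hn
  have p4 : ∑ i : Fin m, ∑ j : Fin m, (Fq K S0 p m (Sum.inr i) (Sum.inr j) -
      Fq K S0 p (m + 1) (cs (Sum.inr i)) (cs (Sum.inr j))) ≤
      (m : ℝ) ^ 2 * (gg K S0 p m - gg K S0 p (m + 1)) := by
    calc _ ≤ ∑ i : Fin m, ∑ j : Fin m, (gg K S0 p m - gg K S0 p (m + 1)) := by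
          refine Finset.sum_le_sum fun i _ => Finset.sum_le_sum fun j _ => ?_
          have e : Fq K S0 p (m + 1) (cs (Sum.inr i)) (cs (Sum.inr j)) =
              Fq K S0 p (m + 1) (Sum.inr (Fin.castSucc i)) (Sum.inr (Fin.castSucc j)) := rfl
          rw [e]
          by_cases hij : i = j
          · subst hij
            rw [Fq_diag, Fq_diag]
            linarith
          · rw [gg_eq hij, gg_eq (fun hc => hij (Fin.castSucc_injective m hc))]
      _ = _ := by simp; ring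
  have q1 : ∑ a ∈ S0, ∑ b ∈ S0, (rr K S0 p a b m - rr K S0 p a b (m + 1)) =
      (∑ a ∈ S0, ∑ b ∈ S0, rr K S0 p a b m) - ∑ a ∈ S0, ∑ b ∈ S0, rr K S0 p a b (m + 1) := by
    simp only [Finset.sum_sub_distrib]
  have q2 : ∑ a ∈ S0, (hh K S0 p a m - hh K S0 p a (m + 1)) =
      (∑ a ∈ S0, hh K S0 p a m) - ∑ a ∈ S0, hh K S0 p a (m + 1) := Finset.sum_sub_distrib _ _
  have q3 : ∑ a ∈ S0, (hg K S0 p a m - hg K S0 p a (m + 1)) =
      (∑ a ∈ S0, hg K S0 p a m) - ∑ a ∈ S0, hg K S0 p a (m + 1) := Finset.sum_sub_distrib _ _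
  rw [q1] at p1
  rw [q2] at p2
  rw [q3] at p3
  have hG : GG K S0 p m - GG K S0 p (m + 1) =
    ((∑ a ∈ S0, ∑ b ∈ S0, rr K S0 p a b m) - ∑ a ∈ S0, ∑ b ∈ S0, rr K S0 p a b (m + 1)) +
    ((∑ a ∈ S0, hh K S0 p a m) - ∑ a ∈ S0, hh K S0 p a (m + 1)) +
    ((∑ a ∈ S0, hg K S0 p a m) - ∑ a ∈ S0, hg K S0 p a (m + 1)) +
    (gg K S0 p m - gg K S0 p (m + 1)) := by
    unfold GG; ring
  rw [hG]
  linarith

end HDES

open HDES in
theorem p_DES (h : S_NEW) : S_DES := by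
  intro η hη m1 hm1
  -- harmonic series
  have hdiv := Real.tendsto_sum_range_one_div_nat_succ_atTop
  set M := max m1 2 with hM
  obtain ⟨n, hn⟩ := ((hdiv.eventually_ge_atTop
    (36 / η + 1 + ∑ i ∈ range M, (1 / ((i : ℝ) + 1)))).and
    (Filter.eventually_ge_atTop M)).exists
  refine ⟨n, ?_⟩
  intro ι _ _ K S0 hK p hp
  by_contra hcon
  push Not at hcon
  have key : ∀ m, M ≤ m → m ≤ n → η / m ≤ GG K S0 p m - GG K S0 p (m + 1) := by
    intro m h1 h2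
    have hm2 : 2 ≤ m := le_trans (le_max_right _ _) h1
    have h3 := hcon m (le_trans (le_max_left _ _) h1) h2
    have h4 := Ex_des_GG h hK hp hm2
    have hmpos : (0 : ℝ) < m := by
      have : (2 : ℝ) ≤ m := by exact_mod_cast hm2
      linarith
    have h5 : η * m < (m : ℝ) ^ 2 * (GG K S0 p m - GG K S0 p (m + 1)) := lt_of_lt_of_le h3 h4
    rw [div_le_iff₀ hmpos]
    have h6 : (m : ℝ) * η < (m : ℝ) * ((GG K S0 p m - GG K S0 p (m + 1)) * m) := by nlinarith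
    exact (lt_of_mul_lt_mul_left h6 hmpos.le).le
  -- telescoping
  have tel : ∀ k, M + k ≤ n + 1 →
      η * ((∑ i ∈ range (M + k), (1 / ((i : ℝ) + 1))) - ∑ i ∈ range M, (1 / ((i : ℝ) + 1))) ≤
        GG K S0 p M - GG K S0 p (M + k) := by
    intro k
    induction k with
    | zero => intro _; simp
    | succ k ih =>
      intro hk
      have h1 := ih (by omega)
      have h2 := key (M + k) (by omega) (by omega)
      rw [← Nat.add_assoc, Finset.sum_range_succ]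
      have hpos : (0 : ℝ) < ((M + k : ℕ) : ℝ) := by
        have : 2 ≤ M + k := le_trans (le_max_right _ _) (Nat.le_add_right _ _)
        have : (2 : ℝ) ≤ ((M + k : ℕ) : ℝ) := by exact_mod_cast this
        linarith
      have h3 : η * (1 / (((M + k : ℕ) : ℝ) + 1)) ≤ η / ((M + k : ℕ) : ℝ) := by
        rw [mul_one_div]
        exact div_le_div_of_nonneg_left hη.le hpos (by linarith)
      nlinarith
  have hn2 := tel (n - M) (by omega)
  have hMn : M + (n - M) = n := by have := hn.2; omega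
  rw [hMn] at hn2
  have g1 := GG_le hK hp M
  have g2 := GG_nonneg (K := K) (S0 := S0) hp n
  have h7 : 36 / η + 1 ≤ (∑ i ∈ range n, (1 / ((i : ℝ) + 1))) - ∑ i ∈ range M, (1 / ((i : ℝ) + 1)) := by
    have := hn.1
    linarith
  have h8 : η * (36 / η + 1) ≤ 36 := le_trans (mul_le_mul_of_nonneg_left h7 hη.le) (by linarith)
  have h9 : η * (36 / η + 1) = 36 + η := by field_simp
  linarith

end Pool.Agent.F32P
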