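import Pool.Agent.F32P.St3

/-!
# F32P, LOW: a sample with a cheap cover (helper1)
-/

set_option autoImplicit false

namespace Pool.Agent.F32P

open Finset

private theorem low_first {ι : Type} [Fintype ι] [DecidableEq ι] (p : ι → ℝ) (hp : Pr p)
    (W : Finset ι) (ε : ℝ) (hW : pm p W ≤ ε) :
    (∑ i : Fin 3, G p (bx i i W ∅ univ)) ≤ 3 * ε ^ ((2 : ℝ) / 3) := by
  have h1 : pm p (univ : Finset ι) = 1 := hp.sum_one
  have h0 : 0 ≤ pm p W := Finset.sum_nonneg fun x _ => hp.nonneg x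
  have key : ∀ i : Fin 3, G p (bx i i W ∅ univ) ≤ ε ^ ((2 : ℝ) / 3) := by
    intro i
    have e : (∏ j : Fin 3, pm p (bx i i W ∅ univ j)) = pm p W := by
      rw [Finset.prod_eq_single i]
      · simp [bx]
      · intro j _ hj
        simp [bx, hj, h1]
      · intro h; exact absurd (Finset.mem_univ i) h
    unfold G
    rw [e]
    exact Real.rpow_le_rpow h0 hW (by norm_num)
  calc (∑ i : Fin 3, G p (bx i i W ∅ univ)) ≤ ∑ _i : Fin 3, ε ^ ((2 : ℝ) / 3) :=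
        Finset.sum_le_sum fun i _ => key i
    _ = 3 * ε ^ ((2 : ℝ) / 3) := by simp

/-- **LOW.** -/
theorem p_LOW (hs : S_SMP) (ha : S_CA) (he : S_CE) (hx : S_CX) (hb : S_CB) : S_LOW := by
  intro m0 δ hδ
  obtain ⟨CA, hCA, ha⟩ := ha
  obtain ⟨CE, hCE, he⟩ := he
  obtain ⟨CX, hCX, hx⟩ := hx
  -- choice of `L`
  obtain ⟨k0, hk0⟩ := exists_nat_ge ((CA + CE) * 10 ^ 7 * 4 / δ)
  set k : ℕ := k0 + 1 with hk
  set L : ℕ := k ^ 3 with hL
  have hk1 : (1 : ℝ) ≤ k := by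
    have : (1 : ℕ) ≤ k := by omega
    exact_mod_cast this
  have hkpos : (0 : ℝ) < k := by linarith
  have hL1 : 1 ≤ L := Nat.one_le_pow _ _ (by omega)
  have hLk : (L : ℝ) ^ (-(1 : ℝ) / 3) = 1 / k := by
    have e : (L : ℝ) = (k : ℝ) ^ (3 : ℝ) := by
      rw [hL]; push_cast
      rw [← Real.rpow_natCast]; norm_num
    rw [e, ← Real.rpow_mul hkpos.le]
    norm_num
    rw [Real.rpow_neg_one]
  have hLs : (CA + CE) * (L : ℝ) ^ (-(1 : ℝ) / 3) * 10 ^ 7 ≤ δ / 4 := by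
    rw [hLk]
    have hk2 : (CA + CE) * 10 ^ 7 * 4 / δ ≤ k := by
      refine hk0.trans ?_
      rw [hk]; push_cast; linarith
    have h3 : (CA + CE) * 10 ^ 7 * 4 ≤ k * δ := (div_le_iff₀ hδ).1 hk2
    have : (CA + CE) * (1 / (k : ℝ)) * 10 ^ 7 = ((CA + CE) * 10 ^ 7 * 4) / (4 * k) := by
      field_simp
    rw [this, div_le_iff₀ (by positivity)]
    nlinarith
  -- choice of `ε`
  obtain ⟨η, hη0, hη1, hηa, hηb⟩ : ∃ η : ℝ, 0 < η ∧ η ≤ 1 ∧ 3 * 10 ^ 4 * η ≤ δ / 4 ∧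
      CX * 10 ^ 3 * η ≤ δ / 4 := by
    refine ⟨min 1 (min (δ / (12 * 10 ^ 4)) (δ / (4 * 10 ^ 3 * CX))), ?_, ?_, ?_, ?_⟩
    · have : 0 < δ / (4 * 10 ^ 3 * CX) := by positivity
      have : 0 < δ / (12 * 10 ^ 4) := by positivity
      exact lt_min one_pos (lt_min (by assumption) (by assumption))
    · exact min_le_left _ _
    · have h : min 1 (min (δ / (12 * 10 ^ 4)) (δ / (4 * 10 ^ 3 * CX))) ≤ δ / (12 * 10 ^ 4) :=
        (min_le_right _ _).trans (min_le_left _ _)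
      calc 3 * 10 ^ 4 * min 1 (min (δ / (12 * 10 ^ 4)) (δ / (4 * 10 ^ 3 * CX)))
          ≤ 3 * 10 ^ 4 * (δ / (12 * 10 ^ 4)) := by gcongr
        _ = δ / 4 := by ring
    · have h : min 1 (min (δ / (12 * 10 ^ 4)) (δ / (4 * 10 ^ 3 * CX))) ≤
          δ / (4 * 10 ^ 3 * CX) := (min_le_right _ _).trans (min_le_right _ _)
      calc CX * 10 ^ 3 * min 1 (min (δ / (12 * 10 ^ 4)) (δ / (4 * 10 ^ 3 * CX)))
          ≤ CX * 10 ^ 3 * (δ / (4 * 10 ^ 3 * CX)) := by gcongr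
        _ = δ / 4 := by field_simp
  set ε : ℝ := η ^ 3 with hε
  have hε0 : 0 < ε := by positivity
  have hε23 : ε ^ ((2 : ℝ) / 3) = η ^ 2 := by
    have e : ε = η ^ (3 : ℝ) := by
      rw [hε, ← Real.rpow_natCast]; norm_num
    rw [e, ← Real.rpow_mul hη0.le]
    norm_num
  have hη2 : η ^ 2 ≤ η := by nlinarith
  obtain ⟨D, M, N0, hD5, hLD, hN0, H⟩ := hs m0 L ε hL1 hε0
  refine ⟨M, N0, hN0, ?_⟩
  intro ι _ _ K S0 h hF p hp hpx
  obtain ⟨W, hW, hWM, hv2, hv4, hex, hnq, hpW⟩ := H ι K S0 h hF p hp hpx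
  refine ⟨W, hW, D, L, hWM, hD5, hL1, hLD, ?_⟩
  have hD1 : 1 ≤ D := by omega
  have hWc : 5 ≤ W.card := by
    rw [← h.card0]; exact Finset.card_le_card hW
  have hWpos : (0 : ℝ) < W.card := by
    have : 0 < W.card := by omega
    exact_mod_cast this
  have hvn : ∀ s, 0 ≤ vv K p s := fun s => Finset.sum_nonneg fun x _ => hp.nonneg x
  set V4 : ℝ := ∑ s ∈ Fc K W, vv K p s ^ 4 with hV4
  have hV40 : 0 ≤ V4 := Finset.sum_nonneg fun s _ => by positivity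
  -- first sum
  have t1 : (∑ i : Fin 3, G p (bx i i W ∅ univ)) ≤ δ / 4 := by
    have := low_first p hp W ε hpW
    rw [hε23] at this
    nlinarith
  -- second sum
  have t2 : ∑ e ∈ (nonq K W).filter (fun e => dg K W e < D), G p (fun _ => Se K W e) ≤ δ / 4 := by
    refine (hb ι K W p hp D hD1).trans ?_
    have hD0 : (1 : ℝ) ≤ D := by exact_mod_cast hD1
    have hD0' : (0 : ℝ) < D := by linarith
    have a1 : ((nonq K W).card : ℝ) * V4 ≤ ε * 10 ^ 7 / (D : ℝ) ^ 6 := by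
      rw [le_div_iff₀ (by positivity)]
      have b1 : ((nonq K W).card : ℝ) * (D : ℝ) ^ 6 * V4 ≤ ε * (W.card : ℝ) ^ 2 * V4 :=
        mul_le_mul_of_nonneg_right hnq hV40
      have b2 : ε * (V4 * (W.card : ℝ) ^ 2) ≤ ε * 10 ^ 7 := mul_le_mul_of_nonneg_left hv4 hε0.le
      nlinarith
    have a2 : (((nonq K W).card : ℝ) * V4) ^ ((1 : ℝ) / 2) ≤ 10 ^ 4 * η / (D : ℝ) ^ 3 := by
      rw [← Real.sqrt_eq_rpow]
      refine Real.sqrt_le_iff.2 ⟨by positivity, a1.trans ?_⟩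
      have e1 : (10 ^ 4 * η / (D : ℝ) ^ 3) ^ 2 = 10 ^ 8 * η ^ 2 / (D : ℝ) ^ 6 := by
        rw [div_pow, mul_pow, ← pow_mul, ← pow_mul]
      have e2 : η ^ 3 ≤ η ^ 2 := pow_le_pow_of_le_one hη0.le hη1 (by norm_num)
      have e3 : ε * 10 ^ 7 ≤ 10 ^ 8 * η ^ 2 := by
        rw [hε]
        nlinarith [sq_nonneg η]
      rw [e1]
      exact div_le_div_of_nonneg_right e3 (by positivity)
    have a3 : (D : ℝ) ^ ((3 : ℝ) / 2) ≤ (D : ℝ) ^ 3 := by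
      rw [← Real.rpow_natCast]
      exact Real.rpow_le_rpow_of_exponent_le hD0 (by norm_num)
    calc 3 * (D : ℝ) ^ ((3 : ℝ) / 2) * (((nonq K W).card : ℝ) * V4) ^ ((1 : ℝ) / 2)
        ≤ 3 * (D : ℝ) ^ 3 * (10 ^ 4 * η / (D : ℝ) ^ 3) := by
          gcongr
      _ = 3 * 10 ^ 4 * η := by field_simp
      _ ≤ δ / 4 := hηa
  -- third sum
  have t3 : ∑ s ∈ Fc K W, ∑ i : Fin 3, G p (bx i i (ExS h hW D L s) ∅ (Z1 K W D s)) ≤ δ / 4 := by
    refine (hx ι K S0 h W hW p hp D L hD1 hL1).trans ?_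
    have hexn : 0 ≤ ∑ s ∈ Fc K W, pm p (ExS h hW D L s) :=
      Finset.sum_nonneg fun s _ => Finset.sum_nonneg fun x _ => hp.nonneg x
    have a1 : (∑ s ∈ Fc K W, pm p (ExS h hW D L s)) ^ ((2 : ℝ) / 3) ≤
        η ^ 2 * (W.card : ℝ) ^ ((2 : ℝ) / 3) := by
      calc (∑ s ∈ Fc K W, pm p (ExS h hW D L s)) ^ ((2 : ℝ) / 3)
          ≤ (ε * W.card) ^ ((2 : ℝ) / 3) := Real.rpow_le_rpow hexn hex (by norm_num)
        _ = η ^ 2 * (W.card : ℝ) ^ ((2 : ℝ) / 3) := by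
          rw [Real.mul_rpow hε0.le hWpos.le, hε23]
    have a2 : V4 ^ ((1 : ℝ) / 3) ≤ 10 ^ 3 / (W.card : ℝ) ^ ((2 : ℝ) / 3) := by
      have b1 : V4 ≤ 10 ^ 9 / (W.card : ℝ) ^ 2 := by
        rw [le_div_iff₀ (by positivity)]
        refine hv4.trans (by norm_num)
      calc V4 ^ ((1 : ℝ) / 3) ≤ (10 ^ 9 / (W.card : ℝ) ^ 2) ^ ((1 : ℝ) / 3) :=
            Real.rpow_le_rpow hV40 b1 (by norm_num)
        _ = 10 ^ 3 / (W.card : ℝ) ^ ((2 : ℝ) / 3) := by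
          rw [Real.div_rpow (by positivity) (by positivity)]
          congr 1
          · have : (10 ^ 9 : ℝ) = (10 ^ 3 : ℝ) ^ (3 : ℝ) := by
              rw [show (3 : ℝ) = ((3 : ℕ) : ℝ) by norm_num, Real.rpow_natCast]; norm_num
            rw [this, ← Real.rpow_mul (by positivity)]
            norm_num
          · rw [← Real.rpow_natCast, ← Real.rpow_mul hWpos.le]
            norm_num
    have hWr : 0 < (W.card : ℝ) ^ ((2 : ℝ) / 3) := Real.rpow_pos_of_pos hWpos _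
    calc CX * (∑ s ∈ Fc K W, pm p (ExS h hW D L s)) ^ ((2 : ℝ) / 3) * V4 ^ ((1 : ℝ) / 3)
        ≤ CX * (η ^ 2 * (W.card : ℝ) ^ ((2 : ℝ) / 3)) *
          (10 ^ 3 / (W.card : ℝ) ^ ((2 : ℝ) / 3)) := by
          gcongr
      _ = CX * 10 ^ 3 * η ^ 2 := by field_simp
      _ ≤ CX * 10 ^ 3 * η := by gcongr
      _ ≤ δ / 4 := hηb
  -- fourth and fifth sum
  have hLn : 0 ≤ (L : ℝ) ^ (-(1 : ℝ) / 3) := Real.rpow_nonneg (Nat.cast_nonneg _) _
  have t4 := (ha ι K S0 h W hW p hp D L hD1 hL1).trans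
    (mul_le_mul_of_nonneg_left hv2 (mul_nonneg hCA.le hLn))
  have t5 := (he ι K S0 h W hW p hp D L hD1 hL1).trans
    (mul_le_mul_of_nonneg_left hv2 (mul_nonneg hCE.le hLn))
  unfold tot
  nlinarith [t1, t2, t3, t4, t5, hLs]

end Pool.Agent.F32P
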