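import Mathlib
import Pool.Agent.F32P.St3

/-!
# F32P: MOM (moments, Clarkson-Shor)
-/

set_option autoImplicit false

namespace Pool.Agent.F32P

open Finset

section MOM

variable {ι : Type} [DecidableEq ι]

open Classical in
/-- the facets of the complement of `J` which are seen by all the elements in `J` -/
noncomputable def momJ (K : Conf ι) (S0 : Finset ι) {n : ℕ} (t : Fin n → ι)
    (J : Finset (Fin n)) : Finset (Finset ι) :=
  (Fc K (S0 ∪ (Jᶜ).image t)).filter fun F => ∀ j ∈ J, K.vis (t j) F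

theorem mem_momJ {K : Conf ι} {S0 : Finset ι} {n : ℕ} {t : Fin n → ι} {J : Finset (Fin n)}
    {F : Finset ι} : F ∈ momJ K S0 t J ↔ F ∈ Fc K (S0 ∪ (Jᶜ).image t) ∧ ∀ j ∈ J, K.vis (t j) F := by
  simp [momJ]

theorem momJ_inj {K : Conf ι} {S0 : Finset ι} {n : ℕ} {t : Fin n → ι} {J J' : Finset (Fin n)}
    {F : Finset ι} (h1 : F ∈ momJ K S0 t J) (h2 : F ∈ momJ K S0 t J') : J ⊆ J' := by
  intro j hj
  by_contra hc
  rw [mem_momJ] at h1 h2
  exact (mem_Fc.1 h2.1).2.2.2 (t j)
    (mem_union_right _ (mem_image_of_mem _ (mem_compl.2 hc))) (h1.2 j hj)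

/-- pointwise bound -/
theorem mom_pt (K : Conf ι) (S0 : Finset ι) (h : OK K S0) (m k : ℕ) (t : Fin (m + k) → ι) :
    ∑ J ∈ (univ : Finset (Fin (m + k))).powersetCard k, (momJ K S0 t J).card ≤
      2 ^ (k + 4) * (m + k + 5) ^ 2 := by
  classical
  set A := ((univ : Finset (Fin (m + k))).powersetCard k).sigma fun J => momJ K S0 t J with hA
  set T := (univ : Finset (Finset (Fin (m + k)))).sigma fun B => Fc K (S0 ∪ B.image t) with hT
  have hAc : ∑ J ∈ (univ : Finset (Fin (m + k))).powersetCard k, (momJ K S0 t J).card = A.card := by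
    rw [hA, card_sigma]
  have hTc : T.card ≤ 2 ^ (m + k) * (m + k + 5) ^ 2 := by
    rw [hT, card_sigma]
    calc ∑ B : Finset (Fin (m + k)), (Fc K (S0 ∪ B.image t)).card
        ≤ ∑ _B : Finset (Fin (m + k)), (m + k + 5) ^ 2 := by
          apply sum_le_sum
          intro B _
          refine (h.f3 _ subset_union_left).trans (Nat.pow_le_pow_left ?_ 2)
          have h1 : (B.image t).card ≤ m + k := by
            refine card_image_le.trans ?_
            have := card_le_univ B
            simpa using this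
          have h2 := card_union_le S0 (B.image t)
          have h3 := h.card0
          omega
      _ = 2 ^ (m + k) * (m + k + 5) ^ 2 := by simp
  have key : A.card * 2 ^ (m - 4) ≤ T.card * 1 := by
    apply card_mul_le_card_mul
      (fun (a : (_ : Finset (Fin (m + k))) × Finset ι) (b : (_ : Finset (Fin (m + k))) × Finset ι) =>
        b.2 = a.2 ∧ b.1 ⊆ a.1ᶜ)
    · rintro ⟨J, F⟩ ha
      simp only [hA, mem_sigma, mem_powersetCard, subset_univ, true_and] at ha
      obtain ⟨hJ, hF⟩ := ha
      have hF' := mem_momJ.1 hF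
      obtain ⟨f1, f2, f3, f4⟩ := mem_Fc.1 hF'.1
      have hch : ∀ x ∈ F \ S0, ∃ j ∈ Jᶜ, t j = x := by
        intro x hx
        rw [mem_sdiff] at hx
        rcases mem_union.1 (f1 hx.1) with h5 | h5
        · exact absurd h5 hx.2
        · exact mem_image.1 h5
      choose g hg using fun x : {x // x ∈ F \ S0} => hch x.1 x.2
      set I := (univ : Finset {x // x ∈ F \ S0}).image g with hI
      have hI1 : I ⊆ Jᶜ := by
        intro j hj
        obtain ⟨x, hx, rfl⟩ := mem_image.1 hj
        exact (hg x).1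
      have hI2 : I.card ≤ 4 := by
        refine card_image_le.trans ?_
        rw [← f2, card_univ, Fintype.card_coe]
        exact card_le_card sdiff_subset
      have hI3 : F ⊆ S0 ∪ I.image t := by
        intro x hx
        by_cases hx0 : x ∈ S0
        · exact mem_union_left _ hx0
        · refine mem_union_right _ (mem_image.2 ⟨g ⟨x, mem_sdiff.2 ⟨hx, hx0⟩⟩,
            mem_image_of_mem _ (mem_univ _), (hg ⟨x, mem_sdiff.2 ⟨hx, hx0⟩⟩).2⟩)
      have hJc : (Jᶜ).card = m := by
        rw [card_compl, hJ, Fintype.card_fin]; omega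
      have hcI : 2 ^ (m - 4) ≤ (Icc I Jᶜ).card := by
        rw [card_Icc_finset hI1, hJc]
        exact Nat.pow_le_pow_right (by norm_num) (by omega)
      refine hcI.trans ?_
      refine card_le_card_of_injOn (fun B => (⟨B, F⟩ : (_ : Finset (Fin (m + k))) × Finset ι)) ?_ ?_
      · intro B hB
        have hB' := mem_Icc.1 (mem_coe.1 hB)
        have hB1 : I ⊆ B := hB'.1
        have hB2 : B ⊆ Jᶜ := hB'.2
        rw [mem_coe, mem_bipartiteAbove]
        refine ⟨?_, rfl, hB2⟩
        rw [hT, mem_sigma]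
        refine ⟨mem_univ _, mem_Fc.2 ⟨?_, f2, f3, ?_⟩⟩
        · exact hI3.trans (union_subset_union_right (image_subset_image hB1))
        · intro x hx
          exact f4 x ((union_subset_union_right (image_subset_image hB2)) hx)
      · intro B _ B' _ hBB
        simpa using hBB
    · rintro ⟨B, F⟩ hb
      rw [card_le_one]
      rintro ⟨J, F1⟩ h1 ⟨J', F2⟩ h2
      simp only [mem_bipartiteBelow, hA, mem_sigma, mem_powersetCard, subset_univ, true_and] at h1 h2
      obtain ⟨⟨_, h11⟩, h12, _⟩ := h1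
      obtain ⟨⟨_, h21⟩, h22, _⟩ := h2
      subst h12
      subst h22
      have : J = J' := Subset.antisymm (momJ_inj h11 h21) (momJ_inj h21 h11)
      subst this
      rfl
  rw [hAc]
  have h16 : 2 ^ m ≤ 16 * 2 ^ (m - 4) := by
    calc (2 : ℕ) ^ m ≤ 2 ^ (4 + (m - 4)) := Nat.pow_le_pow_right (by norm_num) (by omega)
      _ = 16 * 2 ^ (m - 4) := by rw [pow_add]; norm_num
  have hfin : A.card * 2 ^ m ≤ (2 ^ (k + 4) * (m + k + 5) ^ 2) * 2 ^ m := by
    calc A.card * 2 ^ m ≤ A.card * (16 * 2 ^ (m - 4)) := Nat.mul_le_mul_left _ h16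
      _ = 16 * (A.card * 2 ^ (m - 4)) := by ring
      _ ≤ 16 * (2 ^ (m + k) * (m + k + 5) ^ 2) :=
          Nat.mul_le_mul_left _ (key.trans (by rw [mul_one]; exact hTc))
      _ = (2 ^ (k + 4) * (m + k + 5) ^ 2) * 2 ^ m := by
          rw [pow_add, pow_add]; ring
  exact Nat.le_of_mul_le_mul_right hfin (by positivity)

variable [Fintype ι]

theorem mom_Ex_perm (p : ι → ℝ) (n : ℕ) (f : (Fin n → ι) → ℝ) (σ : Equiv.Perm (Fin n)) :
    Ex p n (fun t => f (t ∘ σ)) = Ex p n f := by
  unfold Ex
  refine Fintype.sum_equiv (Equiv.arrowCongr σ.symm (Equiv.refl ι)) _ _ ?_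
  intro t
  have h1 : (Equiv.arrowCongr σ.symm (Equiv.refl ι)) t = t ∘ σ := by
    ext i
    simp [Equiv.arrowCongr]
  rw [h1]
  congr 1
  exact (Equiv.prod_comp σ (fun j => p (t j))).symm

theorem momJ_perm (K : Conf ι) (S0 : Finset ι) {n : ℕ} (t : Fin n → ι) (J : Finset (Fin n))
    (σ : Equiv.Perm (Fin n)) : momJ K S0 (t ∘ σ) J = momJ K S0 t (J.image σ) := by
  classical
  ext F
  rw [mem_momJ, mem_momJ]
  have h1 : (Jᶜ).image (t ∘ σ) = ((J.image σ)ᶜ).image t := by
    rw [← image_image]
    congr 1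
    ext j
    simp only [mem_image, mem_compl]
    constructor
    · rintro ⟨i, hi, rfl⟩ ⟨i', hi', he⟩
      exact hi (σ.injective he ▸ hi')
    · intro hj
      exact ⟨σ.symm j, fun hc => hj ⟨σ.symm j, hc, by simp⟩, by simp⟩
  rw [h1]
  simp only [mem_image, forall_exists_index, and_imp, forall_apply_eq_imp_iff₂, Function.comp]

theorem mom_Ex_sym (K : Conf ι) (S0 : Finset ι) (p : ι → ℝ) {n : ℕ} (J J' : Finset (Fin n))
    (hc : J.card = J'.card) :
    Ex p n (fun t => ((momJ K S0 t J).card : ℝ)) = Ex p n (fun t => ((momJ K S0 t J').card : ℝ)) := by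
  classical
  obtain ⟨σ, hσ⟩ : ∃ σ : Equiv.Perm (Fin n), J'.image σ = J := by
    have e1 : Fintype.card {x // x ∈ J'} = Fintype.card {x // x ∈ J} := by simp [hc]
    have e : {x // x ∈ J'} ≃ {x // x ∈ J} := Fintype.equivOfCardEq e1
    refine ⟨e.extendSubtype, ?_⟩
    apply eq_of_subset_of_card_le
    · intro x hx
      obtain ⟨y, hy, rfl⟩ := mem_image.1 hx
      exact e.extendSubtype_mem y hy
    · rw [card_image_of_injective _ (Equiv.injective _), hc]
  rw [← mom_Ex_perm p n (fun t => ((momJ K S0 t J').card : ℝ)) σ]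
  simp only [momJ_perm, hσ]

/-- the moment is an expectation over samples of size `m + k` -/
theorem mom_Ex_shift (K : Conf ι) (S0 : Finset ι) (p : ι → ℝ) (m k : ℕ) :
    Ex p m (fun t => ∑ s ∈ Fc K (WS S0 t), vv K p s ^ k) =
      Ex p (m + k) (fun t => ((momJ K S0 t (univ.image (Fin.natAdd m))).card : ℝ)) := by
  classical
  have hw : ∀ s, vv K p s = ∑ x, p x * (if K.vis x s then 1 else 0) := by
    intro s
    simp only [vv, pm, Vp, mul_ite, mul_one, mul_zero, sum_filter]
  have hr : ∀ (a : Fin m → ι) (z : Fin k → ι),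
      ((momJ K S0 (Fin.append a z) (univ.image (Fin.natAdd m))).card : ℝ) =
        ∑ s ∈ Fc K (WS S0 a), ∏ j, (if K.vis (z j) s then (1 : ℝ) else 0) := by
    intro a z
    have h1 : ((univ.image (Fin.natAdd m) : Finset (Fin (m + k)))ᶜ).image (Fin.append a z) =
        univ.image a := by
      ext x
      simp only [mem_image, mem_compl, mem_univ, true_and]
      constructor
      · rintro ⟨i, hi, rfl⟩
        induction i using Fin.addCases with
        | left i => exact ⟨i, by simp⟩
        | right i => exact absurd ⟨i, rfl⟩ hi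
      · rintro ⟨i, rfl⟩
        refine ⟨Fin.castAdd k i, ?_, by simp⟩
        rintro ⟨j, hj⟩
        have := congrArg Fin.val hj
        simp at this
        have := i.2
        omega
    have h2 : momJ K S0 (Fin.append a z) (univ.image (Fin.natAdd m)) =
        (Fc K (WS S0 a)).filter fun s => ∀ j, K.vis (z j) s := by
      ext F
      rw [mem_momJ, h1, mem_filter, WS]
      simp only [mem_image, mem_univ, true_and, forall_exists_index, forall_apply_eq_imp_iff,
        Fin.append_right]
    rw [h2, card_filter]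
    push_cast
    apply sum_congr rfl
    intro s _
    by_cases hs : ∀ j, K.vis (z j) s
    · rw [if_pos hs]
      symm
      apply prod_eq_one
      intro j _
      rw [if_pos (hs j)]
    · rw [if_neg hs]
      push Not at hs
      obtain ⟨j, hj⟩ := hs
      symm
      apply prod_eq_zero (mem_univ j)
      rw [if_neg hj]
  unfold Ex
  rw [← Equiv.sum_comp (Fin.appendEquiv m k), Fintype.sum_prod_type]
  apply sum_congr rfl
  intro a _
  have hap : ∀ z : Fin k → ι, (Fin.appendEquiv m k) (a, z) = Fin.append a z := fun _ => rfl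
  simp only [hap]
  rw [mul_sum]
  have hL : ∀ z : Fin k → ι, (∏ j, p (Fin.append a z j)) *
      ((momJ K S0 (Fin.append a z) (univ.image (Fin.natAdd m))).card : ℝ) =
      ∑ s ∈ Fc K (WS S0 a), (∏ j, p (a j)) * ∏ j, (p (z j) * if K.vis (z j) s then (1 : ℝ) else 0) := by
    intro z
    rw [hr, Fin.prod_univ_add, mul_sum]
    apply sum_congr rfl
    intro s _
    simp only [Fin.append_left, Fin.append_right, prod_mul_distrib]
    ring
  simp only [hL]
  rw [sum_comm]
  apply sum_congr rfl
  intro s _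
  rw [← mul_sum, hw, Fintype.sum_pow]

end MOM

theorem p_MOM : S_MOM := by
  intro ι _ _ K S0 h p hp m k
  classical
  rw [mom_Ex_shift]
  set J0 : Finset (Fin (m + k)) := univ.image (Fin.natAdd m) with hJ0
  have hJ0c : J0.card = k := by
    rw [hJ0, card_image_of_injective _ (Fin.natAdd_injective _ _), card_univ, Fintype.card_fin]
  have hsum : Ex p (m + k) (fun t => ((momJ K S0 t J0).card : ℝ)) * ((m + k).choose k : ℝ) =
      Ex p (m + k) (fun t =>
        ((∑ J ∈ (univ : Finset (Fin (m + k))).powersetCard k, (momJ K S0 t J).card : ℕ) : ℝ)) := by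
    have h1 : Ex p (m + k) (fun t =>
        ((∑ J ∈ (univ : Finset (Fin (m + k))).powersetCard k, (momJ K S0 t J).card : ℕ) : ℝ)) =
        ∑ J ∈ (univ : Finset (Fin (m + k))).powersetCard k,
          Ex p (m + k) (fun t => ((momJ K S0 t J).card : ℝ)) := by
      unfold Ex
      rw [sum_comm]
      apply sum_congr rfl
      intro t _
      push_cast
      rw [mul_sum]
    rw [h1]
    have h2 : ∀ J ∈ (univ : Finset (Fin (m + k))).powersetCard k,
        Ex p (m + k) (fun t => ((momJ K S0 t J).card : ℝ)) =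
          Ex p (m + k) (fun t => ((momJ K S0 t J0).card : ℝ)) := by
      intro J hJ
      exact mom_Ex_sym K S0 p J J0 (by rw [hJ0c, (mem_powersetCard.1 hJ).2])
    rw [sum_congr rfl h2, sum_const, card_powersetCard, card_univ, Fintype.card_fin, nsmul_eq_mul]
    ring
  rw [hsum]
  have hle : Ex p (m + k) (fun t =>
        ((∑ J ∈ (univ : Finset (Fin (m + k))).powersetCard k, (momJ K S0 t J).card : ℕ) : ℝ)) ≤
      ∑ t : Fin (m + k) → ι, (∏ j, p (t j)) * (2 ^ (k + 4) * ((m : ℝ) + k + 5) ^ 2) := by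
    unfold Ex
    apply sum_le_sum
    intro t _
    apply mul_le_mul_of_nonneg_left _ (prod_nonneg fun j _ => hp.nonneg _)
    have := mom_pt K S0 h m k t
    calc ((∑ J ∈ (univ : Finset (Fin (m + k))).powersetCard k, (momJ K S0 t J).card : ℕ) : ℝ)
        ≤ ((2 ^ (k + 4) * (m + k + 5) ^ 2 : ℕ) : ℝ) := by exact_mod_cast this
      _ = 2 ^ (k + 4) * ((m : ℝ) + k + 5) ^ 2 := by push_cast; ring
  refine hle.trans (le_of_eq ?_)
  rw [← sum_mul, ← Fintype.sum_pow, hp.sum_one, one_pow, one_mul]

end Pool.Agent.F32P
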