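import Pool.Agent.F32P.St3

/-!
# F32P, module NBX: the number of the boxes of the cover (helper60)
-/

set_option autoImplicit false

namespace Pool.Agent.F32P

open Finset

namespace NBXm

variable {ι : Type} [DecidableEq ι]

/-- the orderings of `s` -/
def ords (s : Finset ι) : Finset (Q4 ι) :=
  s.biUnion fun a => (s.erase a).biUnion fun b => ((s.erase a).erase b).biUnion fun c =>
    (((s.erase a).erase b).erase c).image fun d => (a, b, c, d)

theorem card_ords {s : Finset ι} (h : s.card = 4) : (ords s).card ≤ 24 := by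
  have h1 : (ords s).card ≤ s.card * 6 := by
    refine card_biUnion_le_card_mul _ _ _ fun a ha => ?_
    have e1 : (s.erase a).card = 3 := by rw [card_erase_of_mem ha, h]
    have h2 : ((s.erase a).biUnion fun b => ((s.erase a).erase b).biUnion fun c =>
        (((s.erase a).erase b).erase c).image fun d => ((a, b, c, d) : Q4 ι)).card ≤
        (s.erase a).card * 2 := by
      refine card_biUnion_le_card_mul _ _ _ fun b hb => ?_
      have e2 : ((s.erase a).erase b).card = 2 := by rw [card_erase_of_mem hb, e1]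
      have h3 : (((s.erase a).erase b).biUnion fun c =>
          (((s.erase a).erase b).erase c).image fun d => ((a, b, c, d) : Q4 ι)).card ≤
          ((s.erase a).erase b).card * 1 := by
        refine card_biUnion_le_card_mul _ _ _ fun c hc => ?_
        have e3 : (((s.erase a).erase b).erase c).card = 1 := by rw [card_erase_of_mem hc, e2]
        exact card_image_le.trans e3.le
      rw [e2] at h3
      exact h3
    rw [e1] at h2
    exact h2
  rw [h] at h1
  exact h1

theorem mem_ords {q : Q4 ι} (h : (fs q).card = 4) : q ∈ ords (fs q) := by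
  obtain ⟨v, a, w, z⟩ := q
  obtain ⟨h1, h2, h3, h4, h5, h6⟩ := fs_four h
  have hv : v ∈ fs (v, a, w, z) := by simp [fs]
  have ha : a ∈ fs (v, a, w, z) := by simp [fs]
  have hw : w ∈ fs (v, a, w, z) := by simp [fs]
  have hz : z ∈ fs (v, a, w, z) := by simp [fs]
  rw [ords, mem_biUnion]
  refine ⟨v, hv, ?_⟩
  rw [mem_biUnion]
  refine ⟨a, mem_erase.2 ⟨h1.symm, ha⟩, ?_⟩
  rw [mem_biUnion]
  refine ⟨w, mem_erase.2 ⟨h4.symm, mem_erase.2 ⟨h2.symm, hw⟩⟩, ?_⟩
  rw [mem_image]
  exact ⟨z, mem_erase.2 ⟨h6.symm, mem_erase.2 ⟨h5.symm, mem_erase.2 ⟨h3.symm, hz⟩⟩⟩, rfl⟩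

/-- the number of the chambers -/
theorem card_Ch [Fintype ι] (K : Conf ι) (W : Finset ι) :
    (univ : Finset (Ch K W)).card ≤ (Fc K W).card * 24 := by
  have h1 : ((Fc K W).biUnion ords).card ≤ (Fc K W).card * 24 :=
    card_biUnion_le_card_mul _ _ _ fun s hs => card_ords (mem_Fc.1 hs).2.1
  refine le_trans (card_le_card_of_injOn (fun q : Ch K W => q.1) ?_ ?_) h1
  · intro q _
    rw [mem_coe, mem_biUnion]
    exact ⟨fs q.1, q.2, mem_ords (mem_Fc.1 q.2).2.1⟩
  · intro q _ q' _ hqq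
    exact Subtype.ext hqq

/-- the number of the nonquadratic edges -/
theorem card_nonq (K : Conf ι) (W : Finset ι) : (nonq K W).card ≤ W.card ^ 2 := by
  have h1 : (nonq K W).card ≤ (W.powersetCard 2).card := card_le_card (filter_subset _ _)
  rw [card_powersetCard] at h1
  exact h1.trans (Nat.choose_le_pow _ _)

end NBXm

open NBXm in
/-- **NBX.** -/
theorem p_NBX : S_NBX := by
  intro ι _ _ K S0 h W hW D L hD hL
  have hL1 : (1 : ℝ) ≤ (L : ℝ) := by exact_mod_cast hL
  have hn : (1 : ℝ) ≤ (W.card : ℝ) := by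
    have h1 := card_le_card hW
    rw [h.card0] at h1
    have h2 : 1 ≤ W.card := by omega
    exact_mod_cast h2
  have hF : ((Fc K W).card : ℝ) ≤ (W.card : ℝ) ^ 2 := by exact_mod_cast h.f3 W hW
  have hQ : ((nonq K W).card : ℝ) ≤ (W.card : ℝ) ^ 2 := by exact_mod_cast card_nonq K W
  have hQ' : ((((nonq K W).filter (fun e => dg K W e < D)).card : ℕ) : ℝ) ≤ (W.card : ℝ) ^ 2 := by
    have h1 : ((((nonq K W).filter (fun e => dg K W e < D)).card : ℕ) : ℝ) ≤
        ((nonq K W).card : ℝ) := by exact_mod_cast card_le_card (filter_subset _ _)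
    exact h1.trans hQ
  have hC : ((univ : Finset (Ch K W)).card : ℝ) ≤ 24 * (W.card : ℝ) ^ 2 := by
    have h1 : ((univ : Finset (Ch K W)).card : ℝ) ≤ ((Fc K W).card : ℝ) * 24 := by
      exact_mod_cast card_Ch K W
    linarith
  have hI : (((Icc (-(2 * L : ℤ)) (2 * L)).card : ℕ) : ℝ) ≤ 5 * (L : ℝ) := by
    rw [Int.card_Icc]
    have h1 : ((2 * (L : ℤ) + 1 - -(2 * (L : ℤ))).toNat : ℤ) = 4 * L + 1 := by
      rw [Int.toNat_of_nonneg (by omega)]
      ring
    have h2 : (((2 * (L : ℤ) + 1 - -(2 * (L : ℤ))).toNat : ℕ) : ℝ) = 4 * (L : ℝ) + 1 := by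
      exact_mod_cast h1
    rw [h2]
    linarith
  have hP : (((univ : Finset (Fin 3 × Fin 3)).filter (fun c => c.1 ≠ c.2)).card : ℝ) = 6 := by
    have : ((univ : Finset (Fin 3 × Fin 3)).filter (fun c => c.1 ≠ c.2)).card = 6 := by decide
    rw [this]
    norm_num
  rw [tot]
  simp only [sum_const, nsmul_eq_mul, mul_one, card_univ, Fintype.card_fin, Fintype.card_bool]
  rw [card_univ] at hC
  rw [hP]
  have hI0 : (0 : ℝ) ≤ ((Icc (-(2 * L : ℤ)) (2 * L)).card : ℝ) := Nat.cast_nonneg _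
  have hC0 : (0 : ℝ) ≤ (Fintype.card (Ch K W) : ℝ) := Nat.cast_nonneg _
  generalize ((Icc (-(2 * L : ℤ)) (2 * L)).card : ℝ) = I at hI hI0 ⊢
  generalize (Fintype.card (Ch K W) : ℝ) = C at hC hC0 ⊢
  generalize (W.card : ℝ) = w at hF hQ' hC hn ⊢
  generalize (L : ℝ) = l at hL1 hI ⊢
  have hl : 0 < l := by linarith
  have hw2 : 1 ≤ w ^ 2 := one_le_pow₀ hn
  have hIl : I * I ≤ 25 * l ^ 2 := by nlinarith
  have t1 : 6 * (((2 : ℕ) : ℝ) * (C * (I * I))) / l ^ 3 ≤ 7200 * w ^ 2 := by
    rw [div_le_iff₀ (by positivity)]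
    have a1 : C * (I * I) ≤ (24 * w ^ 2) * (25 * l ^ 2) :=
      mul_le_mul hC hIl (by positivity) (by positivity)
    have a2 : l ^ 2 ≤ l ^ 3 := by
      calc l ^ 2 = l ^ 2 * 1 := by ring
        _ ≤ l ^ 2 * l := mul_le_mul_of_nonneg_left hL1 (by positivity)
        _ = l ^ 3 := by ring
    have a3 : w ^ 2 * l ^ 2 ≤ w ^ 2 * l ^ 3 := mul_le_mul_of_nonneg_left a2 (by positivity)
    push_cast
    nlinarith
  have t2 : 6 * (C * I) / l ^ 2 ≤ 720 * w ^ 2 := by
    rw [div_le_iff₀ (by positivity)]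
    have a1 : C * I ≤ (24 * w ^ 2) * (5 * l) :=
      mul_le_mul hC hI (by positivity) (by positivity)
    have a2 : l ≤ l ^ 2 := by
      calc l = l * 1 := by ring
        _ ≤ l * l := mul_le_mul_of_nonneg_left hL1 hl.le
        _ = l ^ 2 := by ring
    have a3 : w ^ 2 * l ≤ w ^ 2 * l ^ 2 := mul_le_mul_of_nonneg_left a2 (by positivity)
    nlinarith
  push_cast at t1 ⊢
  linarith

end Pool.Agent.F32P
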