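import Pool.Agent.F32P.St3

/-!
# F32P, PTW: pointwise bound of the number of the atypical incidences of the last element (helper41)
-/

set_option autoImplicit false

namespace Pool.Agent.F32P

open Finset

private theorem ptw_WS {ι : Type} [DecidableEq ι] (S0 : Finset ι) {m : ℕ} (t : Fin (m + 1) → ι) :
    WS S0 t = insert (t (Fin.last m)) (WS S0 (Fin.init t)) := by
  ext y
  simp only [WS, mem_insert, mem_union, mem_image, mem_univ, true_and]
  constructor
  · rintro (h | ⟨j, rfl⟩)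
    · exact Or.inr (Or.inl h)
    · rcases Fin.eq_castSucc_or_eq_last j with ⟨i, rfl⟩ | rfl
      · exact Or.inr (Or.inr ⟨i, rfl⟩)
      · exact Or.inl rfl
  · rintro (rfl | h | ⟨j, rfl⟩)
    · exact Or.inr ⟨Fin.last m, rfl⟩
    · exact Or.inl h
    · exact Or.inr ⟨j.castSucc, rfl⟩

/-- **PTW.** -/
theorem p_PTW (hCHG : S_CHG) : S_PTW := by
  classical
  intro ι _ _ K S0 hK D m t
  beta_reduce
  have hWt := ptw_WS S0 t
  obtain ⟨W, hW⟩ : ∃ W, W = WS S0 (Fin.init t) := ⟨_, rfl⟩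
  obtain ⟨x, hx⟩ : ∃ x, x = t (Fin.last m) := ⟨_, rfl⟩
  have hS0 : S0 ⊆ W := by
    rw [hW]
    exact subset_union_left
  have hdes : des K S0 t = ((W.powersetCard 2).filter fun e =>
      0 < dg K W e ∧ dg K (insert x W) e = 0).card := by
    unfold des
    rw [hWt, ← hW, ← hx]
  have hsmb : smb K S0 t = (((insert x W).powersetCard 2).filter fun e =>
      0 < dg K (insert x W) e ∧ dg K (insert x W) e ≠ 4 ∧ dg K (insert x W) e ≤ 6 ∧
      ∃ s ∈ St K (insert x W) e, x ∈ s).card := by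
    unfold smb
    rw [hWt, ← hW, ← hx]
  rw [hdes, hsmb, ← hW, ← hx]
  by_cases hxW : x ∈ W
  · have h0 : ((Fc K W).filter fun s => K.vis x s ∧ ¬ Typ K W D x s) = ∅ := by
      rw [filter_eq_empty_iff]
      rintro s hs ⟨h1, -⟩
      exact (mem_Fc.1 hs).2.2.2 x hxW h1
    rw [h0, card_empty]
    exact Nat.zero_le _
  -- the destroyed or changed pairs
  obtain ⟨E1, hE1⟩ : ∃ E1, E1 = (W.powersetCard 2).filter fun e =>
      0 < dg K W e ∧ dg K (insert x W) e = 0 := ⟨_, rfl⟩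
  obtain ⟨E2, hE2⟩ : ∃ E2, E2 = ((insert x W).powersetCard 2).filter fun e =>
      0 < dg K (insert x W) e ∧ dg K (insert x W) e ≠ 4 ∧ dg K (insert x W) e ≤ 6 ∧
      ∃ s ∈ St K (insert x W) e, x ∈ s := ⟨_, rfl⟩
  rw [← hE1, ← hE2]
  obtain ⟨E1', hE1'⟩ : ∃ E1', E1' = E1.filter fun e => dg K W e = 4 := ⟨_, rfl⟩
  obtain ⟨E2', hE2'⟩ : ∃ E2', E2' = E2.filter fun e => dg K W e = 4 := ⟨_, rfl⟩
  have hsub : ((Fc K W).filter fun s => K.vis x s ∧ ¬ Typ K W D x s) ⊆
      (((Fc K W).filter fun s => K.vis x s ∧ ¬ SN K W D s) ∪ E1'.biUnion (St K W)) ∪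
        E2'.biUnion (St K W) := by
    intro s hs
    obtain ⟨hsF, hv, hT⟩ := mem_filter.1 hs
    by_cases hSN : SN K W D s
    · have hex : ∃ e ⊆ s, e.card = 2 ∧ dg K W e = 4 ∧ dg K (insert x W) e ≠ 4 := by
        by_contra hne
        apply hT
        refine ⟨hsF, hv, hSN, fun e he h2 h4 => ?_⟩
        by_contra h5
        exact hne ⟨e, he, h2, h4, h5⟩
      obtain ⟨e, he, h2, h4, h5⟩ := hex
      have hsSt : s ∈ St K W e := mem_St.2 ⟨hsF, he⟩
      have heW : e ⊆ W := he.trans (mem_Fc.1 hsF).1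
      by_cases h0 : dg K (insert x W) e = 0
      · refine mem_union_left _ (mem_union_right _ (mem_biUnion.2 ⟨e, ?_, hsSt⟩))
        rw [hE1', hE1]
        exact mem_filter.2 ⟨mem_filter.2 ⟨mem_powersetCard.2 ⟨heW, h2⟩, by omega, h0⟩, h4⟩
      · refine mem_union_right _ (mem_biUnion.2 ⟨e, ?_, hsSt⟩)
        obtain ⟨h6, h7⟩ := hCHG ι K S0 hK W hS0 x e hxW h2 h4 ⟨s, hsSt, hv⟩ h0
        rw [hE2', hE2]
        exact mem_filter.2 ⟨mem_filter.2 ⟨mem_powersetCard.2
          ⟨heW.trans (subset_insert _ _), h2⟩, Nat.pos_of_ne_zero h0, h5, h6, h7⟩, h4⟩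
    · exact mem_union_left _ (mem_union_left _ (mem_filter.2 ⟨hsF, hv, hSN⟩))
  have hb : ∀ E E' : Finset (Finset ι), E' = E.filter (fun e => dg K W e = 4) →
      (E'.biUnion (St K W)).card ≤ 4 * E.card := by
    intro E E' hE
    calc (E'.biUnion (St K W)).card ≤ E'.card * 4 := by
          refine card_biUnion_le_card_mul _ _ _ fun e he => ?_
          rw [hE] at he
          exact (mem_filter.1 he).2.le
      _ ≤ E.card * 4 := by
          refine Nat.mul_le_mul_right _ ?_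
          rw [hE]
          exact card_filter_le _ _
      _ = 4 * E.card := mul_comm _ _
  refine (card_le_card hsub).trans ((card_union_le _ _).trans ?_)
  have h1 := card_union_le ((Fc K W).filter fun s => K.vis x s ∧ ¬ SN K W D s)
    (E1'.biUnion (St K W))
  have h2 := hb E1 E1' hE1'
  have h3 := hb E2 E2' hE2'
  omega

end Pool.Agent.F32P
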