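import Pool.Agent.F32P.St3

/-!
# F32P, module SMP (helper12): a good sample
-/

set_option autoImplicit false

namespace Pool.Agent.F32P

open Finset

namespace SMP

section
variable {ι : Type} [Fintype ι]

theorem Ex_mono {p : ι → ℝ} (hp : ∀ x, 0 ≤ p x) {m : ℕ} {f g : (Fin m → ι) → ℝ}
    (h : ∀ t, f t ≤ g t) : Ex p m f ≤ Ex p m g :=
  Finset.sum_le_sum fun t _ => mul_le_mul_of_nonneg_left (h t) (Finset.prod_nonneg fun j _ => hp _)

theorem Ex_nonneg {p : ι → ℝ} (hp : ∀ x, 0 ≤ p x) {m : ℕ} {f : (Fin m → ι) → ℝ}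
    (h : ∀ t, 0 ≤ f t) : 0 ≤ Ex p m f :=
  Finset.sum_nonneg fun t _ => mul_nonneg (Finset.prod_nonneg fun j _ => hp _) (h t)

theorem Ex_add (p : ι → ℝ) (m : ℕ) (f g : (Fin m → ι) → ℝ) :
    Ex p m (fun t => f t + g t) = Ex p m f + Ex p m g := by
  unfold Ex
  rw [← Finset.sum_add_distrib]
  exact Finset.sum_congr rfl fun t _ => mul_add _ _ _

theorem Ex_mul (p : ι → ℝ) (m : ℕ) (c : ℝ) (f : (Fin m → ι) → ℝ) :
    Ex p m (fun t => c * f t) = c * Ex p m f := by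
  unfold Ex
  rw [Finset.mul_sum]
  exact Finset.sum_congr rfl fun t _ => by ring

theorem Ex_succ (p : ι → ℝ) (m : ℕ) (f : (Fin (m + 1) → ι) → ℝ) :
    Ex p (m + 1) f = Ex p m (fun t => ∑ x, p x * f (Fin.snoc (α := fun _ => ι) t x)) := by
  unfold Ex
  rw [← (Fin.snocEquiv (fun _ : Fin (m + 1) => ι)).sum_comp, Fintype.sum_prod_type, Finset.sum_comm]
  refine Finset.sum_congr rfl fun t _ => ?_
  rw [Finset.mul_sum]
  refine Finset.sum_congr rfl fun x _ => ?_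
  have h1 : (Fin.snocEquiv (fun _ : Fin (m + 1) => ι)) (x, t)
      = Fin.snoc (α := fun _ => ι) t x := rfl
  rw [h1, Fin.prod_univ_castSucc]
  simp only [Fin.snoc_castSucc, Fin.snoc_last]
  ring

theorem Ex_one {p : ι → ℝ} (hp : Pr p) : ∀ m : ℕ, Ex p m (fun _ => (1 : ℝ)) = 1 := by
  intro m
  induction m with
  | zero => simp [Ex]
  | succ m ih =>
    rw [Ex_succ]
    have h : (fun _ : Fin m → ι => ∑ x, p x * (1 : ℝ)) = fun _ => 1 := by
      funext t
      simp only [mul_one]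
      exact hp.sum_one
    rw [h]
    exact ih

theorem Ex_const {p : ι → ℝ} (hp : Pr p) (m : ℕ) (c : ℝ) : Ex p m (fun _ => c) = c := by
  have h := Ex_mul p m c (fun _ => (1 : ℝ))
  rw [Ex_one hp, mul_one] at h
  simpa only [mul_one] using h

open Classical in
/-- indicator of the samples which are not injective -/
noncomputable def nin {ι : Type} {m : ℕ} (t : Fin m → ι) : ℝ :=
  if Function.Injective t then 0 else 1

theorem nin_nonneg {m : ℕ} (t : Fin m → ι) : 0 ≤ nin t := by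
  unfold nin
  split_ifs <;> norm_num

theorem nin_inj {m : ℕ} {t : Fin m → ι} (h : Function.Injective t) : nin t = 0 := if_pos h

theorem nin_not {m : ℕ} {t : Fin m → ι} (h : ¬ Function.Injective t) : nin t = 1 := if_neg h

theorem Ex_nin {p : ι → ℝ} (hp : Pr p) {δ : ℝ} (hδ : ∀ x, p x ≤ δ) (hδ0 : 0 ≤ δ) : ∀ m : ℕ,
    Ex p m nin ≤ (m : ℝ) ^ 2 * δ := by
  classical
  intro m
  induction m with
  | zero =>
    have h : ∀ t : Fin 0 → ι, nin t ≤ 0 := fun t =>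
      (nin_inj (Function.injective_of_subsingleton t)).le
    have h1 := Ex_mono (p := p) hp.nonneg h
    rw [Ex_const hp] at h1
    simpa using h1
  | succ m ih =>
    rw [Ex_succ]
    have h : ∀ t : Fin m → ι, ∑ x, p x * nin (Fin.snoc (α := fun _ => ι) t x) ≤
        nin t + (m : ℝ) * δ := by
      intro t
      have h1 : ∀ x, p x * nin (Fin.snoc (α := fun _ => ι) t x) ≤
          p x * nin t + if x ∈ univ.image t then p x else 0 := by
        intro x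
        by_cases ht : Function.Injective t
        · rw [nin_inj ht, mul_zero, zero_add]
          by_cases hx : x ∈ univ.image t
          · rw [if_pos hx]
            have h2 : nin (Fin.snoc (α := fun _ => ι) t x) ≤ 1 := by
              unfold nin
              split_ifs <;> norm_num
            calc p x * nin (Fin.snoc (α := fun _ => ι) t x) ≤ p x * 1 :=
                  mul_le_mul_of_nonneg_left h2 (hp.nonneg x)
              _ = p x := mul_one _
          · rw [if_neg hx, nin_inj, mul_zero]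
            have hx' : x ∉ Set.range t := by
              rintro ⟨j, hj⟩
              exact hx (mem_image.2 ⟨j, mem_univ _, hj⟩)
            exact Fin.snoc_injective_iff.2 ⟨ht, hx'⟩
        · have h3 : ¬ Function.Injective (Fin.snoc (α := fun _ => ι) t x) := by
            intro h4
            exact ht (Fin.snoc_injective_iff.1 h4).1
          rw [nin_not ht, nin_not h3]
          have h5 : 0 ≤ if x ∈ univ.image t then p x else 0 := by
            split_ifs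
            · exact hp.nonneg x
            · exact le_rfl
          linarith
      calc ∑ x, p x * nin (Fin.snoc (α := fun _ => ι) t x)
          ≤ ∑ x, (p x * nin t + if x ∈ univ.image t then p x else 0) :=
            Finset.sum_le_sum fun x _ => h1 x
        _ = nin t + ∑ x ∈ univ.image t, p x := by
            rw [Finset.sum_add_distrib, ← Finset.sum_mul, hp.sum_one, one_mul,
              Finset.sum_ite_mem, Finset.univ_inter]
        _ ≤ nin t + (m : ℝ) * δ := by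
            have h6 : ∑ x ∈ univ.image t, p x ≤ ((univ.image t).card : ℝ) * δ := by
              have := Finset.sum_le_card_nsmul (univ.image t) p δ (fun x _ => hδ x)
              rwa [nsmul_eq_mul] at this
            have h7 : ((univ.image t).card : ℝ) ≤ m := by
              have : (univ.image t).card ≤ m := by
                have := Finset.card_image_le (s := (univ : Finset (Fin m))) (f := t)
                simpa using this
              exact_mod_cast this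
            have h8 := mul_le_mul_of_nonneg_right h7 hδ0
            linarith
    have h9 := Ex_mono (p := p) hp.nonneg h
    rw [Ex_add, Ex_const hp] at h9
    push_cast
    nlinarith [Nat.cast_nonneg (α := ℝ) m]

theorem vv_nonneg {K : Conf ι} {p : ι → ℝ} (hp : Pr p) (s : Finset ι) : 0 ≤ vv K p s :=
  Finset.sum_nonneg fun x _ => hp.nonneg x

theorem vv_le_one {K : Conf ι} {p : ι → ℝ} (hp : Pr p) (s : Finset ι) : vv K p s ≤ 1 := by
  rw [← hp.sum_one]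
  exact Finset.sum_le_sum_of_subset_of_nonneg (Finset.subset_univ _) fun x _ _ => hp.nonneg x

open Classical in
/-- Fubini for the elements which see a facet of a class. -/
theorem swap_vis (K : Conf ι) (p : ι → ℝ) (F : Finset (Finset ι)) (Q : Finset ι → Prop) :
    ∑ x, p x * ((F.filter fun s => K.vis x s ∧ Q s).card : ℝ) =
      ∑ s ∈ F.filter fun s => Q s, vv K p s := by
  have h1 : ∀ x, p x * ((F.filter fun s => K.vis x s ∧ Q s).card : ℝ) =
      ∑ s ∈ F.filter fun s => Q s, if K.vis x s then p x else 0 := by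
    intro x
    rw [← Finset.sum_filter, Finset.filter_filter, Finset.sum_const, nsmul_eq_mul, mul_comm]
    congr 3
    ext s
    simp only [Finset.mem_filter]
    tauto
  rw [Finset.sum_congr rfl fun x _ => h1 x, Finset.sum_comm]
  refine Finset.sum_congr rfl fun s _ => ?_
  rw [← Finset.sum_filter]
  rfl

open Classical in
theorem swap_exc [DecidableEq ι] (K : Conf ι) {S0 : Finset ι} (h : OK K S0) {W : Finset ι}
    (hW : S0 ⊆ W) (D L : ℕ) (p : ι → ℝ) (F : Finset (Finset ι)) :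
    ∑ s ∈ F, pm p (ExS h hW D L s) =
      ∑ x, p x * ((F.filter fun s => Exc h hW D L x s).card : ℝ) := by
  have h1 : ∀ x, p x * ((F.filter fun s => Exc h hW D L x s).card : ℝ) =
      ∑ s ∈ F, if Exc h hW D L x s then p x else 0 := by
    intro x
    rw [← Finset.sum_filter, Finset.sum_const, nsmul_eq_mul, mul_comm]
  rw [Finset.sum_congr rfl fun x _ => h1 x, Finset.sum_comm]
  refine Finset.sum_congr rfl fun s _ => ?_
  rw [← Finset.sum_filter]
  rfl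

/-- arithmetic and geometric mean -/
theorem amgm {α : Type} (A F : Finset α) (hAF : A ⊆ F) (v : α → ℝ) (μ : ℝ) (hμ : 0 < μ) :
    ∑ s ∈ A, v s ≤ μ / 2 * A.card + 1 / (2 * μ) * ∑ s ∈ F, v s ^ 2 := by
  have h1 : ∀ s, v s ≤ μ / 2 + 1 / (2 * μ) * v s ^ 2 := by
    intro s
    have h2 : 0 ≤ (v s - μ) ^ 2 := sq_nonneg _
    have h3 : μ / 2 + 1 / (2 * μ) * v s ^ 2 - v s = (v s - μ) ^ 2 / (2 * μ) := by
      field_simp
      ring
    have h4 : 0 ≤ (v s - μ) ^ 2 / (2 * μ) := by positivity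
    linarith
  calc ∑ s ∈ A, v s ≤ ∑ s ∈ A, (μ / 2 + 1 / (2 * μ) * v s ^ 2) := Finset.sum_le_sum fun s _ => h1 s
    _ = μ / 2 * A.card + 1 / (2 * μ) * ∑ s ∈ A, v s ^ 2 := by
      rw [Finset.sum_add_distrib, Finset.sum_const, nsmul_eq_mul, ← Finset.mul_sum]
      ring
    _ ≤ μ / 2 * A.card + 1 / (2 * μ) * ∑ s ∈ F, v s ^ 2 := by
      have h5 : ∑ s ∈ A, v s ^ 2 ≤ ∑ s ∈ F, v s ^ 2 :=
        Finset.sum_le_sum_of_subset_of_nonneg hAF fun s _ _ => sq_nonneg _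
      have h6 : 0 ≤ 1 / (2 * μ) := by positivity
      have := mul_le_mul_of_nonneg_left h5 h6
      linarith

end

section
variable {ι : Type} [DecidableEq ι]

theorem card_WS_le {S0 : Finset ι} (h5 : S0.card = 5) {m : ℕ} (t : Fin m → ι) :
    (WS S0 t).card ≤ m + 5 := by
  unfold WS
  have h1 := Finset.card_union_le S0 (univ.image t)
  have h2 := Finset.card_image_le (s := (univ : Finset (Fin m))) (f := t)
  rw [Finset.card_fin] at h2
  omega

theorem le_card_WS (S0 : Finset ι) {m : ℕ} {t : Fin m → ι} (ht : Function.Injective t) :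
    m ≤ (WS S0 t).card := by
  unfold WS
  have h1 : (univ.image t).card = m := by
    rw [Finset.card_image_of_injective _ ht, Finset.card_fin]
  have h2 : (univ.image t).card ≤ (S0 ∪ univ.image t).card :=
    Finset.card_le_card Finset.subset_union_right
  omega

open Classical in
/-- The number of the facets which are not strongly normal. -/
theorem notSN (hs : S_SNC) {K : Conf ι} {S0 : Finset ι} (h : OK K S0) {W : Finset ι}
    (hW : S0 ⊆ W) {D : ℕ} (hD : 5 ≤ D) (hDW : D ≤ W.card)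
    (hn : ((nonq K W).card : ℝ) * (D : ℝ) ^ 2 ≤ (W.card : ℝ) ^ 2) :
    (((Fc K W).filter fun s => ¬ SN K W D s).card : ℝ) * D ≤ 25000 * (W.card : ℝ) ^ 2 := by
  have h1 := hs ι K W D
  have h2 := h.norm W hW D hD
  set a := ((Fc K W).filter fun s => ¬ SN K W D s).card with ha
  set b := ((Fc K W).filter fun s => ¬ NF K W D s).card with hb
  have h1' : (a : ℝ) ≤ 25 * (b : ℝ) := by exact_mod_cast h1
  have h2' : (b : ℝ) * D ≤ 8 * W.card * D + 6 * (nonq K W).card * (D : ℝ) ^ 2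
      + 270 * (W.card * (W.card + 1)) := by exact_mod_cast h2
  have hDW' : (D : ℝ) ≤ W.card := by exact_mod_cast hDW
  have hD5 : (5 : ℝ) ≤ D := by exact_mod_cast hD
  have hw : (5 : ℝ) ≤ W.card := by linarith
  have h3 : (b : ℝ) * D ≤ 1000 * (W.card : ℝ) ^ 2 := by nlinarith
  calc (a : ℝ) * D ≤ 25 * (b : ℝ) * D := by
        exact mul_le_mul_of_nonneg_right h1' (by linarith)
    _ = 25 * ((b : ℝ) * D) := by ring
    _ ≤ 25 * (1000 * (W.card : ℝ) ^ 2) := by linarith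
    _ = 25000 * (W.card : ℝ) ^ 2 := by ring

end

section
variable {ι : Type} [Fintype ι] [DecidableEq ι]

/-- second moment -/
theorem mom2 (hm : S_MOM) {K : Conf ι} {S0 : Finset ι} (h : OK K S0) {p : ι → ℝ} (hp : Pr p)
    {m : ℕ} (h20 : 20 ≤ m) :
    Ex p m (fun t => ∑ s ∈ Fc K (WS S0 t), vv K p s ^ 2) ≤ 256 := by
  have h1 := hm ι K S0 h p hp m 2
  set E := Ex p m (fun t => ∑ s ∈ Fc K (WS S0 t), vv K p s ^ 2) with hE
  have hE0 : 0 ≤ E := Ex_nonneg hp.nonneg fun t => Finset.sum_nonneg fun s _ => sq_nonneg _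
  rw [Nat.cast_choose_two] at h1
  push_cast at h1
  have hm20 : (20 : ℝ) ≤ m := by exact_mod_cast h20
  by_contra hcon
  push Not at hcon
  have h2 : 256 * (((m : ℝ) + 2) * ((m : ℝ) + 2 - 1) / 2) < E * (((m : ℝ) + 2) * ((m : ℝ) + 2 - 1) / 2) := by
    apply mul_lt_mul_of_pos_right hcon
    have : (0 : ℝ) < (m : ℝ) + 2 - 1 := by linarith
    positivity
  norm_num at h1
  nlinarith

/-- fourth moment -/
theorem mom4 (hm : S_MOM) {K : Conf ι} {S0 : Finset ι} (h : OK K S0) {p : ι → ℝ} (hp : Pr p)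
    {m : ℕ} (h20 : 20 ≤ m) :
    Ex p m (fun t => ∑ s ∈ Fc K (WS S0 t), vv K p s ^ 4) * (m : ℝ) ^ 2 ≤ 12288 := by
  have h1 := hm ι K S0 h p hp m 4
  set E := Ex p m (fun t => ∑ s ∈ Fc K (WS S0 t), vv K p s ^ 4) with hE
  have hE0 : 0 ≤ E := Ex_nonneg hp.nonneg fun t => Finset.sum_nonneg fun s _ => by positivity
  have hm20 : (20 : ℝ) ≤ m := by exact_mod_cast h20
  have hc : ((m : ℝ) + 1) ^ 4 / 24 ≤ ((m + 4).choose 4 : ℝ) := by
    have h2 := Nat.pow_le_choose (α := ℝ) 4 (m + 4)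
    have h3 : m + 4 + 1 - 4 = m + 1 := by omega
    rw [h3] at h2
    have h4 : ((4).factorial : ℝ) = 24 := by norm_num [Nat.factorial]
    rw [h4] at h2
    push_cast at h2
    exact h2
  have h5 : E * (((m : ℝ) + 1) ^ 4 / 24) ≤ 2 ^ (4 + 4) * ((m : ℝ) + (4 : ℕ) + 5) ^ 2 :=
    (mul_le_mul_of_nonneg_left hc hE0).trans h1
  have h6 : ((m : ℝ) + (4 : ℕ) + 5) ^ 2 ≤ 2 * ((m : ℝ) + 1) ^ 2 := by
    push_cast
    nlinarith
  have h7 : E * ((m : ℝ) + 1) ^ 4 ≤ 12288 * ((m : ℝ) + 1) ^ 2 := by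
    have : E * ((m : ℝ) + 1) ^ 4 = 24 * (E * (((m : ℝ) + 1) ^ 4 / 24)) := by ring
    rw [this]
    calc 24 * (E * (((m : ℝ) + 1) ^ 4 / 24)) ≤ 24 * (2 ^ (4 + 4) * ((m : ℝ) + (4 : ℕ) + 5) ^ 2) := by
          linarith
      _ ≤ 24 * (2 ^ (4 + 4) * (2 * ((m : ℝ) + 1) ^ 2)) := by
          have : (0 : ℝ) ≤ 2 ^ (4 + 4) := by positivity
          nlinarith
      _ = 12288 * ((m : ℝ) + 1) ^ 2 := by ring
  have h8 : 0 < ((m : ℝ) + 1) ^ 2 := by positivity
  have h9 : E * ((m : ℝ) + 1) ^ 2 ≤ 12288 := by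
    have : (E * ((m : ℝ) + 1) ^ 2) * ((m : ℝ) + 1) ^ 2 ≤ 12288 * ((m : ℝ) + 1) ^ 2 := by
      calc (E * ((m : ℝ) + 1) ^ 2) * ((m : ℝ) + 1) ^ 2 = E * ((m : ℝ) + 1) ^ 4 := by ring
        _ ≤ _ := h7
    exact le_of_mul_le_mul_right this h8
  calc E * (m : ℝ) ^ 2 ≤ E * ((m : ℝ) + 1) ^ 2 := by
        apply mul_le_mul_of_nonneg_left _ hE0
        apply pow_le_pow_left₀ (by linarith)
        linarith
    _ ≤ 12288 := h9

theorem subWS (S0 : Finset ι) {m : ℕ} (t : Fin m → ι) : S0 ⊆ WS S0 t := Finset.subset_union_left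

open Classical in
/-- the number of the atypical incidences -/
noncomputable def atyp (K : Conf ι) (D : ℕ) (W : Finset ι) (x : ι) : ℝ :=
  (((Fc K W).filter fun s => K.vis x s ∧ ¬ Typ K W D x s).card : ℝ)

/-- exceptional incidences, pointwise in the sample -/
theorem exc_le (he : S_EXC) {K : Conf ι} {S0 : Finset ι} (h : OK K S0) {p : ι → ℝ} (hp : Pr p)
    {D L : ℕ} (hD : 5 ≤ D) {W : Finset ι} (hW : S0 ⊆ W) :
    ∑ s ∈ Fc K W, pm p (ExS h hW D L s) ≤ (1 + 24 * (L : ℝ)) * ∑ x, p x * atyp K D W x := by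
  classical
  rw [swap_exc, Finset.mul_sum]
  refine Finset.sum_le_sum fun x _ => ?_
  have h0 : ((((Fc K W).filter fun s => Exc h hW D L x s).card : ℕ) : ℝ) ≤
      (1 + 24 * (L : ℝ)) * atyp K D W x := by
    by_cases hx : x ∈ W
    · have h1 : ((Fc K W).filter fun s => Exc h hW D L x s) = ∅ := by
        rw [Finset.filter_eq_empty_iff]
        intro s hs hex
        exact (mem_Fc.1 hs).2.2.2 x hx hex.2.1
      rw [h1, Finset.card_empty, Nat.cast_zero]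
      unfold atyp
      positivity
    · have h2 := he ι K S0 h W hW D L x hx hD
      unfold atyp
      exact_mod_cast h2
  calc p x * ((((Fc K W).filter fun s => Exc h hW D L x s).card : ℕ) : ℝ)
      ≤ p x * ((1 + 24 * (L : ℝ)) * atyp K D W x) := mul_le_mul_of_nonneg_left h0 (hp.nonneg x)
    _ = (1 + 24 * (L : ℝ)) * (p x * atyp K D W x) := by ring

open Classical in
/-- the not strongly normal facets, pointwise in the sample -/
theorem nsn_le (hs : S_SNC) {K : Conf ι} {S0 : Finset ι} (h : OK K S0) {p : ι → ℝ} (hp : Pr p)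
    {D : ℕ} (hD : 5 ≤ D) {m : ℕ} (h20 : 20 ≤ m) (hDm : D ≤ m) {η β : ℝ} (hβ : 0 < β)
    (hη : η * (D : ℝ) ^ 2 ≤ 1)
    (hflat : ∀ W, S0 ⊆ W → m ≤ W.card → ((nonq K W).card : ℝ) ≤ η * (W.card : ℝ) ^ 2)
    (t : Fin m → ι) :
    ∑ s ∈ (Fc K (WS S0 t)).filter (fun s => ¬ SN K (WS S0 t) D s), vv K p s ≤
      β * (25000 / D) * m + m / (2 * β) * ∑ s ∈ Fc K (WS S0 t), vv K p s ^ 2 +
        ((m : ℝ) + 5) ^ 2 * nin t := by
  have hm20 : (20 : ℝ) ≤ m := by exact_mod_cast h20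
  have hD5 : (5 : ℝ) ≤ D := by exact_mod_cast hD
  have hcard := card_WS_le h.card0 t
  have hcard' : ((WS S0 t).card : ℝ) ≤ (m : ℝ) + 5 := by exact_mod_cast hcard
  have hV0 : 0 ≤ ∑ s ∈ Fc K (WS S0 t), vv K p s ^ 2 := Finset.sum_nonneg fun s _ => sq_nonneg _
  by_cases ht : Function.Injective t
  · rw [nin_inj ht, mul_zero, add_zero]
    have hmW := le_card_WS S0 ht
    have hmW' : (m : ℝ) ≤ (WS S0 t).card := by exact_mod_cast hmW
    have hfl := hflat _ (subWS S0 t) hmW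
    have hn : ((nonq K (WS S0 t)).card : ℝ) * (D : ℝ) ^ 2 ≤ ((WS S0 t).card : ℝ) ^ 2 := by
      calc ((nonq K (WS S0 t)).card : ℝ) * (D : ℝ) ^ 2
          ≤ η * ((WS S0 t).card : ℝ) ^ 2 * (D : ℝ) ^ 2 :=
            mul_le_mul_of_nonneg_right hfl (by positivity)
        _ = η * (D : ℝ) ^ 2 * ((WS S0 t).card : ℝ) ^ 2 := by ring
        _ ≤ 1 * ((WS S0 t).card : ℝ) ^ 2 := mul_le_mul_of_nonneg_right hη (by positivity)
        _ = _ := one_mul _
    have hns := notSN hs h (subWS S0 t) hD (hDm.trans hmW) hn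
    set A := (Fc K (WS S0 t)).filter (fun s => ¬ SN K (WS S0 t) D s) with hA
    have hAc : (A.card : ℝ) ≤ 25000 / D * (2 * (m : ℝ) ^ 2) := by
      rw [div_mul_eq_mul_div, le_div_iff₀ (by linarith)]
      have : ((WS S0 t).card : ℝ) ^ 2 ≤ 2 * (m : ℝ) ^ 2 := by nlinarith
      linarith
    have h1 := amgm A (Fc K (WS S0 t)) (Finset.filter_subset _ _) (fun s => vv K p s) (β / m)
      (by positivity)
    have h2 : β / m / 2 * A.card ≤ β * (25000 / D) * m := by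
      have h3 : 0 ≤ β / m / 2 := by positivity
      calc β / m / 2 * A.card ≤ β / m / 2 * (25000 / D * (2 * (m : ℝ) ^ 2)) :=
            mul_le_mul_of_nonneg_left hAc h3
        _ = β * (25000 / D) * m := by field_simp
    have h4 : 1 / (2 * (β / m)) = m / (2 * β) := by field_simp
    rw [h4] at h1
    linarith
  · rw [nin_not ht, mul_one]
    have h1 : ∑ s ∈ (Fc K (WS S0 t)).filter (fun s => ¬ SN K (WS S0 t) D s), vv K p s ≤
        ((m : ℝ) + 5) ^ 2 := by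
      calc ∑ s ∈ (Fc K (WS S0 t)).filter (fun s => ¬ SN K (WS S0 t) D s), vv K p s
          ≤ ∑ s ∈ Fc K (WS S0 t), vv K p s :=
            Finset.sum_le_sum_of_subset_of_nonneg (Finset.filter_subset _ _)
              fun s _ _ => vv_nonneg hp s
        _ ≤ ∑ s ∈ Fc K (WS S0 t), 1 := Finset.sum_le_sum fun s _ => vv_le_one hp s
        _ = ((Fc K (WS S0 t)).card : ℝ) := by simp
        _ ≤ ((WS S0 t).card : ℝ) ^ 2 := by exact_mod_cast h.f3 _ (subWS S0 t)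
        _ ≤ ((m : ℝ) + 5) ^ 2 := pow_le_pow_left₀ (by positivity) hcard' 2
    have h2 : 0 ≤ β * (25000 / D) * m := by positivity
    have h3 : 0 ≤ m / (2 * β) * ∑ s ∈ Fc K (WS S0 t), vv K p s ^ 2 :=
      mul_nonneg (by positivity) hV0
    linarith

theorem Ex_init (p : ι → ℝ) (m : ℕ) (g : (Fin m → ι) → ι → ℝ) :
    Ex p (m + 1) (fun t => g (Fin.init t) (t (Fin.last m))) =
      Ex p m (fun t => ∑ x, p x * g t x) := by
  rw [Ex_succ]
  congr 1
  funext t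
  refine Finset.sum_congr rfl fun x _ => ?_
  have h1 : Fin.init (Fin.snoc (α := fun _ => ι) t x) = t := Fin.init_snoc _ _
  have h2 : (Fin.snoc (α := fun _ => ι) t x : Fin (m + 1) → ι) (Fin.last m) = x := Fin.snoc_last _ _
  rw [h1, h2]

/-- the mean number of the atypical incidences -/
theorem ex_atyp (hm : S_MOM) (hs : S_SNC) (hpt : S_PTW) (hy : S_SYM) {K : Conf ι}
    {S0 : Finset ι} (h : OK K S0) {p : ι → ℝ} (hp : Pr p)
    {D : ℕ} (hD : 5 ≤ D) {m : ℕ} (h20 : 20 ≤ m) (hDm : D ≤ m) {η β δ : ℝ} (hβ : 0 < β)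
    (hη0 : 0 < η) (hη : η * (D : ℝ) ^ 2 ≤ 1) (hδ0 : 0 ≤ δ) (hδ : ∀ x, p x ≤ δ)
    (hflat : ∀ W, S0 ⊆ W → m ≤ W.card → ((nonq K W).card : ℝ) ≤ η * (W.card : ℝ) ^ 2)
    (hdes : Ex p (m + 1) (fun t => (des K S0 t : ℝ)) ≤ η * m) :
    Ex p m (fun t => ∑ x, p x * atyp K D (WS S0 t) x) ≤
      β * (25000 / D) * m + m / (2 * β) * 256 + ((m : ℝ) + 5) ^ 2 * ((m : ℝ) ^ 2 * δ) +
        4 * (η * m) + 4 * (24 * η * ((m : ℝ) + 6) ^ 2 / (m + 1) +
          ((m : ℝ) + 1) ^ 2 * δ * ((m : ℝ) + 6) ^ 2) := by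
  classical
  have h1 := hy ι K S0 h p hp m η δ hη0 hδ (fun W hW hc => hflat W hW (by omega))
  rw [← Ex_init p m (fun t x => atyp K D (WS S0 t) x)]
  have h2 : ∀ t : Fin (m + 1) → ι, atyp K D (WS S0 (Fin.init t)) (t (Fin.last m)) ≤
      ((((Fc K (WS S0 (Fin.init t))).filter fun s => K.vis (t (Fin.last m)) s ∧
        ¬ SN K (WS S0 (Fin.init t)) D s).card : ℝ) + 4 * (des K S0 t : ℝ)) +
        4 * (smb K S0 t : ℝ) := by
    intro t
    have h3 := hpt ι K S0 h D m t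
    unfold atyp
    exact_mod_cast h3
  refine (Ex_mono hp.nonneg h2).trans ?_
  rw [Ex_add, Ex_add, Ex_mul, Ex_mul]
  have h4 : Ex p (m + 1) (fun t => (((Fc K (WS S0 (Fin.init t))).filter fun s =>
      K.vis (t (Fin.last m)) s ∧ ¬ SN K (WS S0 (Fin.init t)) D s).card : ℝ)) =
      Ex p m (fun t => ∑ s ∈ (Fc K (WS S0 t)).filter (fun s => ¬ SN K (WS S0 t) D s), vv K p s) := by
    rw [Ex_init p m (fun t x => (((Fc K (WS S0 t)).filter fun s =>
      K.vis x s ∧ ¬ SN K (WS S0 t) D s).card : ℝ))]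
    congr 1
    funext t
    have h41 := swap_vis K p (Fc K (WS S0 t)) (fun s => ¬ SN K (WS S0 t) D s)
    convert h41
  have h5 : Ex p m (fun t => ∑ s ∈ (Fc K (WS S0 t)).filter (fun s => ¬ SN K (WS S0 t) D s),
      vv K p s) ≤ β * (25000 / D) * m + m / (2 * β) * 256 +
        ((m : ℝ) + 5) ^ 2 * ((m : ℝ) ^ 2 * δ) := by
    have h6 := Ex_mono (p := p) hp.nonneg (fun t : Fin m → ι =>
      nsn_le hs h hp hD h20 hDm hβ hη hflat t)
    refine h6.trans ?_
    rw [Ex_add, Ex_add, Ex_const hp, Ex_mul, Ex_mul]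
    have h7 := mom2 hm h hp h20
    have h8 := Ex_nin hp hδ hδ0 m
    have h9 : 0 ≤ (m : ℝ) / (2 * β) := by positivity
    have h10 : 0 ≤ ((m : ℝ) + 5) ^ 2 := by positivity
    have h11 := mul_le_mul_of_nonneg_left h7 h9
    have h12 := mul_le_mul_of_nonneg_left h8 h10
    linarith
  rw [h4]
  linarith

/-- The bound of the mean of the exceptional incidences by the choice of the constants. -/
theorem arith {Λ ε β η δ m m2 D : ℝ} (hΛ : 0 < Λ) (hε : 0 < ε) (hβ : β = 5120 * Λ / ε)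
    (hD0 : 0 < D) (hD : 10 ^ 6 * Λ * β / ε ≤ D) (hη : η ≤ ε / (15360 * Λ)) (hη0 : 0 < η)
    (hm : 20 ≤ m) (hm2 : m ≤ m2) (hδ0 : 0 ≤ δ) (hδ : δ * (200 * Λ * (m2 + 6) ^ 4) ≤ ε) :
    Λ * (β * (25000 / D) * m + m / (2 * β) * 256 + (m + 5) ^ 2 * (m ^ 2 * δ) +
        4 * (η * m) + 4 * (24 * η * (m + 6) ^ 2 / (m + 1) + (m + 1) ^ 2 * δ * (m + 6) ^ 2)) ≤
      ε * m / 8 := by
  have hβ0 : 0 < β := by rw [hβ]; positivity
  have hm0 : 0 < m := by linarith
  -- first term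
  have t1 : Λ * (β * (25000 / D) * m) ≤ ε * m / 40 := by
    have h1 : 10 ^ 6 * Λ * β ≤ D * ε := (div_le_iff₀ hε).1 hD
    have h2 : Λ * (β * (25000 / D) * m) = (25000 * (Λ * β) * m) / D := by
      field_simp
    rw [h2, div_le_iff₀ hD0]
    nlinarith
  have t2 : Λ * (m / (2 * β) * 256) = ε * m / 40 := by
    rw [hβ]
    field_simp
    ring
  have t3 : Λ * ((m + 5) ^ 2 * (m ^ 2 * δ)) + Λ * (4 * ((m + 1) ^ 2 * δ * (m + 6) ^ 2)) ≤
      ε * m / 40 := by
    have h1 : (m + 5) ^ 2 * m ^ 2 ≤ (m2 + 6) ^ 4 := by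
      have a1 : (m + 5) ^ 2 ≤ (m2 + 6) ^ 2 := pow_le_pow_left₀ (by linarith) (by linarith) 2
      have a2 : m ^ 2 ≤ (m2 + 6) ^ 2 := pow_le_pow_left₀ (by linarith) (by linarith) 2
      calc (m + 5) ^ 2 * m ^ 2 ≤ (m2 + 6) ^ 2 * (m2 + 6) ^ 2 :=
            mul_le_mul a1 a2 (by positivity) (by positivity)
        _ = (m2 + 6) ^ 4 := by ring
    have h2 : (m + 1) ^ 2 * (m + 6) ^ 2 ≤ (m2 + 6) ^ 4 := by
      have a1 : (m + 1) ^ 2 ≤ (m2 + 6) ^ 2 := pow_le_pow_left₀ (by linarith) (by linarith) 2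
      have a2 : (m + 6) ^ 2 ≤ (m2 + 6) ^ 2 := pow_le_pow_left₀ (by linarith) (by linarith) 2
      calc (m + 1) ^ 2 * (m + 6) ^ 2 ≤ (m2 + 6) ^ 2 * (m2 + 6) ^ 2 :=
            mul_le_mul a1 a2 (by positivity) (by positivity)
        _ = (m2 + 6) ^ 4 := by ring
    have h3 : 0 ≤ Λ * δ := by positivity
    have h4 := mul_le_mul_of_nonneg_left h1 h3
    have h5 := mul_le_mul_of_nonneg_left h2 h3
    have h6 : 5 * (Λ * δ * (m2 + 6) ^ 4) ≤ ε / 40 := by linarith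
    have h7 : ε / 40 ≤ ε * m / 40 := by nlinarith
    calc Λ * ((m + 5) ^ 2 * (m ^ 2 * δ)) + Λ * (4 * ((m + 1) ^ 2 * δ * (m + 6) ^ 2))
        = Λ * δ * ((m + 5) ^ 2 * m ^ 2) + 4 * (Λ * δ * ((m + 1) ^ 2 * (m + 6) ^ 2)) := by ring
      _ ≤ Λ * δ * (m2 + 6) ^ 4 + 4 * (Λ * δ * (m2 + 6) ^ 4) := by linarith
      _ = 5 * (Λ * δ * (m2 + 6) ^ 4) := by ring
      _ ≤ ε * m / 40 := h6.trans h7
  have hη' : η * (15360 * Λ) ≤ ε := (le_div_iff₀ (by positivity)).1 hη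
  have t4 : Λ * (4 * (η * m)) ≤ ε * m / 40 := by
    have h1 : Λ * η * 160 ≤ ε := by nlinarith [mul_pos hΛ hη0]
    nlinarith
  have t5 : Λ * (4 * (24 * η * (m + 6) ^ 2 / (m + 1))) ≤ ε * m / 40 := by
    have h1 : 24 * η * (m + 6) ^ 2 / (m + 1) ≤ 24 * η * (4 * m) := by
      rw [div_le_iff₀ (by linarith)]
      have h2 : (m + 6) ^ 2 ≤ 4 * m * (m + 1) := by nlinarith
      calc 24 * η * (m + 6) ^ 2 ≤ 24 * η * (4 * m * (m + 1)) :=
            mul_le_mul_of_nonneg_left h2 (by positivity)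
        _ = 24 * η * (4 * m) * (m + 1) := by ring
    calc Λ * (4 * (24 * η * (m + 6) ^ 2 / (m + 1))) ≤ Λ * (4 * (24 * η * (4 * m))) := by
          apply mul_le_mul_of_nonneg_left _ hΛ.le
          linarith
      _ = (η * (15360 * Λ)) * m / 40 := by ring
      _ ≤ ε * m / 40 := by
          have := mul_le_mul_of_nonneg_right hη' hm0.le
          linarith
  calc Λ * (β * (25000 / D) * m + m / (2 * β) * 256 + (m + 5) ^ 2 * (m ^ 2 * δ) +
        4 * (η * m) + 4 * (24 * η * (m + 6) ^ 2 / (m + 1) + (m + 1) ^ 2 * δ * (m + 6) ^ 2))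
      = Λ * (β * (25000 / D) * m) + Λ * (m / (2 * β) * 256) +
          (Λ * ((m + 5) ^ 2 * (m ^ 2 * δ)) + Λ * (4 * ((m + 1) ^ 2 * δ * (m + 6) ^ 2))) +
          Λ * (4 * (η * m)) + Λ * (4 * (24 * η * (m + 6) ^ 2 / (m + 1))) := by ring
    _ ≤ ε * m / 8 := by linarith

end

end SMP

open SMP in
/-- SMP. -/
theorem p_SMP (hm : S_MOM) (hs : S_SNC) (hpt : S_PTW) (hd : S_DES) (hy : S_SYM) (he : S_EXC) :
    S_SMP := by
  intro m0 L ε hL hε
  set Λ : ℝ := 1 + 24 * (L : ℝ) with hΛdef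
  have hΛ : 0 < Λ := by rw [hΛdef]; positivity
  set β : ℝ := 5120 * Λ / ε with hβ
  have hβ0 : 0 < β := by rw [hβ]; positivity
  obtain ⟨D, hD5, hLD, hD⟩ : ∃ D : ℕ, 5 ≤ D ∧ L ≤ D ∧ 10 ^ 6 * Λ * β / ε ≤ (D : ℝ) := by
    refine ⟨max 5 (max L ⌈10 ^ 6 * Λ * β / ε⌉₊), le_max_left _ _, ?_, ?_⟩
    · exact (le_max_left _ _).trans (le_max_right _ _)
    · exact (Nat.le_ceil _).trans (Nat.cast_le.2 ((le_max_right _ _).trans (le_max_right _ _)))
  have hD0 : (0 : ℝ) < D := by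
    have : (5 : ℝ) ≤ D := by exact_mod_cast hD5
    linarith
  set η : ℝ := min (ε / (D : ℝ) ^ 6) (min (1 / (D : ℝ) ^ 2) (ε / (15360 * Λ))) with hη
  have hη0 : 0 < η := by
    rw [hη]
    exact lt_min (by positivity) (lt_min (by positivity) (by positivity))
  have hη1 : η * (D : ℝ) ^ 6 ≤ ε := (le_div_iff₀ (by positivity)).1 (min_le_left _ _)
  have hη2 : η * (D : ℝ) ^ 2 ≤ 1 :=
    (le_div_iff₀ (by positivity)).1 ((min_le_right _ _).trans (min_le_left _ _))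
  have hη3 : η ≤ ε / (15360 * Λ) := (min_le_right _ _).trans (min_le_right _ _)
  obtain ⟨m2, hm2⟩ := hd η hη0 (max 20 (max D (m0 η))) ((by norm_num : 1 ≤ 20).trans (le_max_left _ _))
  obtain ⟨N0, hN1, hN2, hN3, hN4⟩ : ∃ N0 : ℕ, 1 ≤ N0 ∧ 200 * Λ * ((m2 : ℝ) + 6) ^ 4 ≤ ε * N0 ∧
      8 * (m2 : ℝ) ^ 2 ≤ N0 ∧ (m2 : ℝ) + 5 ≤ ε * N0 := by
    refine ⟨max 1 (max ⌈200 * Λ * ((m2 : ℝ) + 6) ^ 4 / ε⌉₊
      (max ⌈8 * (m2 : ℝ) ^ 2⌉₊ ⌈((m2 : ℝ) + 5) / ε⌉₊)), le_max_left _ _, ?_, ?_, ?_⟩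
    · have h1 : 200 * Λ * ((m2 : ℝ) + 6) ^ 4 / ε ≤ ((max 1 (max ⌈200 * Λ * ((m2 : ℝ) + 6) ^ 4 / ε⌉₊
          (max ⌈8 * (m2 : ℝ) ^ 2⌉₊ ⌈((m2 : ℝ) + 5) / ε⌉₊)) : ℕ) : ℝ) := by
        refine (Nat.le_ceil _).trans ?_
        exact_mod_cast (le_max_left _ _).trans (le_max_right _ _)
      rw [div_le_iff₀ hε] at h1
      linarith
    · refine (Nat.le_ceil _).trans ?_
      exact_mod_cast ((le_max_left _ _).trans (le_max_right _ _)).trans (le_max_right _ _)
    · have h1 : ((m2 : ℝ) + 5) / ε ≤ ((max 1 (max ⌈200 * Λ * ((m2 : ℝ) + 6) ^ 4 / ε⌉₊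
          (max ⌈8 * (m2 : ℝ) ^ 2⌉₊ ⌈((m2 : ℝ) + 5) / ε⌉₊)) : ℕ) : ℝ) := by
        refine (Nat.le_ceil _).trans ?_
        exact_mod_cast ((le_max_right _ _).trans (le_max_right _ _)).trans (le_max_right _ _)
      rw [div_le_iff₀ hε] at h1
      linarith
  refine ⟨D, m2 + 5, N0, hD5, hLD, hN1, ?_⟩
  intro ι _ _ K S0 h hfl p hp hpN
  obtain ⟨m, hm1, hmm2, hdes⟩ := hm2 ι K S0 h p hp
  have h20 : 20 ≤ m := (le_max_left _ _).trans hm1
  have hDm : D ≤ m := ((le_max_left _ _).trans (le_max_right _ _)).trans hm1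
  have hm0 : m0 η ≤ m := ((le_max_right _ _).trans (le_max_right _ _)).trans hm1
  have hm20 : (20 : ℝ) ≤ m := by exact_mod_cast h20
  have hmm2' : (m : ℝ) ≤ m2 := by exact_mod_cast hmm2
  have hN0 : (0 : ℝ) < N0 := by exact_mod_cast hN1
  set δ : ℝ := 1 / (N0 : ℝ) with hδ
  have hδ0 : 0 < δ := by rw [hδ]; positivity
  have hδN : δ * N0 = 1 := by rw [hδ]; field_simp
  have hflat : ∀ W, S0 ⊆ W → m ≤ W.card → ((nonq K W).card : ℝ) ≤ η * (W.card : ℝ) ^ 2 :=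
    fun W hW hc => hfl η hη0 W hW (hm0.trans hc)
  have hat := ex_atyp hm hs hpt hy h hp hD5 h20 hDm hβ0 hη0 hη2 hδ0.le hpN hflat hdes
  have hδ1 : δ * (200 * Λ * ((m2 : ℝ) + 6) ^ 4) ≤ ε := by
    calc δ * (200 * Λ * ((m2 : ℝ) + 6) ^ 4) ≤ δ * (ε * N0) :=
          mul_le_mul_of_nonneg_left hN2 hδ0.le
      _ = ε * (δ * N0) := by ring
      _ = ε := by rw [hδN, mul_one]
  have har := arith hΛ hε hβ hD0 hD hη3 hη0 hm20 hmm2' hδ0.le hδ1
  have hEx : Ex p m (fun t => ∑ s ∈ Fc K (WS S0 t), pm p (ExS h (subWS S0 t) D L s)) ≤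
      ε * m / 8 := by
    have h1 := Ex_mono (p := p) hp.nonneg (fun t : Fin m → ι =>
      exc_le he h hp (L := L) hD5 (subWS S0 t))
    rw [Ex_mul] at h1
    refine h1.trans (le_trans ?_ har)
    exact mul_le_mul_of_nonneg_left hat hΛ.le
  have hV2 := mom2 hm h hp h20
  have hV4 := mom4 hm h hp h20
  have hnin : Ex p m nin ≤ 1 / 8 := by
    refine (Ex_nin hp hpN hδ0.le m).trans ?_
    have h1 : 8 * (m : ℝ) ^ 2 ≤ N0 := by
      have : (m : ℝ) ^ 2 ≤ (m2 : ℝ) ^ 2 := pow_le_pow_left₀ (by linarith) hmm2' 2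
      linarith
    have h2 := mul_le_mul_of_nonneg_left h1 hδ0.le
    rw [hδN] at h2
    linarith
  -- a good sample
  obtain ⟨t, ht⟩ : ∃ t : Fin m → ι, nin t +
      (1 / 10 ^ 7 * (∑ s ∈ Fc K (WS S0 t), vv K p s ^ 2) +
      ((m : ℝ) ^ 2 / (5 * 10 ^ 6) * (∑ s ∈ Fc K (WS S0 t), vv K p s ^ 4) +
      1 / (ε * m) * (∑ s ∈ Fc K (WS S0 t), pm p (ExS h (subWS S0 t) D L s)))) < 1 := by
    by_contra hcon
    push Not at hcon
    have h1 := Ex_mono (p := p) hp.nonneg hcon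
    rw [Ex_const hp, Ex_add, Ex_add, Ex_add, Ex_mul, Ex_mul, Ex_mul] at h1
    have h2 : (m : ℝ) ^ 2 / (5 * 10 ^ 6) * Ex p m (fun t => ∑ s ∈ Fc K (WS S0 t), vv K p s ^ 4) ≤
        12288 / (5 * 10 ^ 6) := by
      rw [div_mul_eq_mul_div, mul_comm]
      exact div_le_div_of_nonneg_right hV4 (by norm_num)
    have h3 : 1 / (ε * m) * Ex p m (fun t => ∑ s ∈ Fc K (WS S0 t),
        pm p (ExS h (subWS S0 t) D L s)) ≤ 1 / 8 := by
      have h4 : 0 < ε * m := by positivity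
      rw [one_div, inv_mul_le_iff₀ h4]
      linarith
    linarith
  have hF0 : 0 ≤ ∑ s ∈ Fc K (WS S0 t), vv K p s ^ 2 := Finset.sum_nonneg fun s _ => sq_nonneg _
  have hF4 : 0 ≤ ∑ s ∈ Fc K (WS S0 t), vv K p s ^ 4 := Finset.sum_nonneg fun s _ => by positivity
  have hFE : 0 ≤ ∑ s ∈ Fc K (WS S0 t), pm p (ExS h (subWS S0 t) D L s) :=
    Finset.sum_nonneg fun s _ => Finset.sum_nonneg fun x _ => hp.nonneg x
  have hεm : 0 < ε * m := by positivity
  have g0 := nin_nonneg t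
  have g1 : 0 ≤ 1 / 10 ^ 7 * (∑ s ∈ Fc K (WS S0 t), vv K p s ^ 2) := by positivity
  have g2 : 0 ≤ (m : ℝ) ^ 2 / (5 * 10 ^ 6) * (∑ s ∈ Fc K (WS S0 t), vv K p s ^ 4) := by positivity
  have g3 : 0 ≤ 1 / (ε * m) * (∑ s ∈ Fc K (WS S0 t), pm p (ExS h (subWS S0 t) D L s)) := by
    positivity
  have hinj : Function.Injective t := by
    by_contra hni
    rw [nin_not hni] at ht
    linarith
  have hmW := le_card_WS S0 hinj
  have hmW' : (m : ℝ) ≤ (WS S0 t).card := by exact_mod_cast hmW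
  have hWm := card_WS_le h.card0 t
  have hWm' : ((WS S0 t).card : ℝ) ≤ (m : ℝ) + 5 := by exact_mod_cast hWm
  have hW2 : ((WS S0 t).card : ℝ) ^ 2 ≤ 2 * (m : ℝ) ^ 2 := by nlinarith
  refine ⟨WS S0 t, subWS S0 t, by omega, ?_, ?_, ?_, ?_, ?_⟩
  · have h1 : 1 / 10 ^ 7 * (∑ s ∈ Fc K (WS S0 t), vv K p s ^ 2) ≤ 1 := by linarith
    linarith
  · have h1 : (m : ℝ) ^ 2 / (5 * 10 ^ 6) * (∑ s ∈ Fc K (WS S0 t), vv K p s ^ 4) ≤ 1 := by linarith
    rw [div_mul_eq_mul_div, div_le_one (by norm_num)] at h1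
    calc (∑ s ∈ Fc K (WS S0 t), vv K p s ^ 4) * ((WS S0 t).card : ℝ) ^ 2
        ≤ (∑ s ∈ Fc K (WS S0 t), vv K p s ^ 4) * (2 * (m : ℝ) ^ 2) :=
          mul_le_mul_of_nonneg_left hW2 hF4
      _ = 2 * ((m : ℝ) ^ 2 * (∑ s ∈ Fc K (WS S0 t), vv K p s ^ 4)) := by ring
      _ ≤ 10 ^ 7 := by linarith
  · have h1 : 1 / (ε * m) * (∑ s ∈ Fc K (WS S0 t), pm p (ExS h (subWS S0 t) D L s)) ≤ 1 := by
      linarith
    rw [one_div, inv_mul_le_iff₀ hεm, mul_one] at h1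
    exact h1.trans (mul_le_mul_of_nonneg_left hmW' hε.le)
  · have h1 := hflat _ (subWS S0 t) hmW
    calc ((nonq K (WS S0 t)).card : ℝ) * (D : ℝ) ^ 6
        ≤ η * ((WS S0 t).card : ℝ) ^ 2 * (D : ℝ) ^ 6 :=
          mul_le_mul_of_nonneg_right h1 (by positivity)
      _ = η * (D : ℝ) ^ 6 * ((WS S0 t).card : ℝ) ^ 2 := by ring
      _ ≤ ε * ((WS S0 t).card : ℝ) ^ 2 := mul_le_mul_of_nonneg_right hη1 (by positivity)
  · have h1 : pm p (WS S0 t) ≤ ((WS S0 t).card : ℝ) * δ := by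
      unfold pm
      have := Finset.sum_le_card_nsmul (WS S0 t) p δ (fun x _ => hpN x)
      rwa [nsmul_eq_mul] at this
    have h2 : ((WS S0 t).card : ℝ) ≤ ε * N0 := by linarith
    calc pm p (WS S0 t) ≤ ((WS S0 t).card : ℝ) * δ := h1
      _ ≤ ε * N0 * δ := mul_le_mul_of_nonneg_right h2 hδ0.le
      _ = ε * (δ * N0) := by ring
      _ = ε := by rw [hδN, mul_one]

end Pool.Agent.F32P

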