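import Pool.Agent.F32P.St3

/-!
# F32P, module P_SNC: not strongly normal facets (helper76)
-/

set_option autoImplicit false

namespace Pool.Agent.F32P

open Finset

theorem p_SNC : S_SNC := by
  classical
  intro ι _ K W D
  set bad := (Fc K W).filter fun s => ¬ NF K W D s with hbad
  set big := bad.biUnion fun t =>
    ((t.powersetCard 2).filter fun e => dg K W e = 4).biUnion fun e => St K W e with hbig
  have hsub : ((Fc K W).filter fun s => ¬ SN K W D s) ⊆ bad ∪ big := by
    intro s hs
    obtain ⟨hs1, hs2⟩ := mem_filter.1 hs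
    by_cases hn : NF K W D s
    · have h3 : ¬ ∀ e ⊆ s, e.card = 2 → dg K W e = 4 → ∀ t ∈ St K W e, NF K W D t :=
        fun h => hs2 ⟨hn, h⟩
      push Not at h3
      obtain ⟨e, he, hc, hd, t, ht, hnt⟩ := h3
      obtain ⟨ht1, ht2⟩ := mem_St.1 ht
      apply mem_union_right
      rw [hbig]
      refine mem_biUnion.2 ⟨t, ?_, ?_⟩
      · rw [hbad]
        exact mem_filter.2 ⟨ht1, hnt⟩
      · exact mem_biUnion.2 ⟨e, mem_filter.2 ⟨mem_powersetCard.2 ⟨ht2, hc⟩, hd⟩,
          mem_St.2 ⟨hs1, he⟩⟩
    · apply mem_union_left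
      rw [hbad]
      exact mem_filter.2 ⟨hs1, hn⟩
  have hbigc : big.card ≤ bad.card * 24 := by
    apply card_biUnion_le_card_mul
    intro t ht
    have ht1 : t.card = 4 := by
      rw [hbad] at ht
      exact (mem_Fc.1 (mem_filter.1 ht).1).2.1
    have hp : (t.powersetCard 2).card = 6 := by
      rw [card_powersetCard, ht1]
      rfl
    have h1 : (((t.powersetCard 2).filter fun e => dg K W e = 4).biUnion
        fun e => St K W e).card ≤ ((t.powersetCard 2).filter fun e => dg K W e = 4).card * 4 := by
      apply card_biUnion_le_card_mul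
      intro e he
      exact le_of_eq (mem_filter.1 he).2
    have h2 : ((t.powersetCard 2).filter fun e => dg K W e = 4).card ≤ 6 :=
      (card_filter_le _ _).trans_eq hp
    omega
  have h1 := (card_le_card hsub).trans (card_union_le _ _)
  have h2 : ((Fc K W).filter fun s => ¬ SN K W D s).card ≤ 25 * bad.card := by omega
  exact h2

end Pool.Agent.F32P
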