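import Pool.Agent.F32P.St3

/-!
# F32P: the induction step (helper68)
-/

set_option autoImplicit false

namespace Pool.Agent.F32P

open Finset

namespace STP

variable {ι : Type} [Fintype ι] [DecidableEq ι]

/-- the weighted sum is monotone -/
theorem tot_mono {K : Conf ι} {S0 : Finset ι} (h : OK K S0) {W : Finset ι} (hW : S0 ⊆ W)
    (D L : ℕ) {g g' : (Fin 3 → Finset ι) → ℝ} (hg : ∀ S, g S ≤ g' S) :
    tot h hW D L g ≤ tot h hW D L g' := by
  unfold tot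
  gcongr <;> exact hg _

/-- the weighted sum is linear -/
theorem tot_lin {K : Conf ι} {S0 : Finset ι} (h : OK K S0) {W : Finset ι} (hW : S0 ⊆ W)
    (D L : ℕ) (g : (Fin 3 → Finset ι) → ℝ) (a b : ℝ) :
    tot h hW D L (fun S => a * g S + b * 1) =
      a * tot h hW D L g + b * tot h hW D L fun _ => 1 := by
  unfold tot
  simp only [sum_add_distrib, ← mul_sum]
  ring

/-- the law -/
noncomputable def pl (X : Fin 3 → Finset ι) (x : ι) : ℝ :=
  ∑ i, if x ∈ X i then 1 / (3 * ((X i).card : ℝ)) else 0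

theorem pl_nonneg (X : Fin 3 → Finset ι) (x : ι) : 0 ≤ pl X x := by
  refine sum_nonneg fun i _ => ?_
  split_ifs
  · positivity
  · exact le_rfl

theorem pr_pl {X : Fin 3 → Finset ι} (hX : ∀ i, 0 < (X i).card) : Pr (pl X) := by
  refine ⟨pl_nonneg X, ?_⟩
  unfold pl
  rw [sum_comm]
  have h1 : ∀ i : Fin 3, ∑ x : ι, (if x ∈ X i then 1 / (3 * ((X i).card : ℝ)) else 0) = 1 / 3 := by
    intro i
    have h2 : (0 : ℝ) < (X i).card := by exact_mod_cast hX i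
    rw [← sum_filter, filter_mem_eq_inter, univ_inter, sum_const, nsmul_eq_mul]
    field_simp
  rw [sum_congr rfl fun i _ => h1 i]
  norm_num

theorem pl_le {X : Fin 3 → Finset ι} {N0 : ℕ} (h0 : 1 ≤ N0) (hX : ∀ i, N0 ≤ (X i).card) (x : ι) :
    pl X x ≤ 1 / N0 := by
  have hN : (1 : ℝ) ≤ N0 := by exact_mod_cast h0
  have h1 : ∀ i : Fin 3, (if x ∈ X i then 1 / (3 * ((X i).card : ℝ)) else 0) ≤
      1 / (3 * (N0 : ℝ)) := by
    intro i
    have h2 : (N0 : ℝ) ≤ (X i).card := by exact_mod_cast hX i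
    split_ifs
    · exact one_div_le_one_div_of_le (by positivity) (by linarith)
    · positivity
  calc pl X x ≤ ∑ _i : Fin 3, 1 / (3 * (N0 : ℝ)) := sum_le_sum fun i _ => h1 i
    _ = 1 / N0 := by
        rw [sum_const, card_univ, Fintype.card_fin, nsmul_eq_mul]
        have : (N0 : ℝ) ≠ 0 := by positivity
        field_simp
        norm_num

theorem card_le {X : Fin 3 → Finset ι} (hX : ∀ i, 0 < (X i).card) (i : Fin 3) (S : Finset ι) :
    ((X i ∩ S).card : ℝ) ≤ 3 * (X i).card * pm (pl X) S := by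
  have h2 : (0 : ℝ) < (X i).card := by exact_mod_cast hX i
  have h1 : ((X i ∩ S).card : ℝ) * (1 / (3 * ((X i).card : ℝ))) ≤ pm (pl X) S := by
    calc ((X i ∩ S).card : ℝ) * (1 / (3 * ((X i).card : ℝ)))
        = ∑ _x ∈ X i ∩ S, 1 / (3 * ((X i).card : ℝ)) := by
          rw [sum_const, nsmul_eq_mul]
      _ ≤ ∑ x ∈ X i ∩ S, pl X x := by
          refine sum_le_sum fun x hx => ?_
          have h3 : (if x ∈ X i then 1 / (3 * ((X i).card : ℝ)) else 0) ≤ pl X x :=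
            single_le_sum (f := fun i : Fin 3 =>
              if x ∈ X i then 1 / (3 * ((X i).card : ℝ)) else 0) (s := univ)
              (fun j _ => by
                show (0 : ℝ) ≤ if x ∈ X j then 1 / (3 * ((X j).card : ℝ)) else 0
                split_ifs
                · positivity
                · exact le_rfl) (mem_univ i)
          rw [if_pos (mem_inter.1 hx).1] at h3
          exact h3
      _ ≤ pm (pl X) S := sum_le_sum_of_subset_of_nonneg inter_subset_right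
          fun x _ _ => pl_nonneg X x
  calc ((X i ∩ S).card : ℝ) = 3 * (X i).card *
        (((X i ∩ S).card : ℝ) * (1 / (3 * ((X i).card : ℝ)))) := by
        field_simp
    _ ≤ _ := mul_le_mul_of_nonneg_left h1 (by positivity)

/-- powers of `τ` -/
theorem pow_le {lam κ τ g : ℝ} (h0 : 0 < lam) (h1 : lam ≤ 1) (hκ : 1 / 2 ≤ κ) (hκ2 : κ < 2 / 3)
    (h2 : lam ^ (κ - 2 / 3) ≤ 2) (hg : 0 ≤ g) (hτ : τ = 27 * g) :
    τ ^ κ ≤ 18 * g ^ ((2 : ℝ) / 3) + lam ^ ((1 : ℝ) / 2) := by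
  have hτ0 : 0 ≤ τ := by rw [hτ]; positivity
  rcases le_or_gt lam τ with h | h
  · have hτp : 0 < τ := h0.trans_le h
    have e1 : τ ^ κ = τ ^ (κ - 2 / 3) * τ ^ ((2 : ℝ) / 3) := by
      rw [← Real.rpow_add hτp]
      congr 1
      ring
    have e2 : τ ^ (κ - 2 / 3) ≤ lam ^ (κ - 2 / 3) :=
      Real.rpow_le_rpow_of_nonpos h0 h (by linarith)
    have e3 : τ ^ ((2 : ℝ) / 3) = 9 * g ^ ((2 : ℝ) / 3) := by
      rw [hτ, Real.mul_rpow (by norm_num) hg]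
      congr 1
      rw [show (27 : ℝ) = 3 ^ (3 : ℝ) by norm_num, ← Real.rpow_mul (by norm_num)]
      norm_num
    have e4 : 0 ≤ g ^ ((2 : ℝ) / 3) := by positivity
    have e5 : 0 ≤ lam ^ ((1 : ℝ) / 2) := by positivity
    rw [e1, e3]
    nlinarith [mul_le_mul_of_nonneg_right (e2.trans h2)
      (show (0 : ℝ) ≤ 9 * g ^ ((2 : ℝ) / 3) by positivity)]
  · have e1 : τ ^ κ ≤ lam ^ κ := Real.rpow_le_rpow hτ0 h.le (by linarith)
    have e2 : lam ^ κ ≤ lam ^ ((1 : ℝ) / 2) := Real.rpow_le_rpow_of_exponent_ge h0 h1 hκ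
    have e4 : 0 ≤ g ^ ((2 : ℝ) / 3) := by positivity
    linarith

/-- the constants -/
theorem consts (M : ℝ) : ∃ s r lam : ℝ, 0 < s ∧ s ≤ 1 / 6 ∧ 0 < r ∧ 0 < lam ∧ lam ≤ 1 ∧
    lam ^ ((1 : ℝ) / 2) = r ∧ lam ^ ((2 / 3 - s) - 2 / 3) ≤ 2 ∧
    r * ((10 : ℝ) ^ 5 * (M ^ 2 + 1)) = 1 / 4 := by
  have hM0 : (0 : ℝ) ≤ M ^ 2 := by positivity
  obtain ⟨r, hr⟩ : ∃ r : ℝ, r = 1 / (4 * ((10 : ℝ) ^ 5 * (M ^ 2 + 1))) := ⟨_, rfl⟩
  have hr0 : 0 < r := by rw [hr]; positivity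
  have hr3 : r * ((10 : ℝ) ^ 5 * (M ^ 2 + 1)) = 1 / 4 := by
    rw [hr]
    field_simp
  have hr1 : r ≤ 1 / 4 := by
    have : (1 : ℝ) ≤ (10 : ℝ) ^ 5 * (M ^ 2 + 1) := by nlinarith
    calc r = r * 1 := by ring
      _ ≤ r * ((10 : ℝ) ^ 5 * (M ^ 2 + 1)) := mul_le_mul_of_nonneg_left this hr0.le
      _ = 1 / 4 := hr3
  have hlam0 : 0 < r ^ 2 := by positivity
  have hlam1 : r ^ 2 < 1 := by nlinarith
  have hsq : (r ^ 2) ^ ((1 : ℝ) / 2) = r := by
    rw [← Real.sqrt_eq_rpow, Real.sqrt_sq hr0.le]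
  have hlog : 0 < -Real.log (r ^ 2) := by
    have := Real.log_neg hlam0 hlam1
    linarith
  obtain ⟨s, hs⟩ : ∃ s : ℝ, s = min (1 / 6) (Real.log 2 / (-Real.log (r ^ 2))) := ⟨_, rfl⟩
  have hs0 : 0 < s := by
    rw [hs]
    exact lt_min (by norm_num) (div_pos (Real.log_pos (by norm_num)) hlog)
  have hs1 : s ≤ 1 / 6 := by rw [hs]; exact min_le_left _ _
  have hs2 : s * (-Real.log (r ^ 2)) ≤ Real.log 2 := by
    have h1 : s ≤ Real.log 2 / (-Real.log (r ^ 2)) := by rw [hs]; exact min_le_right _ _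
    exact (le_div_iff₀ hlog).1 h1
  have hκ : (r ^ 2) ^ ((2 / 3 - s) - 2 / 3) ≤ 2 := by
    rw [Real.rpow_def_of_pos hlam0]
    calc Real.exp (Real.log (r ^ 2) * ((2 / 3 - s) - 2 / 3)) =
          Real.exp (s * (-Real.log (r ^ 2))) := by
          congr 1
          ring
      _ ≤ Real.exp (Real.log 2) := Real.exp_le_exp.2 hs2
      _ = 2 := Real.exp_log (by norm_num)
  exact ⟨s, r, r ^ 2, hs0, hs1, hr0, hlam0, hlam1.le, hsq, hκ, hr3⟩

/-- one box -/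
theorem box {K : Conf ι} {S0 : Finset ι} {X : Fin 3 → Finset ι} {T : Finset (Fin 3 → ι)}
    (hT : Inst K S0 X T) (hXp : ∀ i, 0 < (X i).card) {B s r lam : ℝ} (hB : 0 ≤ B)
    (hval : ∀ (X : Fin 3 → Finset ι) (T : Finset (Fin 3 → ι)), Inst K S0 X T →
      (T.card : ℝ) ≤ B * (∏ i, ((X i).card : ℝ)) ^ (2 / 3 - s))
    (hs0 : 0 < s) (hs1 : s ≤ 1 / 6) (hlam0 : 0 < lam) (hlam1 : lam ≤ 1)
    (hsq : lam ^ ((1 : ℝ) / 2) = r) (hκ : lam ^ ((2 / 3 - s) - 2 / 3) ≤ 2)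
    (S : Fin 3 → Finset ι) :
    (cnt T S : ℝ) ≤ (B * (∏ i, ((X i).card : ℝ)) ^ (2 / 3 - s) * 18) * G (pl X) S +
      (B * (∏ i, ((X i).card : ℝ)) ^ (2 / 3 - s) * r) * 1 := by
  have hI : Inst K S0 (fun i => X i ∩ S i) (T.filter fun z => ∀ i, z i ∈ S i) := by
    refine ⟨fun z hz i => ?_, fun i j hij z hz z' hz' => ?_, fun z hz => ?_⟩
    · obtain ⟨h3, h4⟩ := mem_filter.1 hz
      exact mem_inter.2 ⟨hT.mem z h3 i, h4 i⟩
    · exact hT.inj i j hij z (mem_filter.1 hz).1 z' (mem_filter.1 hz').1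
    · exact hT.loc z (mem_filter.1 hz).1
  have h3 := hval _ _ hI
  have hpm : ∀ i, 0 ≤ pm (pl X) (S i) := fun i => sum_nonneg fun x _ => pl_nonneg X x
  have h8 : G (pl X) S = (∏ i, pm (pl X) (S i)) ^ ((2 : ℝ) / 3) := rfl
  have hg0 : 0 ≤ ∏ i, pm (pl X) (S i) := prod_nonneg fun i _ => hpm i
  have h4 : ∏ i, (((X i ∩ S i).card : ℕ) : ℝ) ≤
      (∏ i, ((X i).card : ℝ)) * (27 * ∏ i, pm (pl X) (S i)) := by
    calc ∏ i, (((X i ∩ S i).card : ℕ) : ℝ)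
        ≤ ∏ i, (3 * ((X i).card : ℝ) * pm (pl X) (S i)) :=
          prod_le_prod (fun _ _ => by positivity) fun i _ => card_le hXp i (S i)
      _ = _ := by
          rw [prod_mul_distrib, prod_mul_distrib, prod_const, card_univ, Fintype.card_fin]
          ring
  have hQ0 : 0 ≤ ∏ i, ((X i).card : ℝ) := prod_nonneg fun i _ => by positivity
  have hR0 : 0 ≤ ∏ i, (((X i ∩ S i).card : ℕ) : ℝ) := prod_nonneg fun i _ => by positivity
  rw [h8]
  change (((T.filter fun z => ∀ i, z i ∈ S i).card : ℕ) : ℝ) ≤ _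
  refine h3.trans ?_
  change B * (∏ i, (((X i ∩ S i).card : ℕ) : ℝ)) ^ (2 / 3 - s) ≤ _
  generalize (∏ i, pm (pl X) (S i)) = g at hg0 h4 ⊢
  generalize (∏ i, ((X i).card : ℝ)) = Q at hQ0 h4 ⊢
  generalize (∏ i, (((X i ∩ S i).card : ℕ) : ℝ)) = R at hR0 h4 ⊢
  have h5 : R ^ (2 / 3 - s) ≤ Q ^ (2 / 3 - s) * (18 * g ^ ((2 : ℝ) / 3) + r) := by
    calc R ^ (2 / 3 - s) ≤ (Q * (27 * g)) ^ (2 / 3 - s) :=
          Real.rpow_le_rpow hR0 h4 (by linarith)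
      _ = Q ^ (2 / 3 - s) * (27 * g) ^ (2 / 3 - s) := Real.mul_rpow hQ0 (by positivity)
      _ ≤ _ := by
          refine mul_le_mul_of_nonneg_left ?_ (Real.rpow_nonneg hQ0 _)
          have h6 := pow_le hlam0 hlam1 (κ := 2 / 3 - s) (by linarith) (by linarith) hκ hg0
            (τ := 27 * g) rfl
          rwa [hsq] at h6
  calc B * R ^ (2 / 3 - s) ≤ B * (Q ^ (2 / 3 - s) * (18 * g ^ ((2 : ℝ) / 3) + r)) :=
        mul_le_mul_of_nonneg_left h5 hB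
    _ = _ := by ring

/-- the end -/
theorem fin_ {A r t1 t2 Tc : ℝ} (hA : 0 ≤ A) (h1 : Tc ≤ (A * 18) * t1 + (A * r) * t2)
    (h2 : 18 * t1 ≤ 1 / 4) (h3 : r * t2 ≤ 1 / 4) : Tc ≤ A / 2 := by
  have h4 : A * (18 * t1 + r * t2) ≤ A * (1 / 2) := mul_le_mul_of_nonneg_left (by linarith) hA
  calc Tc ≤ _ := h1
    _ = A * (18 * t1 + r * t2) := by ring
    _ ≤ A * (1 / 2) := h4
    _ = A / 2 := by ring

end STP

open STP

theorem p_STP (hl : S_LOW) (hc : S_COV) (hn : S_NBX) : S_STP := by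
  intro m0
  obtain ⟨M, N0, hN0, hlow⟩ := hl m0 (1 / 100) (by norm_num)
  obtain ⟨s, r, lam, hs0, hs1, hr0, hlam0, hlam1, hsq, hκ, hr3⟩ := consts (M : ℝ)
  refine ⟨2 / 3 - s, N0, by linarith, by linarith, hN0, ?_⟩
  intro ι _ _ K S0 hK hflat B hB hval X T hT hX
  have hXp : ∀ i, 0 < (X i).card := fun i => lt_of_lt_of_le (by omega) (hX i)
  obtain ⟨W, hW, D, L, hWM, hD, hL, hLD, htot⟩ := hlow ι K S0 hK hflat (pl X) (pr_pl hXp)
    fun x => pl_le hN0 hX x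
  have h1 := hc ι K S0 hK W hW D L X T hD hL hLD hT
  have h2 := hn ι K S0 hK W hW D L (by omega) hL
  have h9 := h1.trans (tot_mono hK hW D L
    (box hT hXp hB hval hs0 hs1 hlam0 hlam1 hsq hκ))
  rw [tot_lin] at h9
  have hP0 : 0 ≤ (∏ i, ((X i).card : ℝ)) ^ (2 / 3 - s) :=
    Real.rpow_nonneg (prod_nonneg fun i _ => by positivity) _
  have h10 : (W.card : ℝ) ^ 2 ≤ (M : ℝ) ^ 2 := by
    have : (W.card : ℝ) ≤ M := by exact_mod_cast hWM
    exact pow_le_pow_left₀ (by positivity) this 2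
  generalize tot hK hW D L (fun _ => (1 : ℝ)) = t2 at h9 h2
  generalize tot hK hW D L (G (pl X)) = t1 at h9 htot
  generalize (∏ i, ((X i).card : ℝ)) ^ (2 / 3 - s) = P at h9 hP0 ⊢
  have h13 : t2 ≤ (10 : ℝ) ^ 5 * ((M : ℝ) ^ 2 + 1) :=
    h2.trans (mul_le_mul_of_nonneg_left (by linarith) (by positivity))
  have h14 : r * t2 ≤ 1 / 4 := (mul_le_mul_of_nonneg_left h13 hr0.le).trans hr3.le
  have h15 := fin_ (mul_nonneg hB hP0) h9 (by linarith) (by simpa using h14)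
  calc (T.card : ℝ) ≤ _ := h15
    _ = B / 2 * P := by ring

end Pool.Agent.F32P
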