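import Pool.Agent.F32P.St3

/-!
# F32P: SYM (exchangeability)
-/

set_option autoImplicit false
set_option linter.unusedSectionVars false

namespace Pool.Agent.F32P

open Finset

section SYM

variable {ι : Type} [Fintype ι] [DecidableEq ι]

theorem psym_one {p : ι → ℝ} (hp : Pr p) (n : ℕ) : ∑ t : Fin n → ι, ∏ j, p (t j) = 1 := by
  have h := Finset.prod_univ_sum (fun _ : Fin n => (univ : Finset ι)) (fun _ x => p x)
  rw [Fintype.piFinset_univ] at h
  rw [← h]
  simp [hp.sum_one]

theorem psym_prod_nonneg {p : ι → ℝ} (hp : Pr p) {n : ℕ} (t : Fin n → ι) : 0 ≤ ∏ j, p (t j) :=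
  prod_nonneg fun j _ => hp.nonneg (t j)

theorem psym_mono {p : ι → ℝ} (hp : Pr p) {n : ℕ} {f g : (Fin n → ι) → ℝ} (h : ∀ t, f t ≤ g t) :
    Ex p n f ≤ Ex p n g :=
  sum_le_sum fun t _ => mul_le_mul_of_nonneg_left (h t) (psym_prod_nonneg hp t)

theorem psym_const {p : ι → ℝ} (hp : Pr p) (n : ℕ) (c : ℝ) : Ex p n (fun _ => c) = c := by
  unfold Ex
  rw [← sum_mul, psym_one hp, one_mul]

theorem psym_perm (p : ι → ℝ) {n : ℕ} (σ : Equiv.Perm (Fin n)) (f : (Fin n → ι) → ℝ) :
    Ex p n (fun t => f (t ∘ σ)) = Ex p n f := by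
  unfold Ex
  refine Fintype.sum_equiv (Equiv.arrowCongr σ.symm (Equiv.refl ι)) _ _ fun t => ?_
  have e : (Equiv.arrowCongr σ.symm (Equiv.refl ι)) t = t ∘ σ := by
    ext i; simp [Equiv.arrowCongr]
  rw [e]
  congr 1
  exact (Equiv.prod_comp σ fun j => p (t j)).symm

/-- probability that two given elements of the sample agree -/
theorem psym_pair {p : ι → ℝ} (hp : Pr p) {m : ℕ} {δ : ℝ} (hδ : ∀ x, p x ≤ δ) {i j : Fin (m + 1)}
    (hij : i ≠ j) : Ex p (m + 1) (fun t => if t i = t j then (1 : ℝ) else 0) ≤ δ := by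
  obtain ⟨i', rfl⟩ := Fin.exists_succAbove_eq hij
  unfold Ex
  have e := (Fin.insertNthEquiv (fun _ : Fin (m + 1) => ι) j).sum_comp
    (fun t : Fin (m + 1) → ι => (∏ k, p (t k)) * (if t (j.succAbove i') = t j then (1 : ℝ) else 0))
  rw [← e, Fintype.sum_prod_type_right]
  calc ∑ y : Fin m → ι, ∑ x : ι, (∏ k, p ((Fin.insertNthEquiv (fun _ : Fin (m + 1) => ι) j) (x, y) k)) *
        (if (Fin.insertNthEquiv (fun _ : Fin (m + 1) => ι) j) (x, y) (j.succAbove i') =
          (Fin.insertNthEquiv (fun _ : Fin (m + 1) => ι) j) (x, y) j then (1 : ℝ) else 0)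
      ≤ ∑ y : Fin m → ι, (∏ k, p (y k)) * δ := by
        refine sum_le_sum fun y _ => ?_
        have h1 : ∀ x : ι, (∏ k, p ((Fin.insertNthEquiv (fun _ : Fin (m + 1) => ι) j) (x, y) k)) *
            (if (Fin.insertNthEquiv (fun _ : Fin (m + 1) => ι) j) (x, y) (j.succAbove i') =
              (Fin.insertNthEquiv (fun _ : Fin (m + 1) => ι) j) (x, y) j then (1 : ℝ) else 0) =
            if y i' = x then p x * ∏ k, p (y k) else 0 := by
          intro x
          rw [Fin.prod_univ_succAbove _ j]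
          simp [Fin.insertNthEquiv]
        rw [sum_congr rfl fun x _ => h1 x, sum_ite_eq univ (y i') (fun x => p x * ∏ k, p (y k)),
          if_pos (mem_univ _), mul_comm]
        exact mul_le_mul_of_nonneg_left (hδ _) (psym_prod_nonneg hp y)
    _ = δ := by rw [← sum_mul, psym_one hp, one_mul]

open Classical in
theorem psym_ninj {p : ι → ℝ} (hp : Pr p) {m : ℕ} {δ : ℝ} (hδ : ∀ x, p x ≤ δ) :
    Ex p (m + 1) (fun t => if Function.Injective t then (0 : ℝ) else 1) ≤ ((m : ℝ) + 1) ^ 2 * δ := by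
  have h0 : 0 ≤ δ := by
    by_contra hc
    have h1 : ∀ x, p x < 0 := fun x => (hδ x).trans_lt (not_le.1 hc)
    rcases isEmpty_or_nonempty ι with h2 | h2
    · have := hp.sum_one
      simp at this
    · obtain ⟨x⟩ := h2
      exact absurd (hp.nonneg x) (not_le.2 (h1 x))
  have h1 : ∀ t : Fin (m + 1) → ι, (if Function.Injective t then (0 : ℝ) else 1) ≤
      ∑ q ∈ (univ : Finset (Fin (m + 1) × Fin (m + 1))).filter (fun q => q.1 ≠ q.2),
        (if t q.1 = t q.2 then (1 : ℝ) else 0) := by
    intro t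
    by_cases ht : Function.Injective t
    · rw [if_pos ht]
      exact sum_nonneg fun q _ => by split_ifs <;> norm_num
    · rw [if_neg ht]
      simp only [Function.Injective, not_forall] at ht
      obtain ⟨a, b, hab, hne⟩ := ht
      have := single_le_sum (f := fun q : Fin (m + 1) × Fin (m + 1) =>
        (if t q.1 = t q.2 then (1 : ℝ) else 0)) (s := (univ : Finset (Fin (m + 1) × Fin (m + 1))).filter
          (fun q => q.1 ≠ q.2)) (fun q _ => by split_ifs <;> norm_num)
          (mem_filter.2 ⟨mem_univ (a, b), hne⟩)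
      simpa [hab] using this
  refine (psym_mono hp h1).trans ?_
  have h2 : Ex p (m + 1) (fun t => ∑ q ∈ (univ : Finset (Fin (m + 1) × Fin (m + 1))).filter
      (fun q => q.1 ≠ q.2), (if t q.1 = t q.2 then (1 : ℝ) else 0)) =
      ∑ q ∈ (univ : Finset (Fin (m + 1) × Fin (m + 1))).filter (fun q => q.1 ≠ q.2),
        Ex p (m + 1) (fun t => if t q.1 = t q.2 then (1 : ℝ) else 0) := by
    unfold Ex
    simp only [mul_sum]
    exact sum_comm
  rw [h2]
  calc ∑ q ∈ (univ : Finset (Fin (m + 1) × Fin (m + 1))).filter (fun q => q.1 ≠ q.2),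
        Ex p (m + 1) (fun t => if t q.1 = t q.2 then (1 : ℝ) else 0)
      ≤ ∑ _q ∈ (univ : Finset (Fin (m + 1) × Fin (m + 1))).filter (fun q => q.1 ≠ q.2), δ :=
        sum_le_sum fun q hq => psym_pair hp hδ (mem_filter.1 hq).2
    _ ≤ ∑ _q : Fin (m + 1) × Fin (m + 1), δ :=
        sum_le_sum_of_subset_of_nonneg (filter_subset _ _) fun _ _ _ => h0
    _ = ((m : ℝ) + 1) ^ 2 * δ := by
        rw [sum_const, card_univ, Fintype.card_prod, Fintype.card_fin, nsmul_eq_mul]
        push_cast
        ring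

open Classical in
/-- the count for the index `j` -/
noncomputable def psymJ (K : Conf ι) (S0 : Finset ι) {m : ℕ} (j : Fin (m + 1))
    (t : Fin (m + 1) → ι) : ℕ :=
  (((WS S0 t).powersetCard 2).filter fun e =>
    0 < dg K (WS S0 t) e ∧ dg K (WS S0 t) e ≠ 4 ∧ dg K (WS S0 t) e ≤ 6 ∧
      ∃ s ∈ St K (WS S0 t) e, t j ∈ s).card

theorem psym_WS (S0 : Finset ι) {n : ℕ} (t : Fin n → ι) (σ : Equiv.Perm (Fin n)) :
    WS S0 (t ∘ σ) = WS S0 t := by
  unfold WS
  congr 1
  ext x
  simp only [mem_image, mem_univ, true_and, Function.comp]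
  constructor
  · rintro ⟨a, rfl⟩; exact ⟨σ a, rfl⟩
  · rintro ⟨a, rfl⟩; exact ⟨σ.symm a, by simp⟩

theorem psym_sj (K : Conf ι) (S0 : Finset ι) {m : ℕ} (j : Fin (m + 1)) (t : Fin (m + 1) → ι) :
    smb K S0 (t ∘ Equiv.swap j (Fin.last m)) = psymJ K S0 j t := by
  unfold smb psymJ
  rw [psym_WS]
  simp [Function.comp]

theorem psym_WS_card (S0 : Finset ι) (h5 : S0.card = 5) {m : ℕ} (t : Fin (m + 1) → ι) :
    (WS S0 t).card ≤ m + 6 := by
  unfold WS
  have h1 := card_union_le S0 (univ.image t)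
  have h2 : (univ.image t).card ≤ m + 1 := by
    refine card_image_le.trans ?_
    simp
  omega

theorem psym_sj_le (K : Conf ι) (S0 : Finset ι) (h5 : S0.card = 5) {m : ℕ} (j : Fin (m + 1))
    (t : Fin (m + 1) → ι) : (psymJ K S0 j t : ℝ) ≤ ((m : ℝ) + 6) ^ 2 := by
  classical
  have h1 : psymJ K S0 j t ≤ (m + 6) ^ 2 := by
    unfold psymJ
    refine (card_filter_le _ _).trans ?_
    rw [card_powersetCard]
    refine (Nat.choose_le_pow _ _).trans ?_
    exact Nat.pow_le_pow_left (psym_WS_card S0 h5 t) 2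
  exact_mod_cast h1

theorem psym_inj (K : Conf ι) (S0 : Finset ι) {m : ℕ} (t : Fin (m + 1) → ι)
    (ht : Function.Injective t) : ∑ j, psymJ K S0 j t ≤ 24 * (nonq K (WS S0 t)).card := by
  classical
  set C := ((WS S0 t).powersetCard 2).filter fun e =>
    0 < dg K (WS S0 t) e ∧ dg K (WS S0 t) e ≠ 4 ∧ dg K (WS S0 t) e ≤ 6 with hC
  have h1 : ∀ j, psymJ K S0 j t = ∑ e ∈ C, if ∃ s ∈ St K (WS S0 t) e, t j ∈ s then 1 else 0 := by
    intro j
    rw [← card_filter]
    unfold psymJ
    congr 1
    ext e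
    simp only [hC, mem_filter, and_assoc]
  simp only [h1]
  rw [sum_comm]
  have h2 : ∀ e ∈ C, ∑ j : Fin (m + 1), (if ∃ s ∈ St K (WS S0 t) e, t j ∈ s then 1 else 0) ≤ 24 := by
    intro e he
    rw [← card_filter]
    have h3 : ((univ : Finset (Fin (m + 1))).filter fun j => ∃ s ∈ St K (WS S0 t) e, t j ∈ s).card ≤
        ((St K (WS S0 t) e).biUnion id).card := by
      refine card_le_card_of_injOn t ?_ ht.injOn
      intro j hj
      simp only [coe_filter, mem_univ, true_and, Set.mem_ofPred_eq] at hj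
      obtain ⟨s, hs, hjs⟩ := hj
      exact mem_coe.2 (mem_biUnion.2 ⟨s, hs, hjs⟩)
    refine h3.trans ?_
    have h4 : ((St K (WS S0 t) e).biUnion id).card ≤ (St K (WS S0 t) e).card * 4 := by
      refine card_biUnion_le_card_mul _ _ _ fun s hs => ?_
      exact (mem_Fc.1 (mem_St.1 hs).1).2.1.le
    have h5 : (St K (WS S0 t) e).card ≤ 6 := (mem_filter.1 he).2.2.2
    omega
  refine (sum_le_sum h2).trans ?_
  rw [sum_const, smul_eq_mul, mul_comm]
  refine Nat.mul_le_mul_left _ (card_le_card fun e he => ?_)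
  rw [hC, mem_filter] at he
  exact mem_filter.2 ⟨he.1, he.2.1, he.2.2.1⟩

theorem p_SYM : S_SYM := by
  classical
  intro ι _ _ K S0 h p hp m η δ hη hδ hW
  -- split
  have e1 : Ex p (m + 1) (fun t => (smb K S0 t : ℝ)) =
      Ex p (m + 1) (fun t => if Function.Injective t then (smb K S0 t : ℝ) else 0) +
      Ex p (m + 1) (fun t => if Function.Injective t then 0 else (smb K S0 t : ℝ)) := by
    unfold Ex
    rw [← sum_add_distrib]
    refine sum_congr rfl fun t _ => ?_
    by_cases ht : Function.Injective t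
    · simp [ht]
    · simp [ht]
  have e2 : Ex p (m + 1) (fun t => if Function.Injective t then 0 else (smb K S0 t : ℝ)) ≤
      ((m : ℝ) + 1) ^ 2 * δ * ((m : ℝ) + 6) ^ 2 := by
    have h1 : Ex p (m + 1) (fun t => if Function.Injective t then 0 else (smb K S0 t : ℝ)) ≤
        Ex p (m + 1) (fun t => (if Function.Injective t then (0 : ℝ) else 1)) *
          ((m : ℝ) + 6) ^ 2 := by
      unfold Ex
      rw [sum_mul]
      refine sum_le_sum fun t _ => ?_
      rw [mul_assoc]
      refine mul_le_mul_of_nonneg_left ?_ (psym_prod_nonneg hp t)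
      by_cases ht : Function.Injective t
      · simp [ht]
      · simp only [ht, if_false, one_mul]
        have h2 := psym_sj_le K S0 h.card0 (Fin.last m) t
        exact h2
    refine h1.trans (mul_le_mul_of_nonneg_right ?_ (by positivity))
    have h3 := psym_ninj hp (m := m) hδ
    convert h3 using 4
  have e3 : ∀ j : Fin (m + 1), Ex p (m + 1) (fun t => if Function.Injective t then
      (psymJ K S0 j t : ℝ) else 0) =
      Ex p (m + 1) (fun t => if Function.Injective t then (smb K S0 t : ℝ) else 0) := by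
    intro j
    rw [← psym_perm p (Equiv.swap j (Fin.last m))
      (fun t => if Function.Injective t then (smb K S0 t : ℝ) else 0)]
    congr 1
    funext t
    rw [psym_sj]
    have : Function.Injective (t ∘ (Equiv.swap j (Fin.last m))) ↔ Function.Injective t :=
      ⟨fun h => by
        have h' := h.comp (Equiv.swap j (Fin.last m)).symm.injective
        rwa [Function.comp_assoc, Equiv.self_comp_symm, Function.comp_id] at h',
        fun h => h.comp (Equiv.swap j (Fin.last m)).injective⟩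
    simp only [this]
  have e4 : ((m : ℝ) + 1) * Ex p (m + 1) (fun t => if Function.Injective t then
      (smb K S0 t : ℝ) else 0) ≤ 24 * η * ((m : ℝ) + 6) ^ 2 := by
    have h1 : ((m : ℝ) + 1) * Ex p (m + 1) (fun t => if Function.Injective t then
      (smb K S0 t : ℝ) else 0) = ∑ j : Fin (m + 1), Ex p (m + 1) (fun t => if Function.Injective t
        then (psymJ K S0 j t : ℝ) else 0) := by
      rw [sum_congr rfl fun j _ => e3 j, sum_const, card_univ, Fintype.card_fin, nsmul_eq_mul]
      push_cast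
      ring
    rw [h1]
    have h2 : ∑ j : Fin (m + 1), Ex p (m + 1) (fun t => if Function.Injective t
        then (psymJ K S0 j t : ℝ) else 0) = Ex p (m + 1) (fun t => ∑ j : Fin (m + 1),
          if Function.Injective t then (psymJ K S0 j t : ℝ) else 0) := by
      unfold Ex
      simp only [mul_sum]
      exact sum_comm
    rw [h2]
    refine (psym_mono hp (g := fun _ => 24 * η * ((m : ℝ) + 6) ^ 2) fun t => ?_).trans
      (psym_const hp _ _).le
    by_cases ht : Function.Injective t
    · simp only [ht, if_true]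
      have h3 := psym_inj K S0 t ht
      have h4 : (m : ℕ) + 1 ≤ (WS S0 t).card := by
        have : (univ.image t).card = m + 1 := by
          rw [card_image_of_injective _ ht]; simp
        have h9 : (univ.image t).card ≤ (WS S0 t).card := card_le_card subset_union_right
        omega
      have h5 := hW (WS S0 t) subset_union_left h4
      have h6 := psym_WS_card S0 h.card0 t
      have h6' : ((WS S0 t).card : ℝ) ≤ (m : ℝ) + 6 := by exact_mod_cast h6
      have h7 : ((WS S0 t).card : ℝ) ^ 2 ≤ ((m : ℝ) + 6) ^ 2 :=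
        pow_le_pow_left₀ (by positivity) h6' 2
      have h8 : (∑ j : Fin (m + 1), (psymJ K S0 j t : ℝ)) ≤ 24 * ((nonq K (WS S0 t)).card : ℝ) := by
        exact_mod_cast h3
      calc (∑ j : Fin (m + 1), (psymJ K S0 j t : ℝ)) ≤ 24 * ((nonq K (WS S0 t)).card : ℝ) := h8
        _ ≤ 24 * (η * ((m : ℝ) + 6) ^ 2) := by
            refine mul_le_mul_of_nonneg_left (h5.trans ?_) (by norm_num)
            exact mul_le_mul_of_nonneg_left h7 hη.le
        _ = 24 * η * ((m : ℝ) + 6) ^ 2 := by ring
    · simp only [ht, if_false, sum_const_zero]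
      positivity
  rw [e1]
  refine add_le_add ?_ e2
  rw [le_div_iff₀ (by positivity), mul_comm]
  exact e4

end SYM

end Pool.Agent.F32P
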