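import Pool.Agent.F32P.St3

/-!
# F32P: power sums of the measure of the neighbourhoods (module Z1B)
-/

set_option autoImplicit false

namespace Pool.Agent.F32P

open Finset

namespace Z1Ba

variable {ι : Type} [DecidableEq ι] [Fintype ι]

theorem pm_nonneg {p : ι → ℝ} (hp : Pr p) (A : Finset ι) : 0 ≤ pm p A :=
  sum_nonneg fun x _ => hp.nonneg x

theorem pm_union {p : ι → ℝ} (hp : Pr p) (A B : Finset ι) :
    pm p (A ∪ B) ≤ pm p A + pm p B := by
  have h1 := sum_union_inter (s₁ := A) (s₂ := B) (f := p)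
  have h2 : 0 ≤ ∑ x ∈ A ∩ B, p x := sum_nonneg fun x _ => hp.nonneg x
  unfold pm
  linarith

theorem pm_biUnion {α : Type} [DecidableEq α] {p : ι → ℝ} (hp : Pr p) (S : Finset α)
    (F : α → Finset ι) : pm p (S.biUnion F) ≤ ∑ a ∈ S, pm p (F a) := by
  induction S using Finset.induction_on with
  | empty => simp [pm]
  | insert a S ha ih =>
    rw [biUnion_insert, sum_insert ha]
    exact (pm_union hp _ _).trans (by linarith)

theorem powmean {α : Type} (S : Finset α) (f : α → ℝ) (hf : ∀ a ∈ S, 0 ≤ f a) (n N : ℕ)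
    (hN : S.card ≤ N) :
    (∑ a ∈ S, f a) ^ (n + 1) ≤ (N : ℝ) ^ n * ∑ a ∈ S, f a ^ (n + 1) := by
  rcases S.eq_empty_or_nonempty with h0 | h0
  · subst h0
    simp
  · have h1 := pow_sum_div_card_le_sum_pow hf n
    have h2 : (0 : ℝ) < (S.card : ℝ) ^ n := by
      have : 0 < S.card := card_pos.2 h0
      positivity
    rw [div_le_iff₀ h2] at h1
    have h3 : 0 ≤ ∑ a ∈ S, f a ^ (n + 1) := sum_nonneg fun a ha => pow_nonneg (hf a ha) _
    have h4 : (S.card : ℝ) ^ n ≤ (N : ℝ) ^ n := by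
      have : (S.card : ℝ) ≤ N := by exact_mod_cast hN
      exact pow_le_pow_left₀ (by positivity) this n
    calc (∑ a ∈ S, f a) ^ (n + 1) ≤ (∑ a ∈ S, f a ^ (n + 1)) * (S.card : ℝ) ^ n := h1
      _ ≤ (∑ a ∈ S, f a ^ (n + 1)) * (N : ℝ) ^ n := mul_le_mul_of_nonneg_left h4 h3
      _ = _ := mul_comm _ _

theorem markov {p : ι → ℝ} (hp : Pr p) (K : Conf ι) (W e : Finset ι) :
    (dg K W e : ℝ) * pm p (Ie K W e) ≤ 3 * ∑ s ∈ St K W e, vv K p s := by
  classical
  have h1 : ∑ s ∈ St K W e, vv K p s =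
      ∑ x, p x * (((St K W e).filter fun s => K.vis x s).card : ℝ) := by
    unfold vv pm Vp
    simp_rw [sum_filter]
    rw [sum_comm]
    refine sum_congr rfl fun x _ => ?_
    rw [← sum_filter, sum_const, nsmul_eq_mul, mul_comm]
  rw [h1, mul_sum, pm, mul_sum]
  have h2 : ∀ x ∈ Ie K W e, (dg K W e : ℝ) * p x ≤
      3 * (p x * (((St K W e).filter fun s => K.vis x s).card : ℝ)) := by
    intro x hx
    have hx' : 0 < dg K W e ∧
        dg K W e ≤ 3 * ((St K W e).filter fun s => K.vis x s).card := by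
      unfold Ie at hx
      exact (mem_filter.1 hx).2
    have h3 : (dg K W e : ℝ) ≤ 3 * (((St K W e).filter fun s => K.vis x s).card : ℝ) := by
      exact_mod_cast hx'.2
    have h4 := hp.nonneg x
    nlinarith
  refine (sum_le_sum h2).trans (sum_le_sum_of_subset_of_nonneg (subset_univ _) ?_)
  intro x _ _
  have h4 := hp.nonneg x
  positivity

theorem vv_nonneg {p : ι → ℝ} (hp : Pr p) (K : Conf ι) (s : Finset ι) : 0 ≤ vv K p s :=
  pm_nonneg hp _

theorem markov_pow {p : ι → ℝ} (hp : Pr p) (K : Conf ι) (W e : Finset ι) (n : ℕ) :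
    (dg K W e : ℝ) * pm p (Ie K W e) ^ (n + 1) ≤
      3 ^ (n + 1) * ∑ s ∈ St K W e, vv K p s ^ (n + 1) := by
  have hv : 0 ≤ ∑ s ∈ St K W e, vv K p s ^ (n + 1) :=
    sum_nonneg fun s _ => pow_nonneg (vv_nonneg hp K s) _
  rcases Nat.eq_zero_or_pos (dg K W e) with h0 | h0
  · rw [h0]
    simp only [Nat.cast_zero, zero_mul]
    positivity
  · have hd : (0 : ℝ) < dg K W e := by exact_mod_cast h0
    have h1 := markov hp K W e
    have hp0 := pm_nonneg hp (Ie K W e)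
    have h2 : ((dg K W e : ℝ) * pm p (Ie K W e)) ^ (n + 1) ≤
        (3 * ∑ s ∈ St K W e, vv K p s) ^ (n + 1) :=
      pow_le_pow_left₀ (by positivity) h1 _
    have h3 := powmean (St K W e) (vv K p) (fun s _ => vv_nonneg hp K s) n (dg K W e) le_rfl
    rw [mul_pow, mul_pow] at h2
    have h4 : (dg K W e : ℝ) ^ n * ((dg K W e : ℝ) * pm p (Ie K W e) ^ (n + 1)) ≤
        (dg K W e : ℝ) ^ n * (3 ^ (n + 1) * ∑ s ∈ St K W e, vv K p s ^ (n + 1)) := by
      calc (dg K W e : ℝ) ^ n * ((dg K W e : ℝ) * pm p (Ie K W e) ^ (n + 1))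
          = (dg K W e : ℝ) ^ (n + 1) * pm p (Ie K W e) ^ (n + 1) := by ring
        _ ≤ 3 ^ (n + 1) * (∑ s ∈ St K W e, vv K p s) ^ (n + 1) := h2
        _ ≤ 3 ^ (n + 1) * ((dg K W e : ℝ) ^ n * ∑ s ∈ St K W e, vv K p s ^ (n + 1)) :=
          mul_le_mul_of_nonneg_left h3 (by positivity)
        _ = _ := by ring
    exact le_of_mul_le_mul_left h4 (by positivity)

theorem exch (K : Conf ι) (W : Finset ι) (f : Finset ι → Finset ι → ℝ) :
    ∑ s ∈ Fc K W, ∑ e ∈ s.powersetCard 2, f s e =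
      ∑ e ∈ W.powersetCard 2, ∑ s ∈ St K W e, f s e := by
  apply sum_comm'
  intro s e
  rw [mem_St, mem_powersetCard, mem_powersetCard]
  constructor
  · rintro ⟨h1, h2, h3⟩
    exact ⟨⟨h1, h2⟩, h2.trans (mem_Fc.1 h1).1, h3⟩
  · rintro ⟨⟨h1, h2⟩, _, h3⟩
    exact ⟨h1, h2, h3⟩

theorem six {K : Conf ι} {W s : Finset ι} (hs : s ∈ Fc K W) : (s.powersetCard 2).card = 6 := by
  rw [card_powersetCard, (mem_Fc.1 hs).2.1]
  rfl

theorem part2 {p : ι → ℝ} (hp : Pr p) (K : Conf ι) (W : Finset ι) (n : ℕ) :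
    ∑ s ∈ Fc K W, ∑ e ∈ s.powersetCard 2, pm p (Ie K W e) ^ (n + 1) ≤
      6 * 3 ^ (n + 1) * ∑ s ∈ Fc K W, vv K p s ^ (n + 1) := by
  rw [exch K W (fun _ e => pm p (Ie K W e) ^ (n + 1))]
  calc ∑ e ∈ W.powersetCard 2, ∑ _s ∈ St K W e, pm p (Ie K W e) ^ (n + 1)
      = ∑ e ∈ W.powersetCard 2, (dg K W e : ℝ) * pm p (Ie K W e) ^ (n + 1) := by
        refine sum_congr rfl fun e _ => ?_
        rw [sum_const, nsmul_eq_mul, dg]
    _ ≤ ∑ e ∈ W.powersetCard 2, 3 ^ (n + 1) * ∑ s ∈ St K W e, vv K p s ^ (n + 1) :=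
        sum_le_sum fun e _ => markov_pow hp K W e n
    _ = 3 ^ (n + 1) * ∑ s ∈ Fc K W, ∑ _e ∈ s.powersetCard 2, vv K p s ^ (n + 1) := by
        rw [← mul_sum, exch K W (fun s _ => vv K p s ^ (n + 1))]
    _ = 3 ^ (n + 1) * ∑ s ∈ Fc K W, 6 * vv K p s ^ (n + 1) := by
        congr 1
        refine sum_congr rfl fun s hs => ?_
        rw [sum_const, nsmul_eq_mul, six hs]
        norm_num
    _ = _ := by
        rw [← mul_sum]
        ring

theorem mem_Nb {K : Conf ι} {W s t : Finset ι} :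
    t ∈ Nb K W s ↔ t ∈ Fc K W ∧
      (3 ≤ (s ∩ t).card ∨ ∃ e ⊆ s ∩ t, e.card = 2 ∧ dg K W e = 4) := by
  unfold Nb
  rw [mem_filter]

theorem card_Nb {K : Conf ι} {S0 W s : Finset ι} (h : OK K S0) (hW : S0 ⊆ W)
    (hs : s ∈ Fc K W) : (Nb K W s).card ≤ 29 := by
  have hs4 : s.card = 4 := (mem_Fc.1 hs).2.1
  have hsub : Nb K W s ⊆
      insert s (s.image fun d => insert (oth K W (s.erase d) d) (s.erase d)) ∪
        ((s.powersetCard 2).filter fun e => dg K W e = 4).biUnion (St K W) := by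
    intro t ht
    obtain ⟨ht1, ht2⟩ := mem_Nb.1 ht
    have ht4 : t.card = 4 := (mem_Fc.1 ht1).2.1
    rcases ht2 with h3 | ⟨e, he1, he2, he3⟩
    · refine mem_union_left _ ?_
      by_cases hst : s ⊆ t
      · have : s = t := eq_of_subset_of_card_le hst (by omega)
        rw [← this]
        exact mem_insert_self _ _
      · obtain ⟨d, hd1, hd2⟩ := not_subset.1 hst
        have hsub : s ∩ t ⊆ s.erase d := by
          intro x hx
          obtain ⟨hx1, hx2⟩ := mem_inter.1 hx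
          exact mem_erase.2 ⟨fun e => hd2 (e ▸ hx2), hx1⟩
        have hc : (s.erase d).card = 3 := by rw [card_erase_of_mem hd1, hs4]
        have heq : s ∩ t = s.erase d := eq_of_subset_of_card_le hsub (by omega)
        have hR : s.erase d ⊆ t := heq ▸ inter_subset_right
        have hins : insert d (s.erase d) = s := insert_erase hd1
        obtain ⟨_, _, _, g4⟩ := ridge' h hW (R := s.erase d) (d := d)
          (notMem_erase d s) (by rw [hins]; exact hs)
        rcases g4 t ht1 hR with h5 | h5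
        · rw [h5, hins]
          exact mem_insert_self _ _
        · refine mem_insert_of_mem (mem_image.2 ⟨d, hd1, h5.symm⟩)
    · refine mem_union_right _ (mem_biUnion.2 ⟨e, ?_, ?_⟩)
      · exact mem_filter.2 ⟨mem_powersetCard.2 ⟨he1.trans inter_subset_left, he2⟩, he3⟩
      · exact mem_St.2 ⟨ht1, he1.trans inter_subset_right⟩
  refine (card_le_card hsub).trans ((card_union_le _ _).trans ?_)
  have h1 : (insert s (s.image fun d => insert (oth K W (s.erase d) d) (s.erase d))).card ≤ 5 := by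
    refine (card_insert_le _ _).trans ?_
    have := card_image_le (s := s) (f := fun d => insert (oth K W (s.erase d) d) (s.erase d))
    omega
  have h2 : (((s.powersetCard 2).filter fun e => dg K W e = 4).biUnion (St K W)).card ≤ 24 := by
    refine (card_biUnion_le_card_mul _ _ 4 fun e he => ?_).trans ?_
    · have : dg K W e = 4 := (mem_filter.1 he).2
      unfold dg at this
      omega
    · have := card_filter_le (s.powersetCard 2) (fun e => dg K W e = 4)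
      rw [six hs] at this
      omega
  omega

theorem nb_sum {p : ι → ℝ} (hp : Pr p) {K : Conf ι} {S0 W : Finset ι} (h : OK K S0)
    (hW : S0 ⊆ W) (k : ℕ) :
    ∑ s ∈ Fc K W, ∑ t ∈ Nb K W s, vv K p t ^ k ≤ 29 * ∑ s ∈ Fc K W, vv K p s ^ k := by
  rw [sum_comm' (t' := Fc K W) (s' := fun t => Nb K W t)]
  · rw [mul_sum]
    refine sum_le_sum fun t ht => ?_
    rw [sum_const, nsmul_eq_mul]
    have h1 : ((Nb K W t).card : ℝ) ≤ 29 := by exact_mod_cast card_Nb h hW ht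
    exact mul_le_mul_of_nonneg_right h1 (pow_nonneg (vv_nonneg hp K t) _)
  · intro s t
    rw [mem_Nb, mem_Nb, inter_comm]
    tauto

theorem z1_pow {p : ι → ℝ} (hp : Pr p) {K : Conf ι} {S0 W : Finset ι} (h : OK K S0)
    (hW : S0 ⊆ W) (D n : ℕ) {s : Finset ι} (hs : s ∈ Fc K W) :
    pm p (Z1 K W D s) ^ (n + 1) ≤ 35 ^ n * (∑ t ∈ Nb K W s, vv K p t ^ (n + 1) +
      ∑ e ∈ s.powersetCard 2, pm p (Ie K W e) ^ (n + 1)) := by
  set B := (s.powersetCard 2).filter fun e => D ≤ dg K W e with hB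
  have h1 : pm p (Z1 K W D s) ≤ ∑ t ∈ Nb K W s, vv K p t + ∑ e ∈ B, pm p (Ie K W e) := by
    unfold Z1
    refine (pm_union hp _ _).trans (add_le_add ?_ ?_)
    · exact pm_biUnion hp _ _
    · exact pm_biUnion hp _ _
  have h2 := powmean ((Nb K W s).disjSum B) (Sum.elim (vv K p) (fun e => pm p (Ie K W e)))
    (by
      rintro (t | e) _
      · exact vv_nonneg hp K t
      · exact pm_nonneg hp _) n 35
    (by
      rw [card_disjSum]
      have h3 := card_Nb h hW hs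
      have h4 : B.card ≤ 6 := by
        have := card_filter_le (s.powersetCard 2) (fun e => D ≤ dg K W e)
        rw [six hs] at this
        exact this
      omega)
  rw [sum_disjSum, sum_disjSum] at h2
  simp only [Sum.elim_inl, Sum.elim_inr] at h2
  have h5 : ∑ e ∈ B, pm p (Ie K W e) ^ (n + 1) ≤
      ∑ e ∈ s.powersetCard 2, pm p (Ie K W e) ^ (n + 1) :=
    sum_le_sum_of_subset_of_nonneg (filter_subset _ _)
      fun e _ _ => pow_nonneg (pm_nonneg hp _) _
  calc pm p (Z1 K W D s) ^ (n + 1)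
      ≤ (∑ t ∈ Nb K W s, vv K p t + ∑ e ∈ B, pm p (Ie K W e)) ^ (n + 1) :=
        pow_le_pow_left₀ (pm_nonneg hp _) h1 _
    _ ≤ ((35 : ℕ) : ℝ) ^ n * (∑ t ∈ Nb K W s, vv K p t ^ (n + 1) +
          ∑ e ∈ B, pm p (Ie K W e) ^ (n + 1)) := h2
    _ = 35 ^ n * (∑ t ∈ Nb K W s, vv K p t ^ (n + 1) +
          ∑ e ∈ B, pm p (Ie K W e) ^ (n + 1)) := by norm_num
    _ ≤ _ := by
        refine mul_le_mul_of_nonneg_left ?_ (by positivity)
        linarith

theorem part1 {p : ι → ℝ} (hp : Pr p) {K : Conf ι} {S0 W : Finset ι} (h : OK K S0)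
    (hW : S0 ⊆ W) (D n : ℕ) :
    ∑ s ∈ Fc K W, pm p (Z1 K W D s) ^ (n + 1) ≤
      105 ^ (n + 1) * ∑ s ∈ Fc K W, vv K p s ^ (n + 1) := by
  have hv : 0 ≤ ∑ s ∈ Fc K W, vv K p s ^ (n + 1) :=
    sum_nonneg fun s _ => pow_nonneg (vv_nonneg hp K s) _
  have h1 := nb_sum hp h hW (n + 1)
  have h2 := part2 hp K W n
  calc ∑ s ∈ Fc K W, pm p (Z1 K W D s) ^ (n + 1)
      ≤ ∑ s ∈ Fc K W, 35 ^ n * (∑ t ∈ Nb K W s, vv K p t ^ (n + 1) +
          ∑ e ∈ s.powersetCard 2, pm p (Ie K W e) ^ (n + 1)) :=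
        sum_le_sum fun s hs => z1_pow hp h hW D n hs
    _ = 35 ^ n * (∑ s ∈ Fc K W, ∑ t ∈ Nb K W s, vv K p t ^ (n + 1) +
          ∑ s ∈ Fc K W, ∑ e ∈ s.powersetCard 2, pm p (Ie K W e) ^ (n + 1)) := by
        rw [← mul_sum, sum_add_distrib]
    _ ≤ 35 ^ n * (29 * ∑ s ∈ Fc K W, vv K p s ^ (n + 1) +
          6 * 3 ^ (n + 1) * ∑ s ∈ Fc K W, vv K p s ^ (n + 1)) :=
        mul_le_mul_of_nonneg_left (add_le_add h1 h2) (by positivity)
    _ = (35 ^ n * (29 + 6 * 3 ^ (n + 1))) * ∑ s ∈ Fc K W, vv K p s ^ (n + 1) := by ring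
    _ ≤ 105 ^ (n + 1) * ∑ s ∈ Fc K W, vv K p s ^ (n + 1) := by
        refine mul_le_mul_of_nonneg_right ?_ hv
        have e1 : (105 : ℝ) ^ (n + 1) = 35 ^ n * (35 * 3 ^ (n + 1)) := by
          have : (105 : ℝ) = 35 * 3 := by norm_num
          rw [this, mul_pow, pow_succ (35 : ℝ)]
          ring
        rw [e1]
        refine mul_le_mul_of_nonneg_left ?_ (by positivity)
        have h3 : (1 : ℝ) ≤ 3 ^ (n + 1) := one_le_pow₀ (by norm_num)
        linarith

end Z1Ba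

theorem p_Z1B : S_Z1B := by
  intro ι _ _ K S0 h W hW p hp D k hk _
  obtain ⟨n, rfl⟩ : ∃ n, k = n + 1 := ⟨k - 1, by omega⟩
  exact ⟨Z1Ba.part1 hp h hW D n, Z1Ba.part2 hp K W n⟩

end Pool.Agent.F32P
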