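import Pool.Agent.F32P.St2

set_option autoImplicit false

namespace Pool.Agent.F32P

open Finset

theorem x_CML (hc : S_COM) (hn : S_NRM) : S_CML := by
  intro ι _ _ K S0 h W hW D L x q hD hL i
  induction i with
  | zero => intro _; rfl
  | succ i ih =>
    intro hi
    have h1 := ih (by omega)
    obtain ⟨hT, hdg, -⟩ := hL i (by omega)
    have h2 := (hn ι K W D ((tau h hW ^ i) q) hD hT.2.2.1.1).1 hdg
    have h3 := hc ι K S0 h W hW ((tau h hW ^ i) q) h2.2.2.1
    rw [pow_succ', Equiv.Perm.mul_apply, Equiv.Perm.mul_apply, h3, h1]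

end Pool.Agent.F32P
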