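import Pool.Agent.F32P.St2

set_option autoImplicit false

namespace Pool.Agent.F32P

open Finset

theorem x_pair {ι : Type} [DecidableEq ι] {K : Conf ι} {W F R : Finset ι} {D : ℕ}
    (hN : NF K W D F) (hc : F.card = 4) (hR : R ⊆ F) (hR3 : 3 ≤ R.card) :
    ∃ e ⊆ R, e.card = 2 ∧ dg K W e = 4 := by
  obtain ⟨e0, he0, hc0, -, -, h4⟩ := hN
  have h1 : (F \ e0).card = 2 := by rw [card_sdiff_of_subset he0, hc, hc0]
  have h2 : (R ∩ e0).Nonempty := by
    by_contra hcon
    rw [not_nonempty_iff_eq_empty] at hcon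
    have h3 : R ⊆ F \ e0 := by
      intro i hi
      rw [mem_sdiff]
      refine ⟨hR hi, fun h => ?_⟩
      have : i ∈ R ∩ e0 := mem_inter.2 ⟨hi, h⟩
      rw [hcon] at this
      exact absurd this (notMem_empty i)
    have := card_le_card h3
    omega
  have h3 : (R ∩ (F \ e0)).Nonempty := by
    by_contra hcon
    rw [not_nonempty_iff_eq_empty] at hcon
    have h3 : R ⊆ e0 := by
      intro i hi
      by_contra h
      have : i ∈ R ∩ (F \ e0) := mem_inter.2 ⟨hi, mem_sdiff.2 ⟨hR hi, h⟩⟩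
      rw [hcon] at this
      exact absurd this (notMem_empty i)
    have := card_le_card h3
    omega
  obtain ⟨a, ha⟩ := h2
  obtain ⟨c, hcc⟩ := h3
  rw [mem_inter] at ha hcc
  rw [mem_sdiff] at hcc
  have hac : a ≠ c := fun h => hcc.2.2 (h ▸ ha.2)
  have hsub : ({a, c} : Finset ι) ⊆ R := by
    intro i hi
    rw [mem_insert, mem_singleton] at hi
    rcases hi with rfl | rfl
    · exact ha.1
    · exact hcc.1
  refine ⟨{a, c}, hsub, card_pair hac, h4 _ (hsub.trans hR) (card_pair hac) ?_ ?_⟩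
  · intro h
    exact hcc.2.2 (h ▸ (by simp : c ∈ ({a, c} : Finset ι)))
  · intro h
    have : a ∈ F \ e0 := h ▸ (by simp : a ∈ ({a, c} : Finset ι))
    exact (mem_sdiff.1 this).2 ha.2

theorem x_CR (he : S_E4) : S_CR := by
  classical
  intro ι _ _ K S0 h W hW D L z hz hD hL hloc
  obtain ⟨F, hF, F', hF', h3, hs⟩ := hloc
  have key1 : ∀ G ∈ Fc K W, NF K W D G → (∀ i, K.vis (z i) G) →
      OutX h hW D L z ∨ OutA h hW D L z := by
    intro G hG hN hv
    obtain ⟨e, heG, hec, hed⟩ := x_pair hN (mem_Fc.1 hG).2.1 (Subset.refl G)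
      (by rw [(mem_Fc.1 hG).2.1]; norm_num)
    exact he ι K S0 h W hW D L z e hz hD hL hec hed fun i => ⟨G, mem_St.2 ⟨hG, heG⟩, hv i⟩
  have key2 : ∀ G ∈ Fc K W, ∀ G' ∈ Fc K W, 3 ≤ (G ∩ G').card → ¬ NF K W D G →
      (∀ i, K.vis (z i) G ∨ K.vis (z i) G') → (∃ i, K.vis (z i) G) →
      OutX h hW D L z := by
    intro G hG G' hG' hGG hN hv hex
    obtain ⟨i, hi⟩ := hex
    refine ⟨G, hG, i, ?_, fun j _ => ?_⟩
    · rw [ExS, mem_filter]
      refine ⟨mem_univ _, hG, hi, ?_⟩
      rintro ⟨q, rfl, hr⟩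
      have h1 := hr 0 (by omega)
      rw [pow_zero] at h1
      exact hN h1.1.2.2.1.1
    · rw [Z1, mem_union, mem_biUnion]
      left
      rcases hv j with h1 | h1
      · refine ⟨G, ?_, ?_⟩
        · rw [Nb, mem_filter, inter_self]
          exact ⟨hG, Or.inl (by rw [(mem_Fc.1 hG).2.1]; norm_num)⟩
        · rw [Vp, mem_filter]
          exact ⟨mem_univ _, h1⟩
      · refine ⟨G', ?_, ?_⟩
        · rw [Nb, mem_filter]
          exact ⟨hG', Or.inl hGG⟩
        · rw [Vp, mem_filter]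
          exact ⟨mem_univ _, h1⟩
  have h3' : 3 ≤ (F' ∩ F).card := by rw [inter_comm]; exact h3
  by_cases hN : NF K W D F
  · by_cases hN' : NF K W D F'
    · obtain ⟨e, heR, hec, hed⟩ := x_pair hN (mem_Fc.1 hF).2.1 inter_subset_left h3
      refine he ι K S0 h W hW D L z e hz hD hL hec hed fun i => ?_
      rcases hs i with h1 | h1
      · exact ⟨F, mem_St.2 ⟨hF, heR.trans inter_subset_left⟩, h1⟩
      · exact ⟨F', mem_St.2 ⟨hF', heR.trans inter_subset_right⟩, h1⟩
    · by_cases hex : ∃ i, K.vis (z i) F'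
      · exact Or.inl (key2 F' hF' F hF h3' hN' (fun i => (hs i).symm) hex)
      · push Not at hex
        exact key1 F hF hN fun i => (hs i).resolve_right (hex i)
  · by_cases hex : ∃ i, K.vis (z i) F
    · exact Or.inl (key2 F hF F' hF' h3 hN hs hex)
    · push Not at hex
      have hv : ∀ i, K.vis (z i) F' := fun i => (hs i).resolve_left (hex i)
      by_cases hN' : NF K W D F'
      · exact key1 F' hF' hN' hv
      · exact Or.inl (key2 F' hF' F hF h3' hN' (fun i => (hs i).symm) ⟨0, hv 0⟩)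

end Pool.Agent.F32P
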