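import Pool.Agent.F32P.C_CH
import Pool.Agent.F32P.C_CHG
import Pool.Agent.F32P.X_CML
import Pool.Agent.F32P.C_COM
import Pool.Agent.F32P.C_COV
import Pool.Agent.F32P.C_COVA
import Pool.Agent.F32P.C_COVE
import Pool.Agent.F32P.X_CR
import Pool.Agent.F32P.C_CYC
import Pool.Agent.F32P.C_DIR
import Pool.Agent.F32P.C_E4
import Pool.Agent.F32P.C_EXC
import Pool.Agent.F32P.C_NEW
import Pool.Agent.F32P.C_NRM
import Pool.Agent.F32P.C_RUN
import Pool.Agent.F32P.C_TWO
import Pool.Agent.F32P.P_ATH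
import Pool.Agent.F32P.P_CA
import Pool.Agent.F32P.P_CB
import Pool.Agent.F32P.P_CE
import Pool.Agent.F32P.P_CX
import Pool.Agent.F32P.P_DES
import Pool.Agent.F32P.P_LOW
import Pool.Agent.F32P.P_MOM
import Pool.Agent.F32P.P_NBX
import Pool.Agent.F32P.P_PTW
import Pool.Agent.F32P.P_SMP
import Pool.Agent.F32P.P_SNC
import Pool.Agent.F32P.P_STP
import Pool.Agent.F32P.P_SYM
import Pool.Agent.F32P.P_Z1B

/-!
# F32P: the abstract theorem, closed form (helper35)
-/

set_option autoImplicit false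

namespace Pool.Agent.F32P

theorem two : S_TWO := c_TWO c_NEW c_CYC
theorem chg : S_CHG := c_CHG c_NEW c_CYC
theorem dir : S_DIR := c_DIR two c_CYC
theorem run : S_RUN := c_RUN dir c_NRM c_CYC
theorem exc : S_EXC := c_EXC run
theorem cml : S_CML := x_CML (c_COM c_CYC) c_NRM
theorem e4 : S_E4 := c_E4 c_CYC c_NRM run
theorem cr : S_CR := x_CR e4
theorem ch : S_CH := c_CH e4 c_NRM c_CYC run
theorem cov : S_COV := c_COV cr ch (c_COVA c_CYC cml) (c_COVE c_CYC)
theorem smp : S_SMP := p_SMP p_MOM p_SNC (p_PTW chg) (p_DES c_NEW) p_SYM exc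
theorem low : S_LOW := p_LOW smp (p_CA p_Z1B) (p_CE p_Z1B) (p_CX p_Z1B) p_CB

/-- **the abstract theorem** -/
theorem main_at : S_AT := p_ATH (p_STP low cov p_NBX)

end Pool.Agent.F32P
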