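import Pool.Agent.F32P.St2

/-!
# F32P: the statement CH, second case of `Loc` (helper9)
-/

set_option autoImplicit false

namespace Pool.Agent.F32P

open Finset

private lemma ch_pair {α : Type} [DecidableEq α] {a b c d : α}
    (h : ({a, b} : Finset α) = {c, d}) : (a = c ∧ b = d) ∨ (a = d ∧ b = c) := by
  have h1 : a ∈ ({c, d} : Finset α) := h ▸ mem_insert_self _ _
  have h2 : b ∈ ({c, d} : Finset α) := h ▸ (mem_insert_of_mem (mem_singleton_self _))
  have h3 : c ∈ ({a, b} : Finset α) := h.symm ▸ mem_insert_self _ _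
  have h4 : d ∈ ({a, b} : Finset α) := h.symm ▸ (mem_insert_of_mem (mem_singleton_self _))
  simp only [mem_insert, mem_singleton] at h1 h2 h3 h4
  rcases h1 with h1 | h1
  · left
    refine ⟨h1, ?_⟩
    rcases h2 with h2 | h2
    · rcases h4 with h4 | h4
      · rw [h2, h4, h1]
      · exact h4.symm
    · exact h2
  · right
    refine ⟨h1, ?_⟩
    rcases h2 with h2 | h2
    · exact h2
    · rcases h3 with h3 | h3
      · rw [h2, h3, h1]
      · exact h3.symm

private lemma ch_six {ι : Type} [DecidableEq ι] {v a w z : ι} {e : Finset ι}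
    (he : e ⊆ fs (v, a, w, z)) (hc : e.card = 2) :
    e = {v, a} ∨ e = {v, w} ∨ e = {v, z} ∨ e = {a, w} ∨ e = {a, z} ∨ e = {w, z} := by
  obtain ⟨x, y, hxy, rfl⟩ := card_eq_two.1 hc
  have hx : x ∈ fs (v, a, w, z) := he (mem_insert_self _ _)
  have hy : y ∈ fs (v, a, w, z) := he (mem_insert_of_mem (mem_singleton_self _))
  simp only [fs, mem_insert, mem_singleton] at hx hy
  rcases hx with rfl | rfl | rfl | rfl <;> rcases hy with rfl | rfl | rfl | rfl <;>
    first
      | exact absurd rfl hxy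
      | exact Or.inl rfl
      | exact Or.inl (pair_comm _ _)
      | exact Or.inr (Or.inl rfl)
      | exact Or.inr (Or.inl (pair_comm _ _))
      | exact Or.inr (Or.inr (Or.inl rfl))
      | exact Or.inr (Or.inr (Or.inl (pair_comm _ _)))
      | exact Or.inr (Or.inr (Or.inr (Or.inl rfl)))
      | exact Or.inr (Or.inr (Or.inr (Or.inl (pair_comm _ _))))
      | exact Or.inr (Or.inr (Or.inr (Or.inr (Or.inl rfl))))
      | exact Or.inr (Or.inr (Or.inr (Or.inr (Or.inl (pair_comm _ _)))))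
      | exact Or.inr (Or.inr (Or.inr (Or.inr (Or.inr rfl))))
      | exact Or.inr (Or.inr (Or.inr (Or.inr (Or.inr (pair_comm _ _)))))

section
variable {ι : Type} [DecidableEq ι] {K : Conf ι} {S0 : Finset ι}

private lemma ch_fq_rev {W : Finset ι} (q : Ch K W) : fq (rev K W q) = fq q := fs_rv q.1

private lemma ch_fq_swp {W : Finset ι} (q : Ch K W) : fq (swp K W q) = fq q := fs_sw q.1

private lemma ch_tau_swp (h : OK K S0) {W : Finset ι} (hW : S0 ⊆ W) (q : Ch K W) :
    tau h hW (swp K W q) = swp K W (tau h hW q) := by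
  obtain ⟨⟨v, a, w, z⟩, hq⟩ := q
  apply Subtype.ext
  show tq K W (sw (v, a, w, z)) = sw (tq K W (v, a, w, z))
  simp only [tq, sw]
  rw [Finset.insert_comm a v {z}]

private lemma ch_pow_swp (h : OK K S0) {W : Finset ι} (hW : S0 ⊆ W) (k : ℕ) (q : Ch K W) :
    (tau h hW ^ k) (swp K W q) = swp K W ((tau h hW ^ k) q) := by
  induction k generalizing q with
  | zero => rfl
  | succ k ih => rw [pow_succ, Equiv.Perm.mul_apply, Equiv.Perm.mul_apply, ch_tau_swp, ih]

private lemma ch_inv (h : OK K S0) {W : Finset ι} (hW : S0 ⊆ W) (q : Ch K W) :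
    (tau h hW)⁻¹ q = rev K W (tau h hW (rev K W q)) := rfl

private lemma ch_pow_inv (h : OK K S0) {W : Finset ι} (hW : S0 ⊆ W) (k : ℕ) (q : Ch K W) :
    ((tau h hW)⁻¹ ^ k) q = rev K W ((tau h hW ^ k) (rev K W q)) := by
  induction k generalizing q with
  | zero => rfl
  | succ k ih =>
    rw [pow_succ, Equiv.Perm.mul_apply, ih, ch_inv, pow_succ, Equiv.Perm.mul_apply]
    rfl

private lemma ch_vis (h : OK K S0) {W : Finset ι} (hW : S0 ⊆ W) (D L : ℕ) (x : ι) (q q' : Ch K W)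
    (hr : LRun h hW D L x q') (hq : q' = q ∨ q' = rev K W q) :
    ∃ σ : ℤ, (σ = 1 ∨ σ = -1) ∧ ∀ l : ℕ, l < L →
      K.vis x (fq ((tau h hW ^ ((0 : ℤ) + σ * l)) q)) := by
  rcases hq with rfl | rfl
  · refine ⟨1, Or.inl rfl, fun l hl => ?_⟩
    have h1 := (hr l hl).1.2.1
    rw [zero_add, one_mul, zpow_natCast]
    exact h1
  · refine ⟨-1, Or.inr rfl, fun l hl => ?_⟩
    have h1 := (hr l hl).1.2.1
    have h2 : (tau h hW ^ ((0 : ℤ) + (-1) * (l : ℤ))) q =
        rev K W ((tau h hW ^ l) (rev K W q)) := by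
      rw [zero_add, neg_one_mul, zpow_neg, zpow_natCast, ← inv_pow, ch_pow_inv]
    rw [h2, ch_fq_rev]
    exact h1

end

theorem c_CH (he : S_E4) (hn : S_NRM) (_hc : S_CYC) (hr : S_RUN) : S_CH := by
  classical
  intro ι _ _ K S0 h W hW D L z e hz hD hL hec hne hall hloc
  obtain ⟨F0, hF0⟩ := hne
  have hsee : ∀ i, ∃ s ∈ St K W e, K.vis (z i) s := by
    intro i
    obtain ⟨F, hF, F', hF', _, h1, _⟩ := hloc i i
    rcases h1 with h1 | h1
    · exact ⟨F, hF, h1⟩
    · exact ⟨F', hF', h1⟩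
  have hpos : 0 < dg K W e := card_pos.2 ⟨F0, hF0⟩
  by_cases h4 : dg K W e = 4
  · rcases he ι K S0 h W hW D L z e hz hD hL hec h4 hsee with h5 | h5
    · exact Or.inr (Or.inl h5)
    · exact Or.inr (Or.inr (Or.inl h5))
  by_cases hDe : dg K W e < D
  · left
    refine ⟨e, ?_, hDe, fun i => ?_⟩
    · refine mem_filter.2 ⟨mem_powersetCard.2 ⟨?_, hec⟩, hpos, h4⟩
      exact (mem_St.1 hF0).2.trans (mem_Fc.1 (mem_St.1 hF0).1).1
    · obtain ⟨s, hs, hv⟩ := hsee i
      exact mem_biUnion.2 ⟨s, hs, mem_filter.2 ⟨mem_univ _, hv⟩⟩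
  right
  have hDe' : D ≤ dg K W e := not_lt.1 hDe
  -- the element which sees a third
  obtain ⟨k, hk⟩ : ∃ k : Fin 3, z k ∈ Ie K W e := by
    by_contra hcon
    push Not at hcon
    have hcon' : ∀ i : Fin 3, 3 * ((St K W e).filter fun s => K.vis (z i) s).card < dg K W e := by
      intro i
      by_contra h5
      exact hcon i (mem_filter.2 ⟨mem_univ _, hpos, not_lt.1 h5⟩)
    have hsub : St K W e ⊆
        (univ : Finset (Fin 3)).biUnion fun i => (St K W e).filter fun s => K.vis (z i) s := by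
      intro s hs
      obtain ⟨i, hi⟩ := hall s hs
      exact mem_biUnion.2 ⟨i, mem_univ _, mem_filter.2 ⟨hs, hi⟩⟩
    have h5 := (card_le_card hsub).trans card_biUnion_le
    rw [Fin.sum_univ_three] at h5
    have h6 := hcon' 0
    have h7 := hcon' 1
    have h8 := hcon' 2
    have h9 : (St K W e).card = dg K W e := rfl
    omega
  obtain ⟨i, j, hij, hjk, hik⟩ : ∃ i j : Fin 3, i ≠ j ∧ j ≠ k ∧ i ≠ k := by
    fin_cases k
    · exact ⟨1, 2, by decide, by decide, by decide⟩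
    · exact ⟨0, 2, by decide, by decide, by decide⟩
    · exact ⟨0, 1, by decide, by decide, by decide⟩
  have hcov0 : ∀ i j k t : Fin 3, i ≠ j → j ≠ k → i ≠ k → t = i ∨ t = j ∨ t = k := by decide
  have hcov : ∀ t : Fin 3, t = i ∨ t = j ∨ t = k := fun t => hcov0 i j k t hij hjk hik
  -- the two facets
  obtain ⟨si, hsi, sj, hsj, h3, hvi, hvj⟩ : ∃ si ∈ St K W e, ∃ sj ∈ St K W e,
      3 ≤ (si ∩ sj).card ∧ K.vis (z i) si ∧ K.vis (z j) sj := by
    obtain ⟨F, hF, F', hF', h3, h1, h2⟩ := hloc i j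
    have hFF : ∀ F ∈ St K W e, 3 ≤ (F ∩ F).card := by
      intro F hF
      rw [inter_self, (mem_Fc.1 (mem_St.1 hF).1).2.1]
      norm_num
    rcases h1 with h1 | h1 <;> rcases h2 with h2 | h2
    · exact ⟨F, hF, F, hF, hFF F hF, h1, h2⟩
    · exact ⟨F, hF, F', hF', h3, h1, h2⟩
    · exact ⟨F', hF', F, hF, by rwa [inter_comm], h1, h2⟩
    · exact ⟨F', hF', F', hF', hFF F' hF', h1, h2⟩
  -- membership in Z1
  have hZk : ∀ s ∈ St K W e, z k ∈ Z1 K W D s := by
    intro s hs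
    exact mem_union.2 (Or.inr (mem_biUnion.2 ⟨e, mem_filter.2
      ⟨mem_powersetCard.2 ⟨(mem_St.1 hs).2, hec⟩, hDe'⟩, hk⟩))
  have hZ : ∀ s ∈ St K W e, ∀ t ∈ St K W e, ∀ x, 3 ≤ (s ∩ t).card → K.vis x t →
      x ∈ Z1 K W D s := by
    intro s _ t ht x h5 h6
    exact mem_union.2 (Or.inl (mem_biUnion.2 ⟨t, mem_filter.2 ⟨(mem_St.1 ht).1, Or.inl h5⟩,
      mem_filter.2 ⟨mem_univ _, h6⟩⟩))
  have h3' : 3 ≤ (sj ∩ si).card := by rwa [inter_comm]
  by_cases hEi : Exc h hW D L (z i) si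
  · left
    refine ⟨si, (mem_St.1 hsi).1, i, mem_filter.2 ⟨mem_univ _, hEi⟩, fun t ht => ?_⟩
    rcases hcov t with rfl | rfl | rfl
    · exact absurd rfl ht
    · exact hZ si hsi sj hsj _ h3 hvj
    · exact hZk si hsi
  by_cases hEj : Exc h hW D L (z j) sj
  · left
    refine ⟨sj, (mem_St.1 hsj).1, j, mem_filter.2 ⟨mem_univ _, hEj⟩, fun t ht => ?_⟩
    rcases hcov t with rfl | rfl | rfl
    · exact hZ sj hsj si hsi _ h3' hvi
    · exact absurd rfl ht
    · exact hZk sj hsj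
  right
  obtain ⟨qi, hqi, hri⟩ : ∃ q : Ch K W, fq q = si ∧ LRun h hW D L (z i) q := by
    by_contra hcon
    exact hEi ⟨(mem_St.1 hsi).1, hvi, hcon⟩
  obtain ⟨qj, hqj, hrj⟩ : ∃ q : Ch K W, fq q = sj ∧ LRun h hW D L (z j) q := by
    by_contra hcon
    exact hEj ⟨(mem_St.1 hsj).1, hvj, hcon⟩
  -- the heavy pairs
  have heavy : ∀ (x : ι) (q : Ch K W), LRun h hW D L x q → e ⊆ fq q → e = ep q ∨ e = lq q := by
    intro x q hq hsub
    have h5 := hq 0 (by omega)
    rw [pow_zero, Equiv.Perm.one_apply] at h5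
    obtain ⟨g1, g2, g3⟩ := h5
    obtain ⟨g4, g5, g6, g7, g8⟩ := (hn ι K W D q hD g1.2.2.1.1).1 g2
    obtain ⟨⟨v, a, w, y⟩, hq'⟩ := q
    have h6 : e ⊆ fs (v, a, w, y) := hsub
    simp only at g5 g6 g7 g8
    rcases ch_six h6 hec with h7 | h7 | h7 | h7 | h7 | h7
    · exact Or.inl h7
    · exfalso; rw [h7] at hDe'; omega
    · exfalso; rw [h7] at hDe'; omega
    · exfalso; rw [h7] at hDe'; omega
    · exfalso; rw [h7] at hDe'; omega
    · exact Or.inr h7
  have hei : e ⊆ fq qi := hqi ▸ (mem_St.1 hsi).2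
  have hej : e ⊆ fq qj := hqj ▸ (mem_St.1 hsj).2
  rcases heavy _ qi hri hei with h5 | h5
  · right
    refine ⟨qi, i, k, j, hik, hjk.symm, hij, hri, ?_, ?_⟩
    · rw [hqi]; exact hZ si hsi sj hsj _ h3 hvj
    · rw [← h5]; exact hk
  rcases heavy _ qj hrj hej with h6 | h6
  · right
    refine ⟨qj, j, k, i, hjk, hik.symm, hij.symm, hrj, ?_, ?_⟩
    · rw [hqj]; exact hZ sj hsj si hsi _ h3' hvi
    · rw [← h6]; exact hk
  left
  -- a common element outside of `e`
  have hlr : ∀ (x : ι), x ∉ W → ∀ (q : Ch K W), LRun h hW D L x q → LRun h hW D L x (swp K W q) := by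
    intro x hx q hq l hl
    rw [ch_pow_swp]
    exact ((hr ι K S0 h W hW D x hx hD).2.1 _ (hq l hl)).2
  have first : ∀ (x : ι), x ∉ W → ∀ (q : Ch K W) (v : ι), LRun h hW D L x q → v ∈ ep q →
      ∃ q' : Ch K W, LRun h hW D L x q' ∧ fq q' = fq q ∧ lq q' = lq q ∧ q'.1.1 = v := by
    intro x hx q v hq hv
    simp only [ep, mem_insert, mem_singleton] at hv
    rcases hv with hv | hv
    · exact ⟨q, hq, rfl, rfl, hv.symm⟩
    · exact ⟨swp K W q, hlr x hx q hq, ch_fq_swp q, rfl, hv.symm⟩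
  obtain ⟨v, hv1, hv2⟩ : ∃ v, v ∈ si ∩ sj ∧ v ∉ e := by
    by_contra hcon
    push Not at hcon
    have : (si ∩ sj).card ≤ e.card := card_le_card (fun x hx => hcon x hx)
    omega
  have hmem : ∀ (q : Ch K W), e = lq q → v ∈ fq q → v ∈ ep q := by
    intro q hq hvq
    rw [hq] at hv2
    simp only [lq, mem_insert, mem_singleton, not_or] at hv2
    simp only [fq, fs, mem_insert, mem_singleton] at hvq
    simp only [ep, mem_insert, mem_singleton]
    rcases hvq with h7 | h7 | h7 | h7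
    · exact Or.inl h7
    · exact Or.inr h7
    · exact absurd h7 hv2.1
    · exact absurd h7 hv2.2
  obtain ⟨pi', hpi1, hpi2, hpi3, hpi4⟩ := first (z i) (hz i) qi v hri
    (hmem qi h5 (hqi ▸ (mem_inter.1 hv1).1))
  obtain ⟨pj, hpj1, hpj2, hpj3, hpj4⟩ := first (z j) (hz j) qj v hrj
    (hmem qj h6 (hqj ▸ (mem_inter.1 hv1).2))
  rw [hqi] at hpi2
  rw [hqj] at hpj2
  rw [← h5] at hpi3
  rw [← h6] at hpj3
  -- the relation of the two chambers
  have hrel : (pj = pi' ∨ pj = rev K W pi') ∨ (pj = pie h hW pi' ∨ pj = rev K W (pie h hW pi')) := by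
    clear first hlr heavy hri hrj hpi1 hpj1
    obtain ⟨⟨v1, a, w, y⟩, hP⟩ := pi'
    obtain ⟨⟨v2, b, w', y'⟩, hQ⟩ := pj
    simp only at hpi4 hpj4
    subst hpi4 hpj4
    have e1 : ({w, y} : Finset ι) = {w', y'} := hpi3.trans hpj3.symm
    obtain ⟨k1, k2, k3, k4, k5, k6⟩ := fs_four (mem_Fc.1 hP).2.1
    obtain ⟨m1, m2, m3, m4, m5, m6⟩ := fs_four (mem_Fc.1 hQ).2.1
    have hb : b ∉ ({w, y} : Finset ι) := by
      rw [e1]; simp [m4, m5]
    simp only [mem_insert, mem_singleton, not_or] at hb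
    have hsub : ({v2, w, y} : Finset ι) ⊆ fs (v2, b, w', y') := by
      have : ({v2, w, y} : Finset ι) = insert v2 {w', y'} := by rw [← e1]
      rw [this]
      intro t ht
      simp only [fs, mem_insert, mem_singleton] at ht ⊢
      tauto
    have hbm : b ∈ fs (v2, b, w', y') := by simp [fs]
    have hspec := pq_spec h hW hP
    have hwy := ch_pair e1.symm
    rcases hspec.2.2.2.1 _ hQ hsub with h7 | h7
    · left
      rw [h7] at hbm
      simp only [fs, mem_insert, mem_singleton] at hbm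
      have hba : b = a := by
        rcases hbm with h8 | h8 | h8 | h8
        · exact absurd h8.symm m1
        · exact h8
        · exact absurd h8 hb.1
        · exact absurd h8 hb.2
      subst hba
      rcases hwy with ⟨rfl, rfl⟩ | ⟨rfl, rfl⟩
      · left; rfl
      · right; rfl
    · right
      rw [h7] at hbm
      simp only [pq, fs, mem_insert, mem_singleton] at hbm
      have hba : b = oth K W {v2, w, y} a := by
        rcases hbm with h8 | h8 | h8 | h8
        · exact absurd h8.symm m1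
        · exact h8
        · exact absurd h8 hb.1
        · exact absurd h8 hb.2
      rcases hwy with ⟨rfl, rfl⟩ | ⟨rfl, rfl⟩
      · left
        apply Subtype.ext
        show (v2, b, w', y') = pq K W (v2, a, w', y')
        rw [hba]
        rfl
      · right
        apply Subtype.ext
        show (v2, b, w', y') = rv (pq K W (v2, a, y', w'))
        rw [hba]
        rfl
  have hZfin : z k ∈ Z1 K W D (fq pi') := by rw [hpi2]; exact hZk si hsi
  rcases hrel with h7 | h7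
  · obtain ⟨σ, hσ, hl⟩ := ch_vis h hW D L (z j) pi' pj hpj1 h7
    exact ⟨pi', i, j, k, hij, hjk, hik, hpi1, hZfin, false, 0, σ, by norm_num, hσ,
      fun l hl' => hl l hl'⟩
  · obtain ⟨σ, hσ, hl⟩ := ch_vis h hW D L (z j) (pie h hW pi') pj hpj1 h7
    exact ⟨pi', i, j, k, hij, hjk, hik, hpi1, hZfin, true, 0, σ, by norm_num, hσ,
      fun l hl' => hl l hl'⟩

end Pool.Agent.F32P
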