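import Pool.Agent.F32P.St3

/-!
# F32P: ATH, the abstract theorem from the induction step (helper4)
-/

set_option autoImplicit false

namespace Pool.Agent.F32P

open Finset

private theorem ath_card {ι : Type} [DecidableEq ι] {K : Conf ι} {S0 : Finset ι}
    {X : Fin 3 → Finset ι} {T : Finset (Fin 3 → ι)} (hI : Inst K S0 X T) {i j : Fin 3} (hij : i ≠ j) :
    T.card ≤ (X i).card * (X j).card := by
  rw [← card_product]
  refine card_le_card_of_injOn (fun z => (z i, z j)) ?_ ?_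
  · intro z hz
    have hz' : z ∈ T := by simpa using hz
    simpa using And.intro (hI.mem z hz' i) (hI.mem z hz' j)
  · intro z hz z' hz' h
    have h1 : z ∈ T := by simpa using hz
    have h2 : z' ∈ T := by simpa using hz'
    have e := Prod.ext_iff.1 h
    exact hI.inj i j hij z h1 z' h2 e.1 e.2

private theorem ath_zero {ι : Type} [DecidableEq ι] {K : Conf ι} {S0 : Finset ι}
    {X : Fin 3 → Finset ι} {T : Finset (Fin 3 → ι)} (hI : Inst K S0 X T)
    (h0 : ∏ i, ((X i).card : ℝ) = 0) : T.card = 0 := by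
  obtain ⟨i, _, hi⟩ := prod_eq_zero_iff.1 h0
  have hi' : (X i).card = 0 := by exact_mod_cast hi
  obtain ⟨j, hj⟩ : ∃ j : Fin 3, i ≠ j := by
    fin_cases i
    · exact ⟨1, by decide⟩
    · exact ⟨0, by decide⟩
    · exact ⟨0, by decide⟩
  have := ath_card hI hj
  rw [hi', zero_mul] at this
  omega

private theorem ath_one {ι : Type} (X : Fin 3 → Finset ι)
    (h0 : ∏ i, ((X i).card : ℝ) ≠ 0) : 1 ≤ ∏ i, ((X i).card : ℝ) := by
  have h1 : ∏ i, ((X i).card : ℝ) = ((∏ i, (X i).card : ℕ) : ℝ) := by push_cast; rfl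
  rw [h1] at h0 ⊢
  have h2 : (∏ i, (X i).card : ℕ) ≠ 0 := by exact_mod_cast h0
  exact_mod_cast Nat.one_le_iff_ne_zero.2 h2

private theorem ath_small {ι : Type} [DecidableEq ι] {K : Conf ι} {S0 : Finset ι}
    {X : Fin 3 → Finset ι} {T : Finset (Fin 3 → ι)} (hI : Inst K S0 X T) {κ : ℝ} (hκ : 1 / 2 ≤ κ)
    {N0 : ℕ} (hN : 1 ≤ N0) {i : Fin 3} (hi : (X i).card < N0) :
    (T.card : ℝ) ≤ ((N0 : ℝ) + 1) * (∏ i, ((X i).card : ℝ)) ^ κ := by
  have hNr : (1 : ℝ) ≤ N0 := by exact_mod_cast hN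
  by_cases h0 : ∏ i, ((X i).card : ℝ) = 0
  · rw [ath_zero hI h0, h0, Real.zero_rpow (by linarith)]
    simp
  have h1 := ath_one X h0
  set P : ℝ := ∏ i, ((X i).card : ℝ) with hP
  -- the square
  have hsq : (T.card : ℝ) ^ 2 ≤ N0 * P := by
    have key : ∀ j k : Fin 3, i ≠ j → i ≠ k → P = (X i).card * ((X j).card * (X k).card) →
        (T.card : ℝ) ^ 2 ≤ N0 * P := by
      intro j k hj hk hprod
      have a1 : (T.card : ℝ) ≤ (X i).card * (X j).card := by exact_mod_cast ath_card hI hj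
      have a2 : (T.card : ℝ) ≤ (X i).card * (X k).card := by exact_mod_cast ath_card hI hk
      have a3 : ((X i).card : ℝ) ≤ N0 := by exact_mod_cast hi.le
      have a0 : (0 : ℝ) ≤ T.card := Nat.cast_nonneg _
      have hP0 : 0 ≤ P := by linarith
      calc (T.card : ℝ) ^ 2 = T.card * T.card := sq _
        _ ≤ ((X i).card * (X j).card) * ((X i).card * (X k).card) :=
            mul_le_mul a1 a2 a0 (by positivity)
        _ = (X i).card * P := by rw [hprod]; ring
        _ ≤ N0 * P := mul_le_mul_of_nonneg_right a3 hP0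
    have e3 : P = ((X 0).card : ℝ) * (X 1).card * (X 2).card := by rw [hP, Fin.prod_univ_three]
    fin_cases i
    · exact key 1 2 (by decide) (by decide) (by rw [e3]; simp only [Fin.zero_eta]; ring)
    · exact key 0 2 (by decide) (by decide) (by rw [e3]; simp only [Fin.mk_one]; ring)
    · exact key 0 1 (by decide) (by decide) (by rw [e3]; simp only [Fin.reduceFinMk]; ring)
  have hPs : Real.sqrt P ≤ P ^ κ := by
    rw [Real.sqrt_eq_rpow]
    exact Real.rpow_le_rpow_of_exponent_le h1 hκ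
  have h2 : (T.card : ℝ) ≤ N0 * Real.sqrt P := by
    refine le_of_sq_le_sq ?_ (by positivity)
    rw [mul_pow, Real.sq_sqrt (by linarith)]
    refine hsq.trans (mul_le_mul_of_nonneg_right ?_ (by linarith))
    nlinarith
  have hPk : 0 ≤ P ^ κ := Real.rpow_nonneg (by linarith) _
  calc (T.card : ℝ) ≤ N0 * Real.sqrt P := h2
    _ ≤ N0 * P ^ κ := mul_le_mul_of_nonneg_left hPs (by linarith)
    _ ≤ ((N0 : ℝ) + 1) * P ^ κ := mul_le_mul_of_nonneg_right (by linarith) hPk

/-- ATH -/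
theorem p_ATH (h : S_STP) : S_ATH := by
  intro m0
  obtain ⟨κ, N0, hκ, hκ2, hN, hst⟩ := h m0
  have hNr : (1 : ℝ) ≤ N0 := by exact_mod_cast hN
  refine ⟨κ, by linarith, hκ2, (N0 : ℝ) + 1, by linarith, ?_⟩
  intro ι _ _ K S0 hOK hflat
  have hmono : ∀ B B' : ℝ, B ≤ B' → Valid K S0 κ B → Valid K S0 κ B' := by
    intro B B' hB hV X T hI
    refine (hV X T hI).trans (mul_le_mul_of_nonneg_right hB ?_)
    exact Real.rpow_nonneg (prod_nonneg fun _ _ => Nat.cast_nonneg _) _
  have hstep : ∀ B : ℝ, 0 ≤ B → Valid K S0 κ B → Valid K S0 κ (max ((N0 : ℝ) + 1) (B / 2)) := by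
    intro B hB hV X T hI
    have hpk : 0 ≤ (∏ i, ((X i).card : ℝ)) ^ κ :=
      Real.rpow_nonneg (prod_nonneg fun _ _ => Nat.cast_nonneg _) _
    by_cases hall : ∀ i, N0 ≤ (X i).card
    · exact (hst ι K S0 hOK hflat B hB hV X T hI hall).trans
        (mul_le_mul_of_nonneg_right (le_max_right _ _) hpk)
    · push Not at hall
      obtain ⟨i, hi⟩ := hall
      exact (ath_small hI hκ hN hi).trans (mul_le_mul_of_nonneg_right (le_max_left _ _) hpk)
  have hbase : Valid K S0 κ ((Fintype.card ι : ℝ) ^ 2) := by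
    intro X T hI
    by_cases h0 : ∏ i, ((X i).card : ℝ) = 0
    · rw [ath_zero hI h0, h0, Real.zero_rpow (by linarith)]
      simp
    have h1 := ath_one X h0
    have h2 : 1 ≤ (∏ i, ((X i).card : ℝ)) ^ κ := Real.one_le_rpow h1 (by linarith)
    have h3 : (T.card : ℝ) ≤ (X 0).card * (X 1).card := by
      exact_mod_cast ath_card hI (show (0 : Fin 3) ≠ 1 by decide)
    have h4 : ((X 0).card : ℝ) ≤ Fintype.card ι := by exact_mod_cast card_le_univ _
    have h5 : ((X 1).card : ℝ) ≤ Fintype.card ι := by exact_mod_cast card_le_univ _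
    have h6 : (T.card : ℝ) ≤ (Fintype.card ι : ℝ) ^ 2 := by
      rw [sq]
      exact h3.trans (mul_le_mul h4 h5 (Nat.cast_nonneg _) (Nat.cast_nonneg _))
    calc (T.card : ℝ) ≤ (Fintype.card ι : ℝ) ^ 2 * 1 := by rw [mul_one]; exact h6
      _ ≤ _ := mul_le_mul_of_nonneg_left h2 (by positivity)
  have hiter : ∀ n : ℕ, Valid K S0 κ (max ((N0 : ℝ) + 1) ((Fintype.card ι : ℝ) ^ 2 / 2 ^ n)) := by
    intro n
    induction n with
    | zero =>
      refine hmono _ _ ?_ hbase
      rw [pow_zero, div_one]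
      exact le_max_right _ _
    | succ n ih =>
      have h1 := hstep _ (le_max_of_le_left (by linarith)) ih
      refine hmono _ _ ?_ h1
      refine max_le (le_max_left _ _) ?_
      rw [div_le_iff₀ (by norm_num : (0 : ℝ) < 2)]
      refine max_le ?_ ?_
      · have := le_max_left ((N0 : ℝ) + 1) ((Fintype.card ι : ℝ) ^ 2 / 2 ^ (n + 1))
        linarith
      · have h3 := le_max_right ((N0 : ℝ) + 1) ((Fintype.card ι : ℝ) ^ 2 / 2 ^ (n + 1))
        have h4 : (Fintype.card ι : ℝ) ^ 2 / 2 ^ n = (Fintype.card ι : ℝ) ^ 2 / 2 ^ (n + 1) * 2 := by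
          have h5 : (2 : ℝ) ^ n ≠ 0 := by positivity
          rw [pow_succ, div_mul_eq_mul_div, div_eq_div_iff h5 (by positivity)]
          ring
        rw [h4]
        linarith
  obtain ⟨n, hn⟩ := pow_unbounded_of_one_lt ((Fintype.card ι : ℝ) ^ 2) (one_lt_two : (1 : ℝ) < 2)
  have hle : (Fintype.card ι : ℝ) ^ 2 / 2 ^ n ≤ (N0 : ℝ) + 1 := by
    rw [div_le_iff₀ (by positivity)]
    nlinarith [show (0 : ℝ) < 2 ^ n by positivity]
  have hfin := hiter n
  rw [max_eq_left hle] at hfin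
  exact fun X T hI => hfin X T hI

end Pool.Agent.F32P
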