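import Pool.Agent.F32P.St3
import Pool.Agent.F32P.C_CH
import Pool.Agent.F32P.C_COM
import Pool.Agent.F32P.C_COV
import Pool.Agent.F32P.C_COVA
import Pool.Agent.F32P.C_COVE
import Pool.Agent.F32P.C_CYC
import Pool.Agent.F32P.C_DIR
import Pool.Agent.F32P.C_E4
import Pool.Agent.F32P.C_EXC
import Pool.Agent.F32P.C_NEW
import Pool.Agent.F32P.C_NRM
import Pool.Agent.F32P.P_ATH
import Pool.Agent.F32P.P_CA
import Pool.Agent.F32P.P_CB
import Pool.Agent.F32P.P_CX
import Pool.Agent.F32P.P_DES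
import Pool.Agent.F32P.P_LOW
import Pool.Agent.F32P.P_MOM
import Pool.Agent.F32P.P_PTW
import Pool.Agent.F32P.P_SMP
import Pool.Agent.F32P.P_SNC
import Pool.Agent.F32P.P_STP
import Pool.Agent.F32P.P_SYM
import Pool.Agent.F32P.P_Z1B
import Pool.Agent.F32P.P_CE
import Pool.Agent.F32P.P_NBX
import Pool.Agent.F32P.C_CHG
import Pool.Agent.F32P.C_TWO

/-!
# F32P: assembly of the abstract theorem (helper38)
-/

set_option autoImplicit false

namespace Pool.Agent.F32P

/-- assembly; the hypotheses are the modules which were open when this file was written -/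
theorem asm (hCR : S_CR) (hRUN : S_RUN) (hCML : S_CML) : S_AT := by
  have hE4 : S_E4 := c_E4 c_CYC c_NRM hRUN
  have hCH : S_CH := c_CH hE4 c_NRM c_CYC hRUN
  have hCOV : S_COV := c_COV hCR hCH (c_COVA c_CYC hCML) (c_COVE c_CYC)
  have hPTW : S_PTW := p_PTW (c_CHG c_NEW c_CYC)
  have hSMP : S_SMP := p_SMP p_MOM p_SNC hPTW (p_DES c_NEW) p_SYM (c_EXC hRUN)
  have hLOW : S_LOW := p_LOW hSMP (p_CA p_Z1B) (p_CE p_Z1B) (p_CX p_Z1B) p_CB
  exact p_ATH (p_STP hLOW hCOV p_NBX)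

end Pool.Agent.F32P
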