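import Pool.Agent.F32P.St2

/-!
# F32P, module CR (helper58): the first case of `Loc`
-/

set_option autoImplicit false

namespace Pool.Agent.F32P

open Finset

namespace CRm

variable {ι : Type} [Fintype ι] [DecidableEq ι]

/-- a visible facet which is not normal gives an exceptional incidence -/
theorem exc {K : Conf ι} {S0 : Finset ι} (h : OK K S0) {W : Finset ι} (hW : S0 ⊆ W) (D L : ℕ)
    (x : ι) (F : Finset ι) (hL : 1 ≤ L) (hF : F ∈ Fc K W) (hn : ¬ NF K W D F)
    (hv : K.vis x F) : x ∈ ExS h hW D L F := by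
  simp only [ExS, mem_filter, mem_univ, true_and]
  refine ⟨hF, hv, ?_⟩
  rintro ⟨q, hq, hr⟩
  have h0 := hr 0 (by omega)
  have h1 : Typ K W D x (fq q) := by
    have := h0.1
    rwa [pow_zero, Equiv.Perm.one_apply] at this
  rw [hq] at h1
  exact hn h1.2.2.1.1

/-- an element which sees a neighbour is near -/
theorem near {K : Conf ι} {W : Finset ι} (D : ℕ) (x : ι) (s t : Finset ι) (ht : t ∈ Fc K W)
    (h3 : 3 ≤ (s ∩ t).card) (hv : K.vis x t) : x ∈ Z1 K W D s := by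
  rw [Z1, mem_union]
  refine Or.inl (mem_biUnion.2 ⟨t, ?_, ?_⟩)
  · rw [Nb, mem_filter]
    exact ⟨ht, Or.inl h3⟩
  · simp only [Vp, mem_filter, mem_univ, true_and]
    exact hv

/-- one of the two facets is normal -/
theorem normal (he : S_E4) {K : Conf ι} {S0 : Finset ι} (h : OK K S0) {W : Finset ι}
    (hW : S0 ⊆ W) (D L : ℕ) (z : Fin 3 → ι) (hz : ∀ i, z i ∉ W) (hD : 5 ≤ D) (hL : 1 ≤ L)
    (F F' : Finset ι) (hF : F ∈ Fc K W) (hF' : F' ∈ Fc K W) (h3 : 3 ≤ (F ∩ F').card)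
    (hv : ∀ i, K.vis (z i) F ∨ K.vis (z i) F') (hn : NF K W D F) :
    OutX h hW D L z ∨ OutA h hW D L z := by
  obtain ⟨e, heF, hec, -, -, h4⟩ := hn
  have hc : F.card = 4 := (mem_Fc.1 hF).2.1
  have hA : (F \ e).card = 2 := by
    rw [card_sdiff_of_subset heF, hc, hec]
  have hU : (F ∩ F') ⊆ (e ∩ F') ∪ ((F \ e) ∩ F') := by
    intro i hi
    rw [mem_inter] at hi
    by_cases hie : i ∈ e
    · exact mem_union.2 (Or.inl (mem_inter.2 ⟨hie, hi.2⟩))
    · exact mem_union.2 (Or.inr (mem_inter.2 ⟨mem_sdiff.2 ⟨hi.1, hie⟩, hi.2⟩))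
  have hle := (card_le_card hU).trans (card_union_le _ _)
  have hb1 : (e ∩ F').card ≤ 2 := by
    rw [← hec]; exact card_le_card inter_subset_left
  have hb2 : ((F \ e) ∩ F').card ≤ 2 := by
    rw [← hA]; exact card_le_card inter_subset_left
  have hn1 : (e ∩ F').Nonempty := card_pos.1 (by omega)
  have hn2 : ((F \ e) ∩ F').Nonempty := card_pos.1 (by omega)
  obtain ⟨u, hu⟩ := hn1
  obtain ⟨w, hw⟩ := hn2
  rw [mem_inter] at hu hw
  obtain ⟨hu1, hu2⟩ := hu
  obtain ⟨hw1, hw2⟩ := hw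
  rw [mem_sdiff] at hw1
  have huw : u ≠ w := by
    rintro rfl
    exact hw1.2 hu1
  have hpF : ({u, w} : Finset ι) ⊆ F := by
    intro i hi
    rw [mem_insert, mem_singleton] at hi
    rcases hi with rfl | rfl
    · exact heF hu1
    · exact hw1.1
  have hpF' : ({u, w} : Finset ι) ⊆ F' := by
    intro i hi
    rw [mem_insert, mem_singleton] at hi
    rcases hi with rfl | rfl
    · exact hu2
    · exact hw2
  have hpc : ({u, w} : Finset ι).card = 2 := card_pair huw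
  have hdeg : dg K W {u, w} = 4 := by
    refine h4 _ hpF hpc ?_ ?_
    · intro hE
      exact hw1.2 (hE ▸ mem_insert_of_mem (mem_singleton_self _))
    · intro hE
      have : u ∈ F \ e := hE ▸ mem_insert_self _ _
      exact (mem_sdiff.1 this).2 hu1
  refine he ι K S0 h W hW D L z {u, w} hz hD hL hpc hdeg ?_
  intro i
  rcases hv i with h' | h'
  · exact ⟨F, mem_St.2 ⟨hF, hpF⟩, h'⟩
  · exact ⟨F', mem_St.2 ⟨hF', hpF'⟩, h'⟩

/-- the facet `F` is not normal and `z i` sees it -/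
theorem bad {K : Conf ι} {S0 : Finset ι} (h : OK K S0) {W : Finset ι}
    (hW : S0 ⊆ W) (D L : ℕ) (z : Fin 3 → ι) (hL : 1 ≤ L)
    (F F' : Finset ι) (hF : F ∈ Fc K W) (hF' : F' ∈ Fc K W) (h3 : 3 ≤ (F ∩ F').card)
    (hv : ∀ i, K.vis (z i) F ∨ K.vis (z i) F') (hn : ¬ NF K W D F) (i : Fin 3)
    (hi : K.vis (z i) F) : OutX h hW D L z := by
  refine ⟨F, hF, i, exc h hW D L (z i) F hL hF hn hi, fun j _ => ?_⟩
  rcases hv j with h' | h'
  · refine near D (z j) F F hF ?_ h'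
    rw [inter_self, (mem_Fc.1 hF).2.1]; omega
  · exact near D (z j) F F' hF' h3 h'

end CRm

theorem c_CR (he : S_E4) (_hn : S_NRM) : S_CR := by
  intro ι _ _ K S0 h W hW D L z hz hD hL hyp
  obtain ⟨F, hF, F', hF', h3, hv⟩ := hyp
  have h3' : 3 ≤ (F' ∩ F).card := by rwa [inter_comm]
  by_cases h1 : NF K W D F
  · exact CRm.normal he h hW D L z hz hD hL F F' hF hF' h3 hv h1
  by_cases h2 : NF K W D F'
  · exact CRm.normal he h hW D L z hz hD hL F' F hF' hF h3' (fun i => (hv i).symm) h2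
  · left
    rcases hv 0 with h' | h'
    · exact CRm.bad h hW D L z hL F F' hF hF' h3 hv h1 0 h'
    · exact CRm.bad h hW D L z hL F' F hF' hF h3' (fun i => (hv i).symm) h2 0 h'

end Pool.Agent.F32P
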