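import Pool.Agent.F32P.G_Fun

/-!
# F32P: locality (helper80)

`Of K u b`: the configuration `K` belongs to the system `u, b`. `g_loc`: if exactly the inequalities
`z 0, z 1, z 2` are active at a feasible point then the triple `z` is local at every `W ⊇ S0` which does
not contain them.
-/

set_option autoImplicit false

namespace Pool.Agent.F32P

open Finset QMark
open scoped InnerProductSpace

variable {ι : Type} [Fintype ι] [DecidableEq ι]

/-- `K` is the configuration of the system `u, b` -/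
def Of (K : Conf ι) (u : ι → E4) (b : ι → ℝ) : Prop :=
  (∀ s, K.P s ↔ s.card = 4 ∧ Ind u s) ∧
  ∀ x s, K.vis x s ↔ x ∉ s ∧ ∃ p : E4, (∀ i ∈ s, ⟪u i, p⟫_ℝ = b i) ∧ b x < ⟪u x, p⟫_ℝ

namespace GLoc

variable {u : ι → E4} {b : ι → ℝ} {S0 : Finset ι} {K : Conf ι}

theorem fct_ne (hs : Sy u b S0) {W F : Finset ι} (hW : S0 ⊆ W) {h : E4 × ℝ}
    (hF : Fct u b W F h) : h ≠ 0 := by
  obtain ⟨w, hw⟩ := sdiff_ne hs hW hF.2.1.le
  rw [mem_sdiff] at hw
  intro h0
  have h1 := hF.2.2.2 w hw.1 hw.2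
  rw [h0, ev_zero] at h1
  exact lt_irrefl _ h1

theorem fct_nn {W F : Finset ι} {h : E4 × ℝ} (hF : Fct u b W F h) :
    ∀ i ∈ W, 0 ≤ ev u b i h := by
  intro i hi
  by_cases h1 : i ∈ F
  · exact (hF.2.2.1 i h1).ge
  · exact (hF.2.2.2 i hi h1).le

theorem fct_ind (hs : Sy u b S0) {W F : Finset ι} (hW : S0 ⊆ W) {h : E4 × ℝ}
    (hF : Fct u b W F h) : Ind u F :=
  ind hs (fct_ne hs hW hF) (fun i hi => fct_nn hF i (hW hi)) hF.2.2.1

theorem vis_iff (hK : Of K u b) (hs : Sy u b S0) {W F : Finset ι} (hW : S0 ⊆ W) {h : E4 × ℝ}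
    (hF : Fct u b W F h) {z : ι} (hz : z ∉ F) : K.vis z F ↔ ev u b z h < 0 := by
  have h2 := snd_pos hs (fct_ne hs hW hF) fun i hi => fct_nn hF i (hW hi)
  have hinv : 0 < 1 / h.2 := one_div_pos.2 h2
  have e1 := fun i => ev_div (u := u) (b := b) h2 i
  rw [hK.2]
  constructor
  · rintro ⟨-, p, hp, hpz⟩
    have hpq : p - (1 / h.2) • h.1 = 0 := by
      refine orth_zero (fct_ind hs hW hF) hF.2.1 fun i hi => ?_
      rw [inner_sub_right, hp i hi]
      have := e1 i
      rw [hF.2.2.1 i hi, mul_zero] at this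
      exact this
    rw [sub_eq_zero.1 hpq] at hpz
    have h3 := e1 z
    by_contra h4
    have := mul_nonneg hinv.le (not_lt.1 h4)
    linarith
  · intro h3
    refine ⟨hz, (1 / h.2) • h.1, fun i hi => ?_, ?_⟩
    · have := e1 i
      rw [hF.2.2.1 i hi, mul_zero] at this
      linarith
    · have := e1 z
      have h4 := mul_neg_of_pos_of_neg hinv h3
      linarith

theorem fct_mem (hK : Of K u b) (hs : Sy u b S0) {W F : Finset ι} (hW : S0 ⊆ W) {h : E4 × ℝ}
    (hF : Fct u b W F h) : F ∈ Fc K W := by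
  rw [mem_Fc]
  refine ⟨hF.1, hF.2.1, (hK.1 F).2 ⟨hF.2.1, fct_ind hs hW hF⟩, fun x hx hv => ?_⟩
  have hxF : x ∉ F := ((hK.2 x F).1 hv).1
  have h1 := (vis_iff hK hs hW hF hxF).1 hv
  have h2 := hF.2.2.2 x hx hxF
  linarith

theorem mem_fct (hK : Of K u b) (h4 : ∀ p : E4, (act u b p).card ≤ 4) {W F : Finset ι}
    (hF : F ∈ Fc K W) : ∃ p : E4, Fct u b W F (p, 1) := by
  obtain ⟨h1, h2, h3, h5⟩ := mem_Fc.1 hF
  have h6 := ((hK.1 F).1 h3).2
  obtain ⟨p, hp⟩ := exists_inner (fun i : F => u i) (ind_iff.1 h6) fun i => b i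
  have hp' : ∀ i ∈ F, ⟪u i, p⟫_ℝ = b i := fun i hi => hp ⟨i, hi⟩
  refine ⟨p, h1, h2, fun i hi => ?_, fun i hi hn => ?_⟩
  · rw [ev_pt, hp' i hi, sub_self]
  · rw [ev_pt]
    rcases lt_trichotomy (⟪u i, p⟫_ℝ) (b i) with h7 | h7 | h7
    · linarith
    · exfalso
      have h8 : insert i F ⊆ act u b p := by
        intro j hj
        rw [mem_act]
        rw [mem_insert] at hj
        rcases hj with rfl | hj
        · exact h7
        · exact hp' j hj
      have h9 := card_le_card h8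
      rw [card_insert_of_notMem hn, h2] at h9
      have := h4 p
      omega
    · exfalso
      exact h5 i hi ((hK.2 i F).2 ⟨hn, p, hp', h7⟩)

/-- the data of a ridge -/
def Rdg (K : Conf ι) (W R F F' : Finset ι) : Prop :=
  R.card = 3 ∧ R ⊆ F ∧ R ⊆ F' ∧ F ∈ Fc K W ∧ F' ∈ Fc K W

/-- each of `z`, `z'` sees a facet at a ridge which contains `e` -/
def PairAt (K : Conf ι) (W e : Finset ι) (z z' : ι) : Prop :=
  ∃ F ∈ St K W e, ∃ F' ∈ St K W e, 3 ≤ (F ∩ F').card ∧ (K.vis z F ∨ K.vis z F') ∧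
    (K.vis z' F ∨ K.vis z' F')

theorem ridge_sees (hK : Of K u b) (hs : Sy u b S0) {W : Finset ι} (hW : S0 ⊆ W)
    {R : Finset ι} (hR : R ⊆ W) (hR3 : R.card = 3) {g : E4 × ℝ} (hg0 : g ≠ 0)
    (hgR : ∀ i ∈ R, ev u b i g = 0) (hgU : ∀ i ∈ W, 0 ≤ ev u b i g) :
    ∃ F F', Rdg K W R F F' ∧ ∀ z ∉ W, ev u b z g ≤ 0 → K.vis z F ∨ K.vis z F' := by
  obtain ⟨F, F', hF, hF', a, c, h1, h2, h3, h4, h5, ha, hb, h6⟩ := ridge hs hW hR hR3 hg0 hgR hgU
  refine ⟨F, F', ⟨hR3, h3, h4, fct_mem hK hs hW h1, fct_mem hK hs hW h2⟩, fun z hz hg => ?_⟩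
  by_contra hcon
  rw [not_or] at hcon
  have hne : ∀ (G : Finset ι) (hG : E4 × ℝ), Fct u b W G hG → ¬ K.vis z G → 0 < ev u b z hG := by
    intro G hG hGf hv
    have hzG : z ∉ G := fun h => hz (hGf.1 h)
    rw [vis_iff hK hs hW hGf hzG, not_lt] at hv
    rcases hv.lt_or_eq with h7 | h7
    · exact h7
    · exfalso
      have h8 := zeros hs (fct_ne hs hW hGf) (fun i hi => fct_nn hGf i (hW hi))
        (Z := insert z G) (by
        intro i hi
        rw [mem_insert] at hi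
        rcases hi with rfl | hi
        · exact h7.symm
        · exact hGf.2.2.1 i hi)
      rw [card_insert_of_notMem hzG, hGf.2.1] at h8
      omega
  have p1 := hne F hF h1 hcon.1
  have p2 := hne F' hF' h2 hcon.2
  have h7 : ev u b z g = a * ev u b z hF + c * ev u b z hF' := by
    rw [h6, ev_add, ev_smul, ev_smul]
  have q1 := mul_nonneg ha p1.le
  have q2 := mul_nonneg hb p2.le
  have z1 : a * ev u b z hF = 0 := by linarith
  have z2 : c * ev u b z hF' = 0 := by linarith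
  have a0 : a = 0 := (mul_eq_zero.1 z1).resolve_right p1.ne'
  have b0 : c = 0 := (mul_eq_zero.1 z2).resolve_right p2.ne'
  apply hg0
  rw [h6, a0, b0, zero_smul, zero_smul, add_zero]

/-- three functionals at an edge, all positive: two points see facets at a common ridge -/
theorem pair_at (hK : Of K u b) (hs : Sy u b S0) {W : Finset ι} (hW : S0 ⊆ W)
    {u1 u2 : ι} (hu1 : u1 ∈ W) (hu2 : u2 ∈ W) (h12 : u1 ≠ u2) {lp lq lr : E4 × ℝ}
    (hp1 : ev u b u1 lp = 0) (hp2 : ev u b u2 lp = 0) (hq1 : ev u b u1 lq = 0)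
    (hq2 : ev u b u2 lq = 0) (hr1 : ev u b u1 lr = 0) (hr2 : ev u b u2 lr = 0)
    (hr : ∀ i ∈ (W.erase u1).erase u2, 0 < ev u b i lr) {p q : ι} (hpU : p ∉ W) (hqU : q ∉ W)
    (pp : ev u b p lp = -1) (pq : ev u b p lq = 0) (pr : ev u b p lr = 0)
    (qp : ev u b q lp = 0) (qq : ev u b q lq = -1) (qr : ev u b q lr = 0) :
    PairAt K W {u1, u2} p q := by
  have hne : ((W.erase u1).erase u2).Nonempty := by
    obtain ⟨w, hw⟩ := sdiff_ne hs hW (F := {u1, u2}) (card_le_two.trans (by norm_num))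
    rw [mem_sdiff, mem_insert, mem_singleton, not_or] at hw
    exact ⟨w, mem_erase.2 ⟨hw.2.2, mem_erase.2 ⟨hw.2.1, hw.1⟩⟩⟩
  obtain ⟨s, u3, hu3, h3, h4⟩ := minr hne (fun w => ev u b w lr) (fun w => ev u b w (lp + lq)) hr
  rw [mem_erase, mem_erase] at hu3
  set g : E4 × ℝ := (lp + lq) - s • lr with hg
  have eg : ∀ a : ι, ev u b a g = ev u b a lp + ev u b a lq - s * ev u b a lr := by
    intro a
    rw [hg, ev_sub_smul, ev_add]
  have g1 : ev u b u1 g = 0 := by rw [eg, hp1, hq1, hr1]; ring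
  have g2 : ev u b u2 g = 0 := by rw [eg, hp2, hq2, hr2]; ring
  have g3 : ev u b u3 g = 0 := by
    rw [hg, ev_sub_smul, h3]
    ring
  have gp : ev u b p g = -1 := by rw [eg, pp, pq, pr]; ring
  have gq : ev u b q g = -1 := by rw [eg, qp, qq, qr]; ring
  have hg0 : g ≠ 0 := by
    intro h0
    rw [h0, ev_zero] at gp
    linarith
  have hR3 : ({u1, u2, u3} : Finset ι).card = 3 :=
    card_eq_three.2 ⟨u1, u2, u3, h12, fun h => hu3.2.1 h.symm, fun h => hu3.1 h.symm, rfl⟩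
  have hR : ({u1, u2, u3} : Finset ι) ⊆ W := by
    intro i hi
    rw [mem_insert, mem_insert, mem_singleton] at hi
    rcases hi with rfl | rfl | rfl
    · exact hu1
    · exact hu2
    · exact hu3.2.2
  obtain ⟨F, F', h5, h6⟩ := ridge_sees hK hs hW hR hR3 hg0 (by
    intro i hi
    rw [mem_insert, mem_insert, mem_singleton] at hi
    rcases hi with rfl | rfl | rfl
    · exact g1
    · exact g2
    · exact g3) (by
    intro i hi
    by_cases e1 : i = u1
    · rw [e1, g1]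
    by_cases e2 : i = u2
    · rw [e2, g2]
    have := h4 i (mem_erase.2 ⟨e2, mem_erase.2 ⟨e1, hi⟩⟩)
    rw [hg, ev_sub_smul]
    linarith)
  have hsub : ({u1, u2} : Finset ι) ⊆ {u1, u2, u3} := by
    intro i hi
    rw [mem_insert, mem_singleton] at hi
    rw [mem_insert, mem_insert]
    tauto
  refine ⟨F, mem_St.2 ⟨h5.2.2.2.1, hsub.trans h5.2.1⟩, F', mem_St.2 ⟨h5.2.2.2.2,
    hsub.trans h5.2.2.1⟩, ?_, h6 p hpU (by rw [gp]; norm_num), h6 q hqU (by rw [gq]; norm_num)⟩
  rw [← h5.1]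
  exact card_le_card (subset_inter h5.2.1 h5.2.2.1)

/-- a third zero: case R -/
theorem third (hK : Of K u b) (hs : Sy u b S0) {W : Finset ι} (hW : S0 ⊆ W)
    {u1 u2 : ι} (hu1 : u1 ∈ W) (hu2 : u2 ∈ W) (h12 : u1 ≠ u2) {lx lc : E4 × ℝ}
    (hx1 : ev u b u1 lx = 0) (hx2 : ev u b u2 lx = 0) (hc1 : ev u b u1 lc = 0)
    (hc2 : ev u b u2 lc = 0) (hx : ∀ i ∈ (W.erase u1).erase u2, 0 < ev u b i lx) {w : ι}
    (hw : w ∈ (W.erase u1).erase u2) (hwc : ev u b w lc ≤ 0) {z0 : ι} (h0 : ev u b z0 lc = -1)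
    (h00 : ev u b z0 lx = 0) :
    ∃ R F F', Rdg K W R F F' ∧ ∀ z ∉ W, ev u b z lx ≤ 0 → ev u b z lc ≤ 0 →
      K.vis z F ∨ K.vis z F' := by
  obtain ⟨s, u3, hu3, h3, h4⟩ := minr ⟨w, hw⟩ (fun w => ev u b w lx) (fun w => ev u b w lc) hx
  rw [mem_erase, mem_erase] at hu3
  have hs0 : s ≤ 0 := by
    have h5 := h4 w hw
    have h6 := hx w hw
    by_contra hcon
    have := mul_pos (not_le.1 hcon) h6
    linarith
  set g : E4 × ℝ := lc - s • lx with hg
  have eg : ∀ a : ι, ev u b a g = ev u b a lc - s * ev u b a lx := fun a => ev_sub_smul _ _ _ _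
  have g1 : ev u b u1 g = 0 := by rw [eg, hc1, hx1]; ring
  have g2 : ev u b u2 g = 0 := by rw [eg, hc2, hx2]; ring
  have g3 : ev u b u3 g = 0 := by rw [eg, h3]; ring
  have hg0 : g ≠ 0 := by
    intro h
    have := eg z0
    rw [h, ev_zero, h0, h00] at this
    linarith
  have hR3 : ({u1, u2, u3} : Finset ι).card = 3 :=
    card_eq_three.2 ⟨u1, u2, u3, h12, fun h => hu3.2.1 h.symm, fun h => hu3.1 h.symm, rfl⟩
  have hR : ({u1, u2, u3} : Finset ι) ⊆ W := by
    intro i hi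
    rw [mem_insert, mem_insert, mem_singleton] at hi
    rcases hi with rfl | rfl | rfl
    · exact hu1
    · exact hu2
    · exact hu3.2.2
  obtain ⟨F, F', h5, h6⟩ := ridge_sees hK hs hW hR hR3 hg0 (by
    intro i hi
    rw [mem_insert, mem_insert, mem_singleton] at hi
    rcases hi with rfl | rfl | rfl
    · exact g1
    · exact g2
    · exact g3) (by
    intro i hi
    by_cases e1 : i = u1
    · rw [e1, g1]
    by_cases e2 : i = u2
    · rw [e2, g2]
    have := h4 i (mem_erase.2 ⟨e2, mem_erase.2 ⟨e1, hi⟩⟩)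
    rw [eg]
    linarith)
  refine ⟨_, F, F', h5, fun z hz k1 k2 => h6 z hz ?_⟩
  rw [eg]
  have := mul_nonneg_of_nonpos_of_nonpos hs0 k1
  linarith

/-- the first edge: a functional with exactly two zeros on `W`, negative at `x` only -/
theorem first (hs : Sy u b S0) {W : Finset ι} (hW : S0 ⊆ W) {x c y : ι}
    (hx : x ∉ W) (hc : c ∉ W) (hy : y ∉ W) (hxc : x ≠ c) (hxy : x ≠ y) (hcy : c ≠ y) {f : E4 × ℝ}
    (fx : ev u b x f = 0) (fc : ev u b c f = 0) (fy : ev u b y f = 0)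
    (fpos : ∀ i ∈ W, 0 < ev u b i f) :
    ∃ u1 ∈ W, ∃ u2 ∈ W, u1 ≠ u2 ∧ ∃ l : E4 × ℝ, ev u b u1 l = 0 ∧ ev u b u2 l = 0 ∧
      (∀ i ∈ (W.erase u1).erase u2, 0 < ev u b i l) ∧ ev u b x l = -1 ∧ ev u b c l = 0 ∧
      ev u b y l = 0 := by
  have hWne : W.Nonempty := by
    obtain ⟨w, hw⟩ := sdiff_ne hs hW (F := ∅) (by simp)
    exact ⟨w, (mem_sdiff.1 hw).1⟩
  have hf0 : f ≠ 0 := by
    obtain ⟨w, hw⟩ := hWne
    intro h0
    have h1 := fpos w hw
    rw [h0, ev_zero] at h1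
    exact lt_irrefl _ h1
  have hf2 := snd_pos hs hf0 fun i hi => (fpos i (hW hi)).le
  have hR3 : ({x, c, y} : Finset ι).card = 3 := card_eq_three.2 ⟨x, c, y, hxc, hxy, hcy, rfl⟩
  have hlt : Module.finrank ℝ (Submodule.span ℝ
      (Set.range fun i : ({x, c, y} : Finset ι) => u i)) < 4 := by
    have h1 := finrank_range_le_card (R := ℝ) (fun i : ({x, c, y} : Finset ι) => u i)
    rw [Set.finrank, Fintype.card_coe, hR3] at h1
    omega
  obtain ⟨d, hd0, hd⟩ := exists_orth _ hlt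
  set h : E4 × ℝ := (d, 0) with hh
  have hz : ∀ z ∈ ({x, c, y} : Finset ι), ev u b z h = 0 := by
    intro z hz
    rw [hh, ev_dir]
    have := hd ⟨z, hz⟩
    change ⟪u z, d⟫_ℝ = 0 at this
    rw [this, neg_zero]
  have hax : ev u b x h = 0 := hz x (by simp)
  have hac : ev u b c h = 0 := hz c (by simp)
  have hay : ev u b y h = 0 := hz y (by simp)
  obtain ⟨r, u1, hu1, h3, h4⟩ := minr hWne (fun w => ev u b w f) (fun w => ev u b w h) fpos
  set g1 : E4 × ℝ := h - r • f with hg1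
  have e1 : ∀ a : ι, ev u b a g1 = ev u b a h - r * ev u b a f := fun a => ev_sub_smul _ _ _ _
  have g1x : ev u b x g1 = 0 := by rw [e1, hax, fx]; ring
  have g1c : ev u b c g1 = 0 := by rw [e1, hac, fc]; ring
  have g1y : ev u b y g1 = 0 := by rw [e1, hay, fy]; ring
  have g1u : ev u b u1 g1 = 0 := by rw [e1, h3]; ring
  have g1n : g1 ≠ 0 := by
    intro h0
    have h5 : h = r • f := sub_eq_zero.1 h0
    have a1 : h.2 = r * f.2 := by rw [h5, Prod.smul_snd, smul_eq_mul]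
    have a2 : r = 0 := by
      rcases mul_eq_zero.1 a1.symm with a3 | a3
      · exact a3
      · exact absurd a3 hf2.ne'
    have a3 : h.1 = r • f.1 := by rw [h5, Prod.smul_fst]
    rw [a2, zero_smul] at a3
    exact hd0 a3
  have g1nn : ∀ i ∈ W, 0 ≤ ev u b i g1 := by
    intro i hi
    rw [e1]
    have := h4 i hi
    linarith
  have n3 : ∀ z ∈ W, z ∉ ({x, c, y} : Finset ι) := by
    intro z hz
    rw [mem_insert, mem_insert, mem_singleton]
    rintro (h | h | h)
    · exact hx (h ▸ hz)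
    · exact hc (h ▸ hz)
    · exact hy (h ▸ hz)
  have g1p : ∀ i ∈ W.erase u1, 0 < ev u b i g1 := by
    intro i hi
    rw [mem_erase] at hi
    rcases (g1nn i hi.2).lt_or_eq with h6 | h6
    · exact h6
    · exfalso
      have h7 := zeros hs g1n (fun i hi => g1nn i (hW hi)) (Z := insert i (insert u1 {x, c, y})) (by
        intro j hj
        simp only [mem_insert, mem_singleton] at hj
        rcases hj with rfl | rfl | rfl | rfl | rfl
        · exact h6.symm
        · exact g1u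
        · exact g1x
        · exact g1c
        · exact g1y)
      rw [card_insert_of_notMem, card_insert_of_notMem (n3 u1 hu1), hR3] at h7
      · omega
      · rw [mem_insert]
        rintro (h8 | h8)
        · exact hi.1 h8
        · exact n3 i hi.2 h8
  have hne1 : (W.erase u1).Nonempty := by
    obtain ⟨w, hw⟩ := sdiff_ne hs hW (F := {u1}) (by simp)
    rw [mem_sdiff, mem_singleton] at hw
    exact ⟨w, mem_erase.2 ⟨hw.2, hw.1⟩⟩
  -- second zero
  have hI := ind hs g1n (fun i hi => g1nn i (hW hi)) (Z := insert u1 {x, c, y}) (by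
    intro j hj
    simp only [mem_insert, mem_singleton] at hj
    rcases hj with rfl | rfl | rfl | rfl
    · exact g1u
    · exact g1x
    · exact g1c
    · exact g1y)
  obtain ⟨d', hd'⟩ := solve (b := b) hI fun z => if z = x then -1 else 0
  set k : E4 × ℝ := (d', 0) with hk
  have kx : ev u b x k = -1 := by rw [hd' x (by simp), if_pos rfl]
  have k1 : ev u b u1 k = 0 := by
    rw [hd' u1 (by simp), if_neg (show u1 ≠ x from fun h => hx (h ▸ hu1))]
  have kc : ev u b c k = 0 := by rw [hd' c (by simp), if_neg hxc.symm]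
  have ky : ev u b y k = 0 := by rw [hd' y (by simp), if_neg hxy.symm]
  obtain ⟨s, u2, hu2, h5, h6⟩ := minr hne1 (fun w => ev u b w g1) (fun w => ev u b w k) g1p
  have hu2' := mem_erase.1 hu2
  set l : E4 × ℝ := k - s • g1 with hl
  have e2 : ∀ a : ι, ev u b a l = ev u b a k - s * ev u b a g1 := fun a => ev_sub_smul _ _ _ _
  have lx : ev u b x l = -1 := by rw [e2, kx, g1x]; ring
  have lc : ev u b c l = 0 := by rw [e2, kc, g1c]; ring
  have ly : ev u b y l = 0 := by rw [e2, ky, g1y]; ring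
  have l1 : ev u b u1 l = 0 := by rw [e2, k1, g1u]; ring
  have l2 : ev u b u2 l = 0 := by rw [e2, h5]; ring
  have l0 : l ≠ 0 := by
    intro h0
    rw [h0, ev_zero] at lx
    linarith
  have lnn : ∀ i ∈ W, 0 ≤ ev u b i l := by
    intro i hi
    by_cases h7 : i = u1
    · rw [h7, l1]
    · rw [e2]
      have := h6 i (mem_erase.2 ⟨h7, hi⟩)
      linarith
  refine ⟨u1, hu1, u2, hu2'.2, fun h => hu2'.1 h.symm, l, l1, l2, ?_, lx, lc, ly⟩
  intro i hi
  rw [mem_erase, mem_erase] at hi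
  rcases (lnn i hi.2.2).lt_or_eq with h8 | h8
  · exact h8
  · exfalso
    have h9 := zeros hs l0 (fun i hi => lnn i (hW hi)) (Z := {i, u1, u2, c, y}) (by
      intro j hj
      simp only [mem_insert, mem_singleton] at hj
      rcases hj with rfl | rfl | rfl | rfl | rfl
      · exact h8.symm
      · exact l1
      · exact l2
      · exact lc
      · exact ly)
    have n1 : c ∉ ({y} : Finset ι) := by
      rw [mem_singleton]
      exact hcy
    have n3' : ∀ z ∈ W, z ∉ ({c, y} : Finset ι) := fun z hz h => n3 z hz (mem_insert_of_mem h)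
    have n4 : u1 ∉ ({u2, c, y} : Finset ι) := by
      rw [mem_insert]
      rintro (h | h)
      · exact hu2'.1 h.symm
      · exact n3' u1 hu1 h
    have n5 : i ∉ ({u1, u2, c, y} : Finset ι) := by
      rw [mem_insert, mem_insert]
      rintro (h | h | h)
      · exact hi.2.1 h
      · exact hi.1 h
      · exact n3' i hi.2.2 h
    rw [card_insert_of_notMem n5, card_insert_of_notMem n4, card_insert_of_notMem
      (n3' u2 hu2'.2), card_insert_of_notMem n1, card_singleton] at h9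
    omega

/-- the two cases -/
theorem cases (hK : Of K u b) (hs : Sy u b S0) {W : Finset ι} (hW : S0 ⊆ W) {x c y : ι}
    (hx : x ∉ W) (hc : c ∉ W) (hy : y ∉ W) (hxc : x ≠ c) (hxy : x ≠ y) (hcy : c ≠ y) {f : E4 × ℝ}
    (fx : ev u b x f = 0) (fc : ev u b c f = 0) (fy : ev u b y f = 0)
    (fpos : ∀ i ∈ W, 0 < ev u b i f) :
    (∃ R F F', Rdg K W R F F' ∧ (K.vis x F ∨ K.vis x F') ∧ (K.vis c F ∨ K.vis c F') ∧
      (K.vis y F ∨ K.vis y F')) ∨
    (∃ e : Finset ι, e.card = 2 ∧ (∀ F ∈ St K W e, K.vis x F ∨ K.vis c F ∨ K.vis y F) ∧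
      PairAt K W e x c ∧ PairAt K W e x y ∧ PairAt K W e c y) := by
  obtain ⟨u1, hu1, u2, hu2, h12, lx, x1, x2, xp, xx, xc, xy⟩ :=
    first hs hW hx hc hy hxc hxy hcy fx fc fy fpos
  have xnn : ∀ i ∈ W, 0 ≤ ev u b i lx := by
    intro i hi
    by_cases h1 : i = u1
    · rw [h1, x1]
    by_cases h2 : i = u2
    · rw [h2, x2]
    exact (xp i (mem_erase.2 ⟨h2, mem_erase.2 ⟨h1, hi⟩⟩)).le
  have x0 : lx ≠ 0 := by
    intro h0
    rw [h0, ev_zero] at xx
    linarith
  have x2p := snd_pos hs x0 fun i hi => xnn i (hW hi)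
  have hI := ind hs x0 (fun i hi => xnn i (hW hi)) (Z := {u1, u2, c, y}) (by
    intro j hj
    simp only [mem_insert, mem_singleton] at hj
    rcases hj with rfl | rfl | rfl | rfl
    · exact x1
    · exact x2
    · exact xc
    · exact xy)
  have n1 : c ∉ ({y} : Finset ι) := by
    rw [mem_singleton]
    exact hcy
  have n3 : ∀ z ∈ W, z ∉ ({c, y} : Finset ι) := by
    intro z hz
    rw [mem_insert, mem_singleton]
    rintro (h | h)
    · exact hc (h ▸ hz)
    · exact hy (h ▸ hz)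
  have n4 : u1 ∉ ({u2, c, y} : Finset ι) := by
    rw [mem_insert]
    rintro (h | h)
    · exact h12 h
    · exact n3 u1 hu1 h
  have c4 : ({u1, u2, c, y} : Finset ι).card = 4 := by
    rw [card_insert_of_notMem n4, card_insert_of_notMem (n3 u2 hu2), card_insert_of_notMem n1,
      card_singleton]
  have ex5 : ∀ t : ι → ℝ, ∃ h : E4 × ℝ, ev u b u1 h = t u1 ∧ ev u b u2 h = t u2 ∧
      ev u b x h = t x ∧ ev u b c h = t c ∧ ev u b y h = t y := by
    intro t
    obtain ⟨d, hd⟩ := solve (b := b) hI t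
    refine ⟨(d, 0) + (ev u b x (d, 0) - t x) • lx, ?_, ?_, ?_, ?_, ?_⟩
    · rw [ev_add, ev_smul, x1, hd u1 (by simp)]
      ring
    · rw [ev_add, ev_smul, x2, hd u2 (by simp)]
      ring
    · rw [ev_add, ev_smul, xx]
      ring
    · rw [ev_add, ev_smul, xc, hd c (by simp)]
      ring
    · rw [ev_add, ev_smul, xy, hd y (by simp)]
      ring
  have zero5 : ∀ h : E4 × ℝ, ev u b u1 h = 0 → ev u b u2 h = 0 → ev u b x h = 0 →
      ev u b c h = 0 → ev u b y h = 0 → h = 0 := by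
    intro h h1 h2 h3 h4 h5
    set k : E4 × ℝ := h - (h.2 / lx.2) • lx with hk
    have hk2 : k.2 = 0 := by
      rw [hk, Prod.snd_sub, Prod.smul_snd, smul_eq_mul, div_mul_cancel₀ _ x2p.ne', sub_self]
    have hk1 : k.1 = 0 := by
      refine orth_zero hI c4 fun i hi => ?_
      have h6 : ev u b i k = 0 := by
        rw [hk, ev_sub_smul]
        simp only [mem_insert, mem_singleton] at hi
        rcases hi with rfl | rfl | rfl | rfl
        · rw [h1, x1]; ring
        · rw [h2, x2]; ring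
        · rw [h4, xc]; ring
        · rw [h5, xy]; ring
      rw [ev, hk2] at h6
      linarith
    have hk0 : k = 0 := Prod.ext hk1 hk2
    have h6 : h = (h.2 / lx.2) • lx := sub_eq_zero.1 (hk ▸ hk0)
    have h7 : ev u b x k = 0 := by rw [hk0, ev_zero]
    rw [hk, ev_sub_smul, h3, xx] at h7
    have h8 : h.2 / lx.2 = 0 := by linarith
    rw [h6, h8, zero_smul]
  have nx1 : u1 ≠ x := fun h => hx (h ▸ hu1)
  have nx2 : u2 ≠ x := fun h => hx (h ▸ hu2)
  have nc1 : u1 ≠ c := fun h => hc (h ▸ hu1)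
  have nc2 : u2 ≠ c := fun h => hc (h ▸ hu2)
  have ny1 : u1 ≠ y := fun h => hy (h ▸ hu1)
  have ny2 : u2 ≠ y := fun h => hy (h ▸ hu2)
  obtain ⟨lc, c1, c2, cx, cc, cy⟩ := ex5 (fun z => if z = c then -1 else 0)
  obtain ⟨ly, y1, y2, yx, yc, yy⟩ := ex5 (fun z => if z = y then -1 else 0)
  rw [if_neg nc1] at c1
  rw [if_neg nc2] at c2
  rw [if_neg hxc] at cx
  rw [if_pos rfl] at cc
  rw [if_neg hcy.symm] at cy
  rw [if_neg ny1] at y1
  rw [if_neg ny2] at y2
  rw [if_neg hxy] at yx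
  rw [if_neg hcy] at yc
  rw [if_pos rfl] at yy
  by_cases hcp : ∀ i ∈ (W.erase u1).erase u2, 0 < ev u b i lc
  · by_cases hyp : ∀ i ∈ (W.erase u1).erase u2, 0 < ev u b i ly
    · refine Or.inr ⟨{u1, u2}, card_pair h12, ?_,
        pair_at hK hs hW hu1 hu2 h12 x1 x2 c1 c2 y1 y2 hyp hx hc xx cx yx xc cc yc,
        pair_at hK hs hW hu1 hu2 h12 x1 x2 y1 y2 c1 c2 hcp hx hy xx yx cx xy yy cy,
        pair_at hK hs hW hu1 hu2 h12 c1 c2 y1 y2 x1 x2 xp hc hy cc yc xc cy yy xy⟩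
      intro F hF
      obtain ⟨hFc, heF⟩ := mem_St.1 hF
      have hF1 : u1 ∈ F := heF (by simp)
      have hF2 : u2 ∈ F := heF (by simp)
      obtain ⟨p, hp⟩ := mem_fct hK hs.four hFc
      by_contra hcon
      rw [not_or, not_or] at hcon
      have nn : ∀ z ∉ W, ¬ K.vis z F → 0 ≤ ev u b z (p, 1) := by
        intro z hz hv
        rw [vis_iff hK hs hW hp (fun h => hz (hp.1 h)), not_lt] at hv
        exact hv
      have px := nn x hx hcon.1
      have pc := nn c hc hcon.2.1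
      have py := nn y hy hcon.2.2
      set h : E4 × ℝ := (p, 1) with hh
      set k : E4 × ℝ := h + ev u b x h • lx + ev u b c h • lc + ev u b y h • ly with hk
      have ek : ∀ i, ev u b i k = ev u b i h + ev u b x h * ev u b i lx +
          ev u b c h * ev u b i lc + ev u b y h * ev u b i ly := by
        intro i
        rw [hk, ev_add, ev_add, ev_add, ev_smul, ev_smul, ev_smul]
      have hzero : k = 0 := by
        refine zero5 k ?_ ?_ ?_ ?_ ?_
        · rw [ek, hp.2.2.1 _ hF1, x1, c1, y1]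
          ring
        · rw [ek, hp.2.2.1 _ hF2, x2, c2, y2]
          ring
        · rw [ek, xx, cx, yx]
          ring
        · rw [ek, xc, cc, yc]
          ring
        · rw [ek, xy, cy, yy]
          ring
      obtain ⟨w, hw⟩ := sdiff_ne hs hW hp.2.1.le
      rw [mem_sdiff] at hw
      have hw' : w ∈ (W.erase u1).erase u2 := mem_erase.2 ⟨fun h => hw.2 (h ▸ hF2),
        mem_erase.2 ⟨fun h => hw.2 (h ▸ hF1), hw.1⟩⟩
      have q0 := hp.2.2.2 w hw.1 hw.2
      have q1 := mul_nonneg px (xp w hw').le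
      have q2 := mul_nonneg pc (hcp w hw').le
      have q3 := mul_nonneg py (hyp w hw').le
      have q4 := ek w
      rw [hzero, ev_zero] at q4
      linarith
    · push Not at hyp
      obtain ⟨w, hw, hwy⟩ := hyp
      obtain ⟨R, F, F', h3, h4⟩ := third hK hs hW hu1 hu2 h12 x1 x2 y1 y2 xp hw hwy yy xy
      exact Or.inl ⟨R, F, F', h3, h4 x hx (by rw [xx]; norm_num) (by rw [yx]),
        h4 c hc (by rw [xc]) (by rw [yc]), h4 y hy (by rw [xy]) (by rw [yy]; norm_num)⟩
  · push Not at hcp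
    obtain ⟨w, hw, hwc⟩ := hcp
    obtain ⟨R, F, F', h3, h4⟩ := third hK hs hW hu1 hu2 h12 x1 x2 c1 c2 xp hw hwc cc xc
    exact Or.inl ⟨R, F, F', h3, h4 x hx (by rw [xx]; norm_num) (by rw [cx]),
      h4 c hc (by rw [xc]) (by rw [cc]; norm_num), h4 y hy (by rw [xy]) (by rw [cy])⟩

theorem PairAt.symm {W e : Finset ι} {z z' : ι} (h : PairAt K W e z z') : PairAt K W e z' z := by
  obtain ⟨F, hF, F', hF', h1, h2, h3⟩ := h
  exact ⟨F, hF, F', hF', h1, h3, h2⟩

theorem PairAt.left {W e : Finset ι} {z z' : ι} (h : PairAt K W e z z') : PairAt K W e z z := by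
  obtain ⟨F, hF, F', hF', h1, h2, h3⟩ := h
  exact ⟨F, hF, F', hF', h1, h2, h2⟩

end GLoc

open GLoc in
/-- **locality.** -/
theorem g_loc {u : ι → E4} {b : ι → ℝ} {S0 : Finset ι} {K : Conf ι} (hK : Of K u b)
    (h4 : ∀ p : E4, (act u b p).card ≤ 4) (h5 : S0.card = 5)
    (hb : Bornology.IsBounded {p : E4 | ∀ i ∈ S0, ⟪u i, p⟫_ℝ ≤ b i})
    {z : Fin 3 → ι} (hz : Function.Injective z) {p0 : E4} (hp0 : ∀ i, ⟪u i, p0⟫_ℝ ≤ b i)
    (ha : ∀ i, ⟪u i, p0⟫_ℝ = b i ↔ ∃ j, i = z j) {W : Finset ι} (hW : S0 ⊆ W)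
    (hzW : ∀ j, z j ∉ W) : Loc K W z := by
  have hs : Sy u b S0 := ⟨h4, h5, hb, p0, fun i _ => hp0 i⟩
  have n01 : z 0 ≠ z 1 := fun h => absurd (hz h) (by decide)
  have n02 : z 0 ≠ z 2 := fun h => absurd (hz h) (by decide)
  have n12 : z 1 ≠ z 2 := fun h => absurd (hz h) (by decide)
  have hf : ∀ j, ev u b (z j) (p0, 1) = 0 := by
    intro j
    rw [ev_pt, (ha (z j)).2 ⟨j, rfl⟩, sub_self]
  rcases cases hK hs hW (hzW 0) (hzW 1) (hzW 2) n01 n02 n12 (f := (p0, 1)) (hf 0) (hf 1) (hf 2)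
    (by
      intro i hi
      rw [ev_pt]
      have h1 : ⟪u i, p0⟫_ℝ ≠ b i := by
        intro h1
        obtain ⟨j, rfl⟩ := (ha i).1 h1
        exact hzW j hi
      have h2 := lt_of_le_of_ne (hp0 i) h1
      linarith) with h | h
  · obtain ⟨R, F, F', ⟨h1, h2, h3, h6, h7⟩, k0, k1, k2⟩ := h
    refine Or.inl ⟨F, h6, F', h7, ?_, ?_⟩
    · rw [← h1]
      exact card_le_card (subset_inter h2 h3)
    · intro i
      fin_cases i
      · exact k0
      · exact k1
      · exact k2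
  · obtain ⟨e, he, hall, k01, k02, k12⟩ := h
    refine Or.inr ⟨e, he, ?_, ?_, ?_⟩
    · obtain ⟨F, hF, -⟩ := k01
      exact ⟨F, hF⟩
    · intro F hF
      rcases hall F hF with h1 | h1 | h1
      · exact ⟨0, h1⟩
      · exact ⟨1, h1⟩
      · exact ⟨2, h1⟩
    · intro i j
      fin_cases i <;> fin_cases j
      · exact k01.left
      · exact k01
      · exact k02
      · exact k01.symm
      · exact k12.left
      · exact k12
      · exact k02.symm
      · exact k12.symm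
      · exact k12.symm.left

end Pool.Agent.F32P
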