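import Pool.Agent.F32P.G_Tr

/-!
# F32P: the properties `OK` of the configurations of systems of inequalities (helper40)
-/

set_option autoImplicit false

namespace Pool.Agent.F32P

open Finset
open QMark (E4)
open scoped InnerProductSpace

section
variable {κ : Type} [Fintype κ] [DecidableEq κ] {u : κ → E4} {b : κ → ℝ}

/-- a closed set of vertices over `x` contains the minimal vertex -/
theorem exist_cl (h : QMark.SP u b) (g : QMark.Gen u b) {x : Finset κ}
    {S : Finset (Finset κ)} (hS : ∀ t ∈ S, t ∈ QMark.tets u b ∧ x ⊆ t) (hne : S.Nonempty)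
    (hcl : ∀ s ∈ S, ∀ t ∈ QMark.tets u b, x ⊆ t → (s ∩ t).card = 3 → t ∈ S) :
    ∃ t ∈ S, t \ x ⊆ g.U t := by
  have hpt : ∀ t ∈ QMark.tets u b, ∃ p ∈ QMark.Poly u b, QMark.act u b p = t :=
    fun t ht => (QMark.mem_tets.mp ht).2
  choose! pt hpt1 hpt2 using hpt
  obtain ⟨t, ht, hmin⟩ := exists_min_image S (fun t => ⟪g.w, pt t⟫_ℝ) hne
  obtain ⟨ht1, hxt⟩ := hS t ht
  refine ⟨t, ht, ?_⟩
  intro d hd
  rw [mem_sdiff] at hd
  rw [QMark.Gen.mem_U]
  refine ⟨hd.1, ?_⟩
  by_contra hcon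
  obtain ⟨d', hd', hT, -⟩ := QMark.tet_flip h ht1 hd.1
  have hint : t ∩ insert d' (t.erase d) = t.erase d := by
    ext i
    rw [mem_inter, mem_insert, mem_erase]
    constructor
    · rintro ⟨h1, h2 | h2⟩
      · exact absurd (h2 ▸ h1) hd'
      · exact h2
    · intro h1
      exact ⟨h1.2, Or.inr h1⟩
  have hle := hmin _ (hcl t ht _ hT (fun i hi =>
    mem_insert_of_mem (mem_erase.mpr ⟨fun e => hd.2 (e ▸ hi), hxt hi⟩)) (by
      rw [hint, card_erase_of_mem hd.1, (QMark.mem_tets.1 ht1).1]))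
  have hpos : 0 < g.c t d := lt_of_le_of_ne (not_lt.mp hcon) (g.hc t ht1 d hd.1).symm
  have hphi := g.phi ht1 (hpt2 t ht1) (pt (insert d' (t.erase d)))
  rw [← add_sum_erase t _ hd.1, sum_eq_zero, add_zero] at hphi
  · have h1 := hpt1 _ hT d
    have h2 : ⟪u d, pt (insert d' (t.erase d))⟫_ℝ ≠ b d := by
      intro hc
      have h3 : d ∈ QMark.act u b (pt (insert d' (t.erase d))) := QMark.mem_act.mpr hc
      rw [hpt2 _ hT, mem_insert] at h3
      rcases h3 with h3 | h3
      · exact hd' (h3 ▸ hd.1)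
      · exact notMem_erase _ _ h3
    have h3 : ⟪u d, pt (insert d' (t.erase d))⟫_ℝ < b d := lt_of_le_of_ne h1 h2
    have h4 : g.c t d * (⟪u d, pt (insert d' (t.erase d))⟫_ℝ - b d) < 0 :=
      mul_neg_of_pos_of_neg hpos (by linarith)
    linarith
  · intro i hi
    have h3 : i ∈ QMark.act u b (pt (insert d' (t.erase d))) := by
      rw [hpt2 _ hT]
      exact mem_insert_of_mem hi
    rw [QMark.mem_act.mp h3, sub_self, mul_zero]

/-- the vertices over `x` are connected -/
theorem conn_tets (h : QMark.SP u b) {x : Finset κ}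
    {S : Finset (Finset κ)} (hS : ∀ t ∈ S, t ∈ QMark.tets u b ∧ x ⊆ t) (hne : S.Nonempty)
    (hcl : ∀ s ∈ S, ∀ t ∈ QMark.tets u b, x ⊆ t → (s ∩ t).card = 3 → t ∈ S) :
    ∀ t ∈ QMark.tets u b, x ⊆ t → t ∈ S := by
  obtain ⟨g⟩ := QMark.exists_gen h
  intro t1 ht1 hx1
  by_contra hn
  obtain ⟨t, ht, hU⟩ := exist_cl h g hS hne hcl
  obtain ⟨t', ht', hU'⟩ := exist_cl h g
    (S := (QMark.tets u b).filter fun t => x ⊆ t ∧ t ∉ S) (x := x)
    (fun t ht => by
      rw [mem_filter] at ht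
      exact ⟨ht.1, ht.2.1⟩) ⟨t1, mem_filter.2 ⟨ht1, hx1, hn⟩⟩ (by
      intro s hs t ht hxt hc
      rw [mem_filter] at hs ⊢
      refine ⟨ht, hxt, fun htS => hs.2.2 ?_⟩
      exact hcl t htS s hs.1 hs.2.1 (by rw [inter_comm]; exact hc))
  rw [mem_filter] at ht'
  have := g.uniq (hS t ht).1 ht'.1 (hS t ht).2 ht'.2.1 hU hU'
  exact ht'.2.2 (this ▸ ht)

/-- normal vertices -/
theorem normal_tet {D : ℕ} {t : Finset κ} (ht : t ∈ QMark.tets u b)
    (h1 : t ∉ QMark.bad u b (QMark.big u b D)) (h2 : t ∉ QMark.nrq u b D) :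
    ∃ e ⊆ t, e.card = 2 ∧ D ≤ QMark.size u b e ∧ D ≤ QMark.size u b (t \ e) ∧
      ∀ f ⊆ t, f.card = 2 → f ≠ e → f ≠ t \ e → QMark.size u b f = 4 := by
  have hG : QMark.Good (QMark.big u b D) t := by
    by_contra hc
    apply h1
    classical
    rw [QMark.bad, mem_filter]
    exact ⟨ht, hc⟩
  obtain ⟨e, he, hc, hM⟩ := hG
  have m1 : e ∈ (QMark.big u b D).filter fun x => x ⊆ t := by rw [hM]; simp
  have m2 : t \ e ∈ (QMark.big u b D).filter fun x => x ⊆ t := by rw [hM]; simp
  rw [mem_filter, QMark.big, mem_filter] at m1 m2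
  refine ⟨e, he, hc, m1.1.2, m2.1.2, fun f hf hf2 hne hne' => ?_⟩
  have hff : f ∈ QMark.faces u b 2 := QMark.mem_faces.2 ⟨hf2, t, ht, hf⟩
  have hlt : QMark.size u b f < D := by
    by_contra hcon
    have : f ∈ (QMark.big u b D).filter fun x => x ⊆ t := by
      rw [mem_filter, QMark.big, mem_filter]
      exact ⟨⟨hff, not_lt.1 hcon⟩, hf⟩
    rw [hM, mem_insert, mem_singleton] at this
    rcases this with h | h
    · exact hne h
    · exact hne' h
  by_contra h4
  apply h2
  rw [QMark.nrq, mem_filter]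
  exact ⟨ht, f, mem_filter.2 ⟨hff, h4⟩, hlt, hf⟩

theorem norm_tets (h : QMark.SP u b) {D : ℕ} (hD : 1 ≤ D) {B : Finset (Finset κ)}
    (hB : ∀ t ∈ B, t ∈ QMark.tets u b ∧
      ¬ ∃ e ⊆ t, e.card = 2 ∧ D ≤ QMark.size u b e ∧ D ≤ QMark.size u b (t \ e) ∧
        ∀ f ⊆ t, f.card = 2 → f ≠ e → f ≠ t \ e → QMark.size u b f = 4) :
    B.card * D ≤ 8 * Fintype.card κ * D + 6 * (QMark.nonq u b).card * D ^ 2 +
      270 * (Fintype.card κ * (Fintype.card κ + 1)) := by
  have h1 : B ⊆ QMark.bad u b (QMark.big u b D) ∪ QMark.nrq u b D := by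
    intro t ht
    obtain ⟨h1, h2⟩ := hB t ht
    rw [mem_union]
    by_contra hc
    push Not at hc
    exact h2 (normal_tet h1 hc.1 hc.2)
  have h2 := (card_le_card h1).trans (card_union_le _ _)
  have h3 := QMark.partIII h D
  have h4 := QMark.nrq_card (u := u) (b := b) D
  have h5 := QMark.big_card h D
  obtain ⟨d, rfl⟩ : ∃ d, D = d + 1 := ⟨D - 1, by omega⟩
  simp only [Nat.add_sub_cancel] at h3 h4
  set N := (QMark.nonq u b).card
  set n := Fintype.card κ
  set G := (QMark.big u b (d + 1)).card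
  have h6 : B.card ≤ 8 * n + 6 * (N * d) + 90 * G := by omega
  calc B.card * (d + 1) ≤ (8 * n + 6 * (N * d) + 90 * G) * (d + 1) := Nat.mul_le_mul_right _ h6
    _ = 8 * n * (d + 1) + 6 * N * (d * (d + 1)) + 90 * (G * (d + 1)) := by ring
    _ ≤ 8 * n * (d + 1) + 6 * N * (d + 1) ^ 2 + 90 * (3 * (n * (n + 1))) := by
        have : d * (d + 1) ≤ (d + 1) ^ 2 := by nlinarith
        have := Nat.mul_le_mul_left (6 * N) this
        omega
    _ = _ := by ring

end

section
variable {ι : Type} [Fintype ι] [DecidableEq ι] {u : ι → E4} {b : ι → ℝ}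

omit [Fintype ι] in
theorem map_sdiff_em (W : Finset ι) (t e : Finset {i // i ∈ W}) :
    (t \ e).map (em W) = t.map (em W) \ e.map (em W) := by
  ext i
  by_cases hi : i ∈ W
  · rw [mem_map_em hi, mem_sdiff, mem_sdiff, mem_map_em hi, mem_map_em hi]
  · constructor
    · intro h
      exact absurd (map_sub W _ h) hi
    · intro h
      exact absurd (map_sub W _ (mem_sdiff.1 h).1) hi

/-- **OK.** -/
theorem ok_conf (hact : ∀ p, (QMark.act u b p).card ≤ 4) {S0 : Finset ι} (h5 : S0.card = 5)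
    (hbd : Bornology.IsBounded {p : E4 | ∀ i ∈ S0, ⟪u i, p⟫_ℝ ≤ b i}) :
    OK (conf u b) S0 where
  card0 := h5
  irr := fun x s hx h => h.1 hx
  ridge := by
    intro W hW s hs d hd
    obtain ⟨t, rfl⟩ := exists_map (mem_Fc.1 hs).1
    have ht := (mem_tets_iff hact hbd hW).2 hs
    obtain ⟨d, hd1, rfl⟩ := mem_map.1 hd
    obtain ⟨d', h1, h2, h3⟩ := QMark.tet_flip (sp_res hact hbd hW) ht hd1
    have e1 : (insert d' (t.erase d)).map (em W) = insert (em W d') ((t.map (em W)).erase (em W d)) := by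
      rw [map_insert, map_erase]
    refine ⟨em W d', ?_, ?_, ?_⟩
    · rw [mem_map']
      exact h1
    · rw [← e1]
      exact (mem_tets_iff hact hbd hW).1 h2
    · intro t' ht' hsub
      obtain ⟨r, rfl⟩ := exists_map (mem_Fc.1 ht').1
      rw [← map_erase, map_subset_map] at hsub
      rcases h3 r ((mem_tets_iff hact hbd hW).2 ht') hsub with h4 | h4
      · exact Or.inl (by rw [h4])
      · exact Or.inr (by rw [h4, e1])
  conn := by
    intro W hW e _ S hS hne hcl
    refine Subset.antisymm hS fun s hs => ?_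
    rw [mem_St] at hs
    obtain ⟨t, rfl⟩ := exists_map (mem_Fc.1 hs.1).1
    obtain ⟨x, rfl⟩ := exists_map (hs.2.trans (map_sub W t))
    have hx : x ⊆ t := map_subset_map.1 hs.2
    set S' : Finset (Finset {i // i ∈ W}) := (QMark.tets (ru u W) (rb b W)).filter
      fun t => t.map (em W) ∈ S with hS'
    have key := conn_tets (sp_res hact hbd hW) (x := x) (S := S') (by
      intro t ht
      rw [hS', mem_filter] at ht
      exact ⟨ht.1, map_subset_map.1 (mem_St.1 (hS ht.2)).2⟩) (by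
      obtain ⟨r, hr⟩ := hne
      have hr1 := (mem_St.1 (hS hr)).1
      obtain ⟨r', rfl⟩ := exists_map (mem_Fc.1 hr1).1
      exact ⟨r', mem_filter.2 ⟨(mem_tets_iff hact hbd hW).2 hr1, hr⟩⟩) (by
      intro s hs t ht hxt hc
      rw [hS', mem_filter] at hs ⊢
      refine ⟨ht, hcl _ hs.2 _ (mem_St.2 ⟨(mem_tets_iff hact hbd hW).1 ht,
        map_subset_map.2 hxt⟩) ?_⟩
      rw [← map_inter, card_map]
      exact hc) t ((mem_tets_iff hact hbd hW).2 hs.1) hx
    rw [hS', mem_filter] at key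
    exact key.2
  f3 := by
    intro W hW
    rw [Fc_eq hact hbd hW, card_map]
    have h1 := QMark.f0_le (sp_res hact hbd hW)
    have h2 := QMark.faces_two_le (u := ru u W) (b := rb b W)
    rw [Fintype.card_coe] at h1 h2
    have h3 : 1 ≤ W.card := by
      have := card_le_card hW
      omega
    obtain ⟨n, hn⟩ : ∃ n, W.card = n + 1 := ⟨W.card - 1, by omega⟩
    rw [hn] at h1 h2 ⊢
    rw [Nat.add_sub_cancel] at h2
    nlinarith
  norm := by
    intro W hW D hD
    classical
    rw [nonq_eq hact hbd hW, card_map]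
    have h1 : ((Fc (conf u b) W).filter fun s => ¬ NF (conf u b) W D s) =
        ((QMark.tets (ru u W) (rb b W)).filter fun t =>
          ¬ NF (conf u b) W D (t.map (em W))).map (mapEmbedding (em W)).toEmbedding := by
      rw [Fc_eq hact hbd hW, filter_map]
      rfl
    have h2 := norm_tets (sp_res hact hbd hW) (D := D) (by omega)
      (B := (QMark.tets (ru u W) (rb b W)).filter fun t =>
          ¬ NF (conf u b) W D (t.map (em W))) (by
      intro t ht
      rw [mem_filter] at ht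
      refine ⟨ht.1, ?_⟩
      rintro ⟨e, h1, h2, h3, h4, h5⟩
      apply ht.2
      refine ⟨e.map (em W), map_subset_map.2 h1, by rw [card_map]; exact h2, ?_, ?_, ?_⟩
      · rw [dg_eq hact hbd hW]
        exact h3
      · rw [← map_sdiff_em, dg_eq hact hbd hW]
        exact h4
      · intro f hf hf2 hne hne'
        obtain ⟨f, rfl⟩ := exists_map (hf.trans (map_sub W t))
        rw [dg_eq hact hbd hW]
        refine h5 f (map_subset_map.1 hf) (by rw [← hf2, card_map]) (fun e => hne (by rw [e]))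
          fun e => hne' ?_
        rw [e, map_sdiff_em])
    rw [h1, card_map]
    rw [Fintype.card_coe] at h2
    exact h2

end

end Pool.Agent.F32P
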