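import Pool.Agent.F32P.G_FIN
import Pool.Agent.F32P.G_OK
import Pool.Agent.F32P.G_Loc

/-!
# F32P: simple 4-polytopes from the abstract theorem (helper38)
-/

set_option autoImplicit false

namespace Pool.Agent.F32P

open Finset
open QMark (E4)
open scoped InnerProductSpace

theorem gok_all : GOK := fun _ _ _ _ _ _ hact h5 hbd => ok_conf hact h5 hbd

theorem gloc_all : GLoc := by
  intro ι _ _ u b S0 hact h5 hbd W z hW hzW hz p hp hpa
  refine g_loc (K := conf u b) ⟨fun s => Iff.rfl, fun x s => Iff.rfl⟩ hact h5 hbd hz hp ?_ hW hzW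
  intro i
  have h1 : i ∈ QMark.act u b p ↔ ∃ j, i = z j := by
    rw [hpa, mem_image]
    constructor
    · rintro ⟨j, -, rfl⟩
      exact ⟨j, rfl⟩
    · rintro ⟨j, rfl⟩
      exact ⟨j, mem_univ _, rfl⟩
  rw [← h1, QMark.mem_act]

/-- **everything but the abstract theorem** -/
theorem g_all (hAT : S_AT) : F32.PS.StmtT := g_fin hAT F32.G4.f1 gok_all gloc_all

end Pool.Agent.F32P
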