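import Pool.Agent.F32P.AT
import Pool.Agent.F32P.G_ALL

/-!
# F32P: closed form (helper35)
-/

set_option autoImplicit false

namespace Pool.Agent.F32P

/-- power saving for edge-disjoint triangles -/
theorem stmtT : F32.PS.StmtT := g_all main_at

end Pool.Agent.F32P
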