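import Mathlib

/-!
# F32P: power saving (helper35). Abstract configurations

`Conf`: which 4-sets have a vertex (`P s`), which elements cut off this vertex (`vis x s`).
`Fc K W`: the facets of `W` (4-subsets of `W` with a vertex which no element of `W` cuts off).
`OK K S0`: the properties of the configurations which come from simple systems of inequalities in
dimension 4 (`S0`: five auxiliary inequalities, contained in all the sets `W`).
-/

set_option autoImplicit false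

namespace Pool.Agent.F32P

open Finset

/-- `P s`: the 4-set `s` has a vertex; `vis x s`: the element `x` cuts off this vertex -/
structure Conf (ι : Type) where
  P : Finset ι → Prop
  vis : ι → Finset ι → Prop

variable {ι : Type} [DecidableEq ι]

open Classical in
/-- the facets of `W` -/
noncomputable def Fc (K : Conf ι) (W : Finset ι) : Finset (Finset ι) :=
  (W.powersetCard 4).filter fun s => K.P s ∧ ∀ x ∈ W, ¬ K.vis x s

theorem mem_Fc {K : Conf ι} {W s : Finset ι} :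
    s ∈ Fc K W ↔ s ⊆ W ∧ s.card = 4 ∧ K.P s ∧ ∀ x ∈ W, ¬ K.vis x s := by
  classical
  simp [Fc, mem_powersetCard, and_assoc]

/-- the facets of `W` over `e` -/
noncomputable def St (K : Conf ι) (W e : Finset ι) : Finset (Finset ι) :=
  (Fc K W).filter fun s => e ⊆ s

theorem mem_St {K : Conf ι} {W e s : Finset ι} : s ∈ St K W e ↔ s ∈ Fc K W ∧ e ⊆ s := by
  simp [St]

/-- the degree of `e` -/
noncomputable def dg (K : Conf ι) (W e : Finset ι) : ℕ := (St K W e).card

/-- the edges of `W` -/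
noncomputable def Ed (K : Conf ι) (W : Finset ι) : Finset (Finset ι) :=
  (W.powersetCard 2).filter fun e => 0 < dg K W e

/-- the edges of degree different from 4 -/
noncomputable def nonq (K : Conf ι) (W : Finset ι) : Finset (Finset ι) :=
  (W.powersetCard 2).filter fun e => 0 < dg K W e ∧ dg K W e ≠ 4

/-- normal facet: two opposite edges have degree at least `D`, the four others have degree 4 -/
def NF (K : Conf ι) (W : Finset ι) (D : ℕ) (s : Finset ι) : Prop :=
  ∃ e ⊆ s, e.card = 2 ∧ D ≤ dg K W e ∧ D ≤ dg K W (s \ e) ∧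
    ∀ f ⊆ s, f.card = 2 → f ≠ e → f ≠ s \ e → dg K W f = 4

/-- properties of the configurations given by simple systems of inequalities -/
structure OK (K : Conf ι) (S0 : Finset ι) : Prop where
  card0 : S0.card = 5
  irr : ∀ x s, x ∈ s → ¬ K.vis x s
  ridge : ∀ W, S0 ⊆ W → ∀ s ∈ Fc K W, ∀ d ∈ s, ∃ d', d' ∉ s ∧ insert d' (s.erase d) ∈ Fc K W ∧
    ∀ t ∈ Fc K W, s.erase d ⊆ t → t = s ∨ t = insert d' (s.erase d)
  conn : ∀ W, S0 ⊆ W → ∀ e : Finset ι, e.card = 2 → ∀ S ⊆ St K W e, S.Nonempty →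
    (∀ s ∈ S, ∀ t ∈ St K W e, (s ∩ t).card = 3 → t ∈ S) → S = St K W e
  f3 : ∀ W, S0 ⊆ W → (Fc K W).card ≤ W.card ^ 2
  norm : ∀ W, S0 ⊆ W → ∀ D : ℕ, 5 ≤ D →
    open Classical in
    ((Fc K W).filter fun s => ¬ NF K W D s).card * D ≤
      8 * W.card * D + 6 * (nonq K W).card * D ^ 2 + 270 * (W.card * (W.card + 1))

/-- the edges of degree `≠ 4` are few -/
def Flat (m0 : ℝ → ℕ) (K : Conf ι) (S0 : Finset ι) : Prop :=
  ∀ ε : ℝ, 0 < ε → ∀ W, S0 ⊆ W → m0 ε ≤ W.card → ((nonq K W).card : ℝ) ≤ ε * (W.card : ℝ) ^ 2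

/-- the triple `z` is local at `W` -/
def Loc (K : Conf ι) (W : Finset ι) (z : Fin 3 → ι) : Prop :=
  (∃ F ∈ Fc K W, ∃ F' ∈ Fc K W, 3 ≤ (F ∩ F').card ∧ ∀ i, K.vis (z i) F ∨ K.vis (z i) F') ∨
  (∃ e : Finset ι, e.card = 2 ∧ (St K W e).Nonempty ∧ (∀ F ∈ St K W e, ∃ i, K.vis (z i) F) ∧
    ∀ i j, ∃ F ∈ St K W e, ∃ F' ∈ St K W e, 3 ≤ (F ∩ F').card ∧
      (K.vis (z i) F ∨ K.vis (z i) F') ∧ (K.vis (z j) F ∨ K.vis (z j) F'))

/-- a system of edge-disjoint local triples in `X 0 × X 1 × X 2` -/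
structure Inst (K : Conf ι) (S0 : Finset ι) (X : Fin 3 → Finset ι) (T : Finset (Fin 3 → ι)) :
    Prop where
  mem : ∀ z ∈ T, ∀ i, z i ∈ X i
  inj : ∀ i j, i ≠ j → ∀ z ∈ T, ∀ z' ∈ T, z i = z' i → z j = z' j → z = z'
  loc : ∀ z ∈ T, ∀ W, S0 ⊆ W → (∀ i, z i ∉ W) → Loc K W z

/-- **MAIN ABSTRACT THEOREM.** -/
def S_AT : Prop := ∀ m0 : ℝ → ℕ, ∃ κ : ℝ, 0 < κ ∧ κ < 2 / 3 ∧ ∃ Φ : ℝ, 0 < Φ ∧
  ∀ (ι : Type) [Fintype ι] [DecidableEq ι] (K : Conf ι) (S0 : Finset ι), OK K S0 →
  Flat m0 K S0 → ∀ (X : Fin 3 → Finset ι) (T : Finset (Fin 3 → ι)), Inst K S0 X T →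
  (T.card : ℝ) ≤ Φ * (∏ i, ((X i).card : ℝ)) ^ κ

/-! ### The other vertex of a ridge -/

open Classical in
/-- the other vertex of the ridge `R` -/
noncomputable def oth (K : Conf ι) (W R : Finset ι) (d : ι) : ι :=
  if h : ∃ d', d' ≠ d ∧ d' ∉ R ∧ insert d' R ∈ Fc K W then h.choose else d

theorem ridge' {K : Conf ι} {S0 : Finset ι} (h : OK K S0) {W : Finset ι} (hW : S0 ⊆ W)
    {R : Finset ι} {d : ι} (hd : d ∉ R) (hs : insert d R ∈ Fc K W) :
    oth K W R d ≠ d ∧ oth K W R d ∉ R ∧ insert (oth K W R d) R ∈ Fc K W ∧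
      ∀ t ∈ Fc K W, R ⊆ t → t = insert d R ∨ t = insert (oth K W R d) R := by
  obtain ⟨d', h1, h2, h3⟩ := h.ridge W hW _ hs d (mem_insert_self _ _)
  rw [erase_insert hd] at h2 h3
  have hex : ∃ d', d' ≠ d ∧ d' ∉ R ∧ insert d' R ∈ Fc K W :=
    ⟨d', fun e => h1 (e ▸ mem_insert_self _ _), fun e => h1 (mem_insert_of_mem e), h2⟩
  have hc := hex.choose_spec
  have he : oth K W R d = hex.choose := by rw [oth, dif_pos hex]
  rw [he]
  refine ⟨hc.1, hc.2.1, hc.2.2, fun t ht hR => ?_⟩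
  rcases h3 t ht hR with h4 | h4
  · exact Or.inl h4
  · refine Or.inr ?_
    rcases h3 _ hc.2.2 (subset_insert _ _) with h5 | h5
    · exfalso
      have : hex.choose ∈ insert d R := h5 ▸ mem_insert_self _ _
      rcases mem_insert.1 this with h6 | h6
      · exact hc.1 h6
      · exact hc.2.1 h6
    · rw [h4, h5]

theorem oth_oth {K : Conf ι} {S0 : Finset ι} (h : OK K S0) {W : Finset ι} (hW : S0 ⊆ W)
    {R : Finset ι} {d : ι} (hd : d ∉ R) (hs : insert d R ∈ Fc K W) :
    oth K W R (oth K W R d) = d := by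
  obtain ⟨h1, h2, h3, h4⟩ := ridge' h hW hd hs
  obtain ⟨g1, g2, g3, g4⟩ := ridge' h hW h2 h3
  rcases h4 _ g3 (subset_insert _ _) with h5 | h5
  · have : oth K W R (oth K W R d) ∈ insert d R := h5 ▸ mem_insert_self _ _
    rcases mem_insert.1 this with h6 | h6
    · exact h6
    · exact absurd h6 g2
  · exfalso
    have : oth K W R (oth K W R d) ∈ insert (oth K W R d) R := h5 ▸ mem_insert_self _ _
    rcases mem_insert.1 this with h6 | h6
    · exact g1 h6
    · exact g2 h6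

/-! ### Chambers -/

/-- ordered 4-tuples -/
abbrev Q4 (ι : Type) := ι × ι × ι × ι

/-- the underlying set -/
def fs (q : Q4 ι) : Finset ι := {q.1, q.2.1, q.2.2.1, q.2.2.2}

/-- the chambers of `W`: the ordered facets -/
abbrev Ch (K : Conf ι) (W : Finset ι) := {q : Q4 ι // fs q ∈ Fc K W}

theorem fs_four {v a w z : ι} (h : (fs (v, a, w, z)).card = 4) :
    v ≠ a ∧ v ≠ w ∧ v ≠ z ∧ a ≠ w ∧ a ≠ z ∧ w ≠ z := by
  have key : ∀ A : Finset ι, A.card ≤ 3 → fs (v, a, w, z) ⊆ A → False := fun A h1 h2 => by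
    have := card_le_card h2
    omega
  refine ⟨?_, ?_, ?_, ?_, ?_, ?_⟩ <;> rintro rfl <;> simp only [fs] at *
  · exact key {v, w, z} card_le_three (by intro i; simp)
  · exact key {v, a, z} card_le_three (by intro i; simp; tauto)
  · exact key {v, a, w} card_le_three (by intro i; simp; tauto)
  · exact key {v, a, z} card_le_three (by intro i; simp)
  · exact key {v, a, w} card_le_three (by intro i; simp; tauto)
  · exact key {v, a, w} card_le_three (by intro i; simp)

/-- reversal: exchange the last two elements -/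
def rv (q : Q4 ι) : Q4 ι := (q.1, q.2.1, q.2.2.2, q.2.2.1)
/-- exchange the first two elements -/
def sw (q : Q4 ι) : Q4 ι := (q.2.1, q.1, q.2.2.1, q.2.2.2)
/-- exchange the first and the last pair -/
def xc (q : Q4 ι) : Q4 ι := (q.2.2.1, q.2.2.2, q.1, q.2.1)

/-- the shift around the first pair: `(v, a, w, z) ↦ (v, a, z, w')` -/
noncomputable def tq (K : Conf ι) (W : Finset ι) (q : Q4 ι) : Q4 ι :=
  (q.1, q.2.1, q.2.2.2, oth K W {q.1, q.2.1, q.2.2.2} q.2.2.1)

/-- crossing the ridge `v w z`: `(v, a, w, z) ↦ (v, a', w, z)` -/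
noncomputable def pq (K : Conf ι) (W : Finset ι) (q : Q4 ι) : Q4 ι :=
  (q.1, oth K W {q.1, q.2.2.1, q.2.2.2} q.2.1, q.2.2.1, q.2.2.2)

theorem fs_rv (q : Q4 ι) : fs (rv q) = fs q := by
  ext i; simp only [fs, rv, mem_insert, mem_singleton]; tauto
theorem fs_sw (q : Q4 ι) : fs (sw q) = fs q := by
  ext i; simp only [fs, sw, mem_insert, mem_singleton]; tauto
theorem fs_xc (q : Q4 ι) : fs (xc q) = fs q := by
  ext i; simp only [fs, xc, mem_insert, mem_singleton]; tauto

theorem tq_spec {K : Conf ι} {S0 : Finset ι} (h : OK K S0) {W : Finset ι} (hW : S0 ⊆ W)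
    {v a w z : ι} (hq : fs (v, a, w, z) ∈ Fc K W) :
    oth K W {v, a, z} w ≠ w ∧ oth K W {v, a, z} w ∉ ({v, a, z} : Finset ι) ∧
      fs (tq K W (v, a, w, z)) ∈ Fc K W ∧
      (∀ t ∈ Fc K W, ({v, a, z} : Finset ι) ⊆ t → t = fs (v, a, w, z) ∨
        t = fs (tq K W (v, a, w, z))) ∧
      oth K W {v, a, z} (oth K W {v, a, z} w) = w := by
  obtain ⟨h1, h2, h3, h4, h5, h6⟩ := fs_four (mem_Fc.1 hq).2.1
  have hw : w ∉ ({v, a, z} : Finset ι) := by simp [h2.symm, h4.symm, h6]
  have e1 : insert w ({v, a, z} : Finset ι) = fs (v, a, w, z) := by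
    ext i; simp only [fs, mem_insert, mem_singleton]; tauto
  obtain ⟨g1, g2, g3, g4⟩ := ridge' h hW hw (e1 ▸ hq)
  have e2 : insert (oth K W {v, a, z} w) ({v, a, z} : Finset ι) = fs (tq K W (v, a, w, z)) := by
    ext i; simp only [fs, tq, mem_insert, mem_singleton]; tauto
  refine ⟨g1, g2, e2 ▸ g3, fun t ht hs => ?_, oth_oth h hW hw (e1 ▸ hq)⟩
  rw [← e1, ← e2]
  exact g4 t ht hs

theorem pq_spec {K : Conf ι} {S0 : Finset ι} (h : OK K S0) {W : Finset ι} (hW : S0 ⊆ W)
    {v a w z : ι} (hq : fs (v, a, w, z) ∈ Fc K W) :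
    oth K W {v, w, z} a ≠ a ∧ oth K W {v, w, z} a ∉ ({v, w, z} : Finset ι) ∧
      fs (pq K W (v, a, w, z)) ∈ Fc K W ∧
      (∀ t ∈ Fc K W, ({v, w, z} : Finset ι) ⊆ t → t = fs (v, a, w, z) ∨
        t = fs (pq K W (v, a, w, z))) ∧
      oth K W {v, w, z} (oth K W {v, w, z} a) = a := by
  obtain ⟨h1, h2, h3, h4, h5, h6⟩ := fs_four (mem_Fc.1 hq).2.1
  have hw : a ∉ ({v, w, z} : Finset ι) := by simp [h1.symm, h4, h5]
  have e1 : insert a ({v, w, z} : Finset ι) = fs (v, a, w, z) := by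
    ext i; simp only [fs, mem_insert, mem_singleton]; tauto
  obtain ⟨g1, g2, g3, g4⟩ := ridge' h hW hw (e1 ▸ hq)
  have e2 : insert (oth K W {v, w, z} a) ({v, w, z} : Finset ι) = fs (pq K W (v, a, w, z)) := by
    ext i; simp only [fs, pq, mem_insert, mem_singleton]; tauto
  refine ⟨g1, g2, e2 ▸ g3, fun t ht hs => ?_, oth_oth h hW hw (e1 ▸ hq)⟩
  rw [← e1, ← e2]
  exact g4 t ht hs

/-- the shift as a permutation of the chambers -/
noncomputable def tau {K : Conf ι} {S0 : Finset ι} (h : OK K S0) {W : Finset ι} (hW : S0 ⊆ W) :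
    Equiv.Perm (Ch K W) where
  toFun q := ⟨tq K W q.1, (tq_spec h hW (v := q.1.1) (a := q.1.2.1) (w := q.1.2.2.1)
    (z := q.1.2.2.2) q.2).2.2.1⟩
  invFun q := ⟨rv (tq K W (rv q.1)), by
    rw [fs_rv]
    exact (tq_spec h hW (v := q.1.1) (a := q.1.2.1) (w := q.1.2.2.2)
      (z := q.1.2.2.1) (by have := q.2; rw [← fs_rv] at this; exact this)).2.2.1⟩
  left_inv := by
    rintro ⟨⟨v, a, w, z⟩, hq⟩
    have := (tq_spec h hW hq).2.2.2.2
    simp only [tq, rv, this]
  right_inv := by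
    rintro ⟨⟨v, a, w, z⟩, hq⟩
    have hq' : fs (v, a, z, w) ∈ Fc K W := by rw [← fs_rv] at hq; exact hq
    have := (tq_spec h hW hq').2.2.2.2
    simp only [tq, rv, this]

/-- crossing the ridge `v w z` as a permutation of the chambers -/
noncomputable def pie {K : Conf ι} {S0 : Finset ι} (h : OK K S0) {W : Finset ι} (hW : S0 ⊆ W) :
    Equiv.Perm (Ch K W) where
  toFun q := ⟨pq K W q.1, (pq_spec h hW (v := q.1.1) (a := q.1.2.1) (w := q.1.2.2.1)
    (z := q.1.2.2.2) q.2).2.2.1⟩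
  invFun q := ⟨pq K W q.1, (pq_spec h hW (v := q.1.1) (a := q.1.2.1) (w := q.1.2.2.1)
    (z := q.1.2.2.2) q.2).2.2.1⟩
  left_inv := by
    rintro ⟨⟨v, a, w, z⟩, hq⟩
    have := (pq_spec h hW hq).2.2.2.2
    simp only [pq, this]
  right_inv := by
    rintro ⟨⟨v, a, w, z⟩, hq⟩
    have := (pq_spec h hW hq).2.2.2.2
    simp only [pq, this]

/-- reversal as a permutation of the chambers -/
def rev (K : Conf ι) (W : Finset ι) : Equiv.Perm (Ch K W) where
  toFun q := ⟨rv q.1, by rw [fs_rv]; exact q.2⟩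
  invFun q := ⟨rv q.1, by rw [fs_rv]; exact q.2⟩
  left_inv := fun _ => rfl
  right_inv := fun _ => rfl

/-- exchange of the first two elements -/
def swp (K : Conf ι) (W : Finset ι) : Equiv.Perm (Ch K W) where
  toFun q := ⟨sw q.1, by rw [fs_sw]; exact q.2⟩
  invFun q := ⟨sw q.1, by rw [fs_sw]; exact q.2⟩
  left_inv := fun _ => rfl
  right_inv := fun _ => rfl

/-- exchange of the two pairs -/
def xch (K : Conf ι) (W : Finset ι) : Equiv.Perm (Ch K W) where
  toFun q := ⟨xc q.1, by rw [fs_xc]; exact q.2⟩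
  invFun q := ⟨xc q.1, by rw [fs_xc]; exact q.2⟩
  left_inv := fun _ => rfl
  right_inv := fun _ => rfl

/-- the facet of a chamber -/
def fq {K : Conf ι} {W : Finset ι} (q : Ch K W) : Finset ι := fs q.1

/-- the first pair of a chamber -/
def ep {K : Conf ι} {W : Finset ι} (q : Ch K W) : Finset ι := {q.1.1, q.1.2.1}

/-- the last pair of a chamber -/
def lq {K : Conf ι} {W : Finset ι} (q : Ch K W) : Finset ι := {q.1.2.2.1, q.1.2.2.2}

/-! ### Typical incidences, runs, exceptional incidences -/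

/-- strongly normal -/
def SN (K : Conf ι) (W : Finset ι) (D : ℕ) (s : Finset ι) : Prop :=
  NF K W D s ∧ ∀ e ⊆ s, e.card = 2 → dg K W e = 4 → ∀ t ∈ St K W e, NF K W D t

/-- typical incidence -/
def Typ (K : Conf ι) (W : Finset ι) (D : ℕ) (x : ι) (s : Finset ι) : Prop :=
  s ∈ Fc K W ∧ K.vis x s ∧ SN K W D s ∧
    ∀ e ⊆ s, e.card = 2 → dg K W e = 4 → dg K (insert x W) e = 4

/-- `x` runs through the chamber `q` around the first pair of `q` -/
def Rn {K : Conf ι} {S0 : Finset ι} (h : OK K S0) {W : Finset ι} (hW : S0 ⊆ W) (D : ℕ) (x : ι)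
    (q : Ch K W) : Prop :=
  Typ K W D x (fq q) ∧ D ≤ dg K W (ep q) ∧ K.vis x (fq (tau h hW q))

/-- a run of length `L` -/
def LRun {K : Conf ι} {S0 : Finset ι} (h : OK K S0) {W : Finset ι} (hW : S0 ⊆ W) (D L : ℕ)
    (x : ι) (q : Ch K W) : Prop := ∀ k < L, Rn h hW D x ((tau h hW ^ k) q)

/-- exceptional incidence -/
def Exc {K : Conf ι} {S0 : Finset ι} (h : OK K S0) {W : Finset ι} (hW : S0 ⊆ W) (D L : ℕ)
    (x : ι) (s : Finset ι) : Prop :=
  s ∈ Fc K W ∧ K.vis x s ∧ ¬ ∃ q : Ch K W, fq q = s ∧ LRun h hW D L x q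

/-- the neighbours of a facet -/
noncomputable def Nb (K : Conf ι) (W s : Finset ι) : Finset (Finset ι) :=
  (Fc K W).filter fun t => 3 ≤ (s ∩ t).card ∨ ∃ e ⊆ s ∩ t, e.card = 2 ∧ dg K W e = 4

section
variable [Fintype ι]

open Classical in
/-- the elements which see `s` -/
noncomputable def Vp (K : Conf ι) (s : Finset ι) : Finset ι := univ.filter fun x => K.vis x s

open Classical in
/-- the exceptional elements at `s` -/
noncomputable def ExS {K : Conf ι} {S0 : Finset ι} (h : OK K S0) {W : Finset ι} (hW : S0 ⊆ W)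
    (D L : ℕ) (s : Finset ι) : Finset ι := univ.filter fun x => Exc h hW D L x s

open Classical in
/-- the elements which see at least a third of the facets over `e` -/
noncomputable def Ie (K : Conf ι) (W e : Finset ι) : Finset ι :=
  univ.filter fun x => 0 < dg K W e ∧ dg K W e ≤ 3 * ((St K W e).filter fun s => K.vis x s).card

/-- the elements which see a facet over `e` -/
noncomputable def Se (K : Conf ι) (W e : Finset ι) : Finset ι := (St K W e).biUnion (Vp K)

/-- the elements near `s` -/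
noncomputable def Z1 (K : Conf ι) (W : Finset ι) (D : ℕ) (s : Finset ι) : Finset ι :=
  (Nb K W s).biUnion (Vp K) ∪ ((s.powersetCard 2).filter fun e => D ≤ dg K W e).biUnion (Ie K W)

/-- the elements near the path around the first pair of `q` -/
noncomputable def Z2 {K : Conf ι} {S0 : Finset ι} (h : OK K S0) {W : Finset ι} (hW : S0 ⊆ W)
    (D L : ℕ) (q : Ch K W) : Finset ι :=
  (range (2 * L + 1)).biUnion fun i => Z1 K W D (fq ((tau h hW ^ ((i : ℤ) - L)) q))

end

/-! ### Measures, samples, boxes -/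

section
variable [Fintype ι]

/-- a probability -/
structure Pr (p : ι → ℝ) : Prop where
  nonneg : ∀ x, 0 ≤ p x
  sum_one : ∑ x, p x = 1

/-- the measure of a set -/
def pm (p : ι → ℝ) (A : Finset ι) : ℝ := ∑ x ∈ A, p x

/-- the measure of the elements which see `s` -/
noncomputable def vv (K : Conf ι) (p : ι → ℝ) (s : Finset ι) : ℝ := pm p (Vp K s)

/-- the set of a sample -/
def WS (S0 : Finset ι) {m : ℕ} (t : Fin m → ι) : Finset ι := S0 ∪ univ.image t

/-- expectation over the samples of size `m` -/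
def Ex (p : ι → ℝ) (m : ℕ) (f : (Fin m → ι) → ℝ) : ℝ := ∑ t : Fin m → ι, (∏ j, p (t j)) * f t

end

/-- the number of the triples in a box -/
def cnt (T : Finset (Fin 3 → ι)) (S : Fin 3 → Finset ι) : ℕ := (T.filter fun z => ∀ i, z i ∈ S i).card

/-- the box with sides `A` (at `i`), `B` (at `j`), `C` (elsewhere) -/
def bx (i j : Fin 3) (A B C : Finset ι) : Fin 3 → Finset ι :=
  fun t => if t = i then A else if t = j then B else C

end Pool.Agent.F32P
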