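import Pool.Agent.F32P.St5
import Pool.Agent.F32.HandA

/-!
# F32P, PHA: 2-faces which are not 4-gons, hand-in form (helper41, after `F32/HandA.lean`)
-/

set_option autoImplicit false

namespace Pool.Agent.F32P

open Finset
open scoped InnerProductSpace
open Pool.Agent.F32.G4 (P4 tf kv vts)

/-- **PHA.** -/
theorem e_PHA : S_PHA := by
  classical
  intro hF2 hKv
  obtain ⟨c, hc, C, hC, hmain⟩ := hF2
  refine ⟨c, hc, C, fun n u b hP => ?_⟩
  have h1 := hmain (Fin n) u b (F32.HandA.p4 hP)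
  rw [Fintype.card_fin] at h1
  refine le_trans ?_ h1
  rw [Set.ncard_eq_toFinset_card']
  norm_cast
  apply card_le_card_of_injOn (fun e : Fin n × Fin n => ({e.1, e.2} : Finset (Fin n)))
  · intro e he
    rw [mem_coe, Set.mem_toFinset] at he
    obtain ⟨a1, a2, a3⟩ := he
    have hne : e.1 ≠ e.2 := a1.ne
    have htf : ({e.1, e.2} : Finset (Fin n)) ∈ tf u b := by
      rw [tf, mem_filter]
      refine ⟨mem_univ _, card_pair hne, ?_⟩
      obtain ⟨p, hp, hpk⟩ := TCC.exists_two hP hne a2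
      refine ⟨p, hp, ?_⟩
      ext j
      rw [QMark.mem_act, mem_insert, mem_singleton]
      exact hpk j
    rw [mem_coe, mem_filter]
    refine ⟨htf, ?_⟩
    change kv u b {e.1, e.2} = 3 ∨ 5 ≤ kv u b {e.1, e.2}
    have h3 := hKv (Fin n) u b (F32.HandA.p4 hP) _ htf
    have h4 : kv u b {e.1, e.2} ≠ 4 := by
      rw [F32.HandA.kv_eq]
      exact a3
    omega
  · intro e he e' he' hee
    rw [mem_coe, Set.mem_toFinset] at he he'
    have h1 : e.1 < e.2 := he.1
    have h2 : e'.1 < e'.2 := he'.1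
    have hee' : ({e.1, e.2} : Finset (Fin n)) = {e'.1, e'.2} := hee
    have a1 : e.1 ∈ ({e'.1, e'.2} : Finset (Fin n)) := by rw [← hee']; simp
    have a2 : e.2 ∈ ({e'.1, e'.2} : Finset (Fin n)) := by rw [← hee']; simp
    rw [mem_insert, mem_singleton] at a1 a2
    rcases a1 with a1 | a1 <;> rcases a2 with a2 | a2
    · rw [a1, a2] at h1
      exact absurd h1 (lt_irrefl _)
    · exact Prod.ext a1 a2
    · rw [a1, a2] at h1
      exact absurd h1 h2.asymm
    · rw [a1, a2] at h1
      exact absurd h1 (lt_irrefl _)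

end Pool.Agent.F32P
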