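import Pool.Agent.F32P.St5
import Pool.Agent.F32.PS_HandB

/-!
# F32P, module PHB (helper91): hand-in form for the facets which are not simplices
-/

set_option autoImplicit false

namespace Pool.Agent.F32P

open Finset
open scoped InnerProductSpace

theorem e_PHB : S_PHB := by
  rintro ⟨c, hc, C, -, h⟩
  refine ⟨c, hc, C, fun n S P hS hspan hP hcard => ?_⟩
  have hn : 1 ≤ n := by
    have hdim : Module.finrank ℝ QMark.E4 = 4 := by simp
    obtain ⟨V, hV, hconv, hVspan, Ψ, hΨ⟩ :=
      Pool.Agent.Lib_helper82.Plane.exists_data hdim hS hspan hP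
    have hVcard : V.card = n := by
      have : (V.card : ℕ∞) = n := by rw [← Set.encard_coe_eq_coe_finsetCard, hV, hcard]
      exact_mod_cast this
    have hVne : V.Nonempty := by
      rw [← Finset.coe_nonempty, ← affineSpan_nonempty (k := ℝ), hVspan]
      exact ⟨0, AffineSubspace.mem_top ℝ QMark.E4 0⟩
    rw [← hVcard]
    exact hVne.card_pos
  exact Pool.Agent.F32.HandB.mainB (fun m => C * ((m : ℕ) : ℝ) ^ (2 - c))
    (fun ι _ _ u b hP4 _ => h ι u b hP4) n S P hn hS hspan hP hcard

end Pool.Agent.F32P
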