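import Pool.Agent.F32P.St1

/-!
# F32P: the facets over a pair are connected (module CN)
-/

set_option autoImplicit false

namespace Pool.Agent.F32P

open Finset
open scoped InnerProductSpace

open QMark (E4 act Poly SP tets faces size Ind)

namespace CNa

variable {ι : Type} [Fintype ι] [DecidableEq ι] {u : ι → E4} {b : ι → ℝ}

theorem exist (h : SP u b) (g : QMark.Gen u b) {e : Finset ι} {S : Finset (Finset ι)}
    (hS : S ⊆ (tets u b).filter (fun t => e ⊆ t)) (hne : S.Nonempty)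
    (hcl : ∀ s ∈ S, ∀ t ∈ tets u b, e ⊆ t → (s ∩ t).card = 3 → t ∈ S) :
    ∃ t ∈ S, t \ e ⊆ g.U t := by
  have hpt : ∀ t ∈ tets u b, ∃ p ∈ Poly u b, act u b p = t :=
    fun t ht => (QMark.mem_tets.mp ht).2
  choose! pt hpt1 hpt2 using hpt
  obtain ⟨t, ht, hmin⟩ := exists_min_image S (fun t => ⟪g.w, pt t⟫_ℝ) hne
  have htt := mem_filter.mp (hS ht)
  refine ⟨t, ht, ?_⟩
  intro d hd
  rw [mem_sdiff] at hd
  rw [QMark.Gen.mem_U]
  refine ⟨hd.1, ?_⟩
  by_contra hcon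
  obtain ⟨d', hd', hT, -⟩ := QMark.tet_flip h htt.1 hd.1
  have hc4 : t.card = 4 := (QMark.mem_tets.mp htt.1).1
  have hint : t ∩ insert d' (t.erase d) = t.erase d := by
    ext i
    simp only [mem_inter, mem_insert, mem_erase]
    constructor
    · rintro ⟨h1, rfl | h2⟩
      · exact absurd h1 hd'
      · exact h2
    · rintro ⟨h1, h2⟩
      exact ⟨h2, Or.inr ⟨h1, h2⟩⟩
  have hle := hmin _ (hcl t ht _ hT (fun i hi =>
    mem_insert_of_mem (mem_erase.mpr ⟨fun e => hd.2 (e ▸ hi), htt.2 hi⟩)) (by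
      rw [hint, card_erase_of_mem hd.1, hc4]))
  have hpos : 0 < g.c t d := lt_of_le_of_ne (not_lt.mp hcon) (g.hc t htt.1 d hd.1).symm
  have hphi := g.phi htt.1 (hpt2 t htt.1) (pt (insert d' (t.erase d)))
  rw [← add_sum_erase t _ hd.1, sum_eq_zero, add_zero] at hphi
  · have h1 := hpt1 _ hT d
    have h2 : ⟪u d, pt (insert d' (t.erase d))⟫_ℝ ≠ b d := by
      intro hc
      have h3 : d ∈ act u b (pt (insert d' (t.erase d))) := QMark.mem_act.mpr hc
      rw [hpt2 _ hT, mem_insert] at h3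
      rcases h3 with h3 | h3
      · exact hd' (h3 ▸ hd.1)
      · exact notMem_erase _ _ h3
    have h3 : ⟪u d, pt (insert d' (t.erase d))⟫_ℝ < b d := lt_of_le_of_ne h1 h2
    have h4 : g.c t d * (⟪u d, pt (insert d' (t.erase d))⟫_ℝ - b d) < 0 :=
      mul_neg_of_pos_of_neg hpos (by linarith)
    linarith
  · intro i hi
    have h3 : i ∈ act u b (pt (insert d' (t.erase d))) := by
      rw [hpt2 _ hT]
      exact mem_insert_of_mem hi
    rw [QMark.mem_act.mp h3, sub_self, mul_zero]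

end CNa

theorem g_CN : S_CN := by
  intro ι _ _ u b h e _ S hS hne hcl
  obtain ⟨g⟩ := QMark.exists_gen h
  refine Subset.antisymm hS fun t0 ht0 => ?_
  by_contra hnot
  have hC : ((tets u b).filter (fun t => e ⊆ t)) \ S ⊆ (tets u b).filter (fun t => e ⊆ t) :=
    sdiff_subset
  have hclC : ∀ s ∈ ((tets u b).filter (fun t => e ⊆ t)) \ S, ∀ t ∈ tets u b, e ⊆ t →
      (s ∩ t).card = 3 → t ∈ ((tets u b).filter (fun t => e ⊆ t)) \ S := by
    intro s hs t ht he h3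
    obtain ⟨hs1, hs2⟩ := mem_sdiff.mp hs
    refine mem_sdiff.mpr ⟨mem_filter.mpr ⟨ht, he⟩, fun htS => hs2 ?_⟩
    exact hcl t htS s (mem_filter.mp hs1).1 (mem_filter.mp hs1).2 (by rw [inter_comm]; exact h3)
  obtain ⟨t1, ht1, hU1⟩ := CNa.exist h g hS hne hcl
  obtain ⟨t2, ht2, hU2⟩ := CNa.exist h g hC ⟨t0, mem_sdiff.mpr ⟨ht0, hnot⟩⟩ hclC
  have k1 := mem_filter.mp (hS ht1)
  have k2 := mem_filter.mp (hC ht2)
  have heq := g.uniq k1.1 k2.1 k1.2 k2.2 hU1 hU2
  exact (mem_sdiff.mp ht2).2 (heq ▸ ht1)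

end Pool.Agent.F32P
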