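import Pool.Agent.F32P.Defs
import Pool.Agent.QMark.Red
import Pool.Agent.QMark.Sub

/-!
# F32P: reduction of a simple 4-polytope to a system with at most 4 equations at every point (helper38)

The proof is that of `QMark.reduce`.
-/

set_option autoImplicit false

namespace Pool.Agent.F32P

open Finset Filter Topology QMark
open scoped InnerProductSpace

theorem bdd5 {ι : Type*} (u : ι → E4) (b : ι ⊕ Fin 5 → ℝ) :
    Bornology.IsBounded {p : E4 | ∀ j : Fin 5,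
      ⟪(Sum.elim u nrm : ι ⊕ Fin 5 → E4) (.inr j), p⟫_ℝ ≤ b (.inr j)} := by
  have h := bdd_simplex (ι := Empty) (fun i => i.elim) (Sum.elim (fun i => i.elim)
    (fun j => b (.inr j)))
  refine h.subset ?_
  intro p hp i
  rcases i with i | j
  · exact i.elim
  · exact hp j

/-- **Reduction.** -/
theorem reduce4 {ι : Type*} [Fintype ι] [DecidableEq ι] (u : ι → E4) (b : ι → ℝ)
    (𝒜 : Finset (Finset ι))
    (hA : ∀ A ∈ 𝒜, ∃ p : E4, (∀ i ∈ A, ⟪u i, p⟫_ℝ = b i) ∧ (∀ i ∉ A, ⟪u i, p⟫_ℝ < b i) ∧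
      LinearIndependent ℝ (fun i : A => u i)) :
    ∃ (u' : ι ⊕ Fin 5 → E4) (b' : ι ⊕ Fin 5 → ℝ), (∀ q : E4, (act u' b' q).card ≤ 4) ∧
      Bornology.IsBounded {p : E4 | ∀ j : Fin 5, ⟪u' (.inr j), p⟫_ℝ ≤ b' (.inr j)} ∧
      ∀ A ∈ 𝒜, ∃ p ∈ Poly u' b', act u' b' p = A.map Function.Embedding.inl := by
  have hA' : ∀ A : Finset ι, ∃ p : E4, A ∈ 𝒜 → (∀ i ∈ A, ⟪u i, p⟫_ℝ = b i) ∧
      (∀ i ∉ A, ⟪u i, p⟫_ℝ < b i) ∧ LinearIndependent ℝ (fun i : A => u i) := by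
    intro A
    by_cases h : A ∈ 𝒜
    · obtain ⟨p, hp⟩ := hA A h
      exact ⟨p, fun _ => hp⟩
    · exact ⟨0, fun hc => absurd hc h⟩
  choose p hp using hA'
  -- the simplex
  set R : ℝ := 1 + ∑ A ∈ 𝒜, ∑ j : Fin 5, |⟪nrm j, p A⟫_ℝ| with hR
  set u' : ι ⊕ Fin 5 → E4 := Sum.elim u nrm with hu'
  set b0 : ι ⊕ Fin 5 → ℝ := Sum.elim b (fun _ => R) with hb0
  obtain ⟨β, hβ⟩ := exists_dir u'
  have hstrict : ∀ A ∈ 𝒜, ∀ i ∉ A.map (Function.Embedding.inl : ι ↪ ι ⊕ Fin 5),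
      ⟪u' i, p A⟫_ℝ < b0 i := by
    intro A hA1 i hi
    cases i with
    | inl i =>
      apply (hp A hA1).2.1
      intro hc
      exact hi (mem_map_of_mem Function.Embedding.inl hc)
    | inr j =>
      change ⟪nrm j, p A⟫_ℝ < R
      have h1 := single_le_sum (f := fun j : Fin 5 => |⟪nrm j, p A⟫_ℝ|)
        (fun j _ => abs_nonneg _) (mem_univ j)
      have h2 := single_le_sum (f := fun A => ∑ j : Fin 5, |⟪nrm j, p A⟫_ℝ|)
        (fun A _ => sum_nonneg fun j _ => abs_nonneg _) hA1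
      have h3 := le_abs_self ⟪nrm j, p A⟫_ℝ
      linarith
  have hv : ∀ A : Finset ι, ∃ v : E4, A ∈ 𝒜 → ∀ i ∈ A, ⟪u i, v⟫_ℝ = β (.inl i) := by
    intro A
    by_cases h : A ∈ 𝒜
    · obtain ⟨v, hv⟩ := exists_inner (fun i : A => u i) (hp A h).2.2 (fun i => β (.inl i))
      exact ⟨v, fun _ i hi => hv ⟨i, hi⟩⟩
    · exact ⟨0, fun hc => absurd hc h⟩
  choose v hv using hv
  have ev1 : ∀ᶠ τ in 𝓝[>] (0 : ℝ), ∀ S : Finset (ι ⊕ Fin 5), S.card = 5 →
      b0 + τ • β ∉ W u' S := by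
    rw [eventually_all]
    intro S
    by_cases hS : S.card = 5
    · have h1 := ev_not (A := {τ : ℝ | b0 + τ • β ∈ W u' S}) (by
        intro x hx y hy
        by_contra hxy
        apply hβ S hS
        have h2 := (W u' S).sub_mem hx hy
        rw [add_sub_add_left_eq_sub, ← sub_smul] at h2
        have h3 := (W u' S).smul_mem (x - y)⁻¹ h2
        rwa [smul_smul, inv_mul_cancel₀ (sub_ne_zero.mpr hxy), one_smul] at h3)
      filter_upwards [h1] with τ hτ _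
      exact hτ
    · exact Eventually.of_forall fun τ hc => absurd hc hS
  have ev2 : ∀ᶠ τ in 𝓝[>] (0 : ℝ), ∀ A ∈ 𝒜, ∀ i ∉ A.map (Function.Embedding.inl : ι ↪ ι ⊕ Fin 5),
      ⟪u' i, p A⟫_ℝ + τ * ⟪u' i, v A⟫_ℝ < b0 i + τ * β i := by
    rw [eventually_all_finset]
    intro A hA1
    rw [eventually_all]
    intro i
    by_cases hi : i ∈ A.map (Function.Embedding.inl : ι ↪ ι ⊕ Fin 5)
    · exact Eventually.of_forall fun τ hc => absurd hi hc
    · filter_upwards [ev_lt (hstrict A hA1 i hi)] with τ hτ _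
      exact hτ
  obtain ⟨τ, hτ1, hτ2⟩ := (ev1.and ev2).exists
  refine ⟨u', b0 + τ • β, ?_, bdd5 _ _, ?_⟩
  · intro q
    by_contra hcard
    push Not at hcard
    obtain ⟨S, hS, hSc⟩ := exists_subset_card_eq (n := 5) hcard
    exact hτ1 S hSc ⟨q, fun i hi => mem_act.mp (hS hi)⟩
  · intro A hA1
    have hin : ∀ i, ⟪u' i, p A + τ • v A⟫_ℝ = ⟪u' i, p A⟫_ℝ + τ * ⟪u' i, v A⟫_ℝ := fun i =>
      inner_add_smul i _ _ _
    have hb : ∀ i, (b0 + τ • β) i = b0 i + τ * β i := fun i => rfl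
    have heq : ∀ i ∈ A, ⟪u i, p A⟫_ℝ + τ * ⟪u i, v A⟫_ℝ = b i + τ * β (.inl i) := by
      intro i hi
      rw [(hp A hA1).1 i hi, hv A hA1 i hi]
    refine ⟨p A + τ • v A, ?_, ?_⟩
    · intro i
      rw [hin, hb]
      by_cases hi : i ∈ A.map (Function.Embedding.inl : ι ↪ ι ⊕ Fin 5)
      · obtain ⟨j, hj, rfl⟩ := mem_map.mp hi
        exact (heq j hj).le
      · exact (hτ2 A hA1 i hi).le
    · ext i
      rw [mem_act, hin, hb]
      constructor
      · intro h1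
        by_contra hi
        exact (hτ2 A hA1 i hi).ne h1
      · intro hi
        obtain ⟨j, hj, rfl⟩ := mem_map.mp hi
        exact heq j hj

/-- **EX.** Every simple 4-polytope is part of a system of inequalities with at most four equations at
every point, which contains five inequalities of a simplex. -/
theorem g_ex {ι : Type*} [Fintype ι] [DecidableEq ι] {u : ι → E4} {b : ι → ℝ} (h : SP u b)
    (k : ℕ) : ∃ (u' : ι ⊕ Fin 5 → E4) (b' : ι ⊕ Fin 5 → ℝ), (∀ q : E4, (act u' b' q).card ≤ 4) ∧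
      Bornology.IsBounded {p : E4 | ∀ j : Fin 5, ⟪u' (.inr j), p⟫_ℝ ≤ b' (.inr j)} ∧
      ∀ s ∈ faces u b k, ∃ p ∈ Poly u' b', act u' b' p = s.map Function.Embedding.inl := by
  refine reduce4 u b (faces u b k) fun s hs => ?_
  obtain ⟨p, hp, hpa, hi⟩ := wit_of_mem h hs
  refine ⟨p, fun i hi => mem_act.1 (hpa ▸ hi), fun i hi => ?_, ind_iff.1 hi⟩
  refine lt_of_le_of_ne (hp i) fun hc => hi ?_
  rw [← hpa]
  exact mem_act.2 hc

end Pool.Agent.F32P
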