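import Pool.Agent.F32P.G_FLAT
import Pool.Agent.F32P.G_EX
import Pool.Agent.F32.PS_End2

/-!
# F32P: from the abstract theorem to simple 4-polytopes (helper38)
-/

set_option autoImplicit false

namespace Pool.Agent.F32P

open Finset
open QMark (E4)
open scoped InnerProductSpace

/-- the configurations of systems of inequalities satisfy `OK` -/
def GOK : Prop := ∀ (ι : Type) [Fintype ι] [DecidableEq ι] (u : ι → E4) (b : ι → ℝ)
  (S0 : Finset ι), (∀ p, (QMark.act u b p).card ≤ 4) → S0.card = 5 →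
  Bornology.IsBounded {p : E4 | ∀ i ∈ S0, ⟪u i, p⟫_ℝ ≤ b i} → OK (conf u b) S0

/-- triples with a common point on the boundary are local -/
def GLoc : Prop := ∀ (ι : Type) [Fintype ι] [DecidableEq ι] (u : ι → E4) (b : ι → ℝ)
  (S0 : Finset ι), (∀ p, (QMark.act u b p).card ≤ 4) → S0.card = 5 →
  Bornology.IsBounded {p : E4 | ∀ i ∈ S0, ⟪u i, p⟫_ℝ ≤ b i} →
  ∀ (W : Finset ι) (z : Fin 3 → ι), S0 ⊆ W → (∀ i, z i ∉ W) → Function.Injective z →
  ∀ p ∈ QMark.Poly u b, QMark.act u b p = univ.image z → Loc (conf u b) W z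

/-- **FIN.** -/
theorem g_fin (hAT : S_AT) (hF1 : F32.G4.StmtF1) (hOK : GOK) (hL : GLoc) : F32.PS.StmtT := by
  obtain ⟨m0, hm0⟩ := g_flat hF1
  obtain ⟨κ, hκ0, hκ, Φ, hΦ, hA⟩ := hAT m0
  refine ⟨κ, Φ, by linarith, hΦ, fun ι _ _ u b hSP S hS hd => ?_⟩
  obtain ⟨u', b', hact, hbd, hex⟩ := g_ex hSP 3
  -- the simplex
  set S0 : Finset (ι ⊕ Fin 5) := univ.map Function.Embedding.inr with hS0
  have hS0c : S0.card = 5 := by rw [hS0, card_map, card_univ, Fintype.card_fin]
  have hbd' : Bornology.IsBounded {p : E4 | ∀ i ∈ S0, ⟪u' i, p⟫_ℝ ≤ b' i} := by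
    refine hbd.subset fun p hp j => ?_
    exact hp _ (mem_map_of_mem _ (mem_univ j))
  -- the triples
  have hz : ∀ s ∈ S, ∃ z : Fin 3 → ι, Function.Injective z ∧ univ.image z = s := by
    intro s hs
    have hc : s.card = 3 := (QMark.mem_faces.1 (hS hs)).1
    let e := (s.equivFinOfCardEq hc).symm
    refine ⟨fun i => (e i).1, fun i j hij => e.injective (Subtype.ext hij), ?_⟩
    ext i
    rw [mem_image]
    constructor
    · rintro ⟨j, -, rfl⟩
      exact (e j).2
    · intro hi
      exact ⟨e.symm ⟨i, hi⟩, mem_univ _, by rw [e.apply_symm_apply]⟩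
  choose z hz1 hz2 using hz
  have hinj : ∀ s hs t ht (i j : Fin 3), i ≠ j → z s hs i = z t ht i → z s hs j = z t ht j →
      s = t := by
    intro s hs t ht i j hij h1 h2
    by_contra hne
    have h3 := hd s hs t ht hne
    have hm : ∀ k, z s hs k ∈ s := fun k => by
      have := mem_image_of_mem (z s hs) (mem_univ k)
      rwa [hz2 s hs] at this
    have hm' : ∀ k, z t ht k ∈ t := fun k => by
      have := mem_image_of_mem (z t ht) (mem_univ k)
      rwa [hz2 t ht] at this
    have h4 : ({z s hs i, z s hs j} : Finset ι) ⊆ s ∩ t := by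
      intro k hk
      rw [mem_insert, mem_singleton] at hk
      rw [mem_inter]
      rcases hk with rfl | rfl
      · exact ⟨hm i, h1 ▸ hm' i⟩
      · exact ⟨hm j, h2 ▸ hm' j⟩
    have h5 := card_le_card h4
    rw [card_pair fun h => hij (hz1 s hs h)] at h5
    omega
  set f : {s // s ∈ S} → (Fin 3 → ι ⊕ Fin 5) := fun s i => Sum.inl (z s.1 s.2 i) with hf
  have hfi : Function.Injective f := by
    intro s t hst
    have h1 : ∀ i, z s.1 s.2 i = z t.1 t.2 i := fun i => Sum.inl_injective (congrFun hst i)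
    exact Subtype.ext (hinj _ _ _ _ 0 1 (by decide) (h1 0) (h1 1))
  set X : Fin 3 → Finset (ι ⊕ Fin 5) := fun _ => univ.map Function.Embedding.inl with hX
  have hXc : ∀ i, (X i).card = Fintype.card ι := fun i => by
    rw [hX]
    simp
  have hI : Inst (conf u' b') S0 X (S.attach.image f) := by
    refine ⟨?_, ?_, ?_⟩
    · intro y hy i
      obtain ⟨s, -, rfl⟩ := mem_image.1 hy
      exact mem_map_of_mem Function.Embedding.inl (mem_univ _)
    · intro i j hij y hy y' hy' h1 h2
      obtain ⟨s, -, rfl⟩ := mem_image.1 hy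
      obtain ⟨t, -, rfl⟩ := mem_image.1 hy'
      have := hinj s.1 s.2 t.1 t.2 i j hij (Sum.inl_injective h1) (Sum.inl_injective h2)
      rw [Subtype.ext this]
    · intro y hy W hW hyW
      obtain ⟨s, -, rfl⟩ := mem_image.1 hy
      obtain ⟨p, hp, hpa⟩ := hex s.1 (hS s.2)
      refine hL _ u' b' S0 hact hS0c hbd' W _ hW hyW ?_ p hp ?_
      · intro i j hij
        exact hz1 s.1 s.2 (Sum.inl_injective hij)
      · rw [hpa]
        ext k
        simp only [mem_map, mem_image, mem_univ, true_and, Function.Embedding.inl_apply]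
        constructor
        · rintro ⟨a, ha, rfl⟩
          rw [← hz2 s.1 s.2, mem_image] at ha
          obtain ⟨i, -, hi⟩ := ha
          exact ⟨i, by rw [← hi]⟩
        · rintro ⟨i, rfl⟩
          refine ⟨z s.1 s.2 i, ?_, rfl⟩
          have := mem_image_of_mem (z s.1 s.2) (mem_univ i)
          rwa [hz2 s.1 s.2] at this
  have h1 := hA (ι ⊕ Fin 5) (conf u' b') S0 (hOK _ u' b' S0 hact hS0c hbd')
    (hm0 _ u' b' S0 hact hbd') X _ hI
  rw [card_image_of_injective _ hfi, card_attach] at h1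
  refine h1.trans (le_of_eq ?_)
  congr 1
  simp only [hXc, Fin.prod_univ_three]
  rw [show ((Fintype.card ι : ℕ) : ℝ) * (Fintype.card ι : ℕ) * (Fintype.card ι : ℕ) =
    ((Fintype.card ι : ℕ) : ℝ) ^ (3 : ℝ) by norm_num [pow_succ],
    ← Real.rpow_mul (Nat.cast_nonneg _)]

end Pool.Agent.F32P
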