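import Pool.Agent.F32P.St1

/-!
# F32P: few edges of degree different from 4 (module F32P_FL)
-/

set_option autoImplicit false

namespace Pool.Agent.F32P

open Finset

theorem g_FL (h : S_TR) : S_FL := by
  intro hF
  classical
  refine ⟨fun ε => if hε : 0 < ε then (hF ε hε).choose else 0, ?_⟩
  intro ι _ _ u b S0 hS ε hε W hW hm
  obtain ⟨hSP, -, -, -, hn⟩ := h ι u b S0 hS W hW
  have hm' : (if hε : 0 < ε then (hF ε hε).choose else 0) ≤ W.card := hm
  rw [dif_pos hε] at hm'
  have hc : Fintype.card {i // i ∈ W} = W.card := Fintype.card_coe W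
  have h1 := (hF ε hε).choose_spec {i // i ∈ W} (su u W) (sb b W) hSP (by rw [hc]; exact hm')
  rw [hc] at h1
  rw [hn]
  refine le_trans ?_ h1
  exact_mod_cast Finset.card_image_le

end Pool.Agent.F32P
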