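import Pool.Agent.F32P.G_Tr
import Pool.Agent.F32.Final

/-!
# F32P: the configurations of systems of inequalities are flat (helper38)
-/

set_option autoImplicit false

namespace Pool.Agent.F32P

open Finset
open QMark (E4)
open scoped InnerProductSpace

/-- **FLAT.** From the theorem of F1. -/
theorem g_flat (hF1 : F32.G4.StmtF1) : ∃ m0 : ℝ → ℕ, ∀ (ι : Type) [Fintype ι] [DecidableEq ι]
    (u : ι → E4) (b : ι → ℝ) (S0 : Finset ι), (∀ p, (QMark.act u b p).card ≤ 4) →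
    Bornology.IsBounded {p : E4 | ∀ i ∈ S0, ⟪u i, p⟫_ℝ ≤ b i} → Flat m0 (conf u b) S0 := by
  have h0 : ∀ ε : ℝ, ∃ n0 : ℕ, 0 < ε → ∀ (ι : Type) [Fintype ι] [DecidableEq ι]
      (u : ι → E4) (b : ι → ℝ), QMark.SP u b → n0 ≤ Fintype.card ι →
      ((QMark.nonq u b).card : ℝ) ≤ ε * (Fintype.card ι : ℝ) ^ 2 := by
    intro ε
    by_cases hε : 0 < ε
    · obtain ⟨n0, hn⟩ := hF1 ε hε
      exact ⟨n0, fun _ => hn⟩
    · exact ⟨0, fun h => absurd h hε⟩
  choose m0 hm0 using h0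
  refine ⟨m0, fun ι _ _ u b S0 hact hbd ε hε W hW hc => ?_⟩
  have h1 := hm0 ε hε {i // i ∈ W} (ru u W) (rb b W) (sp_res hact hbd hW) (by
    rw [Fintype.card_coe]
    exact hc)
  rw [nonq_eq hact hbd hW, card_map]
  rw [Fintype.card_coe] at h1
  exact h1

end Pool.Agent.F32P
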