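import Pool.Agent.F32P.G_Tr
import Pool.Agent.F32.F1

/-!
# F32P: `Flat` from the simple case (helper40)
-/

set_option autoImplicit false

namespace Pool.Agent.F32P

open Finset
open QMark (E4)
open scoped InnerProductSpace

theorem flat_of (h : Pool.Agent.F32.G4.StmtF1) : ∃ m0 : ℝ → ℕ, ∀ (ι : Type) [Fintype ι]
    [DecidableEq ι] (u : ι → E4) (b : ι → ℝ) (S0 : Finset ι),
    (∀ p, (QMark.act u b p).card ≤ 4) →
    Bornology.IsBounded {p : E4 | ∀ i ∈ S0, ⟪u i, p⟫_ℝ ≤ b i} → Flat m0 (conf u b) S0 := by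
  have h1 : ∀ ε : ℝ, ∃ n0 : ℕ, 0 < ε → ∀ (ι : Type) [Fintype ι] [DecidableEq ι]
      (u : ι → E4) (b : ι → ℝ), QMark.SP u b → n0 ≤ Fintype.card ι →
      ((QMark.nonq u b).card : ℝ) ≤ ε * (Fintype.card ι : ℝ) ^ 2 := by
    intro ε
    by_cases he : 0 < ε
    · obtain ⟨n0, hn⟩ := h ε he
      exact ⟨n0, fun _ => hn⟩
    · exact ⟨0, fun hc => absurd hc he⟩
  choose m0 hm using h1
  refine ⟨m0, ?_⟩
  intro ι _ _ u b S0 hact hbd ε he W hW hc
  rw [nonq_eq hact hbd hW, card_map]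
  have := hm ε he {i // i ∈ W} (ru u W) (rb b W) (sp_res hact hbd hW)
    (by rw [Fintype.card_coe]; exact hc)
  rw [Fintype.card_coe] at this
  exact this

/-- **FLAT.** -/
theorem flat_conf : ∃ m0 : ℝ → ℕ, ∀ (ι : Type) [Fintype ι]
    [DecidableEq ι] (u : ι → E4) (b : ι → ℝ) (S0 : Finset ι),
    (∀ p, (QMark.act u b p).card ≤ 4) →
    Bornology.IsBounded {p : E4 | ∀ i ∈ S0, ⟪u i, p⟫_ℝ ≤ b i} → Flat m0 (conf u b) S0 :=
  flat_of Pool.Agent.F32.G4.f1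

end Pool.Agent.F32P
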