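import Pool.Agent.F32P.Defs
import Pool.Agent.QMark.Sub

/-!
# F32P: functionals of simple systems of inequalities (helper80)

`Sy u b S0`: at most four of the hyperplanes `⟪u i, p⟫ = b i` have a common point, `S0` has five elements
and the inequalities of `S0` give a bounded nonempty set. `ev u b i h = h.2 * b i - ⟪u i, h.1⟫`, `h` in
`E4 × ℝ`. A functional `h ≠ 0` which is nonnegative on `S0` has `0 < h.2`, at most four zeros, and its
zeros are independent. `ridge`: the functionals which support a ridge are generated by its two facets.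
-/

set_option autoImplicit false

namespace Pool.Agent.F32P.GLoc

open Finset QMark
open scoped InnerProductSpace

variable {ι : Type} [Fintype ι] [DecidableEq ι]

/-- the value of the functional `h` at the inequality `i` -/
noncomputable def ev (u : ι → E4) (b : ι → ℝ) (i : ι) (h : E4 × ℝ) : ℝ := h.2 * b i - ⟪u i, h.1⟫_ℝ

/-- simple system with five bounding inequalities -/
structure Sy (u : ι → E4) (b : ι → ℝ) (S0 : Finset ι) : Prop where
  four : ∀ p : E4, (act u b p).card ≤ 4
  five : S0.card = 5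
  bdd : Bornology.IsBounded {p : E4 | ∀ i ∈ S0, ⟪u i, p⟫_ℝ ≤ b i}
  pt : ∃ p : E4, ∀ i ∈ S0, ⟪u i, p⟫_ℝ ≤ b i

/-- `F` is a facet of `W` with the functional `h` -/
def Fct (u : ι → E4) (b : ι → ℝ) (W F : Finset ι) (h : E4 × ℝ) : Prop :=
  F ⊆ W ∧ F.card = 4 ∧ (∀ i ∈ F, ev u b i h = 0) ∧ ∀ i ∈ W, i ∉ F → 0 < ev u b i h

variable {u : ι → E4} {b : ι → ℝ} {S0 : Finset ι}

omit [Fintype ι] [DecidableEq ι] in
theorem ev_add (i : ι) (g h : E4 × ℝ) : ev u b i (g + h) = ev u b i g + ev u b i h := by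
  simp only [ev, Prod.fst_add, Prod.snd_add, inner_add_right]
  ring

omit [Fintype ι] [DecidableEq ι] in
theorem ev_smul (i : ι) (r : ℝ) (h : E4 × ℝ) : ev u b i (r • h) = r * ev u b i h := by
  simp only [ev, Prod.smul_fst, Prod.smul_snd, inner_smul_right, smul_eq_mul]
  ring

omit [Fintype ι] [DecidableEq ι] in
theorem ev_zero (i : ι) : ev u b i 0 = 0 := by
  simp [ev]

omit [Fintype ι] [DecidableEq ι] in
theorem ev_neg (i : ι) (h : E4 × ℝ) : ev u b i (-h) = -ev u b i h := by
  simp only [ev, Prod.fst_neg, Prod.snd_neg, inner_neg_right]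
  ring

omit [Fintype ι] [DecidableEq ι] in
theorem ev_sub_smul (i : ι) (g h : E4 × ℝ) (r : ℝ) :
    ev u b i (h - r • g) = ev u b i h - r * ev u b i g := by
  rw [sub_eq_add_neg, ev_add, ev_neg, ev_smul]
  ring

omit [Fintype ι] [DecidableEq ι] in
theorem ev_pt (i : ι) (p : E4) : ev u b i (p, 1) = b i - ⟪u i, p⟫_ℝ := by
  simp [ev]

omit [Fintype ι] [DecidableEq ι] in
theorem ev_dir (i : ι) (d : E4) : ev u b i (d, 0) = -⟪u i, d⟫_ℝ := by
  simp [ev]

/-- the recession cone of a bounded set -/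
theorem rec_zero (hb : Bornology.IsBounded {p : E4 | ∀ i ∈ S0, ⟪u i, p⟫_ℝ ≤ b i}) {p d : E4}
    (hp : ∀ i ∈ S0, ⟪u i, p⟫_ℝ ≤ b i) (hd : ∀ i ∈ S0, ⟪u i, d⟫_ℝ ≤ 0) : d = 0 := by
  by_contra hne
  obtain ⟨R, hR⟩ := hb.subset_closedBall (0 : E4)
  have hdn : 0 < ‖d‖ := norm_pos_iff.mpr hne
  have hR0 : 0 ≤ R := by
    have := hR hp
    rw [mem_closedBall_zero_iff] at this
    exact (norm_nonneg _).trans this
  set t : ℝ := (R + ‖p‖ + 1) / ‖d‖ with ht
  have ht0 : 0 ≤ t := by positivity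
  have hm : p + t • d ∈ {p : E4 | ∀ i ∈ S0, ⟪u i, p⟫_ℝ ≤ b i} := by
    intro i hi
    rw [inner_add_smul]
    have h1 := hp i hi
    have h2 := mul_nonneg ht0 (neg_nonneg.mpr (hd i hi))
    linarith
  have h3 := hR hm
  rw [mem_closedBall_zero_iff] at h3
  have h4 : ‖t • d‖ ≤ ‖p + t • d‖ + ‖p‖ := by
    calc ‖t • d‖ = ‖(p + t • d) - p‖ := by rw [add_sub_cancel_left]
      _ ≤ _ := norm_sub_le _ _
  rw [norm_smul, Real.norm_of_nonneg ht0, ht, div_mul_cancel₀ _ hdn.ne'] at h4
  linarith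

theorem snd_pos (hs : Sy u b S0) {h : E4 × ℝ} (h0 : h ≠ 0) (hn : ∀ i ∈ S0, 0 ≤ ev u b i h) :
    0 < h.2 := by
  by_contra hc
  rw [not_lt] at hc
  obtain ⟨p, hp⟩ := hs.pt
  have h1 : h.1 - h.2 • p = 0 := by
    refine rec_zero hs.bdd hp fun i hi => ?_
    rw [inner_sub_right, inner_smul_right]
    have h2 := hn i hi
    have h3 := hp i hi
    rw [ev] at h2
    have h4 := mul_nonneg_of_nonpos_of_nonpos hc (sub_nonpos.2 h3)
    rw [mul_sub] at h4
    linarith
  have h2 : h.1 = h.2 • p := sub_eq_zero.1 h1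
  rcases hc.lt_or_eq with hc | hc
  · have h5 : S0 ⊆ act u b p := by
      intro i hi
      rw [mem_act]
      have h3 := hn i hi
      rw [ev, h2, inner_smul_right, ← mul_sub] at h3
      have h4 := hp i hi
      have h6 : b i - ⟪u i, p⟫_ℝ ≤ 0 := by
        by_contra h7
        have := mul_neg_of_neg_of_pos hc (not_le.1 h7)
        linarith
      linarith
    have h6 := card_le_card h5
    have h7 := hs.four p
    have h8 := hs.five
    omega
  · apply h0
    rw [hc, zero_smul] at h2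
    exact Prod.ext h2 hc

omit [Fintype ι] [DecidableEq ι] in
/-- the point of a functional -/
theorem ev_div {h : E4 × ℝ} (h2 : 0 < h.2) (i : ι) :
    b i - ⟪u i, (1 / h.2) • h.1⟫_ℝ = (1 / h.2) * ev u b i h := by
  rw [inner_smul_right, ev, mul_sub, ← mul_assoc, one_div, inv_mul_cancel₀ h2.ne', one_mul]

theorem zeros (hs : Sy u b S0) {h : E4 × ℝ} (h0 : h ≠ 0) (hn : ∀ i ∈ S0, 0 ≤ ev u b i h)
    {Z : Finset ι} (hZ : ∀ i ∈ Z, ev u b i h = 0) : Z.card ≤ 4 := by
  have h2 := snd_pos hs h0 hn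
  refine (card_le_card fun i hi => ?_).trans (hs.four ((1 / h.2) • h.1))
  rw [mem_act]
  have h3 := ev_div (u := u) (b := b) h2 i
  rw [hZ i hi, mul_zero] at h3
  linarith

theorem ind (hs : Sy u b S0) {h : E4 × ℝ} (h0 : h ≠ 0) (hn : ∀ i ∈ S0, 0 ≤ ev u b i h)
    {Z : Finset ι} (hZ : ∀ i ∈ Z, ev u b i h = 0) : Ind u Z := by
  have h2 := snd_pos hs h0 hn
  set p : E4 := (1 / h.2) • h.1 with hp
  have hev : ∀ i, b i - ⟪u i, p⟫_ℝ = (1 / h.2) * ev u b i h := fun i => ev_div h2 i
  have hinv : 0 < 1 / h.2 := one_div_pos.2 h2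
  have hSP : SP (fun i : {i // i ∈ S0 ∪ Z} => u i) (fun i : {i // i ∈ S0 ∪ Z} => b i) := by
    refine ⟨hs.bdd.subset fun q hq i hi => hq ⟨i, mem_union_left _ hi⟩, fun q _ => ?_⟩
    refine le_trans ?_ (hs.four q)
    refine card_le_card_of_injOn (fun i => (i : ι)) (fun i hi => ?_) fun i _ j _ hij =>
      Subtype.ext hij
    rw [mem_coe, mem_act] at hi
    rw [mem_coe, mem_act]
    exact hi
  have hpP : p ∈ Poly (fun i : {i // i ∈ S0 ∪ Z} => u i) (fun i : {i // i ∈ S0 ∪ Z} => b i) := by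
    intro i
    have h3 := hev i
    have h4 : 0 ≤ ev u b i h := by
      rcases mem_union.1 i.2 with h5 | h5
      · exact hn i h5
      · exact (hZ i h5).ge
    have h5 := mul_nonneg hinv.le h4
    change ⟪u i, p⟫_ℝ ≤ b i
    linarith
  have hli := indep hSP hpP
  rw [ind_iff]
  have hmem : ∀ i : Z, (⟨i.1, mem_union_right _ i.2⟩ : {i // i ∈ S0 ∪ Z}) ∈
      act (fun i : {i // i ∈ S0 ∪ Z} => u i) (fun i : {i // i ∈ S0 ∪ Z} => b i) p := by
    intro i
    rw [mem_act]
    have h3 := hev i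
    rw [hZ i i.2, mul_zero] at h3
    change ⟪u i, p⟫_ℝ = b i
    linarith
  exact hli.comp (fun i : Z => (⟨⟨i.1, mem_union_right _ i.2⟩, hmem i⟩ :
      act (fun i : {i // i ∈ S0 ∪ Z} => u i) (fun i : {i // i ∈ S0 ∪ Z} => b i) p))
    fun i j hij => Subtype.ext (Subtype.mk.inj (Subtype.mk.inj hij))

omit [Fintype ι] in
theorem solve {Z : Finset ι} (hZ : Ind u Z) (t : ι → ℝ) :
    ∃ d : E4, ∀ i ∈ Z, ev u b i (d, 0) = t i := by
  obtain ⟨d, hd⟩ := exists_inner (fun i : Z => u i) (ind_iff.1 hZ) fun i => -t i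
  refine ⟨d, fun i hi => ?_⟩
  have h1 := hd ⟨i, hi⟩
  rw [ev_dir]
  change ⟪u i, d⟫_ℝ = -t i at h1
  rw [h1, neg_neg]

omit [Fintype ι] in
theorem orth_zero {Z : Finset ι} (hZ : Ind u Z) (hc : Z.card = 4) {r : E4}
    (hr : ∀ i ∈ Z, ⟪u i, r⟫_ℝ = 0) : r = 0 := by
  have hne : Nonempty Z := by
    rw [nonempty_coe_sort, ← card_pos, hc]
    norm_num
  have h1 := (ind_iff.1 hZ).span_eq_top_of_card_eq_finrank (by
    rw [Fintype.card_coe, hc, finrank_euclideanSpace_fin])
  have h2 : r ∈ (⊤ : Submodule ℝ E4)ᗮ := by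
    rw [← h1, Submodule.mem_orthogonal]
    intro v hv
    induction hv using Submodule.span_induction with
    | mem x hx =>
      obtain ⟨i, rfl⟩ := hx
      exact hr i.1 i.2
    | zero => simp
    | add x y _ _ hx hy => rw [inner_add_left, hx, hy, add_zero]
    | smul a x _ hx => rw [inner_smul_left, hx, mul_zero]
  rw [Submodule.top_orthogonal_eq_bot] at h2
  simpa using h2

omit [Fintype ι] [DecidableEq ι] in
theorem minr {W : Finset ι} (hW : W.Nonempty) (f g : ι → ℝ) (hf : ∀ w ∈ W, 0 < f w) :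
    ∃ r : ℝ, ∃ u ∈ W, g u = r * f u ∧ ∀ w ∈ W, r * f w ≤ g w := by
  obtain ⟨u, hu, hm⟩ := Finset.exists_min_image W (fun w => g w / f w) hW
  refine ⟨g u / f u, u, hu, (div_mul_cancel₀ _ (hf u hu).ne').symm, fun w hw => ?_⟩
  have h1 := hm w hw
  have h2 := hf w hw
  calc g u / f u * f w ≤ g w / f w * f w := mul_le_mul_of_nonneg_right h1 h2.le
    _ = g w := div_mul_cancel₀ _ h2.ne'

theorem sdiff_ne (hs : Sy u b S0) {W F : Finset ι} (hW : S0 ⊆ W) (hF : F.card ≤ 4) :
    (W \ F).Nonempty := by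
  rw [nonempty_iff_ne_empty]
  intro h
  rw [sdiff_eq_empty_iff_subset] at h
  have h1 := card_le_card h
  have h2 := card_le_card hW
  have h3 := hs.five
  omega

/-- the facets at a ridge generate the functionals which support the ridge -/
theorem ridge (hs : Sy u b S0) {W : Finset ι} (hW : S0 ⊆ W)
    {R : Finset ι} (hR : R ⊆ W) (hR3 : R.card = 3) {g : E4 × ℝ} (hg0 : g ≠ 0)
    (hgR : ∀ i ∈ R, ev u b i g = 0) (hgU : ∀ i ∈ W, 0 ≤ ev u b i g) :
    ∃ (F F' : Finset ι) (hF hF' : E4 × ℝ) (a c : ℝ), Fct u b W F hF ∧ Fct u b W F' hF' ∧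
      R ⊆ F ∧ R ⊆ F' ∧ F ≠ F' ∧ 0 ≤ a ∧ 0 ≤ c ∧ g = a • hF + c • hF' := by
  have key : ∀ u1 ∉ R, ∀ w ∉ R, u1 ≠ w → ∀ h : E4 × ℝ, (∀ i ∈ W, 0 ≤ ev u b i h) →
      (∀ z ∈ R, ev u b z h = 0) → ev u b u1 h = 0 → ev u b w h = 0 → h = 0 := by
    intro u1 hu w hw huw h hn h1 h2 h3
    by_contra hne
    have h4 := zeros hs hne (fun i hi => hn i (hW hi)) (Z := insert u1 (insert w R)) (by
      intro z hz
      rw [mem_insert, mem_insert] at hz
      rcases hz with rfl | rfl | hz
      · exact h2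
      · exact h3
      · exact h1 z hz)
    rw [card_insert_of_notMem, card_insert_of_notMem hw, hR3] at h4
    · omega
    · rw [mem_insert]
      rintro (h | h)
      · exact huw h
      · exact hu h
  have cF : ∀ i ∉ R, (insert i R).card = 4 := by
    intro i hi
    rw [card_insert_of_notMem hi, hR3]
  have hnS : ∀ h : E4 × ℝ, (∀ i ∈ W, 0 ≤ ev u b i h) → ∀ i ∈ S0, 0 ≤ ev u b i h :=
    fun h hn i hi => hn i (hW hi)
  by_cases hz : ∃ u4 ∈ W, u4 ∉ R ∧ ev u b u4 g = 0
  · obtain ⟨u4, hu4, hn4, hg4⟩ := hz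
    have hpos : ∀ i ∈ W, i ∉ insert u4 R → 0 < ev u b i g := by
      intro i hi hn
      rw [mem_insert, not_or] at hn
      rcases (hgU i hi).lt_or_eq with h | h
      · exact h
      · exact absurd (key i hn.2 u4 hn4 hn.1 g hgU hgR h.symm hg4) hg0
    have hzF : ∀ i ∈ insert u4 R, ev u b i g = 0 := by
      intro i hi
      rw [mem_insert] at hi
      rcases hi with rfl | hi
      · exact hg4
      · exact hgR i hi
    have hFg : Fct u b W (insert u4 R) g := ⟨insert_subset hu4 hR, cF u4 hn4, hzF, hpos⟩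
    obtain ⟨d, hd⟩ := solve (b := b) (ind hs hg0 (hnS g hgU) hzF) fun i => if i = u4 then 1 else 0
    set h : E4 × ℝ := (d, 0) with hh
    have h2 : ev u b u4 h = 1 := by rw [hd u4 (mem_insert_self _ _), if_pos rfl]
    have h1 : ∀ z ∈ R, ev u b z h = 0 := by
      intro z hz
      rw [hd z (mem_insert_of_mem hz), if_neg]
      rintro rfl
      exact hn4 hz
    obtain ⟨r, u5, hu5, h4, h5⟩ := minr (sdiff_ne hs hW (cF u4 hn4).le) (fun w => ev u b w g)
      (fun w => ev u b w h) fun w hw => hpos w (mem_sdiff.1 hw).1 (mem_sdiff.1 hw).2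
    have hu5' := mem_sdiff.1 hu5
    rw [mem_insert, not_or] at hu5'
    have e4 : ev u b u4 (h - r • g) = 1 := by
      rw [ev_sub_smul, h2, hg4]
      ring
    have e5 : ev u b u5 (h - r • g) = 0 := by
      rw [ev_sub_smul, h4]
      ring
    have eR : ∀ i ∈ R, ev u b i (h - r • g) = 0 := by
      intro i hi
      rw [ev_sub_smul, h1 i hi, hgR i hi]
      ring
    have hne : h - r • g ≠ 0 := by
      intro h0
      rw [h0, ev_zero] at e4
      exact one_ne_zero e4.symm
    have hnn : ∀ i ∈ W, 0 ≤ ev u b i (h - r • g) := by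
      intro i hi
      by_cases h6 : i = u4
      · rw [h6, e4]
        exact zero_le_one
      by_cases h7 : i ∈ R
      · rw [eR i h7]
      · rw [ev_sub_smul]
        have := h5 i (mem_sdiff.2 ⟨hi, by rw [mem_insert, not_or]; exact ⟨h6, h7⟩⟩)
        linarith
    refine ⟨insert u4 R, insert u5 R, g, h - r • g, 1, 0, hFg, ⟨insert_subset hu5'.1 hR,
      cF u5 hu5'.2.2, ?_, ?_⟩, subset_insert _ _, subset_insert _ _, ?_, zero_le_one, le_rfl, ?_⟩
    · intro i hi
      rw [mem_insert] at hi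
      rcases hi with rfl | hi
      · exact e5
      · exact eR i hi
    · intro i hi hn
      rw [mem_insert, not_or] at hn
      rcases (hnn i hi).lt_or_eq with h8 | h8
      · exact h8
      · exact absurd (key i hn.2 u5 hu5'.2.2 hn.1 _ hnn eR h8.symm e5) hne
    · intro h6
      have h7 : u4 ∈ insert u5 R := h6 ▸ mem_insert_self u4 R
      rw [mem_insert] at h7
      rcases h7 with h7 | h7
      · exact hu5'.2.1 h7.symm
      · exact hn4 h7
    · rw [one_smul, zero_smul, add_zero]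
  · have hz : ∀ i ∈ W, i ∉ R → ev u b i g ≠ 0 := fun i hi hn h => hz ⟨i, hi, hn, h⟩
    have hpos : ∀ i ∈ W \ R, 0 < ev u b i g := by
      intro i hi
      rw [mem_sdiff] at hi
      exact lt_of_le_of_ne (hgU i hi.1) (hz i hi.1 hi.2).symm
    have hWR : (W \ R).Nonempty := sdiff_ne hs hW (by omega)
    have hg2 := snd_pos hs hg0 (hnS g hgU)
    have hlt : Module.finrank ℝ (Submodule.span ℝ (Set.range fun i : R => u i)) < 4 := by
      have h1 := finrank_range_le_card (R := ℝ) (fun i : R => u i)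
      rw [Set.finrank, Fintype.card_coe] at h1
      omega
    obtain ⟨d, hd0, hd⟩ := exists_orth _ hlt
    set h : E4 × ℝ := (d, 0) with hh
    have h1 : ∀ z ∈ R, ev u b z h = 0 := by
      intro z hz
      rw [hh, ev_dir]
      have := hd ⟨z, hz⟩
      change ⟪u z, d⟫_ℝ = 0 at this
      rw [this, neg_zero]
    have nprop : ∀ r : ℝ, h ≠ r • g := by
      intro r h0
      have a1 : h.2 = r * g.2 := by rw [h0, Prod.smul_snd, smul_eq_mul]
      have a2 : r = 0 := by
        rcases mul_eq_zero.1 a1.symm with a3 | a3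
        · exact a3
        · exact absurd a3 hg2.ne'
      have a3 : h.1 = r • g.1 := by rw [h0, Prod.smul_fst]
      rw [a2, zero_smul] at a3
      exact hd0 a3
    have build : ∀ k : E4 × ℝ, (∀ z ∈ R, ev u b z k = 0) → ∀ r : ℝ, k ≠ r • g → ∀ i ∈ W \ R,
        ev u b i k = r * ev u b i g → (∀ w ∈ W \ R, r * ev u b w g ≤ ev u b w k) →
        Fct u b W (insert i R) (k - r • g) := by
      intro k k1 r kr i hi k4 k5
      have hi' := mem_sdiff.1 hi
      have eR : ∀ z ∈ R, ev u b z (k - r • g) = 0 := by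
        intro z hz
        rw [ev_sub_smul, k1 z hz, hgR z hz]
        ring
      have eu : ev u b i (k - r • g) = 0 := by
        rw [ev_sub_smul, k4]
        ring
      have hnn : ∀ w ∈ W, 0 ≤ ev u b w (k - r • g) := by
        intro w hw
        by_cases h7 : w ∈ R
        · rw [eR w h7]
        · rw [ev_sub_smul]
          have := k5 w (mem_sdiff.2 ⟨hw, h7⟩)
          linarith
      refine ⟨insert_subset hi'.1 hR, cF i hi'.2, ?_, ?_⟩
      · intro z hz
        rw [mem_insert] at hz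
        rcases hz with rfl | hz
        · exact eu
        · exact eR z hz
      · intro w hw hn
        rw [mem_insert, not_or] at hn
        rcases (hnn w hw).lt_or_eq with h8 | h8
        · exact h8
        · exfalso
          exact kr (sub_eq_zero.1 (key w hn.2 i hi'.2 hn.1 _ hnn eR h8.symm eu))
    obtain ⟨r, u4, hu4, h4, h5⟩ := minr hWR (fun w => ev u b w g) (fun w => ev u b w h) hpos
    obtain ⟨s, u5, hu5, h6, h7⟩ := minr hWR (fun w => ev u b w g) (fun w => ev u b w (-h)) hpos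
    have F1 := build h h1 r (nprop r) u4 hu4 h4 h5
    have F2 := build (-h) (fun z hz => by rw [ev_neg, h1 z hz, neg_zero])
      s (fun h0 => nprop (-s) (by rw [neg_smul, ← h0, neg_neg])) u5 hu5 h6 h7
    have hu4' := mem_sdiff.1 hu4
    have hu5' := mem_sdiff.1 hu5
    have hrs : 0 < -(r + s) := by
      by_contra hcon
      rw [not_lt] at hcon
      have hall : ∀ w ∈ W, ev u b w (h - r • g) = 0 := by
        intro w hw
        rw [ev_sub_smul]
        by_cases h8 : w ∈ R
        · rw [h1 w h8, hgR w h8]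
          ring
        · have hw' : w ∈ W \ R := mem_sdiff.2 ⟨hw, h8⟩
          have b1 := h5 w hw'
          have b2 := h7 w hw'
          rw [ev_neg] at b2
          have b3 := hpos w hw'
          have b4 := mul_nonpos_of_nonpos_of_nonneg hcon b3.le
          linarith
      have h9 := zeros hs (h := h - r • g) (fun h0 => nprop r (sub_eq_zero.1 h0))
        (fun i hi => (hall i (hW hi)).ge) (Z := S0) fun i hi => hall i (hW hi)
      have := hs.five
      omega
    refine ⟨insert u4 R, insert u5 R, h - r • g, -h - s • g, 1 / (-(r + s)), 1 / (-(r + s)), F1, F2,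
      subset_insert _ _, subset_insert _ _, ?_, by positivity, by positivity, ?_⟩
    · intro h8
      have h9 : u4 ∈ insert u5 R := h8 ▸ mem_insert_self u4 R
      rw [mem_insert] at h9
      rcases h9 with h9 | h9
      · rw [h9] at h4
        have p5 := hpos u5 hu5
        rw [ev_neg] at h6
        have : (-(r + s)) * ev u b u5 g = 0 := by
          have e1 : r * ev u b u5 g + s * ev u b u5 g = 0 := by rw [← h4, ← h6]; ring
          linarith
        have := mul_pos hrs p5
        linarith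
      · exact hu4'.2 h9
    · have : (1 / (-(r + s))) • (h - r • g) + (1 / (-(r + s))) • (-h - s • g) =
          ((1 / (-(r + s))) * (-(r + s))) • g := by
        rw [← smul_add, mul_smul]
        congr 1
        module
      rw [this, one_div, inv_mul_cancel₀ hrs.ne', one_smul]

end Pool.Agent.F32P.GLoc
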