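import Pool.Agent.F32P.St1

/-!
# F32P: a point on an edge (L3)
-/

set_option autoImplicit false

namespace Pool.Agent.F32P

open Finset
open scoped InnerProductSpace
open QMark (E4 act Poly SP tets faces size Ind)

variable {ι : Type} [Fintype ι] [DecidableEq ι] {u : ι → E4} {b : ι → ℝ}

omit [Fintype ι] [DecidableEq ι] in
private theorem l3_mem_inc {W : Finset ι} {t : Finset {i // i ∈ W}} {i : ι} :
    i ∈ inc W t ↔ ∃ h : i ∈ W, (⟨i, h⟩ : {i // i ∈ W}) ∈ t := by
  rw [inc, mem_map]
  constructor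
  · rintro ⟨⟨j, hj⟩, hjt, rfl⟩
    exact ⟨hj, hjt⟩
  · rintro ⟨h, ht⟩
    exact ⟨⟨i, h⟩, ht, rfl⟩

private theorem l3_act {W : Finset ι} (p : E4) :
    inc W (act (su u W) (sb b W) p) = W.filter fun i => i ∈ act u b p := by
  ext i
  rw [l3_mem_inc, mem_filter, QMark.mem_act]
  constructor
  · rintro ⟨h, hp⟩
    rw [QMark.mem_act] at hp
    exact ⟨h, hp⟩
  · rintro ⟨h, hp⟩
    refine ⟨h, ?_⟩
    rw [QMark.mem_act]
    exact hp

private theorem l3_inc_mono {W : Finset ι} {s t : Finset {i // i ∈ W}} (h : s ⊆ t) :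
    inc W s ⊆ inc W t := by
  intro i hi
  rw [l3_mem_inc] at hi ⊢
  obtain ⟨h1, h2⟩ := hi
  exact ⟨h1, h h2⟩

omit [Fintype ι] [DecidableEq ι] in
private theorem l3_card_inc {W : Finset ι} (t : Finset {i // i ∈ W}) :
    (inc W t).card = t.card := by
  rw [inc, card_map]

/-- at the point of a tet of the subsystem no inequality outside is active -/
private theorem l3_ne {S0 : Finset ι} (h : SG u b S0) {W : Finset ι} {p : E4}
    (h4 : (act (su u W) (sb b W) p).card = 4) {z : ι} (hz : z ∉ W) : ⟪u z, p⟫_ℝ ≠ b z := by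
  intro hc
  have h1 := h.gen p
  have h2 : insert z (inc W (act (su u W) (sb b W) p)) ⊆ act u b p := by
    intro i hi
    rw [mem_insert] at hi
    rcases hi with rfl | hi
    · exact QMark.mem_act.mpr hc
    · rw [l3_act, mem_filter] at hi
      exact hi.2
  have h3 : z ∉ inc W (act (su u W) (sb b W) p) := by
    intro hc
    rw [l3_act, mem_filter] at hc
    exact hz hc.1
  have h5 := card_le_card h2
  rw [card_insert_of_notMem h3, l3_card_inc, h4] at h5
  omega

/-- the facet is seen -/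
private theorem l3_vis {W : Finset ι} {p : E4} {z : ι} (hz : z ∉ W)
    (hp : b z < ⟪u z, p⟫_ℝ) :
    (conf u b).vis z (inc W (act (su u W) (sb b W) p)) := by
  refine ⟨?_, p, ?_, hp⟩
  · intro hc
    rw [l3_act, mem_filter] at hc
    exact hz hc.1
  · intro i hi
    rw [l3_act, mem_filter, QMark.mem_act] at hi
    exact hi.2

theorem g_L3 (h : S_TR) : S_L3 := by
  intro ι _ _ u b S0 hS W hW r hr h3
  obtain ⟨hSP, hFc, -, -, -⟩ := h ι u b S0 hS W hW
  have hrP : r ∈ Poly (su u W) (sb b W) := fun i => hr i.1 i.2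
  have hcard : 3 ≤ (act (su u W) (sb b W) r).card := by
    rw [← l3_card_inc, l3_act]
    exact h3
  have hle := hSP.simple r hrP
  rcases (show (act (su u W) (sb b W) r).card = 4 ∨ (act (su u W) (sb b W) r).card = 3 by omega)
    with h4 | h4
  · have hF : inc W (act (su u W) (sb b W) r) ∈ Fc (conf u b) W :=
      (hFc _).mpr ⟨_, QMark.mem_tets.mpr ⟨h4, r, hrP, rfl⟩, rfl⟩
    refine ⟨_, hF, _, hF, ?_, ?_⟩
    · rw [inter_self, l3_act]
    · intro z hz hbz
      left
      exact l3_vis hz (lt_of_le_of_ne hbz (l3_ne hS h4 hz).symm)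
  · obtain ⟨t, ht, hst⟩ := QMark.exists_tet hSP hrP
    obtain ⟨ht4, p, hp, hpt⟩ := QMark.mem_tets.mp ht
    set s := act (su u W) (sb b W) r with hs
    obtain ⟨d, hd, hds⟩ : ∃ d ∈ t, d ∉ s := by
      by_contra hcon
      push Not at hcon
      have := card_le_card (show t ⊆ s from hcon)
      omega
    have hpa : act (su u W) (sb b W) p = insert d s := by
      rw [hpt]
      symm
      apply eq_of_subset_of_card_le
      · exact insert_subset hd hst
      · rw [ht4, card_insert_of_notMem hds, h4]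
    obtain ⟨q, hq, d', hd', hqa, -⟩ := QMark.edge hSP hp hds h4 hpa
    have hd's : d' ∉ s := fun hc => hd' (mem_insert_of_mem hc)
    have hp4 : (act (su u W) (sb b W) p).card = 4 := by
      rw [hpa, card_insert_of_notMem hds, h4]
    have hq4 : (act (su u W) (sb b W) q).card = 4 := by
      rw [hqa, card_insert_of_notMem hd's, h4]
    have hin : ∀ i ∈ s, ∀ x : E4, act (su u W) (sb b W) x = insert d s ∨
        act (su u W) (sb b W) x = insert d' s ∨ x = r → ⟪su u W i, x⟫_ℝ = sb b W i := by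
      intro i hi x hx
      rcases hx with hx | hx | rfl
      · exact QMark.mem_act.mp (hx ▸ mem_insert_of_mem hi)
      · exact QMark.mem_act.mp (hx ▸ mem_insert_of_mem hi)
      · rw [hs] at hi
        exact QMark.mem_act.mp hi
    have hdp : ⟪su u W d, p⟫_ℝ = sb b W d := QMark.mem_act.mp (hpa ▸ mem_insert_self _ _)
    have hdq : ⟪su u W d, q⟫_ℝ < sb b W d := by
      refine lt_of_le_of_ne (hq d) fun hc => ?_
      have h5 : d ∈ insert d' s := hqa ▸ QMark.mem_act.mpr hc
      rcases mem_insert.mp h5 with h5 | h5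
      · exact hd' (h5 ▸ mem_insert_self _ _)
      · exact hds h5
    have hdr : ⟪su u W d, r⟫_ℝ < sb b W d := by
      refine lt_of_le_of_ne (hrP d) fun hc => ?_
      exact hds (hs ▸ QMark.mem_act.mpr hc)
    have hd'q : ⟪su u W d', q⟫_ℝ = sb b W d' := QMark.mem_act.mp (hqa ▸ mem_insert_self _ _)
    have hd'p : ⟪su u W d', p⟫_ℝ < sb b W d' := by
      refine lt_of_le_of_ne (hp d') fun hc => ?_
      exact hd' (hpa ▸ QMark.mem_act.mpr hc)
    have hd'r : ⟪su u W d', r⟫_ℝ < sb b W d' := by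
      refine lt_of_le_of_ne (hrP d') fun hc => ?_
      exact hd's (hs ▸ QMark.mem_act.mpr hc)
    set τ : ℝ := (sb b W d - ⟪su u W d, r⟫_ℝ) / (sb b W d - ⟪su u W d, q⟫_ℝ) with hτ
    have hden : 0 < sb b W d - ⟪su u W d, q⟫_ℝ := by linarith
    have hτ0 : 0 < τ := div_pos (by linarith) hden
    have hτm : τ * (sb b W d - ⟪su u W d, q⟫_ℝ) = sb b W d - ⟪su u W d, r⟫_ℝ :=
      div_mul_cancel₀ _ hden.ne'
    have hrpq : r = p + τ • (q - p) := by
      have h5 : r - p - τ • (q - p) = 0 := by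
        apply QMark.eq_zero_of_orth hSP hp hp4
        intro i hi
        rw [hpa, mem_insert] at hi
        rw [inner_sub_right, inner_smul_right, inner_sub_right, inner_sub_right]
        rcases hi with rfl | hi
        · rw [hdp]
          linarith
        · rw [hin i hi r (Or.inr (Or.inr rfl)), hin i hi p (Or.inl hpa),
            hin i hi q (Or.inr (Or.inl hqa))]
          ring
      have h6 : r - p = τ • (q - p) := sub_eq_zero.mp h5
      rw [← h6]
      abel
    have hval : ∀ v : E4, ⟪v, r⟫_ℝ = (1 - τ) * ⟪v, p⟫_ℝ + τ * ⟪v, q⟫_ℝ := by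
      intro v
      rw [hrpq, inner_add_right, inner_smul_right, inner_sub_right]
      ring
    have hτ1 : τ < 1 := by
      have h5 := hval (su u W d')
      rw [hd'q] at h5
      rw [h5] at hd'r
      have h6 : 0 < (1 - τ) * (sb b W d' - ⟪su u W d', p⟫_ℝ) := by linarith
      have h7 : 0 < sb b W d' - ⟪su u W d', p⟫_ℝ := by linarith
      have h8 := (mul_pos_iff_of_pos_right h7).mp h6
      linarith
    have hF : inc W (act (su u W) (sb b W) p) ∈ Fc (conf u b) W :=
      (hFc _).mpr ⟨_, QMark.mem_tets.mpr ⟨hp4, p, hp, rfl⟩, rfl⟩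
    have hF' : inc W (act (su u W) (sb b W) q) ∈ Fc (conf u b) W :=
      (hFc _).mpr ⟨_, QMark.mem_tets.mpr ⟨hq4, q, hq, rfl⟩, rfl⟩
    refine ⟨_, hF, _, hF', ?_, ?_⟩
    · rw [← l3_act, ← hs]
      apply subset_inter
      · rw [hpa]
        exact l3_inc_mono (subset_insert _ _)
      · rw [hqa]
        exact l3_inc_mono (subset_insert _ _)
    · intro z hz hbz
      have hpz := l3_ne hS hp4 hz
      by_contra hcon
      rw [not_or] at hcon
      have h5 : ⟪u z, p⟫_ℝ ≤ b z := by
        by_contra hc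
        exact hcon.1 (l3_vis hz (not_le.mp hc))
      have h6 : ⟪u z, q⟫_ℝ ≤ b z := by
        by_contra hc
        exact hcon.2 (l3_vis hz (not_le.mp hc))
      have h7 : ⟪u z, p⟫_ℝ < b z := lt_of_le_of_ne h5 hpz
      rw [hval] at hbz
      have h8 : 0 < (1 - τ) * (b z - ⟪u z, p⟫_ℝ) := mul_pos (by linarith) (by linarith)
      have h9 : 0 ≤ τ * (b z - ⟪u z, q⟫_ℝ) := mul_nonneg hτ0.le (by linarith)
      linarith

end Pool.Agent.F32P
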