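import Pool.Agent.F32P.St1

/-!
# F32P, module G_LM: moving (helper7)
-/

set_option autoImplicit false

namespace Pool.Agent.F32P

open Finset
open scoped InnerProductSpace

open QMark (E4 act Poly SP tets faces size Ind)

private theorem lm_act {ι : Type} [Fintype ι] [DecidableEq ι] {u : ι → E4} {b : ι → ℝ}
    {W : Finset ι} {r : E4} {i : {i // i ∈ W}} :
    i ∈ act (su u W) (sb b W) r ↔ i.1 ∈ act u b r := by
  rw [QMark.mem_act, QMark.mem_act]
  rfl

private theorem lm_poly {ι : Type} [Fintype ι] [DecidableEq ι] {u : ι → E4} {b : ι → ℝ}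
    {W : Finset ι} {r : E4} :
    r ∈ Poly (su u W) (sb b W) ↔ ∀ i ∈ W, ⟪u i, r⟫_ℝ ≤ b i := by
  constructor
  · intro h i hi
    exact h ⟨i, hi⟩
  · intro h i
    exact h i.1 i.2

theorem g_LM (h : S_TR) : S_LM := by
  intro ι _ _ u b S0 hS W hW r hr
  refine ⟨?_, ?_⟩
  · have hW' : S0 ⊆ W ∪ act u b r := hW.trans subset_union_left
    obtain ⟨hSP, -⟩ := h ι u b S0 hS (W ∪ act u b r) hW'
    have hr' : r ∈ Poly (su u (W ∪ act u b r)) (sb b (W ∪ act u b r)) := by
      rw [lm_poly]
      intro i hi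
      rcases mem_union.1 hi with h1 | h1
      · exact hr i h1
      · exact le_of_eq (QMark.mem_act.1 h1)
    have hI := QMark.ind_iff.2 (QMark.indep hSP hr')
    intro c hc i hi
    have hin : inc (W ∪ act u b r)
        (act (su u (W ∪ act u b r)) (sb b (W ∪ act u b r)) r) = act u b r := by
      ext j
      unfold inc
      rw [mem_map]
      constructor
      · rintro ⟨k, hk, rfl⟩
        exact lm_act.1 hk
      · intro hj
        exact ⟨⟨j, mem_union_right _ hj⟩, lm_act.2 hj, rfl⟩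
    have h2 := hI (fun k => c k.1) (by
      rw [← hin] at hc
      unfold inc at hc
      rw [sum_map] at hc
      exact hc)
    exact h2 ⟨i, mem_union_right _ hi⟩ (lm_act.2 hi)
  · intro d hd hd0
    obtain ⟨hSP, -⟩ := h ι u b S0 hS W hW
    obtain ⟨t, ht, hp, j, hj, hj'⟩ := QMark.move hSP (lm_poly.2 hr) hd (by
      intro i hi
      exact le_of_eq (hd0 i.1 i.2 (lm_act.1 hi)))
    refine ⟨t, ht, lm_poly.1 hp, ?_⟩
    rw [ssubset_iff_of_subset]
    · refine ⟨j.1, ?_, ?_⟩
      · rw [mem_filter]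
        exact ⟨j.2, lm_act.1 hj'⟩
      · rw [mem_filter]
        rintro ⟨-, h1⟩
        exact hj (lm_act.2 h1)
    · intro i hi
      rw [mem_filter] at hi ⊢
      refine ⟨hi.1, ?_⟩
      rw [QMark.mem_act, QMark.inner_add_smul, hd0 i hi.1 hi.2, mul_zero, add_zero]
      exact QMark.mem_act.1 hi.2

end Pool.Agent.F32P
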