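import Pool.Agent.F32P.G_Loc
import Pool.Agent.F32P.G_Tr

/-!
# F32P: locality for `conf u b` (helper80)
-/

set_option autoImplicit false

namespace Pool.Agent.F32P

open Finset QMark
open scoped InnerProductSpace

theorem of_conf {ι : Type} [Fintype ι] [DecidableEq ι] (u : ι → E4) (b : ι → ℝ) :
    Of (conf u b) u b := ⟨fun _ => Iff.rfl, fun _ _ => Iff.rfl⟩

/-- **locality.** The triple of the active inequalities at a feasible point is local. -/
theorem g_loc' {ι : Type} [Fintype ι] [DecidableEq ι] {u : ι → E4} {b : ι → ℝ} {S0 : Finset ι}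
    (h4 : ∀ p : E4, (act u b p).card ≤ 4) (h5 : S0.card = 5)
    (hb : Bornology.IsBounded {p : E4 | ∀ i ∈ S0, ⟪u i, p⟫_ℝ ≤ b i})
    {z : Fin 3 → ι} (hz : Function.Injective z) {p0 : E4} (hp0 : p0 ∈ Poly u b)
    (ha : act u b p0 = univ.image z) {W : Finset ι} (hW : S0 ⊆ W)
    (hzW : ∀ j, z j ∉ W) : Loc (conf u b) W z :=
  g_loc (of_conf u b) h4 h5 hb hz hp0 (fun i => by
    rw [← mem_act, ha, mem_image]
    exact ⟨fun ⟨j, _, hj⟩ => ⟨j, hj.symm⟩, fun ⟨j, hj⟩ => ⟨j, mem_univ j, hj.symm⟩⟩) hW hzW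

end Pool.Agent.F32P
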