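import Pool.Agent.F32P.St1

/-!
# F32P, module G_RI: ridges (helper76)
-/

set_option autoImplicit false

namespace Pool.Agent.F32P

open Finset
open scoped InnerProductSpace

open QMark (E4 act Poly SP tets faces size Ind)

private theorem ri_mem {ι : Type} {W : Finset ι} {t : Finset {i // i ∈ W}} {i : {i // i ∈ W}} :
    i.1 ∈ inc W t ↔ i ∈ t := by
  unfold inc
  constructor
  · intro h
    obtain ⟨j, hj, he⟩ := mem_map.1 h
    have : j = i := Subtype.ext he
    exact this ▸ hj
  · intro h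
    exact mem_map.2 ⟨i, h, rfl⟩

private theorem ri_flip {ι : Type} [DecidableEq ι] {W : Finset ι} (t : Finset {i // i ∈ W})
    (d d' : {i // i ∈ W}) :
    inc W (insert d' (t.erase d)) = insert d'.1 ((inc W t).erase d.1) := by
  unfold inc
  rw [map_insert, map_erase]
  rfl

private theorem ri_sub {ι : Type} {W : Finset ι} {t t' : Finset {i // i ∈ W}}
    (h : inc W t ⊆ inc W t') : t ⊆ t' := by
  intro i hi
  exact ri_mem.1 (h (ri_mem.2 hi))

theorem g_RI (h : S_TR) : S_RI := by
  intro ι _ _ u b S0 hS W hW s hs d hd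
  obtain ⟨hSP, hF, -, -, -⟩ := h ι u b S0 hS W hW
  obtain ⟨t, ht, rfl⟩ := (hF s).1 hs
  obtain ⟨d0, hd0, hde⟩ := mem_map.1 hd
  have hde' : d0.1 = d := hde
  subst hde'
  obtain ⟨d', hd', hT, hu⟩ := QMark.tet_flip hSP ht hd0
  refine ⟨d'.1, fun hc => hd' (ri_mem.1 hc), ?_, ?_⟩
  · rw [← ri_flip]
    exact (hF _).2 ⟨_, hT, rfl⟩
  · intro r hr hsub
    obtain ⟨t', ht', rfl⟩ := (hF r).1 hr
    have h1 : t.erase d0 ⊆ t' := by
      apply ri_sub
      intro i hi
      apply hsub
      unfold inc at hi ⊢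
      rw [map_erase] at hi
      exact hi
    rcases hu t' ht' h1 with h2 | h2
    · left
      rw [h2]
    · right
      rw [h2, ri_flip]

end Pool.Agent.F32P
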