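import Pool.Agent.F32P.St1

/-!
# F32P: edge-disjoint triangles (helper55)
-/

set_option autoImplicit false

namespace Pool.Agent.F32P

open Finset
open scoped InnerProductSpace

open QMark (E4 act Poly SP tets faces size Ind)

theorem g_TB (ha : S_AT) (ho : S_OKA) (hf : S_FL) (hl : S_LO) (hg : S_GE) : S_TB := by
  intro hF1
  obtain ⟨m0, hm0⟩ := hf hF1
  obtain ⟨κ, hκ, hκ', Φ, hΦ, hmain⟩ := ha m0
  refine ⟨2 - 3 * κ, by linarith, by linarith, Φ * 216, by positivity, ?_⟩
  intro ι _ _ u b hsp S hS hdis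
  have h3 : ∀ A ∈ S, A.card = 3 := fun A hA => (QMark.mem_faces.1 (hS hA)).1
  have hn0 : (0 : ℝ) ≤ (Fintype.card ι : ℝ) ^ (2 - (2 - 3 * κ)) :=
    Real.rpow_nonneg (Nat.cast_nonneg _) _
  rcases isEmpty_or_nonempty ι with hι | hι
  · have h0 : S = ∅ := by
      rw [eq_empty_iff_forall_notMem]
      intro A hA
      have h1 := h3 A hA
      have h2 : A = ∅ := by
        ext i
        exact (hι.false i).elim
      rw [h2, card_empty] at h1
      omega
    rw [h0, card_empty, Nat.cast_zero]
    positivity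
  obtain ⟨u', b', hSG, hwit⟩ := hg ι u b hsp S hS
  have hord : ∀ A ∈ S, ∃ z : Fin 3 → ι, Function.Injective z ∧ univ.image z = A := by
    intro A hA
    have e := A.equivFinOfCardEq (h3 A hA)
    refine ⟨fun i => (e.symm i : ι), fun i j hij => e.symm.injective (Subtype.ext hij), ?_⟩
    ext x
    simp only [mem_image, mem_univ, true_and]
    exact ⟨fun ⟨i, hi⟩ => hi ▸ (e.symm i).2, fun hx => ⟨e ⟨x, hx⟩, by simp⟩⟩
  choose! zz hz1 hz2 using hord
  have key : ∀ B ∈ S, ∀ k, zz B k ∈ B := fun B hB k => by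
    have := mem_image_of_mem (zz B) (mem_univ k)
    rwa [hz2 B hB] at this
  set T : Finset (Fin 3 → ι ⊕ Fin 5) := S.image (fun A i => Sum.inl (zz A i)) with hT
  have hTc : T.card = S.card := by
    rw [hT]
    apply card_image_of_injOn
    intro A hA A' hA' h
    have h1 : zz A = zz A' := by
      funext i
      exact Sum.inl_injective (congrFun h i)
    rw [← hz2 A hA, ← hz2 A' hA', h1]
  have hinst : Inst (conf u' b') (univ.image Sum.inr) (fun _ => univ) T := by
    refine ⟨fun z hz i => mem_univ _, ?_, ?_⟩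
    · intro i j hij z hz z' hz' hi hj
      obtain ⟨A, hA, rfl⟩ := mem_image.1 hz
      obtain ⟨A', hA', rfl⟩ := mem_image.1 hz'
      have h1 : zz A i = zz A' i := Sum.inl_injective hi
      have h2 : zz A j = zz A' j := Sum.inl_injective hj
      have h4 : A = A' := by
        by_contra hne
        have h5 := hdis A hA A' hA' hne
        have h6 : zz A i ≠ zz A j := fun e => hij (hz1 A hA e)
        have h7 : ({zz A i, zz A j} : Finset ι) ⊆ A ∩ A' := by
          intro x hx
          rw [mem_insert, mem_singleton] at hx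
          rcases hx with hx | hx
          · rw [hx]
            exact mem_inter.2 ⟨key A hA i, h1 ▸ key A' hA' i⟩
          · rw [hx]
            exact mem_inter.2 ⟨key A hA j, h2 ▸ key A' hA' j⟩
        have := card_le_card h7
        rw [card_pair h6] at this
        omega
      rw [h4]
    · intro z hz W hW hzW
      obtain ⟨A, hA, rfl⟩ := mem_image.1 hz
      obtain ⟨p, hp, hact⟩ := hwit A hA
      refine hl (ι ⊕ Fin 5) u' b' _ hSG W hW _ hzW
        (fun i j h => hz1 A hA (Sum.inl_injective h)) ⟨p, ?_, ?_⟩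
      · intro i hi
        refine lt_of_le_of_ne (hp i) fun he => ?_
        have h1 : i ∈ act u' b' p := QMark.mem_act.2 he
        rw [hact, mem_map] at h1
        obtain ⟨a, ha1, ha2⟩ := h1
        rw [← hz2 A hA, mem_image] at ha1
        obtain ⟨k, -, hk⟩ := ha1
        apply hzW k
        have h2 : (Sum.inl (zz A k) : ι ⊕ Fin 5) = i := by
          rw [hk]
          exact ha2
        rw [← h2] at hi
        exact hi
      · intro i
        apply QMark.mem_act.1
        rw [hact, mem_map]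
        exact ⟨zz A i, key A hA i, rfl⟩
  have hm := hmain (ι ⊕ Fin 5) (conf u' b') (univ.image Sum.inr) (ho _ u' b' _ hSG)
    (hm0 _ u' b' _ hSG) (fun _ => univ) T hinst
  rw [hTc] at hm
  have hn1 : (1 : ℝ) ≤ (Fintype.card ι : ℝ) := by
    exact_mod_cast Fintype.card_pos
  have hprod : (∏ _i : Fin 3, ((univ : Finset (ι ⊕ Fin 5)).card : ℝ)) ≤
      (6 * (Fintype.card ι : ℝ)) ^ (3 : ℕ) := by
    rw [prod_const, card_univ, card_univ, Fintype.card_fin, Fintype.card_sum, Fintype.card_fin]
    push_cast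
    gcongr
    linarith
  calc (S.card : ℝ) ≤ Φ * (∏ _i : Fin 3, ((univ : Finset (ι ⊕ Fin 5)).card : ℝ)) ^ κ := hm
    _ ≤ Φ * ((6 * (Fintype.card ι : ℝ)) ^ (3 : ℕ)) ^ κ := by
        gcongr
    _ = Φ * (6 * (Fintype.card ι : ℝ)) ^ (3 * κ) := by
        rw [← Real.rpow_natCast, ← Real.rpow_mul (by positivity)]
        norm_num
    _ = Φ * ((6 : ℝ) ^ (3 * κ) * (Fintype.card ι : ℝ) ^ (3 * κ)) := by
        rw [Real.mul_rpow (by norm_num) (by positivity)]
    _ ≤ Φ * ((6 : ℝ) ^ (3 : ℝ) * (Fintype.card ι : ℝ) ^ (3 * κ)) := by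
        gcongr
        · norm_num
        · linarith
    _ = Φ * 216 * (Fintype.card ι : ℝ) ^ (2 - (2 - 3 * κ)) := by
        rw [show (6 : ℝ) ^ (3 : ℝ) = 216 by
          rw [show (3 : ℝ) = ((3 : ℕ) : ℝ) by norm_num, Real.rpow_natCast]
          norm_num, show 2 - (2 - 3 * κ) = 3 * κ by ring]
        ring

end Pool.Agent.F32P
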