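import Pool.Agent.F32P.St1
import Pool.Agent.QMark.Big

/-!
# F32P, module TR (helper12): transport. Adapted from `G_Tr.lean` (helper40) to the definitions of `St1.lean`.
-/

set_option autoImplicit false

namespace Pool.Agent.F32P

open Finset
open QMark (E4)
open scoped InnerProductSpace

namespace TR

variable {ι : Type} [DecidableEq ι] {u : ι → E4} {b : ι → ℝ}

/-- four independent vectors span the space -/
theorem orth_zero {s : Finset ι} (h4 : s.card = 4) (hi : QMark.Ind u s) {r : E4}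
    (hr : ∀ i ∈ s, ⟪u i, r⟫_ℝ = 0) : r = 0 := by
  have hne : Nonempty s := by
    rw [nonempty_coe_sort, ← card_pos, h4]
    norm_num
  have h1 := (QMark.ind_iff.1 hi).span_eq_top_of_card_eq_finrank (by
    rw [Fintype.card_coe, h4, finrank_euclideanSpace_fin])
  have h2 : r ∈ Submodule.span ℝ (Set.range fun i : s => u i) := by
    rw [h1]
    trivial
  have h3 : ∀ v ∈ Submodule.span ℝ (Set.range fun i : s => u i), ⟪v, r⟫_ℝ = 0 := by
    intro v hv
    induction hv using Submodule.span_induction with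
    | mem x hx =>
      obtain ⟨i, rfl⟩ := hx
      exact hr i.1 i.2
    | zero => exact inner_zero_left _
    | add x y _ _ hx hy => rw [inner_add_left, hx, hy, add_zero]
    | smul a x _ hx => rw [inner_smul_left, hx, mul_zero]
  exact inner_self_eq_zero.mp (h3 r h2)

theorem exists_vertex {s : Finset ι} (hi : QMark.Ind u s) :
    ∃ p : E4, ∀ i ∈ s, ⟪u i, p⟫_ℝ = b i := by
  obtain ⟨v, hv⟩ := QMark.exists_inner (fun i : s => u i) (QMark.ind_iff.1 hi) (fun i => b i)
  exact ⟨v, fun i his => hv ⟨i, his⟩⟩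

section
variable [Fintype ι]

/-- the facets of `W` in terms of points -/
theorem mem_Fc_iff (hact : ∀ p, (QMark.act u b p).card ≤ 4) {W s : Finset ι} :
    s ∈ Fc (conf u b) W ↔ s ⊆ W ∧ s.card = 4 ∧ QMark.Ind u s ∧
      ∃ p : E4, (∀ i ∈ s, ⟪u i, p⟫_ℝ = b i) ∧ ∀ i ∈ W, i ∉ s → ⟪u i, p⟫_ℝ < b i := by
  rw [mem_Fc]
  constructor
  · rintro ⟨h1, h2, h3, h4⟩
    refine ⟨h1, h2, h3, ?_⟩
    obtain ⟨p, hp⟩ := exists_vertex (b := b) h3
    refine ⟨p, hp, fun i hi his => ?_⟩
    have h5 : ¬ b i < ⟪u i, p⟫_ℝ := fun hc => h4 i hi ⟨his, p, hp, hc⟩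
    refine lt_of_le_of_ne (not_lt.1 h5) fun he => ?_
    have h6 : insert i s ⊆ QMark.act u b p := by
      intro j hj
      rw [QMark.mem_act]
      rcases mem_insert.1 hj with rfl | hj
      · exact he
      · exact hp j hj
    have h7 := (card_le_card h6).trans (hact p)
    rw [card_insert_of_notMem his, h2] at h7
    omega
  · rintro ⟨h1, h2, h3, p, hp, hq⟩
    refine ⟨h1, h2, h3, ?_⟩
    rintro x hx ⟨hxs, q, hq1, hq2⟩
    have h5 : q - p = 0 := orth_zero h2 h3 fun i hi => by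
      rw [inner_sub_right, hq1 i hi, hp i hi, sub_self]
    rw [sub_eq_zero.1 h5] at hq2
    exact absurd (hq x hx hxs) (not_lt.2 hq2.le)

end

/-- the inclusion -/
abbrev em (W : Finset ι) : {i // i ∈ W} ↪ ι := Function.Embedding.subtype _

theorem exists_map {W e : Finset ι} (h : e ⊆ W) : ∃ e' : Finset {i // i ∈ W}, e'.map (em W) = e :=
  ⟨e.subtype (· ∈ W), subtype_map_of_mem (p := (· ∈ W)) h⟩

omit [DecidableEq ι] in
theorem map_sub (W : Finset ι) (t : Finset {i // i ∈ W}) : t.map (em W) ⊆ W := by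
  intro i hi
  obtain ⟨j, -, rfl⟩ := mem_map.1 hi
  exact j.2

omit [DecidableEq ι] in
theorem mem_map_em {W : Finset ι} {t : Finset {i // i ∈ W}} {i : ι} (hi : i ∈ W) :
    i ∈ t.map (em W) ↔ (⟨i, hi⟩ : {i // i ∈ W}) ∈ t := by
  rw [mem_map]
  constructor
  · rintro ⟨j, hj, rfl⟩
    exact hj
  · intro h
    exact ⟨_, h, rfl⟩

theorem ind_map {W : Finset ι} {t : Finset {i // i ∈ W}} :
    QMark.Ind u (t.map (em W)) ↔ QMark.Ind (su u W) t := by
  constructor
  · intro h c hc i hi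
    have := h (fun j => if hj : j ∈ W then c ⟨j, hj⟩ else 0) (by
      rw [sum_map, ← hc]
      refine sum_congr rfl fun j _ => ?_
      simp [su, em]) i.1 (mem_map_of_mem (em W) hi)
    simpa using this
  · intro h c hc i hi
    obtain ⟨j, hj, rfl⟩ := mem_map.1 hi
    refine h (fun j => c j) ?_ j hj
    rw [sum_map] at hc
    exact hc

section
variable [Fintype ι]

/-- the restricted system is simple and bounded -/
theorem sp_res (hact : ∀ p, (QMark.act u b p).card ≤ 4) {S0 : Finset ι}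
    (hbd : Bornology.IsBounded {p : E4 | ∀ i ∈ S0, ⟪u i, p⟫_ℝ ≤ b i}) {W : Finset ι}
    (hW : S0 ⊆ W) : QMark.SP (su u W) (sb b W) where
  bdd := hbd.subset fun p hp i hi => hp ⟨i, hW hi⟩
  simple := fun p _ => by
    refine le_trans ?_ (hact p)
    rw [← card_map (em W)]
    refine card_le_card fun i hi => ?_
    obtain ⟨j, hj, rfl⟩ := mem_map.1 hi
    rw [QMark.mem_act] at hj ⊢
    exact hj

/-- **Transport.** The facets of `W` are the vertices of the restricted system. -/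
theorem mem_tets_iff (hact : ∀ p, (QMark.act u b p).card ≤ 4) {S0 : Finset ι}
    (hbd : Bornology.IsBounded {p : E4 | ∀ i ∈ S0, ⟪u i, p⟫_ℝ ≤ b i}) {W : Finset ι}
    (hW : S0 ⊆ W) {t : Finset {i // i ∈ W}} :
    t ∈ QMark.tets (su u W) (sb b W) ↔ t.map (em W) ∈ Fc (conf u b) W := by
  rw [QMark.mem_tets, mem_Fc_iff hact, card_map]
  constructor
  · rintro ⟨h1, p, hp, hpa⟩
    refine ⟨map_sub W t, h1, ?_, p, ?_, ?_⟩
    · rw [ind_map, QMark.ind_iff, ← hpa]
      exact QMark.indep (sp_res hact hbd hW) hp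
    · intro i hi
      obtain ⟨j, hj, rfl⟩ := mem_map.1 hi
      rw [← hpa, QMark.mem_act] at hj
      exact hj
    · intro i hi his
      rw [mem_map_em hi, ← hpa, QMark.mem_act] at his
      exact lt_of_le_of_ne (hp ⟨i, hi⟩) his
  · rintro ⟨-, h1, h2, p, hp, hq⟩
    refine ⟨h1, p, ?_, ?_⟩
    · intro i
      by_cases hi : i ∈ t
      · exact (hp i (mem_map_of_mem (em W) hi)).le
      · exact (hq i i.2 fun hc => hi ((mem_map_em i.2).1 hc)).le
    · ext i
      rw [QMark.mem_act]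
      constructor
      · intro he
        by_contra hi
        exact (hq i i.2 fun hc => hi ((mem_map_em i.2).1 hc)).ne he
      · intro hi
        exact hp i (mem_map_of_mem (em W) hi)

theorem Fc_eq (hact : ∀ p, (QMark.act u b p).card ≤ 4) {S0 : Finset ι}
    (hbd : Bornology.IsBounded {p : E4 | ∀ i ∈ S0, ⟪u i, p⟫_ℝ ≤ b i}) {W : Finset ι}
    (hW : S0 ⊆ W) : Fc (conf u b) W =
      (QMark.tets (su u W) (sb b W)).map (mapEmbedding (em W)).toEmbedding := by
  ext s
  rw [mem_map]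
  constructor
  · intro hs
    obtain ⟨t, rfl⟩ := exists_map (mem_Fc.1 hs).1
    exact ⟨t, (mem_tets_iff hact hbd hW).2 hs, rfl⟩
  · rintro ⟨t, ht, rfl⟩
    exact (mem_tets_iff hact hbd hW).1 ht

/-- the degree is the size -/
theorem dg_eq (hact : ∀ p, (QMark.act u b p).card ≤ 4) {S0 : Finset ι}
    (hbd : Bornology.IsBounded {p : E4 | ∀ i ∈ S0, ⟪u i, p⟫_ℝ ≤ b i}) {W : Finset ι}
    (hW : S0 ⊆ W) (e : Finset {i // i ∈ W}) :
    dg (conf u b) W (e.map (em W)) = QMark.size (su u W) (sb b W) e := by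
  rw [dg, St, Fc_eq hact hbd hW, filter_map, card_map, QMark.size]
  congr 1
  ext t
  simp only [mem_filter, Function.comp_apply]
  refine and_congr_right fun _ => ?_
  exact map_subset_map

/-- the number of the edges of degree different from 4 -/
theorem nonq_eq (hact : ∀ p, (QMark.act u b p).card ≤ 4) {S0 : Finset ι}
    (hbd : Bornology.IsBounded {p : E4 | ∀ i ∈ S0, ⟪u i, p⟫_ℝ ≤ b i}) {W : Finset ι}
    (hW : S0 ⊆ W) : nonq (conf u b) W =
      (QMark.nonq (su u W) (sb b W)).map (mapEmbedding (em W)).toEmbedding := by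
  ext e
  rw [nonq, mem_filter, mem_powersetCard, mem_map]
  constructor
  · rintro ⟨⟨h1, h2⟩, h3, h4⟩
    obtain ⟨e', rfl⟩ := exists_map h1
    refine ⟨e', ?_, rfl⟩
    rw [dg_eq hact hbd hW] at h3 h4
    rw [QMark.nonq, mem_filter, QMark.mem_faces]
    refine ⟨⟨by rw [← h2, card_map], ?_⟩, h4⟩
    obtain ⟨t, ht⟩ := card_pos.1 h3
    exact ⟨t, (mem_filter.1 ht).1, (mem_filter.1 ht).2⟩
  · rintro ⟨e', he, rfl⟩
    rw [QMark.nonq, mem_filter, QMark.mem_faces] at he
    obtain ⟨⟨h1, t, ht, h2⟩, h3⟩ := he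
    refine ⟨⟨map_sub W e', by rw [← h1]; exact card_map _⟩, ?_, ?_⟩
    · change 0 < dg _ _ (e'.map (em W))
      rw [dg_eq hact hbd hW]
      exact card_pos.2 ⟨t, mem_filter.2 ⟨ht, h2⟩⟩
    · change dg _ _ (e'.map (em W)) ≠ 4
      rw [dg_eq hact hbd hW]
      exact h3

end

end TR

open TR in
/-- TR. -/
theorem g_TR : S_TR := by
  intro ι _ _ u b S0 hSG W hW
  have hact := hSG.gen
  have hbd := hSG.bdd
  refine ⟨sp_res hact hbd hW, ?_, ?_, ?_, ?_⟩
  · intro s
    rw [Fc_eq hact hbd hW, mem_map]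
    rfl
  · intro e
    exact dg_eq hact hbd hW e
  · rw [Fc_eq hact hbd hW, card_map]
  · rw [nonq_eq hact hbd hW, map_eq_image]
    rfl

end Pool.Agent.F32P

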