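import Pool.Agent.F32P.Defs
import Pool.Agent.F32.Gen4

/-!
# F32P: statements, part I (geometry)

Systems `⟪u i, p⟫ ≤ b i` of inequalities in `E4` (`QMark`). `SG u b S0`: the five inequalities of `S0` bound
a set, at no point of the whole space five inequalities are active. `conf u b`: the configuration.
Files `Pool/Agent/F32P/G_<name>.lean`, namespace `Pool.Agent.F32P`, theorem
`g_<name> (h : S_Y) .. : S_<name>`.
-/

set_option autoImplicit false

namespace Pool.Agent.F32P

open Finset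
open scoped InnerProductSpace

open QMark (E4 act Poly SP tets faces size Ind)

/-- a system of inequalities in general position, five of them bound a set -/
structure SG {ι : Type} [Fintype ι] [DecidableEq ι] (u : ι → E4) (b : ι → ℝ) (S0 : Finset ι) :
    Prop where
  card0 : S0.card = 5
  bdd : Bornology.IsBounded {p : E4 | ∀ i ∈ S0, ⟪u i, p⟫_ℝ ≤ b i}
  gen : ∀ p : E4, (act u b p).card ≤ 4

/-- the configuration of a system -/
def conf {ι : Type} (u : ι → E4) (b : ι → ℝ) : Conf ι where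
  P s := Ind u s
  vis x s := x ∉ s ∧ ∃ p : E4, (∀ i ∈ s, ⟪u i, p⟫_ℝ = b i) ∧ b x < ⟪u x, p⟫_ℝ

/-- the subsystem `W` -/
def su {ι : Type} (u : ι → E4) (W : Finset ι) : {i // i ∈ W} → E4 := fun i => u i
/-- the right hand sides of the subsystem `W` -/
def sb {ι : Type} (b : ι → ℝ) (W : Finset ι) : {i // i ∈ W} → ℝ := fun i => b i
/-- the inclusion of the subsystem `W` -/
def inc {ι : Type} (W : Finset ι) (t : Finset {i // i ∈ W}) : Finset ι :=
  t.map (Function.Embedding.subtype _)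

/-- **TR.** Transport (uses nothing).
PROOF. (1) `Poly (su u W) (sb b W)` is contained in the bounded set of `SG.bdd`; at most four active inequalities by
`SG.gen` (`inc W (act (su u W) (sb b W) p) ⊆ act u b p`). (2) `s ∈ Fc (conf u b) W`: `s` has four elements, `Ind u s`, so there is
exactly one point `p` with `⟪u i, p⟫ = b i` on `s` (`QMark.exists_inner`, `QMark.ind_iff`; uniqueness as in
`QMark.eq_zero_of_orth`), no `x ∈ W` is violated at `p`, `act` of the subsystem at `p` contains `s` (as a set of the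
subtype) and has at most four elements. Conversely `QMark.indep` for the subsystem. (3) from (2) (`e.map ⊆ t.map ↔ e ⊆ t`).
(4) from (2), `inc W` is injective. (5) from (3): `0 < dg ↔ e ∈ faces _ _ 2`. -/
def S_TR : Prop := ∀ (ι : Type) [Fintype ι] [DecidableEq ι] (u : ι → E4) (b : ι → ℝ)
  (S0 : Finset ι), SG u b S0 → ∀ W, S0 ⊆ W →
  SP (su u W) (sb b W) ∧
  (∀ s, s ∈ Fc (conf u b) W ↔ ∃ t ∈ tets (su u W) (sb b W), inc W t = s) ∧
  (∀ e : Finset {i // i ∈ W}, dg (conf u b) W (inc W e) = size (su u W) (sb b W) e) ∧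
  (Fc (conf u b) W).card = (tets (su u W) (sb b W)).card ∧
  nonq (conf u b) W = (QMark.nonq (su u W) (sb b W)).image (inc W)

/-- **RI.** Ridges (uses TR): `QMark.tet_flip` for the subsystem. -/
def S_RI : Prop := ∀ (ι : Type) [Fintype ι] [DecidableEq ι] (u : ι → E4) (b : ι → ℝ)
  (S0 : Finset ι), SG u b S0 → ∀ W, S0 ⊆ W → ∀ s ∈ Fc (conf u b) W, ∀ d ∈ s,
  ∃ d', d' ∉ s ∧ insert d' (s.erase d) ∈ Fc (conf u b) W ∧
    ∀ t ∈ Fc (conf u b) W, s.erase d ⊆ t → t = s ∨ t = insert d' (s.erase d)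

/-- **CN.** The facets over a pair are connected, for `SP` (uses nothing).
PROOF. Let `g : Gen u b` (`QMark.exists_gen`), `pt t` the point of the tet `t`. Claim: every nonempty `S` which is closed under
neighbours contains a `t` with `t \ e ⊆ g.U t`: take `t ∈ S` with minimal `⟪g.w, pt t⟫`. If `i ∈ t \ e` with `0 < g.c t i`
(`g.c t i ≠ 0`), let `t' = insert d' (t.erase i)` (`QMark.tet_flip`), it contains `e`, `(t ∩ t').card = 3`, so `t' ∈ S`;
`⟪g.w, pt t'⟫ - ⟪g.w, pt t⟫ = ∑_(j ∈ t) g.c t j * (⟪u j, pt t'⟫ - b j) = g.c t i * (⟪u i, pt t'⟫ - b i) < 0` (`QMark.Gen.phi`,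
`i ∉ t'`), a contradiction. If `S` is not everything, the complement is also closed under neighbours (symmetry) and not empty,
and `QMark.Gen.uniq` says that the two tets are equal: contradiction. -/
def S_CN : Prop := ∀ (ι : Type) [Fintype ι] [DecidableEq ι] (u : ι → E4) (b : ι → ℝ), SP u b →
  ∀ e : Finset ι, e.card = 2 → ∀ S ⊆ (tets u b).filter (fun t => e ⊆ t), S.Nonempty →
  (∀ s ∈ S, ∀ t ∈ tets u b, e ⊆ t → (s ∩ t).card = 3 → t ∈ S) →
  S = (tets u b).filter (fun t => e ⊆ t)

/-- **CO.** The facets over a pair are connected (uses TR, CN). -/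
def S_CO : Prop := ∀ (ι : Type) [Fintype ι] [DecidableEq ι] (u : ι → E4) (b : ι → ℝ)
  (S0 : Finset ι), SG u b S0 → ∀ W, S0 ⊆ W → ∀ e : Finset ι, e.card = 2 →
  ∀ S ⊆ St (conf u b) W e, S.Nonempty →
  (∀ s ∈ S, ∀ t ∈ St (conf u b) W e, (s ∩ t).card = 3 → t ∈ S) → S = St (conf u b) W e

/-- **NO.** Counting (uses TR).
PROOF. `QMark.f0_le`, `QMark.faces_two_le`: `f0 ≤ n (n - 1) / 2 + n ≤ n ^ 2`. `norm`: let `t` be a tet of the subsystem which
is not in `QMark.bad .. (big .. D)` (so `Good`: the elements of `big` in `t` are exactly two opposite pairs `e, t \ e`) and not in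
`QMark.nrq .. D` (so every pair in `t` has size 4 or size `≥ D`). Then `NF (conf u b) W D (inc W t)`: the pairs different from
`e, t \ e` are in `faces` but not in `big`, so their size is `< D`, so it is 4. So the number of the not normal facets is at
most `|bad| + |nrq| ≤ 8 n + 5 |nonq| (D - 1) + 90 |big| + |nonq| (D - 1)` (`QMark.partIII`, `QMark.nrq_card`), and
`|big| D ≤ 3 n (n + 1)` (`QMark.big_card`). -/
def S_NO : Prop := ∀ (ι : Type) [Fintype ι] [DecidableEq ι] (u : ι → E4) (b : ι → ℝ)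
  (S0 : Finset ι), SG u b S0 → ∀ W, S0 ⊆ W →
  (Fc (conf u b) W).card ≤ W.card ^ 2 ∧ ∀ D : ℕ, 5 ≤ D →
    open Classical in
    ((Fc (conf u b) W).filter fun s => ¬ NF (conf u b) W D s).card * D ≤
      8 * W.card * D + 6 * (nonq (conf u b) W).card * D ^ 2 + 270 * (W.card * (W.card + 1))

/-- **FL.** Few edges of degree `≠ 4` (uses TR, `G4.StmtF1`). `m0 ε` = the number of `StmtF1` at `ε` (choice; `0` if
`ε ≤ 0`). -/
def S_FL : Prop := Pool.Agent.F32.G4.StmtF1 → ∃ m0 : ℝ → ℕ, ∀ (ι : Type) [Fintype ι]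
  [DecidableEq ι] (u : ι → E4) (b : ι → ℝ) (S0 : Finset ι), SG u b S0 → Flat m0 (conf u b) S0

/-- **L3.** (uses TR) A point on an edge of `Poly W`.
PROOF. Let `A` be the active set of the subsystem `W` at `r`. It has 3 or 4 elements (`SG.gen`). Four: `F = F' = A`;
`⟪u z, r⟫ = b z` is impossible by `SG.gen`. Three: `QMark.exists_tet` gives a tet `F ⊇ A`, `F = insert d A`, with point `p`,
`QMark.edge` the other one `F'`, point `q`; `r ≠ p, q` is on the line through `p, q` (`r - p`, `q - p` are orthogonal to the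
independent `u` on `A`, a space of dimension 1), strictly between them (`⟪u d, r⟫ < b d`, and the same for `d'`, and `p`: `d` active,
`q`: `d'` active): `r = p + τ (q - p)`, `0 < τ < 1`. So `⟪u z, p⟫ ≤ b z` and `⟪u z, q⟫ ≤ b z` would imply `⟪u z, r⟫ ≤ b z`, so `= b z`, so both
are equalities, and then `insert z F` is active at `p`: five elements. So `b z < ⟪u z, p⟫` or `b z < ⟪u z, q⟫`. -/
def S_L3 : Prop := ∀ (ι : Type) [Fintype ι] [DecidableEq ι] (u : ι → E4) (b : ι → ℝ)
  (S0 : Finset ι), SG u b S0 → ∀ W, S0 ⊆ W → ∀ r : E4, (∀ i ∈ W, ⟪u i, r⟫_ℝ ≤ b i) →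
  3 ≤ (W.filter fun i => i ∈ act u b r).card →
  ∃ F ∈ Fc (conf u b) W, ∃ F' ∈ Fc (conf u b) W, (W.filter fun i => i ∈ act u b r) ⊆ F ∩ F' ∧
    ∀ z, z ∉ W → b z ≤ ⟪u z, r⟫_ℝ → (conf u b).vis z F ∨ (conf u b).vis z F'

/-- **LM.** (uses TR) Moving. (1) At every point `r` of `Poly W` the active inequalities (of the whole system) are
independent: `QMark.indep` for the subsystem `W ∪ act u b r`. (2) Moving until a new inequality of `W` is active:
`QMark.move` for the subsystem `W`. -/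
def S_LM : Prop := ∀ (ι : Type) [Fintype ι] [DecidableEq ι] (u : ι → E4) (b : ι → ℝ)
  (S0 : Finset ι), SG u b S0 → ∀ W, S0 ⊆ W → ∀ r : E4, (∀ i ∈ W, ⟪u i, r⟫_ℝ ≤ b i) →
  Ind u (act u b r) ∧
  ∀ d : E4, d ≠ 0 → (∀ i ∈ W, i ∈ act u b r → ⟪u i, d⟫_ℝ = 0) →
    ∃ t : ℝ, 0 < t ∧ (∀ i ∈ W, ⟪u i, r + t • d⟫_ℝ ≤ b i) ∧
      (W.filter fun i => i ∈ act u b r) ⊂ (W.filter fun i => i ∈ act u b (r + t • d))

/-- **LO.** Locality (uses L3, LM).
PROOF. `α z p = ⟪u z, p⟫ - b z`, `J = {z 0, z 1, z 2}`, `K` = the points `p` of `Poly W` with `α (z i) p ≥ 0` for all `i`; `p0 ∈ K`.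
Let `p ∈ K` have the maximal number `t` of active inequalities of `W`; `A` the set of the active ones.
(1) `t ≥ 3`: L3 gives the first case of `Loc`.
(2) If `t ≤ 2`: there is no `d ≠ 0` with `⟪u i, d⟫ = 0` on `A`, `⟪u (z i), d⟫ ≥ 0` for all `i` (LM (2) would give a point of `K` with more
active inequalities). `t ≤ 1`: such a `d` exists: three independent functionals on a space of dimension `≥ 3` take the values
`1, 1, 1`, and dependent ones (or dimension 4) have a common zero `d ≠ 0` orthogonal to `A`: contradiction. So `t = 2`, `e := A`.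
`V` = the space orthogonal to `u` on `A`, dimension 2 (LM (1)); `f_i` = the functional `⟪u (z i), ·⟫` on `V`. Two of them are
independent, e.g. `f_0, f_1`: if `f_0 = λ f_1` or `f_1 = 0`, take `0 ≠ d ∈ V` with `f_0 d = f_1 d = 0` and change the sign such that
`f_2 d ≥ 0` (if `f_0, f_1` are dependent they have a common zero `d ≠ 0` as `dim V = 2`). So `f_2 = - a_0 f_0 - a_1 f_1`; `a_0 > 0`:
otherwise take `d ∈ V` with `f_0 d = 1`, `f_1 d = 0`; similarly `a_1 > 0`; `a_2 := 1`: `∑ a_i f_i = 0`, `a_i > 0`.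
`κ = ∑ a_i α_i` is constant on `p + V`, `κ ≥ 0` at `p`; `κ = 0` would imply that all `z i` are active at `p`, together with `A` five
elements. So `κ > 0`: at every point of `p + V` some `α_i > 0`: every `F ∈ St W e` is seen by some `z i` (its point is in `p + V`).
`St W e` is not empty: `QMark.exists_tet` for the subsystem, or (3).
(3) Let `l ∈ p + V` be the point with `α_i l = α_j l = 0` (`i ≠ j`; `f_i, f_j` are independent on `V`); `α_k l = κ / a_k > 0`. `l ∈ Poly W`,
with `W`-active set exactly `A`: otherwise the segment from `p` to `l` (all of its points have `α ≥ 0`) contains a point of `Poly W` with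
a new active inequality of `W` (`LM` (2) with `d = l - p`; if `l = p` nothing to do; `t ≤ 1`, all the `α` are `≥ 0` on the segment), this
is a point of `K` with `≥ 3` active inequalities of `W`: contradiction to the maximality. Let `d ∈ V` with `f_i d = f_j d = 1`. LM (2) from `l` in
direction `d`: a point `r = l + t d` of `Poly W` with at least three active inequalities of `W`, `A` among them, `α_i r > 0`,
`α_j r > 0`. L3 gives `F, F' ⊇ A`, `3 ≤ |F ∩ F'|`, seen as required. The case `i = j`: use any `k ≠ i` (take the pair `i, k`). -/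
def S_LO : Prop := ∀ (ι : Type) [Fintype ι] [DecidableEq ι] (u : ι → E4) (b : ι → ℝ)
  (S0 : Finset ι), SG u b S0 → ∀ W, S0 ⊆ W → ∀ z : Fin 3 → ι, (∀ i, z i ∉ W) →
  Function.Injective z → (∃ p0 : E4, (∀ i ∈ W, ⟪u i, p0⟫_ℝ < b i) ∧
    ∀ i, ⟪u (z i), p0⟫_ℝ = b (z i)) → Loc (conf u b) W z

/-- **GE.** General position (uses nothing).
PROOF. As `QMark.reduce` (its proof shows that no point of the whole space has five active inequalities), the bounded set: as
`QMark.bdd_simplex`. The witnesses for `𝒜`: `QMark.wit_of_mem`. -/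
def S_GE : Prop := ∀ (ι : Type) [Fintype ι] [DecidableEq ι] (u : ι → E4) (b : ι → ℝ), SP u b →
  ∀ 𝒜 ⊆ faces u b 3, ∃ (u' : ι ⊕ Fin 5 → E4) (b' : ι ⊕ Fin 5 → ℝ),
    SG u' b' (univ.image Sum.inr) ∧
    ∀ A ∈ 𝒜, ∃ p ∈ Poly u' b', act u' b' p = A.map Function.Embedding.inl

/-- the configurations of the systems have the properties `OK` (assembly of RI, CO, NO) -/
def S_OKA : Prop := ∀ (ι : Type) [Fintype ι] [DecidableEq ι] (u : ι → E4) (b : ι → ℝ)
  (S0 : Finset ι), SG u b S0 → OK (conf u b) S0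

/-- **TB.** Edge-disjoint triangles (uses `S_AT`, OKA, FL, LO, GE, `G4.StmtF1`).
PROOF. `m0` from FL, `κ, Φ` from `S_AT`, `c = 2 - 3 κ`, `C = Φ * 216`. `ι` empty: `S` is empty. Let `u', b'` be as in GE for `S`.
`T` = one ordering `z : Fin 3 → ι ⊕ Fin 5` for every `A ∈ S` (`z` injective with image `A.map inl`), `X i = univ`, `K = conf u' b'`,
`S0 = univ.image inr`. `Inst`: `inj`: two triples with two common entries (at the same places `i ≠ j`) have
`|A ∩ A'| ≥ 2`, so `A = A'`, so they are equal. `loc`: LO with the point `p` of GE (`act u' b' p` = the image of `z`; the others are strict, in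
particular all the elements of `W`). `|S| = |T| ≤ Φ ((n + 5)^3)^κ ≤ Φ (6 n)^(3 κ) ≤ Φ * 216 * n^(3 κ)` (`3 κ ≤ 2 < 3`, `6^(3 κ) ≤ 216`). -/
def S_TB : Prop := Pool.Agent.F32.G4.StmtF1 → ∃ c : ℝ, 0 < c ∧ c < 2 ∧ ∃ C : ℝ, 0 < C ∧
  ∀ (ι : Type) [Fintype ι] [DecidableEq ι] (u : ι → E4) (b : ι → ℝ), SP u b →
  ∀ S ⊆ faces u b 3, (∀ s ∈ S, ∀ s' ∈ S, s ≠ s' → (s ∩ s').card ≤ 1) →
  (S.card : ℝ) ≤ C * (Fintype.card ι : ℝ) ^ (2 - c)

end Pool.Agent.F32P
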