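import Pool.Agent.F32P.St1
import Pool.Agent.F32.HSt
import Pool.Agent.F32.HandB
import Pool.Agent.F32.HandA

/-!
# F32P: statements, part V (from edge-disjoint triangles to all 4-polytopes)

Files `Pool/Agent/F32P/E_<name>.lean`, namespace `Pool.Agent.F32P`, theorem `e_<name> (h : S_Y) .. : S_<name>`.
-/

set_option autoImplicit false

namespace Pool.Agent.F32P

open Finset
open scoped InnerProductSpace

open QMark (E4 act Poly SP tets faces size Ind)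
open Pool.Agent.F32.G4 (P4 tf kv vts)

/-- edge-disjoint triangles of a simple 4-polytope (conclusion of `S_TB`) -/
def PT : Prop := ∃ c : ℝ, 0 < c ∧ c < 2 ∧ ∃ C : ℝ, 0 < C ∧
  ∀ (ι : Type) [Fintype ι] [DecidableEq ι] (u : ι → E4) (b : ι → ℝ), SP u b →
  ∀ S ⊆ faces u b 3, (∀ s ∈ S, ∀ s' ∈ S, s ≠ s' → (s ∩ s').card ≤ 1) →
  (S.card : ℝ) ≤ C * (Fintype.card ι : ℝ) ^ (2 - c)

/-- simple case: 2-faces which are not 4-gons, and large 2-faces, with one threshold `D` -/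
def PF1 : Prop := ∃ c : ℝ, 0 < c ∧ c < 1 ∧ ∃ C : ℝ, 0 < C ∧
  ∀ (ι : Type) [Fintype ι] [DecidableEq ι], 1 ≤ Fintype.card ι → ∃ D : ℕ, 5 ≤ D ∧
  ∀ (u : ι → E4) (b : ι → ℝ), SP u b →
  (D : ℝ) * ((QMark.nonq u b).card : ℝ) ≤ C * (Fintype.card ι : ℝ) ^ (2 - c) ∧
  ((QMark.big u b D).card : ℝ) ≤ C * (Fintype.card ι : ℝ) ^ (2 - c)

/-- **PF1.** (uses nothing but `QMark`, `F32/Fin2.lean`)
PROOF. Let `c, C` be as in `PT`, `c' = c / 4`. For every `D ≥ 1` (`F32/Fin2.lean`, the proof of `t_F1`: `greedy`, `few_le`,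
`pair_le`, `QMark.partI`, `QMark.big_card`):
`|nonq| ≤ 4 n + 14 * 24 * D * |S| + 257 |big D|`, `|S| ≤ C n^(2 - c)`, `|big D| ≤ 3 n (n + 1) / D ≤ 6 n^2 / D`.
With `D1 = ⌈n^(2 c')⌉ + 5` : `|nonq| ≤ C1 n^(2 - 2 c')`. With `D = ⌈n^(c')⌉ + 5 ≤ 7 n^(c')`: `D |nonq| ≤ C n^(2 - c')`,
`|big D| ≤ 6 n^(2 - c')`. (`c' < 1`.) -/
def S_PF1 : Prop := PT → PF1

/-- all 4-polytopes: 2-faces -/
def PF2 : Prop := ∃ c : ℝ, 0 < c ∧ ∃ C : ℝ, 0 < C ∧ ∀ (ι : Type) [Fintype ι] [DecidableEq ι]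
  (u : ι → E4) (b : ι → ℝ), P4 u b →
  (((tf u b).filter fun e => kv u b e = 3 ∨ 5 ≤ kv u b e).card : ℝ) ≤
    C * (Fintype.card ι : ℝ) ^ (2 - c)

/-- all 4-polytopes: vertices -/
def PF3 : Prop := ∃ c : ℝ, 0 < c ∧ ∃ C : ℝ, 0 < C ∧ ∀ (ι : Type) [Fintype ι] [DecidableEq ι]
  (u : ι → E4) (b : ι → ℝ), P4 u b →
  (((vts u b).filter fun s => 5 ≤ s.card).card : ℝ) ≤ C * (Fintype.card ι : ℝ) ^ (2 - c)

/-- **PFIN.** (uses nothing) As `H4.t_Fin` (`F32/H_Fin.lean`): the two counts are at most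
`168 n + 31 D |nonq u b2| + 588 |big u b2 D|`. (`Fintype.card ι = 0`: `P4` is impossible, the empty system is not bounded.)
The closed theorems for the hypotheses: `H4.near`, `H4.t_F3c ..`, `H4.t_F2c ..` as in `F32/Final.lean`. -/
def S_PFIN : Prop := Pool.Agent.F32.H4.S_Near → Pool.Agent.F32.H4.S_F3c →
  Pool.Agent.F32.H4.S_F2c → PF1 → PF2 ∧ PF3

/-- hand-in form for MP_502e5d_co -/
def PHA : Prop := ∃ c : ℝ, 0 < c ∧ ∃ C : ℝ, ∀ (n : ℕ) (u : Fin n → QMark.E4) (b : Fin n → ℝ),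
  TCC.IsPoly4 u b →
    (({e : Fin n × Fin n | e.1 < e.2 ∧
      Module.finrank ℝ (vectorSpan ℝ (TCC.Facet u b e.1 ∩ TCC.Facet u b e.2)) = 2 ∧
      (Set.extremePoints ℝ (TCC.Facet u b e.1 ∩ TCC.Facet u b e.2)).ncard ≠ 4} :
        Set (Fin n × Fin n)).ncard : ℝ) ≤ C * (n : ℝ) ^ (2 - c)

/-- hand-in form for MP_f8fadf_co -/
def PHB : Prop := ∃ c : ℝ, 0 < c ∧ ∃ C : ℝ, ∀ (n : ℕ) (S P : Set QMark.E4),
    S.Finite → affineSpan ℝ S = ⊤ → P = convexHull ℝ S → (P.extremePoints ℝ).encard = n →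
    ∃ N : ℕ, {F : Set QMark.E4 | (IsExposed ℝ P F ∧ Module.finrank ℝ (vectorSpan ℝ F) = 3) ∧
      (F.extremePoints ℝ).encard ≠ 4}.encard = N ∧ (N : ℝ) ≤ C * (n : ℝ) ^ (2 - c)

/-- **PHA.** (uses nothing) As `HandA.main`. -/
def S_PHA : Prop := PF2 → Pool.Agent.F32.G4.StmtKv3 → PHA

/-- **PHB.** (uses nothing) As `HandB.main`. (Small `n`: `n ≥ 5` because `affineSpan ℝ S = ⊤`.) -/
def S_PHB : Prop := PF3 → PHB

end Pool.Agent.F32P
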